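import Mathlib

/-! Friends of 10: elementary facts, invariants of factor chains, a checker and its soundness. -/

namespace Pool.Agent.Lib.MP_c8748f_nt

open ArithmeticFunction

/-- the sum of divisors -/
abbrev sg (n : ℕ) : ℕ := sigma 1 n

theorem sg_eq (n : ℕ) : sg n = ∑ d ∈ n.divisors, d := sigma_one_apply n

theorem sg_mul {a b : ℕ} (h : Nat.Coprime a b) : sg (a * b) = sg a * sg b :=
  isMultiplicative_sigma.map_mul_of_coprime h

/-- the abundancy index is monotone along divisibility -/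
theorem sg_mono (d k : ℕ) (hd : d ≠ 0) (hk : k ≠ 0) : sg d * k ≤ sg (d * k) := by
  rw [sg_eq, sg_eq, Finset.sum_mul]
  have h1 : ∑ t ∈ d.divisors, t * k = ∑ t ∈ d.divisors.image (fun t => t * k), t := by
    rw [Finset.sum_image]
    intro a _ b _ hab
    exact Nat.eq_of_mul_eq_mul_right (Nat.pos_of_ne_zero hk) hab
  rw [h1]
  apply Finset.sum_le_sum_of_subset
  intro t ht
  obtain ⟨u, hu, rfl⟩ := Finset.mem_image.1 ht
  rw [Nat.mem_divisors] at hu ⊢
  exact ⟨Nat.mul_dvd_mul_right hu.1 k, mul_ne_zero hd hk⟩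

/-- strict version -/
theorem sg_mono_strict (d k : ℕ) (hd : d ≠ 0) (hk : 1 < k) : sg d * k < sg (d * k) := by
  have hk0 : k ≠ 0 := by omega
  rw [sg_eq, sg_eq, Finset.sum_mul]
  have h1 : ∑ t ∈ d.divisors, t * k = ∑ t ∈ d.divisors.image (fun t => t * k), t := by
    rw [Finset.sum_image]
    intro a _ b _ hab
    exact Nat.eq_of_mul_eq_mul_right (by omega) hab
  rw [h1]
  refine Finset.sum_lt_sum_of_subset (i := 1) ?_ ?_ ?_ ?_ ?_
  · intro t ht
    obtain ⟨u, hu, rfl⟩ := Finset.mem_image.1 ht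
    rw [Nat.mem_divisors] at hu ⊢
    exact ⟨Nat.mul_dvd_mul_right hu.1 k, mul_ne_zero hd hk0⟩
  · exact Nat.one_mem_divisors.2 (mul_ne_zero hd hk0)
  · intro h
    obtain ⟨u, _, hu⟩ := Finset.mem_image.1 h
    have := Nat.eq_one_of_mul_eq_one_left hu
    omega
  · exact Nat.one_pos
  · intros; exact Nat.zero_le _

theorem sg_pos {n : ℕ} (hn : n ≠ 0) : 0 < sg n := by
  rw [sg_eq]
  exact Finset.sum_pos (fun d hd => Nat.pos_of_mem_divisors hd) ⟨1, Nat.one_mem_divisors.2 hn⟩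

/-- the prime power component -/
abbrev pp (m p : ℕ) : ℕ := p ^ m.factorization p

/-- data of a friend of 10 -/
structure Fr (m : ℕ) : Prop where
  pos : m ≠ 0
  ne : m ≠ 10
  eq : 5 * sg m = 9 * m

theorem pp_dvd_sg {m : ℕ} (hm : m ≠ 0) (S : Finset ℕ) (hS : S ⊆ m.primeFactors) :
    (∏ p ∈ S, sg (pp m p)) = sg (∏ p ∈ S, pp m p) ∧ (∏ p ∈ S, pp m p) ∣ m ∧
    sg (∏ p ∈ S, pp m p) ∣ sg m := by
  have h0 : ∀ T : Finset ℕ, T ⊆ m.primeFactors →
      (∏ p ∈ T, sg (pp m p)) = sg (∏ p ∈ T, pp m p) := by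
    intro T
    induction T using Finset.induction_on with
    | empty => intro _; simp [sg]
    | insert a T ha ih =>
      intro hT
      rw [Finset.insert_subset_iff] at hT
      rw [Finset.prod_insert ha, Finset.prod_insert ha, ih hT.2, sg_mul]
      apply Nat.Coprime.prod_right
      intro q hq
      have hqp := Nat.prime_of_mem_primeFactors (hT.2 hq)
      have hap := Nat.prime_of_mem_primeFactors hT.1
      apply Nat.Coprime.pow
      rw [Nat.coprime_primes hap hqp]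
      rintro rfl
      exact ha hq
  have hall : (∏ p ∈ m.primeFactors, pp m p) = m := by
    exact Nat.prod_factorization_pow_eq_self hm
  have h1 : (∏ p ∈ m.primeFactors \ S, pp m p) * (∏ p ∈ S, pp m p) = m := by
    rw [Finset.prod_sdiff hS, hall]
  have h2 : (∏ p ∈ m.primeFactors \ S, sg (pp m p)) * (∏ p ∈ S, sg (pp m p)) = sg m := by
    rw [Finset.prod_sdiff hS, h0 _ (Finset.Subset.refl _), hall]
  refine ⟨h0 S hS, ⟨_, by rw [mul_comm]; exact h1.symm⟩, ?_⟩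
  rw [← h0 S hS]
  exact ⟨_, by rw [mul_comm]; exact h2.symm⟩

/-- lower bound for the abundancy index -/
def Ab (m : ℕ) (S : Finset ℕ) (A B : ℕ) : Prop :=
  S ⊆ m.primeFactors ∧ A * ∏ p ∈ S, pp m p ≤ B * ∏ p ∈ S, sg (pp m p)

/-- divisibility of the sum of divisors -/
def Dv (m : ℕ) (S : Finset ℕ) (P : ℕ) : Prop := S ⊆ m.primeFactors ∧ P ∣ ∏ p ∈ S, sg (pp m p)

theorem Dv.dvd {m : ℕ} (hm : m ≠ 0) {S : Finset ℕ} {P : ℕ} (h : Dv m S P) : P ∣ sg m := by
  obtain ⟨h1, _, h3⟩ := pp_dvd_sg hm S h.1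
  exact (h1 ▸ h.2).trans h3

theorem Ab.le {m : ℕ} (hf : Fr m) {S : Finset ℕ} {A B : ℕ} (h : Ab m S A B) :
    5 * A ≤ 9 * B := by
  obtain ⟨h1, h2, _⟩ := pp_dvd_sg hf.pos S h.1
  obtain ⟨hS, hAB⟩ := h
  rw [h1] at hAB
  set Q := ∏ p ∈ S, pp m p with hQ
  obtain ⟨k, hk⟩ := h2
  have hQ0 : Q ≠ 0 := by
    rintro h0
    apply hf.pos
    rw [hk, h0, zero_mul]
  have hk0 : k ≠ 0 := by
    rintro h0
    apply hf.pos
    rw [hk, h0, mul_zero]
  have h3 := sg_mono Q k hQ0 hk0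
  rw [← hk] at h3
  have h4 : 5 * sg Q * k ≤ 9 * Q * k := by
    calc 5 * sg Q * k = 5 * (sg Q * k) := by ring
      _ ≤ 5 * sg m := Nat.mul_le_mul_left 5 h3
      _ = 9 * m := hf.eq
      _ = 9 * Q * k := by rw [hk]; ring
  have h5 : 5 * sg Q ≤ 9 * Q := Nat.le_of_mul_le_mul_right h4 (Nat.pos_of_ne_zero hk0)
  have h6 : 5 * A * Q ≤ 9 * B * Q := by
    calc 5 * A * Q = 5 * (A * Q) := by ring
      _ ≤ 5 * (B * sg Q) := Nat.mul_le_mul_left 5 hAB
      _ = B * (5 * sg Q) := by ring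
      _ ≤ B * (9 * Q) := Nat.mul_le_mul_left B h5
      _ = 9 * B * Q := by ring
  exact Nat.le_of_mul_le_mul_right h6 (Nat.pos_of_ne_zero hQ0)

theorem Ab.step {m : ℕ} {S : Finset ℕ} {A B q x y : ℕ} (h : Ab m S A B)
    (hq : q ∈ m.primeFactors) (hqS : q ∉ S) (hxy : x * pp m q ≤ y * sg (pp m q)) :
    Ab m (insert q S) (A * x) (B * y) := by
  refine ⟨Finset.insert_subset hq h.1, ?_⟩
  rw [Finset.prod_insert hqS, Finset.prod_insert hqS]
  calc A * x * (pp m q * ∏ p ∈ S, pp m p) = (x * pp m q) * (A * ∏ p ∈ S, pp m p) := by ring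
    _ ≤ (y * sg (pp m q)) * (B * ∏ p ∈ S, sg (pp m p)) := Nat.mul_le_mul hxy h.2
    _ = B * y * (sg (pp m q) * ∏ p ∈ S, sg (pp m p)) := by ring

theorem Dv.step {m : ℕ} {S : Finset ℕ} {P q x : ℕ} (h : Dv m S P)
    (hq : q ∈ m.primeFactors) (hqS : q ∉ S) (hx : x ∣ sg (pp m q)) :
    Dv m (insert q S) (P * x) := by
  refine ⟨Finset.insert_subset hq h.1, ?_⟩
  rw [Finset.prod_insert hqS, mul_comm P x]
  exact Nat.mul_dvd_mul hx h.2

theorem sg_pow {p : ℕ} (hp : p.Prime) (k : ℕ) : sg (p ^ k) = ∑ j ∈ Finset.range (k + 1), p ^ j := by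
  rw [sg_eq, Nat.sum_divisors_prime_pow hp]

/-- the number 1 + q + ... + q^(r-1) -/
def ph (r q : ℕ) : ℕ := (q ^ r - 1) / (q - 1)

theorem ph_eq {r q : ℕ} (hq : 2 ≤ q) : ph r q = ∑ j ∈ Finset.range r, q ^ j := by
  rw [ph, Nat.geomSum_eq hq]

theorem ph_sg {r q : ℕ} (hq : q.Prime) : ph (r + 1) q = sg (q ^ r) := by
  rw [ph_eq hq.two_le, sg_pow hq]

/-- lower bound of the abundancy index of a prime power -/
theorem ab_pow {m q k : ℕ} (hq : q.Prime) (hk : k ≤ m.factorization q) :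
    ph (k + 1) q * pp m q ≤ q ^ k * sg (pp m q) := by
  rw [ph_sg hq]
  obtain ⟨j, hj⟩ := Nat.exists_eq_add_of_le hk
  have h := sg_mono (q ^ k) (q ^ j) (pow_ne_zero _ hq.ne_zero) (pow_ne_zero _ hq.ne_zero)
  rw [← pow_add, ← hj] at h
  have h1 : pp m q = q ^ k * q ^ j := by rw [pp, hj, pow_add]
  calc sg (q ^ k) * pp m q = q ^ k * (sg (q ^ k) * q ^ j) := by rw [h1]; ring
    _ ≤ q ^ k * sg (pp m q) := Nat.mul_le_mul_left _ h

theorem geom_dvd {q r n : ℕ} (h : r ∣ n) :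
    (∑ j ∈ Finset.range r, q ^ j) ∣ ∑ j ∈ Finset.range n, q ^ j := by
  obtain ⟨k, rfl⟩ := h
  induction k with
  | zero => simp
  | succ k ih =>
    rw [Nat.mul_succ, Finset.sum_range_add]
    apply Nat.dvd_add ih
    refine ⟨q ^ (r * k), ?_⟩
    rw [Finset.sum_mul]
    apply Finset.sum_congr rfl
    intro j _
    rw [pow_add, mul_comm]

theorem ph_dvd {m r q : ℕ} (hq : q.Prime) (h : r ∣ m.factorization q + 1) :
    ph r q ∣ sg (pp m q) := by
  rw [ph_eq hq.two_le, sg_pow hq]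
  exact geom_dvd h

/-! Elementary facts. -/

theorem sg_dvd_of_mem {m p : ℕ} (hm : m ≠ 0) (hp : p ∈ m.primeFactors) : sg (pp m p) ∣ sg m := by
  have h := pp_dvd_sg hm {p} (by simpa using hp)
  simpa using h.2.2

theorem Fr.five {m : ℕ} (hf : Fr m) : 5 ∣ m := by
  have h : 5 ∣ 9 * m := ⟨_, hf.eq.symm⟩
  exact (Nat.Coprime.dvd_mul_left (by norm_num)).1 h

theorem Fr.odd {m : ℕ} (hf : Fr m) : ¬ 2 ∣ m := by
  intro h2
  have h10 : 10 ∣ m := by
    have := Nat.Coprime.mul_dvd_of_dvd_of_dvd (by norm_num : Nat.Coprime 2 5) h2 hf.five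
    simpa using this
  obtain ⟨k, hk⟩ := h10
  have hk1 : 1 < k := by
    rcases Nat.lt_or_ge 1 k with h | h
    · exact h
    · interval_cases k
      · exact absurd hk hf.pos
      · exact absurd hk hf.ne
  have h1 := sg_mono_strict 10 k (by norm_num) hk1
  rw [← hk] at h1
  have h18 : sg 10 = 18 := by decide +kernel
  rw [h18] at h1
  have := hf.eq
  omega

theorem Fr.sg_odd {m : ℕ} (hf : Fr m) : ¬ 2 ∣ sg m := by
  intro h
  have h1 := hf.odd
  have h2 := hf.eq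
  omega

theorem Fr.two_le {m p : ℕ} (hf : Fr m) (hp : p ∈ m.primeFactors) : 2 ≤ m.factorization p := by
  have hpp := Nat.prime_of_mem_primeFactors hp
  have h0 : m.factorization p ≠ 0 := by
    rw [← Nat.support_factorization] at hp
    exact Finsupp.mem_support_iff.1 hp
  by_contra h
  have h1 : m.factorization p = 1 := by omega
  have h2 := sg_dvd_of_mem hf.pos hp
  rw [pp, h1, sg_pow hpp] at h2
  simp only [Finset.sum_range_succ, Finset.range_zero, Finset.sum_empty, pow_zero, pow_one,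
    zero_add] at h2
  have h3 : p ≠ 2 := by
    rintro rfl
    exact hf.odd (Nat.dvd_of_mem_primeFactors hp)
  have h4 : p % 2 = 1 := hpp.eq_two_or_odd.resolve_left h3
  exact hf.sg_odd ((by omega : 2 ∣ 1 + p).trans h2)

theorem Fr.mem_of_dvd {m q : ℕ} (hf : Fr m) (hq : q.Prime) (h3 : q ≠ 3) (h : q ∣ sg m) :
    q ∈ m.primeFactors := by
  rw [Nat.mem_primeFactors]
  refine ⟨hq, ?_, hf.pos⟩
  have h1 : q ∣ 9 * m := by
    rw [← hf.eq]
    exact h.mul_left 5
  rcases (Nat.Prime.dvd_mul hq).1 h1 with h2 | h2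
  · exfalso
    apply h3
    have h4 : q ∣ 3 ^ 2 := by simpa using h2
    exact (Nat.prime_dvd_prime_iff_eq hq Nat.prime_three).1 (hq.dvd_of_dvd_pow h4)
  · exact h2

theorem ab_empty (m : ℕ) : Ab m ∅ 1 1 := ⟨by simp, by simp⟩

theorem dv_empty (m : ℕ) : Dv m ∅ 1 := ⟨by simp, by simp⟩

theorem Fr.five_mem {m : ℕ} (hf : Fr m) : 5 ∈ m.primeFactors := by
  rw [Nat.mem_primeFactors]
  exact ⟨by norm_num, hf.five, hf.pos⟩

theorem Fr.three {m : ℕ} (hf : Fr m) : ¬ 3 ∣ m := by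
  intro h3
  have hm3 : 3 ∈ m.primeFactors := by
    rw [Nat.mem_primeFactors]
    exact ⟨by norm_num, h3, hf.pos⟩
  have hm5 := hf.five_mem
  have e3 := hf.two_le hm3
  have e5 := hf.two_le hm5
  -- step with exponents k3, k5
  have key : ∀ k3 k5 : ℕ, k3 ≤ m.factorization 3 → k5 ≤ m.factorization 5 →
      5 * (ph (k3 + 1) 3 * ph (k5 + 1) 5) ≤ 9 * (3 ^ k3 * 5 ^ k5) := by
    intro k3 k5 h1 h2
    have a1 := (ab_empty m).step hm3 (by simp) (ab_pow Nat.prime_three h1)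
    have a2 := a1.step hm5 (by simp) (ab_pow Nat.prime_five h2)
    have := a2.le hf
    simpa using this
  have f3 : m.factorization 3 = 2 := by
    by_contra hne
    have h := key 3 2 (by omega) e5
    revert h
    decide
  have f5 : m.factorization 5 = 2 := by
    by_contra hne
    have h := key 2 3 e3 (by omega)
    revert h
    decide
  have h13 : 13 ∣ sg m := by
    have h := sg_dvd_of_mem hf.pos hm3
    rw [pp, f3] at h
    have h13 : sg (3 ^ 2) = 13 := by decide +kernel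
    rwa [h13] at h
  have hm13 := hf.mem_of_dvd (by norm_num) (by norm_num) h13
  have a1 := (ab_empty m).step hm3 (by simp) (ab_pow Nat.prime_three e3)
  have a2 := a1.step hm5 (by simp) (ab_pow Nat.prime_five e5)
  have a3 := a2.step hm13 (by simp) (ab_pow (k := 2) (by norm_num) (hf.two_le hm13))
  have := a3.le hf
  revert this
  decide

/-- powers of primes dividing the sum of divisors -/
theorem Fr.pow_dvd {m q k : ℕ} (hf : Fr m) (hq : q.Prime) (h3 : q ≠ 3) (h : q ^ k ∣ sg m) :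
    k ≤ m.factorization q := by
  have h1 : q ^ k ∣ 9 * m := by
    rw [← hf.eq]
    exact h.mul_left 5
  have h2 : Nat.Coprime (q ^ k) 9 := by
    apply Nat.Coprime.pow_left
    rw [show (9 : ℕ) = 3 ^ 2 by norm_num]
    apply Nat.Coprime.pow_right
    exact (Nat.coprime_primes hq Nat.prime_three).2 h3
  exact (hq.pow_dvd_iff_le_factorization hf.pos).1 (h2.dvd_of_dvd_mul_left h1)

theorem Fr.five_pow_dvd {m k : ℕ} (hf : Fr m) (h : 5 ^ k ∣ sg m) :
    k + 1 ≤ m.factorization 5 := by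
  have h1 : 5 ^ (k + 1) ∣ 9 * m := by
    rw [← hf.eq, pow_succ, mul_comm]
    exact Nat.mul_dvd_mul_left 5 h
  have h2 : Nat.Coprime (5 ^ (k + 1)) 9 := by
    apply Nat.Coprime.pow_left
    norm_num
  exact (Nat.prime_five.pow_dvd_iff_le_factorization hf.pos).1 (h2.dvd_of_dvd_mul_left h1)

theorem Fr.twentyseven {m : ℕ} (hf : Fr m) : ¬ 27 ∣ sg m := by
  intro h
  have h1 := hf.eq
  apply hf.three
  omega

end Pool.Agent.Lib.MP_c8748f_nt
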