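import Pool.Agent.Lib.MP_c8748f_nt.Base

/-! The checker for factor chain trees and its soundness; primality certificates. -/

namespace Pool.Agent.Lib.MP_c8748f_nt

/-- modular power by repeated squaring, with fuel -/
def pm (m : ℕ) : ℕ → ℕ → ℕ → ℕ
  | 0, _, _ => 1 % m
  | f + 1, a, e =>
    bif Nat.beq (e % 2) 0 then pm m f (a * a % m) (e / 2)
    else a * pm m f (a * a % m) (e / 2) % m

theorem pm_eq (m : ℕ) : ∀ (f a e : ℕ), e < 2 ^ f → pm m f a e = a ^ e % m := by
  intro f
  induction f with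
  | zero =>
    intro a e he
    have : e = 0 := by simpa using he
    subst this
    simp [pm]
  | succ f ih =>
    intro a e he
    have h2 : e / 2 < 2 ^ f := by
      rw [pow_succ] at he
      omega
    have h3 := Nat.div_add_mod e 2
    have h4 : (a * a % m) ^ (e / 2) % m = a ^ (2 * (e / 2)) % m := by
      rw [← Nat.pow_mod, ← pow_two, ← pow_mul]
    rw [pm, ih _ _ h2]
    rcases Nat.mod_two_eq_zero_or_one e with h | h
    · rw [h]
      have h7 : Nat.beq 0 0 = true := rfl
      simp only [h7, cond_true]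
      rw [h4]
      congr 2
      omega
    · rw [h]
      have h7 : Nat.beq 1 0 = false := rfl
      simp only [h7, cond_false]
      rw [h4]
      have h6 : a ^ e = a * a ^ (2 * (e / 2)) := by
        conv_lhs => rw [← h3, h, pow_succ]
        ring
      rw [h6, Nat.mul_mod a (a ^ (2 * (e / 2)) % m) m, Nat.mod_mod, ← Nat.mul_mod]

/-- checker for a Lucas certificate; the list contains pairs (prime, multiplicity) -/
def lc (p a : ℕ) (l : List (ℕ × ℕ)) : Bool :=
  Nat.blt 1 p && Nat.blt p (2 ^ 64) &&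
    Nat.beq (p - 1) (l.foldr (fun x acc => x.1 ^ x.2 * acc) 1) &&
    Nat.beq (pm p 64 a (p - 1)) 1 &&
    l.all (fun x => !(Nat.beq (pm p 64 a ((p - 1) / x.1)) 1))

theorem prime_dvd_foldr {q : ℕ} (hq : q.Prime) (l : List (ℕ × ℕ))
    (h : q ∣ l.foldr (fun x acc => x.1 ^ x.2 * acc) 1) : ∃ x ∈ l, q ∣ x.1 := by
  induction l with
  | nil => simp at h; exact absurd h hq.one_lt.ne'
  | cons a l ih =>
    simp only [List.foldr_cons] at h
    rcases hq.dvd_mul.1 h with h | h
    · exact ⟨a, List.mem_cons_self, hq.dvd_of_dvd_pow h⟩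
    · obtain ⟨x, hx, h⟩ := ih h
      exact ⟨x, List.mem_cons_of_mem _ hx, h⟩

theorem lc_prime (p a : ℕ) (l : List (ℕ × ℕ)) (hl : ∀ x ∈ l, x.1.Prime) (h : lc p a l = true) :
    p.Prime := by
  unfold lc at h
  simp only [Bool.and_eq_true, List.all_eq_true, Nat.blt_eq, Nat.beq_eq] at h
  obtain ⟨⟨⟨⟨h1, hf⟩, hp⟩, ha⟩, hd⟩ := h
  rw [pm_eq _ _ _ _ (by omega)] at ha
  have hd' : ∀ x ∈ l, a ^ ((p - 1) / x.1) % p ≠ 1 := by
    intro x hx
    have h2 := hd x hx
    rw [pm_eq _ _ _ _ (lt_of_le_of_lt (Nat.div_le_self _ _) (by omega))] at h2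
    intro h3
    rw [h3] at h2
    simp at h2
  have : Fact (1 < p) := ⟨h1⟩
  have key : ∀ k : ℕ, ((a : ZMod p) ^ k = 1 ↔ a ^ k % p = 1) := by
    intro k
    have h2 : ((a : ZMod p) ^ k = 1) ↔ (((a ^ k : ℕ) : ZMod p) = ((1 : ℕ) : ZMod p)) := by
      push_cast
      exact Iff.rfl
    rw [h2, ZMod.natCast_eq_natCast_iff]
    unfold Nat.ModEq
    rw [Nat.mod_eq_of_lt h1]
  refine lucas_primality p (a : ZMod p) ((key _).2 ha) ?_
  intro q hq hqd
  rw [Ne, key]
  rw [hp] at hqd
  obtain ⟨r, hr, hqr⟩ := prime_dvd_foldr hq l hqd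
  rw [(Nat.prime_dvd_prime_iff_eq hq (hl r hr)).1 hqr]
  exact hd' r hr

/-- search trees of numbers -/
inductive BT : Type
  | lf : BT
  | nd (l : BT) (p : ℕ) (r : BT) : BT

/-- membership test -/
def BT.mem : BT → ℕ → Bool
  | .lf, _ => false
  | .nd l p r, x => bif Nat.blt x p then l.mem x else bif Nat.beq x p then true else r.mem x

/-- in-order list -/
def BT.toL : BT → List ℕ → List ℕ
  | .lf, acc => acc
  | .nd l p r, acc => l.toL (p :: r.toL acc)

theorem BT.mem_toL : ∀ (t : BT) (acc : List ℕ) (x : ℕ), x ∈ acc ∨ t.mem x = true → x ∈ t.toL acc := by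
  intro t
  induction t with
  | lf => intro acc x h; simpa [BT.mem, BT.toL] using h
  | nd l p r ihl ihr =>
    intro acc x h
    rw [BT.toL]
    apply ihl
    rcases h with h | h
    · left
      exact List.mem_cons_of_mem _ (ihr _ _ (Or.inl h))
    · rw [BT.mem] at h
      cases h1 : Nat.blt x p with
      | true =>
        rw [h1, cond_true] at h
        exact Or.inr h
      | false =>
        rw [h1, cond_false] at h
        left
        cases h2 : Nat.beq x p with
        | true =>
          rw [Nat.beq_eq] at h2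
          rw [h2]
          exact List.mem_cons_self
        | false =>
          rw [h2, cond_false] at h
          exact List.mem_cons_of_mem _ (ihr _ _ (Or.inr h))

/-- entries of the table of primes: prime, primitive root, factorization of p - 1 -/
abbrev En := ℕ × ℕ × List (ℕ × ℕ)

/-- one entry -/
def enOk (T : BT) (e : En) : Bool :=
  Nat.beq e.1 2 || (lc e.1 e.2.1 e.2.2 && e.2.2.all (fun x => T.mem x.1 && Nat.blt x.1 e.1))

/-- equality of lists of keys -/
def eqL : List ℕ → List En → Bool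
  | [], [] => true
  | a :: l, e :: m => Nat.beq a e.1 && eqL l m
  | _, _ => false

theorem eqL_eq : ∀ (l : List ℕ) (E : List En), eqL l E = true → l = E.map (fun e => e.1) := by
  intro l
  induction l with
  | nil => intro E h; cases E with
    | nil => rfl
    | cons => simp [eqL] at h
  | cons a l ih => intro E h; cases E with
    | nil => simp [eqL] at h
    | cons e E =>
      simp only [eqL, Bool.and_eq_true, Nat.beq_eq] at h
      rw [List.map_cons, h.1, ih E h.2]

theorem table (T : BT) (E : List En) (h1 : eqL (T.toL []) E = true)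
    (h2 : E.all (enOk T) = true) : ∀ p, T.mem p = true → p.Prime := by
  intro p
  induction p using Nat.strong_induction_on with
  | _ p ih =>
    intro hp
    have h3 := T.mem_toL [] p (Or.inr hp)
    rw [eqL_eq _ _ h1] at h3
    obtain ⟨e, he, rfl⟩ := List.mem_map.1 h3
    have h4 := List.all_eq_true.1 h2 e he
    rw [enOk, Bool.or_eq_true, Bool.and_eq_true, List.all_eq_true] at h4
    rcases h4 with h4 | ⟨h4, h5⟩
    · rw [Nat.beq_eq] at h4
      rw [h4]
      exact Nat.prime_two
    · refine lc_prime _ _ _ ?_ h4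
      intro x hx
      have h6 := h5 x hx
      rw [Bool.and_eq_true, Nat.blt_eq] at h6
      exact ih x.1 h6.2 h6.1

/-- factor chain trees -/
inductive Tr : Type
  | T : Tr
  | X (q : ℕ) : Tr
  | A (l : List ℕ) : Tr
  | N (q : ℕ) (a b : Tr) : Tr

/-- membership in a list -/
def mm (q : ℕ) : List ℕ → Bool
  | [] => false
  | a :: l => Nat.beq q a || mm q l

theorem mm_iff (q : ℕ) (l : List ℕ) : mm q l = true ↔ q ∈ l := by
  induction l with
  | nil => simp [mm]
  | cons a l ih => rw [mm, Bool.or_eq_true, ih, Nat.beq_eq, List.mem_cons]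

/-- leaf of abundancy -/
def ckA (T : BT) (P : ℕ) : List ℕ → ℕ → ℕ → List ℕ → Bool
  | _, A, B, [] => Nat.blt (9 * B) (5 * A)
  | ks, A, B, q :: l => T.mem q && !(Nat.beq q 3) && Nat.beq (P % q) 0 && !(mm q ks) &&
      ckA T P (q :: ks) (A * (q * q + q + 1)) (B * (q * q)) l

/-- the checker; xs: primes with exponent R - 1; us: primes with exponent 2 mod 3 -/
def ck (R : ℕ) (T : BT) : List ℕ → List ℕ → ℕ → ℕ → Tr → Bool
  | _, _, P, _, .T => Nat.beq (P % 27) 0
  | xs, _, P, _, .X q => mm q xs &&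
      (bif Nat.beq q 5 then Nat.beq (P % 5 ^ (R - 1)) 0 else
        (!(Nat.beq q 3) && Nat.beq (P % q ^ R) 0))
  | xs, us, P, B, .A l => ckA T P (xs ++ us) P B l
  | xs, us, P, B, .N q a b => T.mem q && !(Nat.beq q 3) && Nat.beq (P % q) 0 &&
      !(mm q xs) && !(mm q us) &&
      ck R T xs (q :: us) (P * (q * q + q + 1)) (B * (q * q)) a &&
      ck R T (q :: xs) us (P * ph R q) (B * q ^ (R - 1)) b

/-- the complete check: the prime 5 is treated at the root -/
def ckRoot (R : ℕ) (T : BT) (a b : Tr) : Bool :=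
  ck R T [] [5] 31 25 a && ck R T [5] [] (ph R 5) (5 ^ (R - 1)) b

theorem not_true_iff {b : Bool} : (!b) = true ↔ ¬ b = true := by cases b <;> simp

theorem ckA_sound {m : ℕ} (hf : Fr m) (T : BT) (hT : ∀ p, T.mem p = true → p.Prime) (P : ℕ)
    (hP : P ∣ sg m) : ∀ (l ks : List ℕ) (A B : ℕ), Ab m ks.toFinset A B →
    ckA T P ks A B l = true → False := by
  intro l
  induction l with
  | nil =>
    intro ks A B h hc
    rw [ckA, Nat.blt_eq] at hc
    have := h.le hf
    omega
  | cons q l ih =>
    intro ks A B h hc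
    simp only [ckA, Bool.and_eq_true, not_true_iff, Nat.beq_eq, mm_iff] at hc
    obtain ⟨⟨⟨⟨h1, h2⟩, h3⟩, h4⟩, h5⟩ := hc
    have hq := hT q h1
    have hqm := hf.mem_of_dvd hq h2 ((Nat.dvd_of_mod_eq_zero h3).trans hP)
    refine ih (q :: ks) _ _ ?_ h5
    rw [List.toFinset_cons]
    have hph : ph (2 + 1) q = q * q + q + 1 := by
      rw [ph_eq hq.two_le]
      simp only [Finset.sum_range_succ, Finset.range_zero, Finset.sum_empty, pow_zero, pow_one,
        zero_add]
      ring
    have h6 := ab_pow hq (hf.two_le hqm)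
    rw [hph, pow_two] at h6
    exact h.step hqm (by simpa using h4) h6

theorem ck_sound {m R : ℕ} (hf : Fr m) (hR : 2 ≤ R) (T : BT) (hT : ∀ p, T.mem p = true → p.Prime)
    (hE : ∀ p ∈ m.primeFactors, m.factorization p % 3 = 2 ∨ m.factorization p = R - 1) :
    ∀ (t : Tr) (xs us : List ℕ) (P B : ℕ), (∀ q ∈ xs, m.factorization q = R - 1 ∧ q.Prime) →
    Ab m (xs ++ us).toFinset P B → Dv m (xs ++ us).toFinset P →
    ck R T xs us P B t = true → False := by
  intro t
  induction t with
  | T =>
    intro xs us P B _ _ hD hc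
    rw [ck, Nat.beq_eq] at hc
    exact hf.twentyseven ((Nat.dvd_of_mod_eq_zero hc).trans (hD.dvd hf.pos))
  | X q =>
    intro xs us P B hx _ hD hc
    rw [ck, Bool.and_eq_true, mm_iff] at hc
    obtain ⟨h1, h2⟩ := hc
    obtain ⟨h3, hq⟩ := hx q h1
    have hdv := hD.dvd hf.pos
    cases h4 : Nat.beq q 5 with
    | true =>
      rw [h4, cond_true, Nat.beq_eq] at h2
      rw [Nat.beq_eq] at h4
      subst h4
      have := hf.five_pow_dvd ((Nat.dvd_of_mod_eq_zero h2).trans hdv)
      omega
    | false =>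
      rw [h4, cond_false, Bool.and_eq_true, not_true_iff, Nat.beq_eq, Nat.beq_eq] at h2
      have := hf.pow_dvd hq h2.1 ((Nat.dvd_of_mod_eq_zero h2.2).trans hdv)
      omega
  | A l =>
    intro xs us P B _ hA hD hc
    rw [ck] at hc
    exact ckA_sound hf T hT P (hD.dvd hf.pos) l _ _ _ hA hc
  | N q a b iha ihb =>
    intro xs us P B hx hA hD hc
    simp only [ck, Bool.and_eq_true, not_true_iff, Nat.beq_eq, mm_iff] at hc
    obtain ⟨⟨⟨⟨⟨⟨h1, h2⟩, h3⟩, h4⟩, h5⟩, h6⟩, h7⟩ := hc
    have hq := hT q h1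
    have hqm := hf.mem_of_dvd hq h2 ((Nat.dvd_of_mod_eq_zero h3).trans (hD.dvd hf.pos))
    have hqS : q ∉ (xs ++ us).toFinset := by
      simp [h4, h5]
    rcases hE q hqm with h | h
    · have hph : ph (2 + 1) q = q * q + q + 1 := by
        rw [ph_eq hq.two_le]
        simp only [Finset.sum_range_succ, Finset.range_zero, Finset.sum_empty, pow_zero, pow_one,
          zero_add]
        ring
      have h8 := ab_pow hq (hf.two_le hqm)
      rw [hph, pow_two] at h8
      have h9 : ph (2 + 1) q ∣ sg (pp m q) := ph_dvd hq (by omega)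
      rw [hph] at h9
      have h10 : (xs ++ q :: us).toFinset = insert q (xs ++ us).toFinset := by
        ext x; simp
      refine iha xs (q :: us) _ _ hx ?_ ?_ h6
      · rw [h10]; exact hA.step hqm hqS h8
      · rw [h10]; exact hD.step hqm hqS h9
    · have h8 := ab_pow hq (le_of_eq h.symm)
      have h11 : R - 1 + 1 = R := by omega
      rw [h11] at h8
      have h9 : ph R q ∣ sg (pp m q) := ph_dvd hq (by rw [h, h11])
      have h10 : ((q :: xs) ++ us).toFinset = insert q (xs ++ us).toFinset := by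
        ext x; simp
      refine ihb (q :: xs) us _ _ ?_ ?_ ?_ h7
      · intro y hy
        rcases List.mem_cons.1 hy with rfl | hy
        · exact ⟨h, hq⟩
        · exact hx y hy
      · rw [h10]; exact hA.step hqm hqS h8
      · rw [h10]; exact hD.step hqm hqS h9

/-- soundness of the complete check -/
theorem ckRoot_sound {m R : ℕ} (hf : Fr m) (hR : 2 ≤ R) (T : BT)
    (hT : ∀ p, T.mem p = true → p.Prime)
    (hE : ∀ p ∈ m.primeFactors, m.factorization p % 3 = 2 ∨ m.factorization p = R - 1)
    (a b : Tr) (ha : ck R T [] [5] 31 25 a = true)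
    (hb : ck R T [5] [] (ph R 5) (5 ^ (R - 1)) b = true) : False := by
  have h5 := hf.five_mem
  have hq := Nat.prime_five
  rcases hE 5 h5 with h | h
  · have hph : ph (2 + 1) 5 = 31 := by decide
    have h8 := ab_pow hq (hf.two_le h5)
    rw [hph] at h8
    have h9 : ph (2 + 1) 5 ∣ sg (pp m 5) := ph_dvd hq (by omega)
    rw [hph] at h9
    refine ck_sound hf hR T hT hE a [] [5] 31 25 (by simp) ?_ ?_ ha
    · simpa using (ab_empty m).step h5 (by simp) h8
    · simpa using (dv_empty m).step h5 (by simp) h9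
  · have h8 := ab_pow hq (le_of_eq h.symm)
    have h11 : R - 1 + 1 = R := by omega
    rw [h11] at h8
    have h9 : ph R 5 ∣ sg (pp m 5) := ph_dvd hq (by rw [h, h11])
    refine ck_sound hf hR T hT hE b [5] [] _ _ (by simpa using ⟨h, hq⟩) ?_ ?_ hb
    · simpa using (ab_empty m).step h5 (by simp) h8
    · simpa using (dv_empty m).step h5 (by simp) h9

end Pool.Agent.Lib.MP_c8748f_nt
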