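import Pool.Agent.Lib.MP_c8748f_nt.Check

/-! Table of primes with Lucas certificates (generated). -/

namespace Pool.Agent.Lib.MP_c8748f_nt

/-- the primes used -/
def TF : BT :=
(.nd (.nd (.nd (.nd (.nd (.nd (.nd (.nd (.nd (.nd (.nd .lf 2 .lf) 3 .lf) 5 (.nd .lf 7 .lf)) 11
(.nd (.nd .lf 13 .lf) 17 (.nd .lf 19 .lf))) 23 (.nd (.nd (.nd .lf 29 .lf) 31 (.nd .lf 37 .lf))
41 (.nd (.nd .lf 43 .lf) 47 (.nd .lf 53 .lf)))) 59 (.nd (.nd (.nd (.nd .lf 61 .lf) 67 (.nd .lf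
71 .lf)) 73 (.nd (.nd .lf 79 .lf) 83 (.nd .lf 89 .lf))) 97 (.nd (.nd (.nd .lf 101 .lf) 103 (.nd
.lf 107 .lf)) 109 (.nd (.nd .lf 113 .lf) 127 (.nd .lf 131 .lf))))) 137 (.nd (.nd (.nd (.nd (.nd
.lf 139 .lf) 149 (.nd .lf 151 .lf)) 157 (.nd (.nd .lf 163 .lf) 167 (.nd .lf 173 .lf))) 179 (.nd
(.nd (.nd .lf 181 .lf) 191 (.nd .lf 193 .lf)) 197 (.nd (.nd .lf 199 .lf) 211 (.nd .lf 223
.lf)))) 227 (.nd (.nd (.nd (.nd .lf 229 .lf) 233 (.nd .lf 239 .lf)) 241 (.nd (.nd .lf 251 .lf)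
257 (.nd .lf 263 .lf))) 269 (.nd (.nd (.nd .lf 271 .lf) 277 (.nd .lf 281 .lf)) 283 (.nd (.nd .lf
293 .lf) 307 (.nd .lf 311 .lf)))))) 313 (.nd (.nd (.nd (.nd (.nd (.nd .lf 317 .lf) 331 (.nd .lf
337 .lf)) 347 (.nd (.nd .lf 349 .lf) 353 (.nd .lf 359 .lf))) 367 (.nd (.nd (.nd .lf 373 .lf) 379
(.nd .lf 389 .lf)) 397 (.nd (.nd .lf 401 .lf) 409 (.nd .lf 419 .lf)))) 421 (.nd (.nd (.nd (.nd
.lf 431 .lf) 433 (.nd .lf 439 .lf)) 443 (.nd (.nd .lf 449 .lf) 457 (.nd .lf 461 .lf))) 463 (.nd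
(.nd (.nd .lf 467 .lf) 479 (.nd .lf 487 .lf)) 491 (.nd (.nd .lf 499 .lf) 509 (.nd .lf 521
.lf))))) 523 (.nd (.nd (.nd (.nd (.nd .lf 541 .lf) 547 (.nd .lf 557 .lf)) 563 (.nd (.nd .lf 571
.lf) 577 (.nd .lf 587 .lf))) 593 (.nd (.nd (.nd .lf 601 .lf) 607 (.nd .lf 613 .lf)) 619 (.nd
(.nd .lf 631 .lf) 641 (.nd .lf 643 .lf)))) 647 (.nd (.nd (.nd (.nd .lf 661 .lf) 683 (.nd .lf 691
.lf)) 701 (.nd (.nd .lf 709 .lf) 719 (.nd .lf 739 .lf))) 743 (.nd (.nd (.nd .lf 751 .lf) 761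
(.nd .lf 769 .lf)) 773 (.nd (.nd .lf 787 .lf) 797 (.nd .lf 809 .lf))))))) 811 (.nd (.nd (.nd
(.nd (.nd (.nd (.nd .lf 821 .lf) 823 (.nd .lf 829 .lf)) 839 (.nd (.nd .lf 853 .lf) 857 (.nd .lf
859 .lf))) 877 (.nd (.nd (.nd .lf 881 .lf) 883 (.nd .lf 887 .lf)) 907 (.nd (.nd .lf 911 .lf) 929
(.nd .lf 937 .lf)))) 941 (.nd (.nd (.nd (.nd .lf 947 .lf) 953 (.nd .lf 971 .lf)) 983 (.nd (.nd
.lf 991 .lf) 997 (.nd .lf 1009 .lf))) 1013 (.nd (.nd (.nd .lf 1021 .lf) 1031 (.nd .lf 1039 .lf))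
1049 (.nd (.nd .lf 1051 .lf) 1061 (.nd .lf 1063 .lf))))) 1087 (.nd (.nd (.nd (.nd (.nd .lf 1091
.lf) 1093 (.nd .lf 1097 .lf)) 1103 (.nd (.nd .lf 1129 .lf) 1151 (.nd .lf 1153 .lf))) 1163 (.nd
(.nd (.nd .lf 1171 .lf) 1181 (.nd .lf 1201 .lf)) 1213 (.nd (.nd .lf 1229 .lf) 1231 (.nd .lf 1237
.lf)))) 1249 (.nd (.nd (.nd (.nd .lf 1259 .lf) 1277 (.nd .lf 1283 .lf)) 1291 (.nd (.nd .lf 1297
.lf) 1301 (.nd .lf 1321 .lf))) 1361 (.nd (.nd (.nd .lf 1381 .lf) 1399 (.nd .lf 1409 .lf)) 1423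
(.nd (.nd .lf 1429 .lf) 1433 (.nd .lf 1447 .lf)))))) 1451 (.nd (.nd (.nd (.nd (.nd (.nd .lf 1471
.lf) 1481 (.nd .lf 1483 .lf)) 1493 (.nd (.nd .lf 1511 .lf) 1531 (.nd .lf 1543 .lf))) 1549 (.nd
(.nd (.nd .lf 1553 .lf) 1567 (.nd .lf 1579 .lf)) 1597 (.nd (.nd .lf 1601 .lf) 1607 (.nd .lf 1609
.lf)))) 1613 (.nd (.nd (.nd (.nd .lf 1627 .lf) 1699 (.nd .lf 1709 .lf)) 1721 (.nd (.nd .lf 1723
.lf) 1777 (.nd .lf 1783 .lf))) 1801 (.nd (.nd (.nd .lf 1831 .lf) 1861 (.nd .lf 1867 .lf)) 1871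
(.nd (.nd .lf 1877 .lf) 1879 (.nd .lf 1889 .lf))))) 1907 (.nd (.nd (.nd (.nd (.nd .lf 1931 .lf)
1951 (.nd .lf 1973 .lf)) 1979 (.nd (.nd .lf 1987 .lf) 2003 (.nd .lf 2011 .lf))) 2017 (.nd (.nd
(.nd .lf 2027 .lf) 2069 (.nd .lf 2083 .lf)) 2087 (.nd (.nd .lf 2111 .lf) 2129 (.nd .lf 2131
.lf)))) 2137 (.nd (.nd (.nd (.nd .lf 2141 .lf) 2143 (.nd .lf 2161 .lf)) 2203 (.nd (.nd .lf 2221
.lf) 2251 (.nd .lf 2281 .lf))) 2371 (.nd (.nd (.nd .lf 2383 .lf) 2389 (.nd .lf 2411 .lf)) 2441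
(.nd (.nd .lf 2549 .lf) 2557 (.nd .lf 2593 .lf)))))))) 2657 (.nd (.nd (.nd (.nd (.nd (.nd (.nd
(.nd (.nd .lf 2663 .lf) 2689 .lf) 2711 (.nd .lf 2713 .lf)) 2731 (.nd (.nd .lf 2741 .lf) 2753
(.nd .lf 2791 .lf))) 2801 (.nd (.nd (.nd .lf 2803 .lf) 2819 (.nd .lf 2833 .lf)) 2851 (.nd (.nd
.lf 2857 .lf) 2903 (.nd .lf 2917 .lf)))) 2939 (.nd (.nd (.nd (.nd .lf 3001 .lf) 3037 (.nd .lf
3061 .lf)) 3083 (.nd (.nd .lf 3121 .lf) 3163 (.nd .lf 3169 .lf))) 3181 (.nd (.nd (.nd .lf 3187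
.lf) 3191 (.nd .lf 3221 .lf)) 3251 (.nd (.nd .lf 3259 .lf) 3271 (.nd .lf 3299 .lf))))) 3301 (.nd
(.nd (.nd (.nd (.nd .lf 3361 .lf) 3371 (.nd .lf 3373 .lf)) 3413 (.nd (.nd .lf 3511 .lf) 3527
(.nd .lf 3541 .lf))) 3571 (.nd (.nd (.nd .lf 3631 .lf) 3673 (.nd .lf 3691 .lf)) 3709 (.nd (.nd
.lf 3761 .lf) 3767 (.nd .lf 3797 .lf)))) 3851 (.nd (.nd (.nd (.nd .lf 3863 .lf) 4007 (.nd .lf
4051 .lf)) 4099 (.nd (.nd .lf 4129 .lf) 4159 (.nd .lf 4231 .lf))) 4261 (.nd (.nd (.nd .lf 4271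
.lf) 4349 (.nd .lf 4421 .lf)) 4447 (.nd (.nd .lf 4513 .lf) 4591 (.nd .lf 4643 .lf)))))) 4751
(.nd (.nd (.nd (.nd (.nd (.nd .lf 4813 .lf) 4831 (.nd .lf 4909 .lf)) 4933 (.nd (.nd .lf 4951
.lf) 4999 (.nd .lf 5021 .lf))) 5059 (.nd (.nd (.nd .lf 5101 .lf) 5107 (.nd .lf 5113 .lf)) 5189
(.nd (.nd .lf 5233 .lf) 5279 (.nd .lf 5303 .lf)))) 5351 (.nd (.nd (.nd (.nd .lf 5419 .lf) 5471
(.nd .lf 5477 .lf)) 5527 (.nd (.nd .lf 5581 .lf) 5623 (.nd .lf 5639 .lf))) 5791 (.nd (.nd (.nd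
.lf 5827 .lf) 6007 (.nd .lf 6011 .lf)) 6079 (.nd (.nd .lf 6091 .lf) 6101 (.nd .lf 6131 .lf)))))
6163 (.nd (.nd (.nd (.nd (.nd .lf 6173 .lf) 6247 (.nd .lf 6257 .lf)) 6271 (.nd (.nd .lf 6329
.lf) 6367 (.nd .lf 6379 .lf))) 6529 (.nd (.nd (.nd .lf 6577 .lf) 6599 (.nd .lf 6661 .lf)) 6679
(.nd (.nd .lf 6701 .lf) 6733 (.nd .lf 6761 .lf)))) 6781 (.nd (.nd (.nd (.nd .lf 6803 .lf) 6841
(.nd .lf 6911 .lf)) 7057 (.nd (.nd .lf 7207 .lf) 7321 (.nd .lf 7433 .lf))) 7541 (.nd (.nd (.nd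
.lf 7549 .lf) 7669 (.nd .lf 7727 .lf)) 7753 (.nd (.nd .lf 7901 .lf) 7937 (.nd .lf 8093
.lf))))))) 8233 (.nd (.nd (.nd (.nd (.nd (.nd (.nd .lf 8311 .lf) 8431 (.nd .lf 8461 .lf)) 8699
(.nd (.nd .lf 8807 .lf) 8821 (.nd .lf 8933 .lf))) 8971 (.nd (.nd (.nd .lf 9091 .lf) 9161 (.nd
.lf 9343 .lf)) 9623 (.nd (.nd .lf 9631 .lf) 9643 (.nd .lf 9697 .lf)))) 9769 (.nd (.nd (.nd (.nd
.lf 9781 .lf) 9851 (.nd .lf 9871 .lf)) 9931 (.nd (.nd .lf 9949 .lf) 10141 (.nd .lf 10273 .lf)))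
10303 (.nd (.nd (.nd .lf 10559 .lf) 10567 (.nd .lf 11251 .lf)) 11321 (.nd (.nd .lf 11329 .lf)
11351 (.nd .lf 11551 .lf))))) 11717 (.nd (.nd (.nd (.nd (.nd .lf 11831 .lf) 11867 (.nd .lf 12157
.lf)) 12289 (.nd (.nd .lf 12347 .lf) 12373 (.nd .lf 12377 .lf))) 12491 (.nd (.nd (.nd .lf 12601
.lf) 12757 (.nd .lf 12907 .lf)) 13001 (.nd (.nd .lf 13183 .lf) 13327 (.nd .lf 13451 .lf))))
13523 (.nd (.nd (.nd (.nd .lf 13591 .lf) 13711 (.nd .lf 13963 .lf)) 14249 (.nd (.nd .lf 14621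
.lf) 14771 (.nd .lf 14821 .lf))) 14867 (.nd (.nd (.nd .lf 15083 .lf) 15101 (.nd .lf 15131 .lf))
15377 (.nd (.nd .lf 15511 .lf) 15541 (.nd .lf 15551 .lf)))))) 16007 (.nd (.nd (.nd (.nd (.nd
(.nd .lf 16069 .lf) 16073 (.nd .lf 16333 .lf)) 16369 (.nd (.nd .lf 16651 .lf) 16661 (.nd .lf
16823 .lf))) 17077 (.nd (.nd (.nd .lf 17293 .lf) 17341 (.nd .lf 17351 .lf)) 17737 (.nd (.nd .lf
17761 .lf) 17839 (.nd .lf 17851 .lf)))) 17981 (.nd (.nd (.nd (.nd .lf 18089 .lf) 18451 (.nd .lf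
19073 .lf)) 19121 (.nd (.nd .lf 19423 .lf) 19801 (.nd .lf 19993 .lf))) 20231 (.nd (.nd (.nd .lf
20731 .lf) 21163 (.nd .lf 21491 .lf)) 21589 (.nd (.nd .lf 21787 .lf) 22031 (.nd .lf 22037
.lf))))) 22093 (.nd (.nd (.nd (.nd (.nd .lf 22189 .lf) 22283 (.nd .lf 22511 .lf)) 22651 (.nd
(.nd .lf 23017 .lf) 23311 (.nd .lf 23369 .lf))) 23609 (.nd (.nd (.nd .lf 23971 .lf) 24061 (.nd
.lf 24571 .lf)) 24611 (.nd (.nd .lf 24623 .lf) 25541 (.nd .lf 26339 .lf)))) 26903 (.nd (.nd (.nd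
(.nd .lf 26987 .lf) 27241 (.nd .lf 28961 .lf)) 29251 (.nd (.nd .lf 29401 .lf) 29411 (.nd .lf
30203 .lf))) 30241 (.nd (.nd (.nd .lf 30403 .lf) 30577 (.nd .lf 30871 .lf)) 30941 (.nd (.nd .lf
31151 .lf) 32401 (.nd .lf 32441 .lf))))))))) 32491 (.nd (.nd (.nd (.nd (.nd (.nd (.nd (.nd (.nd
(.nd .lf 33151 .lf) 33619 .lf) 36871 (.nd .lf 37861 .lf)) 37951 (.nd (.nd .lf 39209 .lf) 40819
(.nd .lf 41017 .lf))) 41681 (.nd (.nd (.nd .lf 41887 .lf) 42337 (.nd .lf 42751 .lf)) 43597 (.nd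
(.nd .lf 44657 .lf) 46061 (.nd .lf 46477 .lf)))) 46601 (.nd (.nd (.nd (.nd .lf 49009 .lf) 49843
(.nd .lf 50131 .lf)) 51853 (.nd (.nd .lf 52433 .lf) 52861 (.nd .lf 54121 .lf))) 54251 (.nd (.nd
(.nd .lf 55117 .lf) 55333 (.nd .lf 56701 .lf)) 58573 (.nd (.nd .lf 58687 .lf) 58831 (.nd .lf
59167 .lf))))) 62071 (.nd (.nd (.nd (.nd (.nd .lf 62423 .lf) 63331 (.nd .lf 63601 .lf)) 64279
(.nd (.nd .lf 64621 .lf) 66271 (.nd .lf 66463 .lf))) 66977 (.nd (.nd (.nd .lf 67231 .lf) 67271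
(.nd .lf 67927 .lf)) 68113 (.nd (.nd .lf 70111 .lf) 70571 (.nd .lf 71261 .lf)))) 72161 (.nd (.nd
(.nd (.nd .lf 72577 .lf) 75571 (.nd .lf 77023 .lf)) 77551 (.nd (.nd .lf 77587 .lf) 81331 (.nd
.lf 82231 .lf))) 84401 (.nd (.nd (.nd .lf 84653 .lf) 88741 (.nd .lf 88969 .lf)) 93323 (.nd (.nd
.lf 93523 .lf) 96581 (.nd .lf 96931 .lf)))))) 97931 (.nd (.nd (.nd (.nd (.nd (.nd .lf 98473 .lf)
99877 (.nd .lf 99929 .lf)) 102931 (.nd (.nd .lf 105667 .lf) 105733 (.nd .lf 108503 .lf))) 109201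
(.nd (.nd (.nd .lf 115613 .lf) 116533 (.nd .lf 116933 .lf)) 117701 (.nd (.nd .lf 123631 .lf)
125141 (.nd .lf 125731 .lf)))) 126457 (.nd (.nd (.nd (.nd .lf 131321 .lf) 133327 (.nd .lf 134327
.lf)) 135829 (.nd (.nd .lf 136463 .lf) 137827 (.nd .lf 141941 .lf))) 142591 (.nd (.nd (.nd .lf
143537 .lf) 146521 (.nd .lf 147739 .lf)) 149111 (.nd (.nd .lf 149489 .lf) 151169 (.nd .lf 153313
.lf))))) 159361 (.nd (.nd (.nd (.nd (.nd .lf 161923 .lf) 162629 (.nd .lf 165811 .lf)) 166867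
(.nd (.nd .lf 168719 .lf) 176849 (.nd .lf 177893 .lf))) 189361 (.nd (.nd (.nd .lf 198301 .lf)
202621 (.nd .lf 204781 .lf)) 207331 (.nd (.nd .lf 207523 .lf) 208759 (.nd .lf 211313 .lf))))
212561 (.nd (.nd (.nd (.nd .lf 216211 .lf) 222991 (.nd .lf 225023 .lf)) 230471 (.nd (.nd .lf
234293 .lf) 234343 (.nd .lf 234749 .lf))) 237271 (.nd (.nd (.nd .lf 238639 .lf) 246941 (.nd .lf
262321 .lf)) 271241 (.nd (.nd .lf 271517 .lf) 275941 (.nd .lf 287191 .lf))))))) 294169 (.nd (.nd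
(.nd (.nd (.nd (.nd (.nd .lf 304643 .lf) 305771 (.nd .lf 314599 .lf)) 332441 (.nd (.nd .lf
333299 .lf) 337021 (.nd .lf 361183 .lf))) 377011 (.nd (.nd (.nd .lf 378953 .lf) 382861 (.nd .lf
384481 .lf)) 387727 (.nd (.nd .lf 392599 .lf) 392851 (.nd .lf 399403 .lf)))) 414313 (.nd (.nd
(.nd (.nd .lf 430811 .lf) 457091 (.nd .lf 464201 .lf)) 477277 (.nd (.nd .lf 542831 .lf) 556999
(.nd .lf 571799 .lf))) 579281 (.nd (.nd (.nd .lf 586741 .lf) 587173 (.nd .lf 603791 .lf)) 605629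
(.nd (.nd .lf 612067 .lf) 613169 (.nd .lf 620383 .lf))))) 621301 (.nd (.nd (.nd (.nd (.nd .lf
666599 .lf) 678553 (.nd .lf 683447 .lf)) 683831 (.nd (.nd .lf 689797 .lf) 751411 (.nd .lf 754211
.lf))) 774491 (.nd (.nd (.nd .lf 801337 .lf) 813311 (.nd .lf 821329 .lf)) 822761 (.nd (.nd .lf
823241 .lf) 830833 (.nd .lf 843103 .lf)))) 851647 (.nd (.nd (.nd (.nd .lf 861001 .lf) 866869
(.nd .lf 867007 .lf)) 891601 (.nd (.nd .lf 915961 .lf) 918751 (.nd .lf 971759 .lf))) 973001 (.nd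
(.nd (.nd .lf 990151 .lf) 1008101 (.nd .lf 1016089 .lf)) 1033663 (.nd (.nd .lf 1096673 .lf)
1097113 (.nd .lf 1109387 .lf)))))) 1143047 (.nd (.nd (.nd (.nd (.nd (.nd .lf 1175351 .lf)
1184731 (.nd .lf 1189301 .lf)) 1203799 (.nd (.nd .lf 1214039 .lf) 1266191 (.nd .lf 1308121
.lf))) 1376461 (.nd (.nd (.nd .lf 1387357 .lf) 1391011 (.nd .lf 1395943 .lf)) 1427509 (.nd (.nd
.lf 1642843 .lf) 1772723 (.nd .lf 1855769 .lf)))) 1862297 (.nd (.nd (.nd (.nd .lf 1866461 .lf)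
1902007 (.nd .lf 1988689 .lf)) 1997969 (.nd (.nd .lf 2078341 .lf) 2117131 (.nd .lf 2132483
.lf))) 2212009 (.nd (.nd (.nd .lf 2212477 .lf) 2215303 (.nd .lf 2332541 .lf)) 2352433 (.nd (.nd
.lf 2428079 .lf) 2491171 (.nd .lf 2905319 .lf))))) 2941201 (.nd (.nd (.nd (.nd (.nd .lf 2941691
.lf) 3074251 (.nd .lf 3255451 .lf)) 3373001 (.nd (.nd .lf 3468029 .lf) 3500201 (.nd .lf 3724261
.lf))) 4313591 (.nd (.nd (.nd .lf 4355581 .lf) 4772771 (.nd .lf 5020441 .lf)) 5064511 (.nd (.nd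
.lf 5860181 .lf) 5885051 (.nd .lf 6120497 .lf)))) 6222361 (.nd (.nd (.nd (.nd .lf 6294091 .lf)
6456391 (.nd .lf 6779557 .lf)) 6982831 (.nd (.nd .lf 7338241 .lf) 7343111 (.nd .lf 7552121
.lf))) 7668337 (.nd (.nd (.nd .lf 7972277 .lf) 8223577 (.nd .lf 8715961 .lf)) 9456961 (.nd (.nd
.lf 9714373 .lf) 9863647 (.nd .lf 10378063 .lf)))))))) 10567181 (.nd (.nd (.nd (.nd (.nd (.nd
(.nd (.nd .lf 10676401 .lf) 11106421 (.nd .lf 11435981 .lf)) 11529901 (.nd (.nd .lf 11631811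
.lf) 12137287 (.nd .lf 12148891 .lf))) 12526561 (.nd (.nd (.nd .lf 12774841 .lf) 12826631 (.nd
.lf 13931563 .lf)) 14275091 (.nd (.nd .lf 14457413 .lf) 15524819 (.nd .lf 16402403 .lf))))
17072219 (.nd (.nd (.nd (.nd .lf 17884211 .lf) 17950001 (.nd .lf 18788837 .lf)) 18973249 (.nd
(.nd .lf 19376011 .lf) 20356591 (.nd .lf 21028331 .lf))) 21354391 (.nd (.nd (.nd .lf 21360641
.lf) 21444131 (.nd .lf 22124771 .lf)) 23449957 (.nd (.nd .lf 24049243 .lf) 24225161 (.nd .lf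
25323821 .lf))))) 25589797 (.nd (.nd (.nd (.nd (.nd .lf 25980767 .lf) 26010319 (.nd .lf 26735953
.lf)) 28792661 (.nd (.nd .lf 29009749 .lf) 33702101 (.nd .lf 35601773 .lf))) 36376871 (.nd (.nd
(.nd .lf 37536467 .lf) 37710551 (.nd .lf 38358119 .lf)) 38745181 (.nd (.nd .lf 39125953 .lf)
39309103 (.nd .lf 39449441 .lf)))) 40445371 (.nd (.nd (.nd (.nd .lf 40548821 .lf) 41213191 (.nd
.lf 42344381 .lf)) 44695129 (.nd (.nd .lf 44818841 .lf) 45544361 (.nd .lf 46094201 .lf)))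
50408381 (.nd (.nd (.nd .lf 53362627 .lf) 58044391 (.nd .lf 62223611 .lf)) 76411669 (.nd (.nd
.lf 80279893 .lf) 82059721 (.nd .lf 84895571 .lf)))))) 87032893 (.nd (.nd (.nd (.nd (.nd (.nd
.lf 90294913 .lf) 91873141 (.nd .lf 94223761 .lf)) 104670301 (.nd (.nd .lf 105327457 .lf)
115299839 (.nd .lf 127806197 .lf))) 130629271 (.nd (.nd (.nd .lf 131663471 .lf) 139560331 (.nd
.lf 140028607 .lf)) 140226451 (.nd (.nd .lf 148597717 .lf) 166484861 (.nd .lf 169942181 .lf))))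
173408689 (.nd (.nd (.nd (.nd .lf 203447171 .lf) 210775751 (.nd .lf 220194563 .lf)) 228729421
(.nd (.nd .lf 235110049 .lf) 237048061 (.nd .lf 262209281 .lf))) 317098891 (.nd (.nd (.nd .lf
393091031 .lf) 398995783 (.nd .lf 412171631 .lf)) 431631611 (.nd (.nd .lf 443135929 .lf)
444073159 (.nd .lf 477869921 .lf))))) 478851301 (.nd (.nd (.nd (.nd (.nd .lf 489886751 .lf)
493450561 (.nd .lf 494542541 .lf)) 541769479 (.nd (.nd .lf 590763331 .lf) 605354341 (.nd .lf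
631964743 .lf))) 634204951 (.nd (.nd (.nd .lf 647251721 .lf) 657579583 (.nd .lf 660857341 .lf))
673254671 (.nd (.nd .lf 686527819 .lf) 700047031 (.nd .lf 701899129 .lf)))) 719339261 (.nd (.nd
(.nd (.nd .lf 781333543 .lf) 845325721 (.nd .lf 854575831 .lf)) 989955251 (.nd (.nd .lf
1011185971 .lf) 1016948987 (.nd .lf 1017889031 .lf))) 1054083853 (.nd (.nd (.nd .lf 1123759171
.lf) 1201915151 (.nd .lf 1224116611 .lf)) 1445413861 (.nd (.nd .lf 1590315431 .lf) 1591242871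
(.nd .lf 1658264591 .lf))))))) 1734086891 (.nd (.nd (.nd (.nd (.nd (.nd (.nd .lf 1787805161 .lf)
2075397091 (.nd .lf 2300511547 .lf)) 2304362741 (.nd (.nd .lf 2465958193 .lf) 2912698091 (.nd
.lf 3622746821 .lf))) 3832922749 (.nd (.nd (.nd .lf 3897115051 .lf) 4095851581 (.nd .lf
4189129561 .lf)) 4440731591 (.nd (.nd .lf 5417694791 .lf) 5422626589 (.nd .lf 6136365041 .lf))))
7296664931 (.nd (.nd (.nd (.nd .lf 9295132387 .lf) 9404401961 (.nd .lf 9729573701 .lf))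
10322799829 (.nd (.nd .lf 12731904851 .lf) 13080080081 (.nd .lf 16020797851 .lf))) 16110409981
(.nd (.nd (.nd .lf 16997738581 .lf) 17385570701 (.nd .lf 18414551137 .lf)) 19268275129 (.nd (.nd
.lf 20845133501 .lf) 21053922121 (.nd .lf 24499154593 .lf))))) 31622515591 (.nd (.nd (.nd (.nd
(.nd .lf 37426191973 .lf) 41654777327 (.nd .lf 43853794861 .lf)) 46685826619 (.nd (.nd .lf
50787843091 .lf) 64704045557 (.nd .lf 68370475003 .lf))) 72393825157 (.nd (.nd (.nd .lf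
73658204549 .lf) 103416125731 (.nd .lf 146994927559 .lf)) 157697804119 (.nd (.nd .lf
162433359941 .lf) 186707169083 (.nd .lf 193091463181 .lf)))) 216671449993 (.nd (.nd (.nd (.nd
.lf 232611722621 .lf) 241713702161 (.nd .lf 281583815209 .lf)) 287419062949 (.nd (.nd .lf
301622530381 .lf) 372649725281 (.nd .lf 427647365779 .lf))) 448201412941 (.nd (.nd (.nd .lf
480344448721 .lf) 498699413281 (.nd .lf 508930449241 .lf)) 624436159069 (.nd (.nd .lf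
626842136881 .lf) 683704750031 (.nd .lf 764521675661 .lf)))))) 766349579951 (.nd (.nd (.nd (.nd
(.nd (.nd .lf 836561914831 .lf) 960563556131 (.nd .lf 976278071191 .lf)) 1071854720291 (.nd (.nd
.lf 1101680295631 .lf) 1106431826861 (.nd .lf 1124088896761 .lf))) 1290193246633 (.nd (.nd (.nd
.lf 1644993066271 .lf) 1957650063931 (.nd .lf 2223796173481 .lf)) 2384261611201 (.nd (.nd .lf
3263466811411 .lf) 3617523089023 (.nd .lf 3643477581901 .lf)))) 3748929959431 (.nd (.nd (.nd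
(.nd .lf 5068508673763 .lf) 5388501510739 (.nd .lf 5663560354741 .lf)) 6549693302651 (.nd (.nd
.lf 7725209145011 .lf) 9127463792309 (.nd .lf 10589172205663 .lf))) 11048730682351 (.nd (.nd
(.nd .lf 11709700117279 .lf) 15683402202973 (.nd .lf 15979409090641 .lf)) 26992064719951 (.nd
(.nd .lf 45692145853819 .lf) 47345561652679 (.nd .lf 59376284620771 .lf))))) 62436408095081 (.nd
(.nd (.nd (.nd (.nd .lf 67448797275773 .lf) 85758691956221 (.nd .lf 86182788072221 .lf))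
99244068137581 (.nd (.nd .lf 182054730959861 .lf) 202928769110351 (.nd .lf 239025974415379
.lf))) 277143875432201 (.nd (.nd (.nd .lf 393779347292521 .lf) 410633831460731 (.nd .lf
792112672728991 .lf)) 1204825220584789 (.nd (.nd .lf 1619523883197061 .lf) 1648012040336791 (.nd
.lf 2249049650927341 .lf)))) 3439735311522331 (.nd (.nd (.nd (.nd .lf 3976068883303271 .lf)
7168827868198039 (.nd .lf 19903254925398721 .lf)) 21046890633311089 (.nd (.nd .lf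
21063774651908851 .lf) 21261152595806269 (.nd .lf 21610351016571391 .lf))) 23856413299819627
(.nd (.nd (.nd .lf 38804262048708643 .lf) 58680453629922511 (.nd .lf 59847827283530509 .lf))
241562563680036301 (.nd (.nd .lf 340100015471382811 .lf) 467468554981161491 (.nd .lf
631406718999332671 .lf))))))))))

/-- certificates -/
def EF_0 : List En :=
[(2, 1, []), (3, 2, [(2, 1)]), (5, 2, [(2, 2)]), (7, 3, [(2, 1), (3, 1)]), (11, 2, [(2, 1), (5,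
1)]), (13, 2, [(2, 2), (3, 1)]), (17, 3, [(2, 4)]), (19, 2, [(2, 1), (3, 2)]), (23, 5, [(2, 1),
(11, 1)]), (29, 2, [(2, 2), (7, 1)]), (31, 3, [(2, 1), (3, 1), (5, 1)]), (37, 2, [(2, 2), (3,
2)]), (41, 6, [(2, 3), (5, 1)]), (43, 3, [(2, 1), (3, 1), (7, 1)]), (47, 5, [(2, 1), (23, 1)]),
(53, 2, [(2, 2), (13, 1)]), (59, 2, [(2, 1), (29, 1)]), (61, 2, [(2, 2), (3, 1), (5, 1)]), (67,
2, [(2, 1), (3, 1), (11, 1)]), (71, 7, [(2, 1), (5, 1), (7, 1)]), (73, 5, [(2, 3), (3, 2)]),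
(79, 3, [(2, 1), (3, 1), (13, 1)]), (83, 2, [(2, 1), (41, 1)]), (89, 3, [(2, 3), (11, 1)]), (97,
5, [(2, 5), (3, 1)]), (101, 2, [(2, 2), (5, 2)]), (103, 5, [(2, 1), (3, 1), (17, 1)]), (107, 2,
[(2, 1), (53, 1)]), (109, 6, [(2, 2), (3, 3)]), (113, 3, [(2, 4), (7, 1)]), (127, 3, [(2, 1),
(3, 2), (7, 1)]), (131, 2, [(2, 1), (5, 1), (13, 1)]), (137, 3, [(2, 3), (17, 1)]), (139, 2,
[(2, 1), (3, 1), (23, 1)]), (149, 2, [(2, 2), (37, 1)]), (151, 6, [(2, 1), (3, 1), (5, 2)]),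
(157, 5, [(2, 2), (3, 1), (13, 1)]), (163, 2, [(2, 1), (3, 4)]), (167, 5, [(2, 1), (83, 1)]),
(173, 2, [(2, 2), (43, 1)]), (179, 2, [(2, 1), (89, 1)]), (181, 2, [(2, 2), (3, 2), (5, 1)]),
(191, 19, [(2, 1), (5, 1), (19, 1)]), (193, 5, [(2, 6), (3, 1)]), (197, 2, [(2, 2), (7, 2)]),
(199, 3, [(2, 1), (3, 2), (11, 1)]), (211, 2, [(2, 1), (3, 1), (5, 1), (7, 1)]), (223, 3, [(2,
1), (3, 1), (37, 1)]), (227, 2, [(2, 1), (113, 1)]), (229, 6, [(2, 2), (3, 1), (19, 1)]), (233,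
3, [(2, 3), (29, 1)]), (239, 7, [(2, 1), (7, 1), (17, 1)]), (241, 7, [(2, 4), (3, 1), (5, 1)]),
(251, 6, [(2, 1), (5, 3)]), (257, 3, [(2, 8)]), (263, 5, [(2, 1), (131, 1)]), (269, 2, [(2, 2),
(67, 1)]), (271, 6, [(2, 1), (3, 3), (5, 1)]), (277, 5, [(2, 2), (3, 1), (23, 1)]), (281, 3,
[(2, 3), (5, 1), (7, 1)]), (283, 3, [(2, 1), (3, 1), (47, 1)]), (293, 2, [(2, 2), (73, 1)]),
(307, 5, [(2, 1), (3, 2), (17, 1)]), (311, 17, [(2, 1), (5, 1), (31, 1)]), (313, 10, [(2, 3),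
(3, 1), (13, 1)]), (317, 2, [(2, 2), (79, 1)]), (331, 3, [(2, 1), (3, 1), (5, 1), (11, 1)]),
(337, 10, [(2, 4), (3, 1), (7, 1)]), (347, 2, [(2, 1), (173, 1)]), (349, 2, [(2, 2), (3, 1),
(29, 1)]), (353, 3, [(2, 5), (11, 1)]), (359, 7, [(2, 1), (179, 1)]), (367, 6, [(2, 1), (3, 1),
(61, 1)]), (373, 2, [(2, 2), (3, 1), (31, 1)]), (379, 2, [(2, 1), (3, 3), (7, 1)]), (389, 2,
[(2, 2), (97, 1)]), (397, 5, [(2, 2), (3, 2), (11, 1)]), (401, 3, [(2, 4), (5, 2)]), (409, 21,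
[(2, 3), (3, 1), (17, 1)]), (419, 2, [(2, 1), (11, 1), (19, 1)]), (421, 2, [(2, 2), (3, 1), (5,
1), (7, 1)]), (431, 7, [(2, 1), (5, 1), (43, 1)]), (433, 5, [(2, 4), (3, 3)]), (439, 15, [(2,
1), (3, 1), (73, 1)]), (443, 2, [(2, 1), (13, 1), (17, 1)]), (449, 3, [(2, 6), (7, 1)]), (457,
13, [(2, 3), (3, 1), (19, 1)]), (461, 2, [(2, 2), (5, 1), (23, 1)]), (463, 3, [(2, 1), (3, 1),
(7, 1), (11, 1)]), (467, 2, [(2, 1), (233, 1)]), (479, 13, [(2, 1), (239, 1)]), (487, 3, [(2,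
1), (3, 5)]), (491, 2, [(2, 1), (5, 1), (7, 2)]), (499, 7, [(2, 1), (3, 1), (83, 1)]), (509, 2,
[(2, 2), (127, 1)]), (521, 3, [(2, 3), (5, 1), (13, 1)]), (523, 2, [(2, 1), (3, 2), (29, 1)]),
(541, 2, [(2, 2), (3, 3), (5, 1)]), (547, 2, [(2, 1), (3, 1), (7, 1), (13, 1)]), (557, 2, [(2,
2), (139, 1)]), (563, 2, [(2, 1), (281, 1)]), (571, 3, [(2, 1), (3, 1), (5, 1), (19, 1)]), (577,
5, [(2, 6), (3, 2)]), (587, 2, [(2, 1), (293, 1)]), (593, 3, [(2, 4), (37, 1)]), (601, 7, [(2,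
3), (3, 1), (5, 2)]), (607, 3, [(2, 1), (3, 1), (101, 1)]), (613, 2, [(2, 2), (3, 2), (17, 1)]),
(619, 2, [(2, 1), (3, 1), (103, 1)]), (631, 3, [(2, 1), (3, 2), (5, 1), (7, 1)]), (641, 3, [(2,
7), (5, 1)]), (643, 11, [(2, 1), (3, 1), (107, 1)]), (647, 5, [(2, 1), (17, 1), (19, 1)]), (661,
2, [(2, 2), (3, 1), (5, 1), (11, 1)]), (683, 5, [(2, 1), (11, 1), (31, 1)]), (691, 3, [(2, 1),
(3, 1), (5, 1), (23, 1)]), (701, 2, [(2, 2), (5, 2), (7, 1)]), (709, 2, [(2, 2), (3, 1), (59,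
1)]), (719, 11, [(2, 1), (359, 1)]), (739, 3, [(2, 1), (3, 2), (41, 1)]), (743, 5, [(2, 1), (7,
1), (53, 1)]), (751, 3, [(2, 1), (3, 1), (5, 3)]), (761, 6, [(2, 3), (5, 1), (19, 1)]), (769,
11, [(2, 8), (3, 1)]), (773, 2, [(2, 2), (193, 1)]), (787, 2, [(2, 1), (3, 1), (131, 1)]), (797,
2, [(2, 2), (199, 1)]), (809, 3, [(2, 3), (101, 1)]), (811, 3, [(2, 1), (3, 4), (5, 1)]), (821,
2, [(2, 2), (5, 1), (41, 1)]), (823, 3, [(2, 1), (3, 1), (137, 1)]), (829, 2, [(2, 2), (3, 2),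
(23, 1)]), (839, 11, [(2, 1), (419, 1)]), (853, 2, [(2, 2), (3, 1), (71, 1)]), (857, 3, [(2, 3),
(107, 1)]), (859, 2, [(2, 1), (3, 1), (11, 1), (13, 1)]), (877, 2, [(2, 2), (3, 1), (73, 1)]),
(881, 3, [(2, 4), (5, 1), (11, 1)]), (883, 2, [(2, 1), (3, 2), (7, 2)]), (887, 5, [(2, 1), (443,
1)]), (907, 2, [(2, 1), (3, 1), (151, 1)]), (911, 17, [(2, 1), (5, 1), (7, 1), (13, 1)]), (929,
3, [(2, 5), (29, 1)]), (937, 5, [(2, 3), (3, 2), (13, 1)]), (941, 2, [(2, 2), (5, 1), (47, 1)]),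
(947, 2, [(2, 1), (11, 1), (43, 1)]), (953, 3, [(2, 3), (7, 1), (17, 1)]), (971, 6, [(2, 1), (5,
1), (97, 1)]), (983, 5, [(2, 1), (491, 1)]), (991, 6, [(2, 1), (3, 2), (5, 1), (11, 1)]), (997,
7, [(2, 2), (3, 1), (83, 1)]), (1009, 11, [(2, 4), (3, 2), (7, 1)]), (1013, 3, [(2, 2), (11, 1),
(23, 1)]), (1021, 10, [(2, 2), (3, 1), (5, 1), (17, 1)]), (1031, 14, [(2, 1), (5, 1), (103,
1)]), (1039, 3, [(2, 1), (3, 1), (173, 1)]), (1049, 3, [(2, 3), (131, 1)]), (1051, 7, [(2, 1),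
(3, 1), (5, 2), (7, 1)]), (1061, 2, [(2, 2), (5, 1), (53, 1)]), (1063, 3, [(2, 1), (3, 2), (59,
1)]), (1087, 3, [(2, 1), (3, 1), (181, 1)]), (1091, 2, [(2, 1), (5, 1), (109, 1)]), (1093, 5,
[(2, 2), (3, 1), (7, 1), (13, 1)]), (1097, 3, [(2, 3), (137, 1)]), (1103, 5, [(2, 1), (19, 1),
(29, 1)]), (1129, 11, [(2, 3), (3, 1), (47, 1)]), (1151, 17, [(2, 1), (5, 2), (23, 1)]), (1153,
5, [(2, 7), (3, 2)]), (1163, 5, [(2, 1), (7, 1), (83, 1)]), (1171, 2, [(2, 1), (3, 2), (5, 1),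
(13, 1)]), (1181, 7, [(2, 2), (5, 1), (59, 1)]), (1201, 11, [(2, 4), (3, 1), (5, 2)]), (1213, 2,
[(2, 2), (3, 1), (101, 1)]), (1229, 2, [(2, 2), (307, 1)]), (1231, 3, [(2, 1), (3, 1), (5, 1),
(41, 1)]), (1237, 2, [(2, 2), (3, 1), (103, 1)]), (1249, 7, [(2, 5), (3, 1), (13, 1)]), (1259,
2, [(2, 1), (17, 1), (37, 1)]), (1277, 2, [(2, 2), (11, 1), (29, 1)]), (1283, 2, [(2, 1), (641,
1)]), (1291, 2, [(2, 1), (3, 1), (5, 1), (43, 1)]), (1297, 10, [(2, 4), (3, 4)]), (1301, 2, [(2,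
2), (5, 2), (13, 1)]), (1321, 13, [(2, 3), (3, 1), (5, 1), (11, 1)]), (1361, 3, [(2, 4), (5, 1),
(17, 1)]), (1381, 2, [(2, 2), (3, 1), (5, 1), (23, 1)]), (1399, 13, [(2, 1), (3, 1), (233, 1)]),
(1409, 3, [(2, 7), (11, 1)]), (1423, 3, [(2, 1), (3, 2), (79, 1)]), (1429, 6, [(2, 2), (3, 1),
(7, 1), (17, 1)]), (1433, 3, [(2, 3), (179, 1)]), (1447, 3, [(2, 1), (3, 1), (241, 1)]), (1451,
2, [(2, 1), (5, 2), (29, 1)]), (1471, 6, [(2, 1), (3, 1), (5, 1), (7, 2)]), (1481, 3, [(2, 3),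
(5, 1), (37, 1)]), (1483, 2, [(2, 1), (3, 1), (13, 1), (19, 1)]), (1493, 2, [(2, 2), (373, 1)]),
(1511, 11, [(2, 1), (5, 1), (151, 1)]), (1531, 2, [(2, 1), (3, 2), (5, 1), (17, 1)]), (1543, 5,
[(2, 1), (3, 1), (257, 1)])]

/-- certificates -/
def EF_1 : List En :=
[(1549, 2, [(2, 2), (3, 2), (43, 1)]), (1553, 3, [(2, 4), (97, 1)]), (1567, 3, [(2, 1), (3, 3),
(29, 1)]), (1579, 3, [(2, 1), (3, 1), (263, 1)]), (1597, 11, [(2, 2), (3, 1), (7, 1), (19, 1)]),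
(1601, 3, [(2, 6), (5, 2)]), (1607, 5, [(2, 1), (11, 1), (73, 1)]), (1609, 7, [(2, 3), (3, 1),
(67, 1)]), (1613, 3, [(2, 2), (13, 1), (31, 1)]), (1627, 3, [(2, 1), (3, 1), (271, 1)]), (1699,
3, [(2, 1), (3, 1), (283, 1)]), (1709, 3, [(2, 2), (7, 1), (61, 1)]), (1721, 3, [(2, 3), (5, 1),
(43, 1)]), (1723, 3, [(2, 1), (3, 1), (7, 1), (41, 1)]), (1777, 5, [(2, 4), (3, 1), (37, 1)]),
(1783, 10, [(2, 1), (3, 4), (11, 1)]), (1801, 11, [(2, 3), (3, 2), (5, 2)]), (1831, 3, [(2, 1),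
(3, 1), (5, 1), (61, 1)]), (1861, 2, [(2, 2), (3, 1), (5, 1), (31, 1)]), (1867, 2, [(2, 1), (3,
1), (311, 1)]), (1871, 14, [(2, 1), (5, 1), (11, 1), (17, 1)]), (1877, 2, [(2, 2), (7, 1), (67,
1)]), (1879, 6, [(2, 1), (3, 1), (313, 1)]), (1889, 3, [(2, 5), (59, 1)]), (1907, 2, [(2, 1),
(953, 1)]), (1931, 2, [(2, 1), (5, 1), (193, 1)]), (1951, 3, [(2, 1), (3, 1), (5, 2), (13, 1)]),
(1973, 2, [(2, 2), (17, 1), (29, 1)]), (1979, 2, [(2, 1), (23, 1), (43, 1)]), (1987, 2, [(2, 1),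
(3, 1), (331, 1)]), (2003, 5, [(2, 1), (7, 1), (11, 1), (13, 1)]), (2011, 3, [(2, 1), (3, 1),
(5, 1), (67, 1)]), (2017, 5, [(2, 5), (3, 2), (7, 1)]), (2027, 2, [(2, 1), (1013, 1)]), (2069,
2, [(2, 2), (11, 1), (47, 1)]), (2083, 2, [(2, 1), (3, 1), (347, 1)]), (2087, 5, [(2, 1), (7,
1), (149, 1)]), (2111, 7, [(2, 1), (5, 1), (211, 1)]), (2129, 3, [(2, 4), (7, 1), (19, 1)]),
(2131, 2, [(2, 1), (3, 1), (5, 1), (71, 1)]), (2137, 10, [(2, 3), (3, 1), (89, 1)]), (2141, 2,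
[(2, 2), (5, 1), (107, 1)]), (2143, 3, [(2, 1), (3, 2), (7, 1), (17, 1)]), (2161, 23, [(2, 4),
(3, 3), (5, 1)]), (2203, 5, [(2, 1), (3, 1), (367, 1)]), (2221, 2, [(2, 2), (3, 1), (5, 1), (37,
1)]), (2251, 7, [(2, 1), (3, 2), (5, 3)]), (2281, 7, [(2, 3), (3, 1), (5, 1), (19, 1)]), (2371,
2, [(2, 1), (3, 1), (5, 1), (79, 1)]), (2383, 5, [(2, 1), (3, 1), (397, 1)]), (2389, 2, [(2, 2),
(3, 1), (199, 1)]), (2411, 6, [(2, 1), (5, 1), (241, 1)]), (2441, 6, [(2, 3), (5, 1), (61, 1)]),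
(2549, 2, [(2, 2), (7, 2), (13, 1)]), (2557, 2, [(2, 2), (3, 2), (71, 1)]), (2593, 7, [(2, 5),
(3, 4)]), (2657, 3, [(2, 5), (83, 1)]), (2663, 5, [(2, 1), (11, 3)]), (2689, 19, [(2, 7), (3,
1), (7, 1)]), (2711, 7, [(2, 1), (5, 1), (271, 1)]), (2713, 5, [(2, 3), (3, 1), (113, 1)]),
(2731, 3, [(2, 1), (3, 1), (5, 1), (7, 1), (13, 1)]), (2741, 2, [(2, 2), (5, 1), (137, 1)]),
(2753, 3, [(2, 6), (43, 1)]), (2791, 6, [(2, 1), (3, 2), (5, 1), (31, 1)]), (2801, 3, [(2, 4),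
(5, 2), (7, 1)]), (2803, 2, [(2, 1), (3, 1), (467, 1)]), (2819, 2, [(2, 1), (1409, 1)]), (2833,
5, [(2, 4), (3, 1), (59, 1)]), (2851, 2, [(2, 1), (3, 1), (5, 2), (19, 1)]), (2857, 11, [(2, 3),
(3, 1), (7, 1), (17, 1)]), (2903, 5, [(2, 1), (1451, 1)]), (2917, 5, [(2, 2), (3, 6)]), (2939,
2, [(2, 1), (13, 1), (113, 1)]), (3001, 14, [(2, 3), (3, 1), (5, 3)]), (3037, 2, [(2, 2), (3,
1), (11, 1), (23, 1)]), (3061, 6, [(2, 2), (3, 2), (5, 1), (17, 1)]), (3083, 2, [(2, 1), (23,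
1), (67, 1)]), (3121, 7, [(2, 4), (3, 1), (5, 1), (13, 1)]), (3163, 3, [(2, 1), (3, 1), (17, 1),
(31, 1)]), (3169, 7, [(2, 5), (3, 2), (11, 1)]), (3181, 7, [(2, 2), (3, 1), (5, 1), (53, 1)]),
(3187, 2, [(2, 1), (3, 3), (59, 1)]), (3191, 11, [(2, 1), (5, 1), (11, 1), (29, 1)]), (3221, 10,
[(2, 2), (5, 1), (7, 1), (23, 1)]), (3251, 6, [(2, 1), (5, 3), (13, 1)]), (3259, 3, [(2, 1), (3,
2), (181, 1)]), (3271, 3, [(2, 1), (3, 1), (5, 1), (109, 1)]), (3299, 2, [(2, 1), (17, 1), (97,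
1)]), (3301, 6, [(2, 2), (3, 1), (5, 2), (11, 1)]), (3361, 22, [(2, 5), (3, 1), (5, 1), (7,
1)]), (3371, 2, [(2, 1), (5, 1), (337, 1)]), (3373, 5, [(2, 2), (3, 1), (281, 1)]), (3413, 2,
[(2, 2), (853, 1)]), (3511, 7, [(2, 1), (3, 3), (5, 1), (13, 1)]), (3527, 5, [(2, 1), (41, 1),
(43, 1)]), (3541, 7, [(2, 2), (3, 1), (5, 1), (59, 1)]), (3571, 2, [(2, 1), (3, 1), (5, 1), (7,
1), (17, 1)]), (3631, 15, [(2, 1), (3, 1), (5, 1), (11, 2)]), (3673, 5, [(2, 3), (3, 3), (17,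
1)]), (3691, 2, [(2, 1), (3, 2), (5, 1), (41, 1)]), (3709, 2, [(2, 2), (3, 2), (103, 1)]),
(3761, 3, [(2, 4), (5, 1), (47, 1)]), (3767, 5, [(2, 1), (7, 1), (269, 1)]), (3797, 2, [(2, 2),
(13, 1), (73, 1)]), (3851, 2, [(2, 1), (5, 2), (7, 1), (11, 1)]), (3863, 5, [(2, 1), (1931,
1)]), (4007, 5, [(2, 1), (2003, 1)]), (4051, 10, [(2, 1), (3, 4), (5, 2)]), (4099, 2, [(2, 1),
(3, 1), (683, 1)]), (4129, 13, [(2, 5), (3, 1), (43, 1)]), (4159, 3, [(2, 1), (3, 3), (7, 1),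
(11, 1)]), (4231, 3, [(2, 1), (3, 2), (5, 1), (47, 1)]), (4261, 2, [(2, 2), (3, 1), (5, 1), (71,
1)]), (4271, 7, [(2, 1), (5, 1), (7, 1), (61, 1)]), (4349, 2, [(2, 2), (1087, 1)]), (4421, 3,
[(2, 2), (5, 1), (13, 1), (17, 1)]), (4447, 3, [(2, 1), (3, 2), (13, 1), (19, 1)]), (4513, 7,
[(2, 5), (3, 1), (47, 1)]), (4591, 11, [(2, 1), (3, 3), (5, 1), (17, 1)]), (4643, 5, [(2, 1),
(11, 1), (211, 1)]), (4751, 19, [(2, 1), (5, 3), (19, 1)]), (4813, 2, [(2, 2), (3, 1), (401,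
1)]), (4831, 3, [(2, 1), (3, 1), (5, 1), (7, 1), (23, 1)]), (4909, 6, [(2, 2), (3, 1), (409,
1)]), (4933, 2, [(2, 2), (3, 2), (137, 1)]), (4951, 6, [(2, 1), (3, 2), (5, 2), (11, 1)]),
(4999, 3, [(2, 1), (3, 1), (7, 2), (17, 1)]), (5021, 3, [(2, 2), (5, 1), (251, 1)]), (5059, 2,
[(2, 1), (3, 2), (281, 1)]), (5101, 6, [(2, 2), (3, 1), (5, 2), (17, 1)]), (5107, 2, [(2, 1),
(3, 1), (23, 1), (37, 1)]), (5113, 19, [(2, 3), (3, 2), (71, 1)]), (5189, 2, [(2, 2), (1297,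
1)]), (5233, 10, [(2, 4), (3, 1), (109, 1)]), (5279, 7, [(2, 1), (7, 1), (13, 1), (29, 1)]),
(5303, 5, [(2, 1), (11, 1), (241, 1)]), (5351, 11, [(2, 1), (5, 2), (107, 1)]), (5419, 3, [(2,
1), (3, 2), (7, 1), (43, 1)]), (5471, 7, [(2, 1), (5, 1), (547, 1)]), (5477, 2, [(2, 2), (37,
2)]), (5527, 5, [(2, 1), (3, 2), (307, 1)]), (5581, 6, [(2, 2), (3, 2), (5, 1), (31, 1)]),
(5623, 5, [(2, 1), (3, 1), (937, 1)]), (5639, 7, [(2, 1), (2819, 1)]), (5791, 6, [(2, 1), (3,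
1), (5, 1), (193, 1)]), (5827, 2, [(2, 1), (3, 1), (971, 1)]), (6007, 3, [(2, 1), (3, 1), (7,
1), (11, 1), (13, 1)]), (6011, 2, [(2, 1), (5, 1), (601, 1)]), (6079, 17, [(2, 1), (3, 1),
(1013, 1)]), (6091, 7, [(2, 1), (3, 1), (5, 1), (7, 1), (29, 1)]), (6101, 2, [(2, 2), (5, 2),
(61, 1)]), (6131, 2, [(2, 1), (5, 1), (613, 1)]), (6163, 3, [(2, 1), (3, 1), (13, 1), (79, 1)]),
(6173, 2, [(2, 2), (1543, 1)]), (6247, 5, [(2, 1), (3, 2), (347, 1)]), (6257, 3, [(2, 4), (17,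
1), (23, 1)]), (6271, 11, [(2, 1), (3, 1), (5, 1), (11, 1), (19, 1)]), (6329, 3, [(2, 3), (7,
1), (113, 1)]), (6367, 3, [(2, 1), (3, 1), (1061, 1)]), (6379, 2, [(2, 1), (3, 1), (1063, 1)]),
(6529, 7, [(2, 7), (3, 1), (17, 1)]), (6577, 5, [(2, 4), (3, 1), (137, 1)]), (6599, 13, [(2, 1),
(3299, 1)]), (6661, 6, [(2, 2), (3, 2), (5, 1), (37, 1)]), (6679, 7, [(2, 1), (3, 2), (7, 1),
(53, 1)]), (6701, 2, [(2, 2), (5, 2), (67, 1)]), (6733, 2, [(2, 2), (3, 2), (11, 1), (17, 1)]),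
(6761, 3, [(2, 3), (5, 1), (13, 2)]), (6781, 2, [(2, 2), (3, 1), (5, 1), (113, 1)]), (6803, 2,
[(2, 1), (19, 1), (179, 1)]), (6841, 22, [(2, 3), (3, 2), (5, 1), (19, 1)]), (6911, 7, [(2, 1),
(5, 1), (691, 1)]), (7057, 5, [(2, 4), (3, 2), (7, 2)]), (7207, 3, [(2, 1), (3, 1), (1201, 1)]),
(7321, 7, [(2, 3), (3, 1), (5, 1), (61, 1)]), (7433, 3, [(2, 3), (929, 1)]), (7541, 2, [(2, 2),
(5, 1), (13, 1), (29, 1)]), (7549, 2, [(2, 2), (3, 1), (17, 1), (37, 1)]), (7669, 2, [(2, 2),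
(3, 3), (71, 1)]), (7727, 5, [(2, 1), (3863, 1)]), (7753, 10, [(2, 3), (3, 1), (17, 1), (19,
1)]), (7901, 2, [(2, 2), (5, 2), (79, 1)]), (7937, 3, [(2, 8), (31, 1)]), (8093, 2, [(2, 2), (7,
1), (17, 2)]), (8233, 10, [(2, 3), (3, 1), (7, 3)]), (8311, 3, [(2, 1), (3, 1), (5, 1), (277,
1)]), (8431, 3, [(2, 1), (3, 1), (5, 1), (281, 1)]), (8461, 6, [(2, 2), (3, 2), (5, 1), (47,
1)]), (8699, 2, [(2, 1), (4349, 1)]), (8807, 5, [(2, 1), (7, 1), (17, 1), (37, 1)]), (8821, 2,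
[(2, 2), (3, 2), (5, 1), (7, 2)]), (8933, 2, [(2, 2), (7, 1), (11, 1), (29, 1)]), (8971, 2, [(2,
1), (3, 1), (5, 1), (13, 1), (23, 1)]), (9091, 3, [(2, 1), (3, 2), (5, 1), (101, 1)]), (9161, 3,
[(2, 3), (5, 1), (229, 1)]), (9343, 5, [(2, 1), (3, 3), (173, 1)]), (9623, 5, [(2, 1), (17, 1),
(283, 1)]), (9631, 3, [(2, 1), (3, 2), (5, 1), (107, 1)]), (9643, 2, [(2, 1), (3, 1), (1607,
1)])]

/-- certificates -/
def EF_2 : List En :=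
[(9697, 10, [(2, 5), (3, 1), (101, 1)]), (9769, 13, [(2, 3), (3, 1), (11, 1), (37, 1)]), (9781,
6, [(2, 2), (3, 1), (5, 1), (163, 1)]), (9851, 2, [(2, 1), (5, 2), (197, 1)]), (9871, 3, [(2,
1), (3, 1), (5, 1), (7, 1), (47, 1)]), (9931, 10, [(2, 1), (3, 1), (5, 1), (331, 1)]), (9949, 2,
[(2, 2), (3, 1), (829, 1)]), (10141, 2, [(2, 2), (3, 1), (5, 1), (13, 2)]), (10273, 10, [(2, 5),
(3, 1), (107, 1)]), (10303, 3, [(2, 1), (3, 1), (17, 1), (101, 1)]), (10559, 23, [(2, 1), (5279,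
1)]), (10567, 6, [(2, 1), (3, 2), (587, 1)]), (11251, 13, [(2, 1), (3, 2), (5, 4)]), (11321, 3,
[(2, 3), (5, 1), (283, 1)]), (11329, 7, [(2, 6), (3, 1), (59, 1)]), (11351, 7, [(2, 1), (5, 2),
(227, 1)]), (11551, 7, [(2, 1), (3, 1), (5, 2), (7, 1), (11, 1)]), (11717, 2, [(2, 2), (29, 1),
(101, 1)]), (11831, 7, [(2, 1), (5, 1), (7, 1), (13, 2)]), (11867, 2, [(2, 1), (17, 1), (349,
1)]), (12157, 2, [(2, 2), (3, 1), (1013, 1)]), (12289, 11, [(2, 12), (3, 1)]), (12347, 2, [(2,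
1), (6173, 1)]), (12373, 2, [(2, 2), (3, 1), (1031, 1)]), (12377, 6, [(2, 3), (7, 1), (13, 1),
(17, 1)]), (12491, 2, [(2, 1), (5, 1), (1249, 1)]), (12601, 11, [(2, 3), (3, 2), (5, 2), (7,
1)]), (12757, 2, [(2, 2), (3, 1), (1063, 1)]), (12907, 2, [(2, 1), (3, 3), (239, 1)]), (13001,
3, [(2, 3), (5, 3), (13, 1)]), (13183, 3, [(2, 1), (3, 1), (13, 3)]), (13327, 3, [(2, 1), (3,
1), (2221, 1)]), (13451, 2, [(2, 1), (5, 2), (269, 1)]), (13523, 2, [(2, 1), (6761, 1)]),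
(13591, 3, [(2, 1), (3, 2), (5, 1), (151, 1)]), (13711, 6, [(2, 1), (3, 1), (5, 1), (457, 1)]),
(13963, 3, [(2, 1), (3, 1), (13, 1), (179, 1)]), (14249, 3, [(2, 3), (13, 1), (137, 1)]),
(14621, 2, [(2, 2), (5, 1), (17, 1), (43, 1)]), (14771, 2, [(2, 1), (5, 1), (7, 1), (211, 1)]),
(14821, 2, [(2, 2), (3, 1), (5, 1), (13, 1), (19, 1)]), (14867, 2, [(2, 1), (7433, 1)]), (15083,
2, [(2, 1), (7541, 1)]), (15101, 2, [(2, 2), (5, 2), (151, 1)]), (15131, 2, [(2, 1), (5, 1),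
(17, 1), (89, 1)]), (15377, 3, [(2, 4), (31, 2)]), (15511, 3, [(2, 1), (3, 1), (5, 1), (11, 1),
(47, 1)]), (15541, 6, [(2, 2), (3, 1), (5, 1), (7, 1), (37, 1)]), (15551, 7, [(2, 1), (5, 2),
(311, 1)]), (16007, 5, [(2, 1), (53, 1), (151, 1)]), (16069, 2, [(2, 2), (3, 1), (13, 1), (103,
1)]), (16073, 3, [(2, 3), (7, 2), (41, 1)]), (16333, 2, [(2, 2), (3, 1), (1361, 1)]), (16369, 7,
[(2, 4), (3, 1), (11, 1), (31, 1)]), (16651, 2, [(2, 1), (3, 2), (5, 2), (37, 1)]), (16661, 10,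
[(2, 2), (5, 1), (7, 2), (17, 1)]), (16823, 5, [(2, 1), (13, 1), (647, 1)]), (17077, 2, [(2, 2),
(3, 1), (1423, 1)]), (17293, 7, [(2, 2), (3, 1), (11, 1), (131, 1)]), (17341, 6, [(2, 2), (3,
1), (5, 1), (17, 2)]), (17351, 11, [(2, 1), (5, 2), (347, 1)]), (17737, 7, [(2, 3), (3, 1),
(739, 1)]), (17761, 19, [(2, 5), (3, 1), (5, 1), (37, 1)]), (17839, 6, [(2, 1), (3, 2), (991,
1)]), (17851, 2, [(2, 1), (3, 1), (5, 2), (7, 1), (17, 1)]), (17981, 2, [(2, 2), (5, 1), (29,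
1), (31, 1)]), (18089, 3, [(2, 3), (7, 1), (17, 1), (19, 1)]), (18451, 3, [(2, 1), (3, 2), (5,
2), (41, 1)]), (19073, 3, [(2, 7), (149, 1)]), (19121, 6, [(2, 4), (5, 1), (239, 1)]), (19423,
3, [(2, 1), (3, 2), (13, 1), (83, 1)]), (19801, 13, [(2, 3), (3, 2), (5, 2), (11, 1)]), (19993,
10, [(2, 3), (3, 1), (7, 2), (17, 1)]), (20231, 29, [(2, 1), (5, 1), (7, 1), (17, 2)]), (20731,
2, [(2, 1), (3, 1), (5, 1), (691, 1)]), (21163, 2, [(2, 1), (3, 1), (3527, 1)]), (21491, 2, [(2,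
1), (5, 1), (7, 1), (307, 1)]), (21589, 2, [(2, 2), (3, 1), (7, 1), (257, 1)]), (21787, 23, [(2,
1), (3, 1), (3631, 1)]), (22031, 7, [(2, 1), (5, 1), (2203, 1)]), (22037, 2, [(2, 2), (7, 1),
(787, 1)]), (22093, 6, [(2, 2), (3, 1), (7, 1), (263, 1)]), (22189, 2, [(2, 2), (3, 1), (43,
2)]), (22283, 2, [(2, 1), (13, 1), (857, 1)]), (22511, 11, [(2, 1), (5, 1), (2251, 1)]), (22651,
3, [(2, 1), (3, 1), (5, 2), (151, 1)]), (23017, 5, [(2, 3), (3, 1), (7, 1), (137, 1)]), (23311,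
3, [(2, 1), (3, 2), (5, 1), (7, 1), (37, 1)]), (23369, 3, [(2, 3), (23, 1), (127, 1)]), (23609,
6, [(2, 3), (13, 1), (227, 1)]), (23971, 10, [(2, 1), (3, 1), (5, 1), (17, 1), (47, 1)]),
(24061, 10, [(2, 2), (3, 1), (5, 1), (401, 1)]), (24571, 7, [(2, 1), (3, 3), (5, 1), (7, 1),
(13, 1)]), (24611, 13, [(2, 1), (5, 1), (23, 1), (107, 1)]), (24623, 5, [(2, 1), (13, 1), (947,
1)]), (25541, 2, [(2, 2), (5, 1), (1277, 1)]), (26339, 2, [(2, 1), (13, 1), (1013, 1)]), (26903,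
5, [(2, 1), (13451, 1)]), (26987, 2, [(2, 1), (103, 1), (131, 1)]), (27241, 17, [(2, 3), (3, 1),
(5, 1), (227, 1)]), (28961, 3, [(2, 5), (5, 1), (181, 1)]), (29251, 2, [(2, 1), (3, 2), (5, 3),
(13, 1)]), (29401, 13, [(2, 3), (3, 1), (5, 2), (7, 2)]), (29411, 2, [(2, 1), (5, 1), (17, 1),
(173, 1)]), (30203, 2, [(2, 1), (15101, 1)]), (30241, 11, [(2, 5), (3, 3), (5, 1), (7, 1)]),
(30403, 5, [(2, 1), (3, 3), (563, 1)]), (30577, 5, [(2, 4), (3, 1), (7, 2), (13, 1)]), (30871,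
3, [(2, 1), (3, 2), (5, 1), (7, 3)]), (30941, 2, [(2, 2), (5, 1), (7, 1), (13, 1), (17, 1)]),
(31151, 7, [(2, 1), (5, 2), (7, 1), (89, 1)]), (32401, 7, [(2, 4), (3, 4), (5, 2)]), (32441, 3,
[(2, 3), (5, 1), (811, 1)]), (32491, 2, [(2, 1), (3, 2), (5, 1), (19, 2)]), (33151, 3, [(2, 1),
(3, 1), (5, 2), (13, 1), (17, 1)]), (33619, 2, [(2, 1), (3, 1), (13, 1), (431, 1)]), (36871, 15,
[(2, 1), (3, 1), (5, 1), (1229, 1)]), (37861, 2, [(2, 2), (3, 1), (5, 1), (631, 1)]), (37951, 3,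
[(2, 1), (3, 1), (5, 2), (11, 1), (23, 1)]), (39209, 3, [(2, 3), (13, 2), (29, 1)]), (40819, 3,
[(2, 1), (3, 1), (6803, 1)]), (41017, 5, [(2, 3), (3, 1), (1709, 1)]), (41681, 3, [(2, 4), (5,
1), (521, 1)]), (41887, 3, [(2, 1), (3, 2), (13, 1), (179, 1)]), (42337, 5, [(2, 5), (3, 3), (7,
2)]), (42751, 6, [(2, 1), (3, 2), (5, 3), (19, 1)]), (43597, 2, [(2, 2), (3, 2), (7, 1), (173,
1)]), (44657, 3, [(2, 4), (2791, 1)]), (46061, 2, [(2, 2), (5, 1), (7, 2), (47, 1)]), (46477, 2,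
[(2, 2), (3, 2), (1291, 1)]), (46601, 3, [(2, 3), (5, 2), (233, 1)]), (49009, 19, [(2, 4), (3,
1), (1021, 1)]), (49843, 2, [(2, 1), (3, 3), (13, 1), (71, 1)]), (50131, 2, [(2, 1), (3, 2), (5,
1), (557, 1)]), (51853, 11, [(2, 2), (3, 1), (29, 1), (149, 1)]), (52433, 3, [(2, 4), (29, 1),
(113, 1)]), (52861, 11, [(2, 2), (3, 1), (5, 1), (881, 1)]), (54121, 13, [(2, 3), (3, 1), (5,
1), (11, 1), (41, 1)]), (54251, 2, [(2, 1), (5, 3), (7, 1), (31, 1)]), (55117, 5, [(2, 2), (3,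
2), (1531, 1)]), (55333, 6, [(2, 2), (3, 2), (29, 1), (53, 1)]), (56701, 2, [(2, 2), (3, 4), (5,
2), (7, 1)]), (58573, 2, [(2, 2), (3, 2), (1627, 1)]), (58687, 6, [(2, 1), (3, 1), (9781, 1)]),
(58831, 11, [(2, 1), (3, 1), (5, 1), (37, 1), (53, 1)]), (59167, 3, [(2, 1), (3, 2), (19, 1),
(173, 1)]), (62071, 7, [(2, 1), (3, 1), (5, 1), (2069, 1)]), (62423, 5, [(2, 1), (23, 2), (59,
1)]), (63331, 2, [(2, 1), (3, 1), (5, 1), (2111, 1)]), (63601, 7, [(2, 4), (3, 1), (5, 2), (53,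
1)]), (64279, 29, [(2, 1), (3, 2), (3571, 1)]), (64621, 6, [(2, 2), (3, 2), (5, 1), (359, 1)]),
(66271, 3, [(2, 1), (3, 1), (5, 1), (47, 2)]), (66463, 10, [(2, 1), (3, 1), (11, 1), (19, 1),
(53, 1)]), (66977, 5, [(2, 5), (7, 1), (13, 1), (23, 1)]), (67231, 3, [(2, 1), (3, 4), (5, 1),
(83, 1)]), (67271, 14, [(2, 1), (5, 1), (7, 1), (31, 2)]), (67927, 3, [(2, 1), (3, 1), (11321,
1)]), (68113, 5, [(2, 4), (3, 2), (11, 1), (43, 1)]), (70111, 6, [(2, 1), (3, 2), (5, 1), (19,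
1), (41, 1)]), (70571, 2, [(2, 1), (5, 1), (7057, 1)]), (71261, 3, [(2, 2), (5, 1), (7, 1),
(509, 1)]), (72161, 6, [(2, 5), (5, 1), (11, 1), (41, 1)]), (72577, 5, [(2, 7), (3, 4), (7,
1)]), (75571, 2, [(2, 1), (3, 1), (5, 1), (11, 1), (229, 1)]), (77023, 3, [(2, 1), (3, 2), (11,
1), (389, 1)]), (77551, 6, [(2, 1), (3, 1), (5, 2), (11, 1), (47, 1)]), (77587, 2, [(2, 1), (3,
1), (67, 1), (193, 1)]), (81331, 12, [(2, 1), (3, 1), (5, 1), (2711, 1)]), (82231, 7, [(2, 1),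
(3, 1), (5, 1), (2741, 1)]), (84401, 3, [(2, 4), (5, 2), (211, 1)]), (84653, 2, [(2, 2), (21163,
1)]), (88741, 2, [(2, 2), (3, 2), (5, 1), (17, 1), (29, 1)]), (88969, 7, [(2, 3), (3, 1), (11,
1), (337, 1)]), (93323, 2, [(2, 1), (29, 1), (1609, 1)]), (93523, 2, [(2, 1), (3, 1), (11, 1),
(13, 1), (109, 1)]), (96581, 2, [(2, 2), (5, 1), (11, 1), (439, 1)]), (96931, 2, [(2, 1), (3,
3), (5, 1), (359, 1)]), (97931, 2, [(2, 1), (5, 1), (7, 1), (1399, 1)]), (98473, 10, [(2, 3),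
(3, 1), (11, 1), (373, 1)]), (99877, 2, [(2, 2), (3, 1), (7, 1), (29, 1), (41, 1)]), (99929, 3,
[(2, 3), (12491, 1)]), (102931, 3, [(2, 1), (3, 1), (5, 1), (47, 1), (73, 1)]), (105667, 3, [(2,
1), (3, 1), (11, 1), (1601, 1)]), (105733, 6, [(2, 2), (3, 3), (11, 1), (89, 1)]), (108503, 5,
[(2, 1), (54251, 1)]), (109201, 17, [(2, 4), (3, 1), (5, 2), (7, 1), (13, 1)]), (115613, 2, [(2,
2), (7, 1), (4129, 1)]), (116533, 2, [(2, 2), (3, 3), (13, 1), (83, 1)]), (116933, 2, [(2, 2),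
(23, 1), (31, 1), (41, 1)]), (117701, 2, [(2, 2), (5, 2), (11, 1), (107, 1)]), (123631, 3, [(2,
1), (3, 1), (5, 1), (13, 1), (317, 1)]), (125141, 3, [(2, 2), (5, 1), (6257, 1)]), (125731, 11,
[(2, 1), (3, 2), (5, 1), (11, 1), (127, 1)]), (126457, 15, [(2, 3), (3, 1), (11, 1), (479, 1)]),
(131321, 3, [(2, 3), (5, 1), (7, 2), (67, 1)]), (133327, 3, [(2, 1), (3, 4), (823, 1)]),
(134327, 5, [(2, 1), (47, 1), (1429, 1)]), (135829, 6, [(2, 2), (3, 2), (7, 3), (11, 1)]),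
(136463, 5, [(2, 1), (31, 2), (71, 1)])]

/-- certificates -/
def EF_3 : List En :=
[(137827, 7, [(2, 1), (3, 2), (13, 1), (19, 1), (31, 1)]), (141941, 2, [(2, 2), (5, 1), (47, 1),
(151, 1)]), (142591, 3, [(2, 1), (3, 1), (5, 1), (7, 2), (97, 1)]), (143537, 3, [(2, 4), (8971,
1)]), (146521, 23, [(2, 3), (3, 2), (5, 1), (11, 1), (37, 1)]), (147739, 7, [(2, 1), (3, 1),
(24623, 1)]), (149111, 7, [(2, 1), (5, 1), (13, 1), (31, 1), (37, 1)]), (149489, 3, [(2, 4),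
(9343, 1)]), (151169, 3, [(2, 7), (1181, 1)]), (153313, 5, [(2, 5), (3, 1), (1597, 1)]),
(159361, 7, [(2, 7), (3, 1), (5, 1), (83, 1)]), (161923, 2, [(2, 1), (3, 1), (26987, 1)]),
(162629, 2, [(2, 2), (109, 1), (373, 1)]), (165811, 7, [(2, 1), (3, 1), (5, 1), (5527, 1)]),
(166867, 2, [(2, 1), (3, 1), (7, 1), (29, 1), (137, 1)]), (168719, 11, [(2, 1), (11, 1), (7669,
1)]), (176849, 3, [(2, 4), (7, 1), (1579, 1)]), (177893, 3, [(2, 2), (11, 1), (13, 1), (311,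
1)]), (189361, 11, [(2, 4), (3, 2), (5, 1), (263, 1)]), (198301, 2, [(2, 2), (3, 1), (5, 2),
(661, 1)]), (202621, 10, [(2, 2), (3, 1), (5, 1), (11, 1), (307, 1)]), (204781, 2, [(2, 2), (3,
1), (5, 1), (3413, 1)]), (207331, 2, [(2, 1), (3, 1), (5, 1), (6911, 1)]), (207523, 2, [(2, 1),
(3, 5), (7, 1), (61, 1)]), (208759, 3, [(2, 1), (3, 1), (11, 1), (3163, 1)]), (211313, 3, [(2,
4), (47, 1), (281, 1)]), (212561, 3, [(2, 4), (5, 1), (2657, 1)]), (216211, 10, [(2, 1), (3, 1),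
(5, 1), (7207, 1)]), (222991, 3, [(2, 1), (3, 1), (5, 1), (7433, 1)]), (225023, 10, [(2, 1), (7,
1), (16073, 1)]), (230471, 19, [(2, 1), (5, 1), (19, 1), (1213, 1)]), (234293, 2, [(2, 2),
(58573, 1)]), (234343, 3, [(2, 1), (3, 2), (47, 1), (277, 1)]), (234749, 2, [(2, 2), (58687,
1)]), (237271, 6, [(2, 1), (3, 1), (5, 1), (11, 1), (719, 1)]), (238639, 3, [(2, 1), (3, 1),
(31, 1), (1283, 1)]), (246941, 2, [(2, 2), (5, 1), (12347, 1)]), (262321, 13, [(2, 4), (3, 1),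
(5, 1), (1093, 1)]), (271241, 3, [(2, 3), (5, 1), (6781, 1)]), (271517, 2, [(2, 2), (7, 1),
(9697, 1)]), (275941, 6, [(2, 2), (3, 3), (5, 1), (7, 1), (73, 1)]), (287191, 3, [(2, 1), (3,
2), (5, 1), (3191, 1)]), (294169, 11, [(2, 3), (3, 1), (7, 1), (17, 1), (103, 1)]), (304643, 2,
[(2, 1), (13, 1), (11717, 1)]), (305771, 2, [(2, 1), (5, 1), (30577, 1)]), (314599, 3, [(2, 1),
(3, 1), (52433, 1)]), (332441, 3, [(2, 3), (5, 1), (8311, 1)]), (333299, 2, [(2, 1), (7, 2),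
(19, 1), (179, 1)]), (337021, 10, [(2, 2), (3, 1), (5, 1), (41, 1), (137, 1)]), (361183, 3, [(2,
1), (3, 1), (17, 1), (3541, 1)]), (377011, 3, [(2, 1), (3, 2), (5, 1), (59, 1), (71, 1)]),
(378953, 3, [(2, 3), (7, 1), (67, 1), (101, 1)]), (382861, 6, [(2, 2), (3, 3), (5, 1), (709,
1)]), (384481, 7, [(2, 5), (3, 3), (5, 1), (89, 1)]), (387727, 3, [(2, 1), (3, 1), (64621, 1)]),
(392599, 3, [(2, 1), (3, 2), (17, 1), (1283, 1)]), (392851, 7, [(2, 1), (3, 4), (5, 2), (97,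
1)]), (399403, 3, [(2, 1), (3, 2), (22189, 1)]), (414313, 15, [(2, 3), (3, 1), (61, 1), (283,
1)]), (430811, 2, [(2, 1), (5, 1), (67, 1), (643, 1)]), (457091, 2, [(2, 1), (5, 1), (43, 1),
(1063, 1)]), (464201, 3, [(2, 3), (5, 2), (11, 1), (211, 1)]), (477277, 2, [(2, 2), (3, 1), (31,
1), (1283, 1)]), (542831, 7, [(2, 1), (5, 1), (19, 1), (2857, 1)]), (556999, 3, [(2, 1), (3, 1),
(13, 1), (37, 1), (193, 1)]), (571799, 7, [(2, 1), (37, 1), (7727, 1)]), (579281, 11, [(2, 4),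
(5, 1), (13, 1), (557, 1)]), (586741, 2, [(2, 2), (3, 1), (5, 1), (7, 1), (11, 1), (127, 1)]),
(587173, 2, [(2, 2), (3, 1), (167, 1), (293, 1)]), (603791, 11, [(2, 1), (5, 1), (11, 2), (499,
1)]), (605629, 2, [(2, 2), (3, 2), (16823, 1)]), (612067, 2, [(2, 1), (3, 1), (7, 1), (13, 1),
(19, 1), (59, 1)]), (613169, 3, [(2, 4), (19, 1), (2017, 1)]), (620383, 3, [(2, 1), (3, 1), (7,
1), (14771, 1)]), (621301, 2, [(2, 2), (3, 1), (5, 2), (19, 1), (109, 1)]), (666599, 13, [(2,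
1), (333299, 1)]), (678553, 10, [(2, 3), (3, 1), (7, 2), (577, 1)]), (683447, 5, [(2, 1), (71,
1), (4813, 1)]), (683831, 13, [(2, 1), (5, 1), (7, 1), (9769, 1)]), (689797, 2, [(2, 2), (3, 4),
(2129, 1)]), (751411, 2, [(2, 1), (3, 3), (5, 1), (11, 2), (23, 1)]), (754211, 2, [(2, 1), (5,
1), (199, 1), (379, 1)]), (774491, 2, [(2, 1), (5, 1), (41, 1), (1889, 1)]), (801337, 5, [(2,
3), (3, 1), (173, 1), (193, 1)]), (813311, 11, [(2, 1), (5, 1), (81331, 1)]), (821329, 7, [(2,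
4), (3, 1), (71, 1), (241, 1)]), (822761, 3, [(2, 3), (5, 1), (67, 1), (307, 1)]), (823241, 3,
[(2, 3), (5, 1), (11, 1), (1871, 1)]), (830833, 15, [(2, 4), (3, 1), (19, 1), (911, 1)]),
(843103, 6, [(2, 1), (3, 3), (13, 1), (1201, 1)]), (851647, 3, [(2, 1), (3, 1), (141941, 1)]),
(861001, 13, [(2, 3), (3, 1), (5, 3), (7, 1), (41, 1)]), (866869, 6, [(2, 2), (3, 1), (29, 1),
(47, 1), (53, 1)]), (867007, 3, [(2, 1), (3, 2), (7, 2), (983, 1)]), (891601, 11, [(2, 4), (3,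
1), (5, 2), (743, 1)]), (915961, 13, [(2, 3), (3, 1), (5, 1), (17, 1), (449, 1)]), (918751, 6,
[(2, 1), (3, 1), (5, 5), (7, 2)]), (971759, 17, [(2, 1), (131, 1), (3709, 1)]), (973001, 3, [(2,
3), (5, 3), (7, 1), (139, 1)]), (990151, 12, [(2, 1), (3, 1), (5, 2), (7, 1), (23, 1), (41,
1)]), (1008101, 2, [(2, 2), (5, 2), (17, 1), (593, 1)]), (1016089, 22, [(2, 3), (3, 1), (42337,
1)]), (1033663, 6, [(2, 1), (3, 1), (7, 1), (24611, 1)]), (1096673, 3, [(2, 5), (43, 1), (797,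
1)]), (1097113, 5, [(2, 3), (3, 1), (17, 1), (2689, 1)]), (1109387, 2, [(2, 1), (17, 1), (67,
1), (487, 1)]), (1143047, 5, [(2, 1), (17, 1), (33619, 1)]), (1175351, 7, [(2, 1), (5, 2), (11,
1), (2137, 1)]), (1184731, 2, [(2, 1), (3, 1), (5, 1), (17, 1), (23, 1), (101, 1)]), (1189301,
3, [(2, 2), (5, 2), (7, 1), (1699, 1)]), (1203799, 3, [(2, 1), (3, 1), (313, 1), (641, 1)]),
(1214039, 7, [(2, 1), (7, 1), (17, 1), (5101, 1)]), (1266191, 11, [(2, 1), (5, 1), (127, 1),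
(997, 1)]), (1308121, 7, [(2, 3), (3, 1), (5, 1), (11, 1), (991, 1)]), (1376461, 17, [(2, 2),
(3, 3), (5, 1), (2549, 1)]), (1387357, 2, [(2, 2), (3, 1), (115613, 1)]), (1391011, 13, [(2, 1),
(3, 1), (5, 1), (199, 1), (233, 1)]), (1395943, 3, [(2, 1), (3, 1), (197, 1), (1181, 1)]),
(1427509, 2, [(2, 2), (3, 2), (19, 1), (2087, 1)]), (1642843, 2, [(2, 1), (3, 4), (10141, 1)]),
(1772723, 2, [(2, 1), (7, 2), (18089, 1)]), (1855769, 6, [(2, 3), (19, 1), (29, 1), (421, 1)]),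
(1862297, 3, [(2, 3), (131, 1), (1777, 1)]), (1866461, 2, [(2, 2), (5, 1), (93323, 1)]),
(1902007, 3, [(2, 1), (3, 2), (105667, 1)]), (1988689, 11, [(2, 4), (3, 1), (13, 1), (3187,
1)]), (1997969, 3, [(2, 4), (7, 1), (17839, 1)]), (2078341, 2, [(2, 2), (3, 1), (5, 1), (11, 1),
(47, 1), (67, 1)]), (2117131, 2, [(2, 1), (3, 1), (5, 1), (70571, 1)]), (2132483, 2, [(2, 1),
(11, 1), (96931, 1)]), (2212009, 11, [(2, 3), (3, 1), (37, 1), (47, 1), (53, 1)]), (2212477, 2,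
[(2, 2), (3, 1), (7, 1), (26339, 1)]), (2215303, 3, [(2, 1), (3, 1), (421, 1), (877, 1)]),
(2332541, 2, [(2, 2), (5, 1), (7, 1), (16661, 1)]), (2352433, 5, [(2, 4), (3, 1), (49009, 1)]),
(2428079, 11, [(2, 1), (1214039, 1)]), (2491171, 10, [(2, 1), (3, 1), (5, 1), (11, 1), (7549,
1)]), (2905319, 7, [(2, 1), (13, 1), (131, 1), (853, 1)]), (2941201, 11, [(2, 4), (3, 2), (5,
2), (19, 1), (43, 1)]), (2941691, 10, [(2, 1), (5, 1), (294169, 1)]), (3074251, 3, [(2, 1), (3,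
1), (5, 3), (4099, 1)]), (3255451, 10, [(2, 1), (3, 1), (5, 2), (11, 1), (1973, 1)]), (3373001,
3, [(2, 3), (5, 3), (3373, 1)]), (3468029, 2, [(2, 2), (867007, 1)]), (3500201, 3, [(2, 3), (5,
2), (11, 1), (37, 1), (43, 1)]), (3724261, 6, [(2, 2), (3, 1), (5, 1), (62071, 1)]), (4313591,
17, [(2, 1), (5, 1), (97, 1), (4447, 1)]), (4355581, 6, [(2, 2), (3, 1), (5, 1), (229, 1), (317,
1)]), (4772771, 6, [(2, 1), (5, 1), (477277, 1)]), (5020441, 7, [(2, 3), (3, 1), (5, 1), (17,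
1), (23, 1), (107, 1)]), (5064511, 11, [(2, 1), (3, 1), (5, 1), (11, 1), (103, 1), (149, 1)]),
(5860181, 2, [(2, 2), (5, 1), (113, 1), (2593, 1)]), (5885051, 2, [(2, 1), (5, 2), (117701,
1)]), (6120497, 3, [(2, 4), (61, 1), (6271, 1)]), (6222361, 14, [(2, 3), (3, 1), (5, 1), (51853,
1)]), (6294091, 10, [(2, 1), (3, 1), (5, 1), (11, 1), (19073, 1)]), (6456391, 13, [(2, 1), (3,
1), (5, 1), (19, 1), (47, 1), (241, 1)]), (6779557, 2, [(2, 2), (3, 2), (7, 1), (26903, 1)]),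
(6982831, 3, [(2, 1), (3, 2), (5, 1), (77587, 1)]), (7338241, 37, [(2, 8), (3, 2), (5, 1), (7,
2), (13, 1)]), (7343111, 17, [(2, 1), (5, 1), (43, 1), (17077, 1)]), (7552121, 3, [(2, 3), (5,
1), (19, 2), (523, 1)]), (7668337, 5, [(2, 4), (3, 1), (13, 1), (12289, 1)]), (7972277, 2, [(2,
2), (13, 1), (153313, 1)]), (8223577, 5, [(2, 3), (3, 1), (277, 1), (1237, 1)]), (8715961, 17,
[(2, 3), (3, 2), (5, 1), (11, 1), (31, 1), (71, 1)]), (9456961, 11, [(2, 6), (3, 1), (5, 1),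
(9851, 1)]), (9714373, 2, [(2, 2), (3, 1), (23, 1), (61, 1), (577, 1)]), (9863647, 6, [(2, 1),
(3, 1), (13, 1), (126457, 1)]), (10378063, 11, [(2, 1), (3, 2), (179, 1), (3221, 1)]),
(10567181, 2, [(2, 2), (5, 1), (13, 1), (97, 1), (419, 1)]), (10676401, 11, [(2, 4), (3, 1), (5,
2), (7, 1), (31, 1), (41, 1)]), (11106421, 2, [(2, 2), (3, 1), (5, 1), (13, 1), (29, 1), (491,
1)]), (11435981, 2, [(2, 2), (5, 1), (571799, 1)]), (11529901, 2, [(2, 2), (3, 2), (5, 2), (23,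
1), (557, 1)]), (11631811, 2, [(2, 1), (3, 1), (5, 1), (387727, 1)]), (12137287, 12, [(2, 1),
(3, 1), (7, 1), (17, 1), (89, 1), (191, 1)]), (12148891, 2, [(2, 1), (3, 1), (5, 1), (13, 1),
(31151, 1)]), (12526561, 7, [(2, 5), (3, 2), (5, 1), (8699, 1)]), (12774841, 11, [(2, 3), (3,
1), (5, 1), (13, 1), (19, 1), (431, 1)]), (12826631, 17, [(2, 1), (5, 1), (113, 1), (11351,
1)]), (13931563, 2, [(2, 1), (3, 1), (151, 1), (15377, 1)]), (14275091, 2, [(2, 1), (5, 1),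
(1427509, 1)]), (14457413, 2, [(2, 2), (17, 1), (107, 1), (1987, 1)]), (15524819, 2, [(2, 1),
(83, 1), (93523, 1)]), (16402403, 2, [(2, 1), (113, 1), (72577, 1)]), (17072219, 2, [(2, 1),
(73, 1), (116933, 1)]), (17884211, 2, [(2, 1), (5, 1), (31, 2), (1861, 1)]), (17950001, 3, [(2,
4), (5, 5), (359, 1)]), (18788837, 2, [(2, 2), (11, 1), (167, 1), (2557, 1)]), (18973249, 74,
[(2, 6), (3, 1), (7, 1), (19, 1), (743, 1)]), (19376011, 2, [(2, 1), (3, 4), (5, 1), (19, 1),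
(1259, 1)]), (20356591, 3, [(2, 1), (3, 1), (5, 1), (678553, 1)]), (21028331, 2, [(2, 1), (5,
1), (199, 1), (10567, 1)]), (21354391, 3, [(2, 1), (3, 2), (5, 1), (237271, 1)]), (21360641, 12,
[(2, 12), (5, 1), (7, 1), (149, 1)]), (21444131, 6, [(2, 1), (5, 1), (71, 1), (30203, 1)]),
(22124771, 2, [(2, 1), (5, 1), (2212477, 1)]), (23449957, 2, [(2, 2), (3, 1), (53, 1), (36871,
1)]), (24049243, 3, [(2, 1), (3, 2), (7, 1), (31, 1), (47, 1), (131, 1)])]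

/-- certificates -/
def EF_4 : List En :=
[(24225161, 3, [(2, 3), (5, 1), (605629, 1)]), (25323821, 2, [(2, 2), (5, 1), (1266191, 1)]),
(25589797, 6, [(2, 2), (3, 1), (2132483, 1)]), (25980767, 5, [(2, 1), (7, 1), (1855769, 1)]),
(26010319, 3, [(2, 1), (3, 1), (41, 1), (105733, 1)]), (26735953, 7, [(2, 4), (3, 1), (556999,
1)]), (28792661, 2, [(2, 2), (5, 1), (13, 1), (37, 1), (41, 1), (73, 1)]), (29009749, 10, [(2,
2), (3, 1), (71, 1), (79, 1), (431, 1)]), (33702101, 2, [(2, 2), (5, 2), (337021, 1)]),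
(35601773, 2, [(2, 2), (227, 1), (39209, 1)]), (36376871, 11, [(2, 1), (5, 1), (269, 1), (13523,
1)]), (37536467, 2, [(2, 1), (11, 1), (191, 1), (8933, 1)]), (37710551, 7, [(2, 1), (5, 2),
(754211, 1)]), (38358119, 7, [(2, 1), (83, 1), (311, 1), (743, 1)]), (38745181, 7, [(2, 2), (3,
2), (5, 1), (19, 1), (11329, 1)]), (39125953, 7, [(2, 6), (3, 2), (67927, 1)]), (39309103, 3,
[(2, 1), (3, 2), (7, 1), (223, 1), (1399, 1)]), (39449441, 7, [(2, 5), (5, 1), (79, 1), (3121,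
1)]), (40445371, 2, [(2, 1), (3, 2), (5, 1), (7, 1), (43, 1), (1493, 1)]), (40548821, 3, [(2,
2), (5, 1), (13, 1), (83, 1), (1879, 1)]), (41213191, 13, [(2, 1), (3, 1), (5, 1), (37, 1),
(107, 1), (347, 1)]), (42344381, 2, [(2, 2), (5, 1), (13, 1), (23, 1), (73, 1), (97, 1)]),
(44695129, 7, [(2, 3), (3, 1), (1862297, 1)]), (44818841, 3, [(2, 3), (5, 1), (11, 1), (37, 1),
(2753, 1)]), (45544361, 3, [(2, 3), (5, 1), (17, 1), (66977, 1)]), (46094201, 3, [(2, 3), (5,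
2), (230471, 1)]), (50408381, 2, [(2, 2), (5, 1), (11, 1), (29, 1), (7901, 1)]), (53362627, 5,
[(2, 1), (3, 1), (17, 1), (53, 1), (9871, 1)]), (58044391, 3, [(2, 1), (3, 1), (5, 1), (83, 1),
(23311, 1)]), (62223611, 2, [(2, 1), (5, 1), (6222361, 1)]), (76411669, 2, [(2, 2), (3, 1), (17,
1), (463, 1), (809, 1)]), (80279893, 2, [(2, 2), (3, 2), (7, 1), (11, 1), (28961, 1)]),
(82059721, 17, [(2, 3), (3, 1), (5, 1), (683831, 1)]), (84895571, 2, [(2, 1), (5, 1), (1049, 1),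
(8093, 1)]), (87032893, 2, [(2, 2), (3, 1), (509, 1), (14249, 1)]), (90294913, 13, [(2, 7), (3,
5), (2903, 1)]), (91873141, 2, [(2, 2), (3, 1), (5, 1), (521, 1), (2939, 1)]), (94223761, 13,
[(2, 4), (3, 1), (5, 1), (392599, 1)]), (104670301, 11, [(2, 2), (3, 1), (5, 2), (7, 1), (49843,
1)]), (105327457, 5, [(2, 5), (3, 1), (13, 1), (37, 1), (2281, 1)]), (115299839, 7, [(2, 1),
(439, 1), (131321, 1)]), (127806197, 2, [(2, 2), (7, 1), (127, 2), (283, 1)]), (130629271, 6,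
[(2, 1), (3, 1), (5, 1), (43, 1), (131, 1), (773, 1)]), (131663471, 7, [(2, 1), (5, 1), (17, 1),
(774491, 1)]), (139560331, 2, [(2, 1), (3, 1), (5, 1), (7, 2), (13, 1), (67, 1), (109, 1)]),
(140028607, 3, [(2, 1), (3, 2), (79, 1), (98473, 1)]), (140226451, 7, [(2, 1), (3, 1), (5, 2),
(7, 1), (13, 1), (10273, 1)]), (148597717, 2, [(2, 2), (3, 1), (821, 1), (15083, 1)]),
(166484861, 3, [(2, 2), (5, 1), (61, 1), (136463, 1)]), (169942181, 2, [(2, 2), (5, 1), (883,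
1), (9623, 1)]), (173408689, 7, [(2, 4), (3, 6), (14867, 1)]), (203447171, 2, [(2, 1), (5, 1),
(3083, 1), (6599, 1)]), (210775751, 14, [(2, 1), (5, 3), (843103, 1)]), (220194563, 2, [(2, 1),
(7, 1), (67, 1), (234749, 1)]), (228729421, 2, [(2, 2), (3, 4), (5, 1), (271, 1), (521, 1)]),
(235110049, 19, [(2, 5), (3, 1), (23, 1), (233, 1), (457, 1)]), (237048061, 2, [(2, 2), (3, 1),
(5, 1), (41, 1), (173, 1), (557, 1)]), (262209281, 3, [(2, 8), (5, 1), (127, 1), (1613, 1)]),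
(317098891, 3, [(2, 1), (3, 2), (5, 1), (79, 1), (103, 1), (433, 1)]), (393091031, 11, [(2, 1),
(5, 1), (39309103, 1)]), (398995783, 3, [(2, 1), (3, 1), (19, 1), (173, 1), (20231, 1)]),
(412171631, 7, [(2, 1), (5, 1), (13, 1), (17, 1), (421, 1), (443, 1)]), (431631611, 2, [(2, 1),
(5, 1), (59, 1), (239, 1), (3061, 1)]), (443135929, 7, [(2, 3), (3, 1), (47, 1), (392851, 1)]),
(444073159, 3, [(2, 1), (3, 3), (8223577, 1)]), (477869921, 3, [(2, 5), (5, 1), (11, 1),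
(271517, 1)]), (478851301, 17, [(2, 2), (3, 2), (5, 2), (19, 1), (41, 1), (683, 1)]),
(489886751, 7, [(2, 1), (5, 3), (83, 1), (23609, 1)]), (493450561, 11, [(2, 6), (3, 2), (5, 1),
(31, 1), (5527, 1)]), (494542541, 2, [(2, 2), (5, 1), (139, 1), (177893, 1)]), (541769479, 3,
[(2, 1), (3, 1), (90294913, 1)]), (590763331, 2, [(2, 1), (3, 2), (5, 1), (257, 1), (25541,
1)]), (605354341, 2, [(2, 2), (3, 1), (5, 1), (41, 1), (53, 1), (4643, 1)]), (631964743, 5, [(2,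
1), (3, 1), (105327457, 1)]), (634204951, 6, [(2, 1), (3, 1), (5, 2), (1483, 1), (2851, 1)]),
(647251721, 3, [(2, 3), (5, 1), (19, 1), (851647, 1)]), (657579583, 3, [(2, 1), (3, 2), (11, 2),
(29, 2), (359, 1)]), (660857341, 2, [(2, 2), (3, 1), (5, 1), (11, 1), (13, 1), (77023, 1)]),
(673254671, 11, [(2, 1), (5, 1), (11, 1), (6120497, 1)]), (686527819, 3, [(2, 1), (3, 1), (647,
1), (176849, 1)]), (700047031, 12, [(2, 1), (3, 1), (5, 1), (37, 1), (607, 1), (1039, 1)]),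
(701899129, 11, [(2, 3), (3, 3), (7, 2), (17, 1), (47, 1), (83, 1)]), (719339261, 2, [(2, 2),
(5, 1), (23, 1), (41, 1), (43, 1), (887, 1)]), (781333543, 3, [(2, 1), (3, 2), (11, 2), (19, 1),
(79, 1), (239, 1)]), (845325721, 13, [(2, 3), (3, 4), (5, 1), (139, 1), (1877, 1)]), (854575831,
6, [(2, 1), (3, 2), (5, 1), (107, 1), (88741, 1)]), (989955251, 2, [(2, 1), (5, 3), (41, 1),
(96581, 1)]), (1011185971, 2, [(2, 1), (3, 1), (5, 1), (1039, 1), (32441, 1)]), (1016948987, 2,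
[(2, 1), (31, 1), (16402403, 1)]), (1017889031, 11, [(2, 1), (5, 1), (31, 1), (149, 1), (22037,
1)]), (1054083853, 19, [(2, 2), (3, 2), (47, 1), (59, 1), (10559, 1)]), (1123759171, 3, [(2, 1),
(3, 4), (5, 1), (1387357, 1)]), (1201915151, 13, [(2, 1), (5, 2), (29, 2), (101, 1), (283, 1)]),
(1224116611, 2, [(2, 1), (3, 1), (5, 1), (19, 1), (1031, 1), (2083, 1)]), (1445413861, 2, [(2,
2), (3, 2), (5, 1), (11, 1), (59, 1), (12373, 1)]), (1590315431, 11, [(2, 1), (5, 1), (11, 1),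
(14457413, 1)]), (1591242871, 3, [(2, 1), (3, 1), (5, 1), (7, 1), (379, 1), (19993, 1)]),
(1658264591, 11, [(2, 1), (5, 1), (1423, 1), (116533, 1)]), (1734086891, 6, [(2, 1), (5, 1),
(173408689, 1)]), (1787805161, 6, [(2, 3), (5, 1), (44695129, 1)]), (2075397091, 2, [(2, 1), (3,
1), (5, 1), (13, 1), (1979, 1), (2689, 1)]), (2300511547, 2, [(2, 1), (3, 2), (127806197, 1)]),
(2304362741, 2, [(2, 2), (5, 1), (1153, 1), (99929, 1)]), (2465958193, 5, [(2, 4), (3, 1), (823,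
1), (62423, 1)]), (2912698091, 6, [(2, 1), (5, 1), (37, 2), (137, 1), (1553, 1)]), (3622746821,
2, [(2, 2), (5, 1), (7, 1), (11, 1), (2352433, 1)]), (3832922749, 6, [(2, 2), (3, 1), (17, 1),
(18788837, 1)]), (3897115051, 3, [(2, 1), (3, 1), (5, 2), (25980767, 1)]), (4095851581, 7, [(2,
2), (3, 2), (5, 1), (109, 1), (208759, 1)]), (4189129561, 13, [(2, 3), (3, 2), (5, 1), (7, 2),
(11, 1), (21589, 1)]), (4440731591, 17, [(2, 1), (5, 1), (444073159, 1)]), (5417694791, 11, [(2,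
1), (5, 1), (541769479, 1)]), (5422626589, 6, [(2, 2), (3, 1), (73, 1), (349, 1), (17737, 1)]),
(6136365041, 3, [(2, 4), (5, 1), (13, 1), (23, 1), (41, 1), (6257, 1)]), (7296664931, 2, [(2,
1), (5, 1), (47, 1), (15524819, 1)]), (9295132387, 3, [(2, 1), (3, 1), (19, 1), (41, 1),
(1988689, 1)]), (9404401961, 3, [(2, 3), (5, 1), (235110049, 1)]), (9729573701, 2, [(2, 2), (5,
2), (7, 1), (11, 2), (313, 1), (367, 1)]), (10322799829, 2, [(2, 2), (3, 1), (11, 1), (1867, 1),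
(41887, 1)]), (12731904851, 2, [(2, 1), (5, 2), (7, 1), (36376871, 1)]), (13080080081, 3, [(2,
4), (5, 1), (71, 1), (1433, 1), (1607, 1)]), (16020797851, 3, [(2, 1), (3, 2), (5, 2),
(35601773, 1)]), (16110409981, 11, [(2, 2), (3, 1), (5, 1), (7, 1), (38358119, 1)]),
(16997738581, 2, [(2, 2), (3, 2), (5, 1), (19, 1), (37, 1), (134327, 1)]), (17385570701, 2, [(2,
2), (5, 2), (1163, 1), (149489, 1)]), (18414551137, 5, [(2, 5), (3, 1), (79, 1), (2428079, 1)]),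
(19268275129, 19, [(2, 3), (3, 1), (137, 1), (5860181, 1)]), (20845133501, 2, [(2, 2), (5, 3),
(61, 1), (683447, 1)]), (21053922121, 29, [(2, 3), (3, 2), (5, 1), (7, 2), (11, 1), (108503,
1)]), (24499154593, 5, [(2, 5), (3, 3), (11, 2), (234343, 1)]), (31622515591, 6, [(2, 1), (3,
1), (5, 1), (1054083853, 1)]), (37426191973, 5, [(2, 2), (3, 1), (13, 1), (8807, 1), (27241,
1)]), (41654777327, 5, [(2, 1), (47, 1), (443135929, 1)]), (43853794861, 6, [(2, 2), (3, 1), (5,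
1), (5303, 1), (137827, 1)]), (46685826619, 2, [(2, 1), (3, 1), (41, 1), (127, 1), (1009, 1),
(1481, 1)]), (50787843091, 2, [(2, 1), (3, 1), (5, 1), (43, 1), (2027, 1), (19423, 1)]),
(64704045557, 2, [(2, 2), (23, 1), (31, 1), (37, 1), (613169, 1)]), (68370475003, 2, [(2, 1),
(3, 1), (419, 1), (1699, 1), (16007, 1)]), (72393825157, 17, [(2, 2), (3, 1), (19, 1), (241, 1),
(1097, 1), (1201, 1)]), (73658204549, 2, [(2, 2), (18414551137, 1)]), (103416125731, 3, [(2, 1),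
(3, 1), (5, 1), (41, 1), (619, 1), (135829, 1)]), (146994927559, 7, [(2, 1), (3, 1),
(24499154593, 1)]), (157697804119, 3, [(2, 1), (3, 1), (23, 1), (37, 1), (5477, 1), (5639, 1)]),
(162433359941, 3, [(2, 2), (5, 1), (257, 1), (2663, 1), (11867, 1)]), (186707169083, 2, [(2, 1),
(7, 1), (347, 1), (937, 1), (41017, 1)]), (193091463181, 10, [(2, 2), (3, 2), (5, 1), (7, 1),
(11, 1), (13931563, 1)]), (216671449993, 5, [(2, 3), (3, 1), (41, 1), (220194563, 1)]),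
(232611722621, 2, [(2, 2), (5, 1), (389, 1), (3767, 1), (7937, 1)]), (241713702161, 3, [(2, 4),
(5, 1), (7, 1), (431631611, 1)]), (281583815209, 17, [(2, 3), (3, 1), (37, 1), (317098891, 1)]),
(287419062949, 6, [(2, 2), (3, 1), (143537, 1), (166867, 1)]), (301622530381, 2, [(2, 2), (3,
1), (5, 1), (19, 1), (23, 1), (839, 1), (13711, 1)]), (372649725281, 3, [(2, 5), (5, 1), (7, 1),
(31, 1), (71, 1), (151169, 1)]), (427647365779, 7, [(2, 1), (3, 1), (509, 1), (140028607, 1)]),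
(448201412941, 10, [(2, 2), (3, 1), (5, 1), (937, 1), (7972277, 1)]), (480344448721, 26, [(2,
4), (3, 1), (5, 1), (29, 1), (691, 1), (99877, 1)]), (498699413281, 7, [(2, 5), (3, 5), (5, 1),
(12826631, 1)]), (508930449241, 26, [(2, 3), (3, 1), (5, 1), (167, 1), (401, 1), (63331, 1)]),
(624436159069, 10, [(2, 2), (3, 2), (227, 1), (76411669, 1)]), (626842136881, 29, [(2, 4), (3,
3), (5, 1), (131, 1), (2215303, 1)]), (683704750031, 7, [(2, 1), (5, 1), (68370475003, 1)]),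
(764521675661, 3, [(2, 2), (5, 1), (139, 1), (283, 1), (971759, 1)]), (766349579951, 7, [(2, 1),
(5, 2), (68113, 1), (225023, 1)]), (836561914831, 6, [(2, 1), (3, 2), (5, 1), (9295132387, 1)]),
(960563556131, 2, [(2, 1), (5, 1), (131, 1), (367, 1), (1997969, 1)]), (976278071191, 21, [(2,
1), (3, 1), (5, 1), (151, 1), (211, 1), (269, 1), (3797, 1)]), (1071854720291, 2, [(2, 1), (5,
1), (163, 1), (657579583, 1)]), (1101680295631, 6, [(2, 1), (3, 1), (5, 1), (47, 1), (781333543,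
1)]), (1106431826861, 3, [(2, 2), (5, 1), (1907, 1), (29009749, 1)]), (1124088896761, 7, [(2,
3), (3, 1), (5, 1), (17, 1), (41, 1), (83, 1), (161923, 1)]), (1290193246633, 5, [(2, 3), (3,
1), (44657, 1), (1203799, 1)]), (1644993066271, 3, [(2, 1), (3, 1), (5, 1), (5189, 1),
(10567181, 1)]), (1957650063931, 2, [(2, 1), (3, 2), (5, 1), (11, 1), (107, 1), (1129, 1),
(16369, 1)]), (2223796173481, 57, [(2, 3), (3, 3), (5, 1), (7, 1), (6329, 1), (46477, 1)]),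
(2384261611201, 17, [(2, 6), (3, 3), (5, 2), (7, 1), (1297, 1), (6079, 1)]), (3263466811411, 3,
[(2, 1), (3, 2), (5, 1), (13, 1), (109, 1), (25589797, 1)]), (3617523089023, 5, [(2, 1), (3, 1),
(207523, 1), (2905319, 1)]), (3643477581901, 2, [(2, 2), (3, 1), (5, 2), (13, 1), (17, 1), (31,
1), (1772723, 1)]), (3748929959431, 6, [(2, 1), (3, 2), (5, 1), (41654777327, 1)]),
(5068508673763, 2, [(2, 1), (3, 2), (281583815209, 1)]), (5388501510739, 2, [(2, 1), (3, 2),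
(29, 1), (10322799829, 1)]), (5663560354741, 2, [(2, 2), (3, 3), (5, 1), (491, 1), (21360641,
1)]), (6549693302651, 6, [(2, 1), (5, 2), (1543, 1), (84895571, 1)]), (7725209145011, 7, [(2,
1), (5, 1), (7, 2), (67, 1), (353, 1), (666599, 1)]), (9127463792309, 2, [(2, 2), (419, 1),
(4909, 1), (1109387, 1)]), (10589172205663, 3, [(2, 1), (3, 2), (17, 1), (127, 1), (173, 1),
(349, 1), (4513, 1)]), (11048730682351, 6, [(2, 1), (3, 1), (5, 2), (73658204549, 1)]),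
(11709700117279, 3, [(2, 1), (3, 1), (8233, 1), (237048061, 1)]), (15683402202973, 5, [(2, 2),
(3, 1), (7, 1), (186707169083, 1)]), (15979409090641, 7, [(2, 4), (3, 4), (5, 1), (2465958193,
1)]), (26992064719951, 11, [(2, 1), (3, 1), (5, 2), (11, 1), (41, 1), (398995783, 1)]),
(45692145853819, 2, [(2, 1), (3, 1), (37, 1), (53, 1), (23017, 1), (168719, 1)]),
(47345561652679, 3, [(2, 1), (3, 1), (109, 1), (72393825157, 1)]), (59376284620771, 2, [(2, 1),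
(3, 1), (5, 1), (13, 1), (37, 1), (43, 1), (163, 1), (379, 1), (1549, 1)]), (62436408095081, 3,
[(2, 3), (5, 1), (29251, 1), (53362627, 1)]), (67448797275773, 2, [(2, 2), (11, 1), (53, 1),
(2383, 1), (12137287, 1)]), (85758691956221, 10, [(2, 2), (5, 1), (73, 1), (162629, 1), (361183,
1)]), (86182788072221, 2, [(2, 2), (5, 1), (7, 1), (97, 1), (3863, 1), (1642843, 1)]),
(99244068137581, 6, [(2, 2), (3, 1), (5, 1), (719, 1), (2300511547, 1)]), (182054730959861, 2,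
[(2, 2), (5, 1), (11, 1), (109, 1), (167, 1), (3673, 1), (12377, 1)])]

/-- certificates -/
def EF_5 : List En :=
[(202928769110351, 7, [(2, 1), (5, 2), (1061, 1), (1103, 1), (3468029, 1)]), (239025974415379,
2, [(2, 1), (3, 1), (22283, 1), (1787805161, 1)]), (277143875432201, 11, [(2, 3), (5, 2), (7,
2), (43, 1), (61, 1), (809, 1), (13327, 1)]), (393779347292521, 38, [(2, 3), (3, 2), (5, 1), (7,
1), (37, 1), (3851, 1), (1096673, 1)]), (410633831460731, 2, [(2, 1), (5, 1), (149, 1), (271,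
1), (1016948987, 1)]), (792112672728991, 3, [(2, 1), (3, 3), (5, 1), (101, 1), (859, 1), (1447,
1), (23369, 1)]), (1204825220584789, 6, [(2, 2), (3, 1), (11, 1), (9127463792309, 1)]),
(1619523883197061, 2, [(2, 2), (3, 1), (5, 1), (26992064719951, 1)]), (1648012040336791, 3, [(2,
1), (3, 2), (5, 1), (283, 1), (64704045557, 1)]), (2249049650927341, 6, [(2, 2), (3, 1), (5, 1),
(173, 1), (216671449993, 1)]), (3439735311522331, 2, [(2, 1), (3, 2), (5, 1), (107, 1), (29401,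
1), (12148891, 1)]), (3976068883303271, 31, [(2, 1), (5, 1), (13, 1), (31, 1), (71, 1), (12157,
1), (1143047, 1)]), (7168827868198039, 3, [(2, 1), (3, 3), (7, 2), (137, 1), (2917, 1),
(6779557, 1)]), (19903254925398721, 13, [(2, 6), (3, 1), (5, 1), (37, 1), (1907, 1), (4421, 1),
(66463, 1)]), (21046890633311089, 11, [(2, 4), (3, 2), (7, 1), (13, 1), (84653, 1), (18973249,
1)]), (21063774651908851, 7, [(2, 1), (3, 4), (5, 2), (304643, 1), (17072219, 1)]),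
(21261152595806269, 2, [(2, 2), (3, 1), (1249, 1), (1511, 1), (4007, 1), (234293, 1)]),
(21610351016571391, 3, [(2, 1), (3, 1), (5, 1), (61, 1), (314599, 1), (37536467, 1)]),
(23856413299819627, 2, [(2, 1), (3, 1), (3976068883303271, 1)]), (38804262048708643, 3, [(2, 1),
(3, 2), (41, 1), (73, 1), (6247, 1), (115299839, 1)]), (58680453629922511, 3, [(2, 1), (3, 1),
(5, 1), (29, 1), (67448797275773, 1)]), (59847827283530509, 2, [(2, 2), (3, 1), (61, 1), (1021,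
1), (211313, 1), (378953, 1)]), (241562563680036301, 19, [(2, 2), (3, 1), (5, 2), (13, 1), (17,
1), (3643477581901, 1)]), (340100015471382811, 10, [(2, 1), (3, 1), (5, 1), (7, 1),
(1619523883197061, 1)]), (467468554981161491, 2, [(2, 1), (5, 1), (23, 1), (401, 1),
(5068508673763, 1)]), (631406718999332671, 12, [(2, 1), (3, 1), (5, 1), (21046890633311089,
1)])]

/-- certificates -/
def EF : List En := EF_0 ++ (EF_1 ++ (EF_2 ++ (EF_3 ++ (EF_4 ++ (EF_5)))))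

theorem tableF : ∀ p, TF.mem p = true → p.Prime :=
  table TF EF (by decide +kernel) (by decide +kernel)

end Pool.Agent.Lib.MP_c8748f_nt
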