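import Pool.Agent.Lib.MP_c8748f_nt.Check

/-! Table of primes with Lucas certificates (generated). -/

namespace Pool.Agent.Lib.MP_c8748f_nt

/-- the primes used -/
def TS : BT :=
(.nd (.nd (.nd (.nd (.nd (.nd (.nd (.nd (.nd (.nd .lf 2 .lf) 3 .lf) 5 (.nd .lf 7 .lf)) 11 (.nd
(.nd (.nd .lf 13 .lf) 17 .lf) 19 (.nd .lf 23 .lf))) 29 (.nd (.nd (.nd (.nd .lf 31 .lf) 37 .lf)
41 (.nd .lf 43 .lf)) 47 (.nd (.nd (.nd .lf 53 .lf) 59 .lf) 61 (.nd .lf 67 .lf)))) 71 (.nd (.nd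
(.nd (.nd (.nd .lf 73 .lf) 79 .lf) 83 (.nd .lf 89 .lf)) 97 (.nd (.nd (.nd .lf 101 .lf) 103 .lf)
107 (.nd .lf 109 .lf))) 113 (.nd (.nd (.nd (.nd .lf 127 .lf) 131 .lf) 137 (.nd .lf 139 .lf)) 149
(.nd (.nd (.nd .lf 151 .lf) 157 .lf) 163 (.nd .lf 167 .lf))))) 173 (.nd (.nd (.nd (.nd (.nd (.nd
.lf 179 .lf) 181 .lf) 191 (.nd .lf 193 .lf)) 197 (.nd (.nd (.nd .lf 199 .lf) 211 .lf) 223 (.nd
.lf 229 .lf))) 233 (.nd (.nd (.nd (.nd .lf 239 .lf) 241 .lf) 251 (.nd .lf 257 .lf)) 269 (.nd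
(.nd (.nd .lf 271 .lf) 277 .lf) 281 (.nd .lf 283 .lf)))) 293 (.nd (.nd (.nd (.nd (.nd .lf 307
.lf) 311 .lf) 313 (.nd .lf 317 .lf)) 331 (.nd (.nd (.nd .lf 337 .lf) 347 .lf) 349 (.nd .lf 353
.lf))) 359 (.nd (.nd (.nd (.nd .lf 367 .lf) 373 .lf) 379 (.nd .lf 383 .lf)) 397 (.nd (.nd (.nd
.lf 401 .lf) 409 .lf) 419 (.nd .lf 421 .lf)))))) 431 (.nd (.nd (.nd (.nd (.nd (.nd (.nd .lf 433
.lf) 439 .lf) 449 (.nd .lf 457 .lf)) 461 (.nd (.nd (.nd .lf 463 .lf) 467 .lf) 479 (.nd .lf 487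
.lf))) 491 (.nd (.nd (.nd (.nd .lf 499 .lf) 503 .lf) 509 (.nd .lf 523 .lf)) 541 (.nd (.nd (.nd
.lf 547 .lf) 571 .lf) 587 (.nd .lf 599 .lf)))) 607 (.nd (.nd (.nd (.nd (.nd .lf 613 .lf) 617
.lf) 619 (.nd .lf 631 .lf)) 653 (.nd (.nd (.nd .lf 659 .lf) 673 .lf) 677 (.nd .lf 701 .lf))) 709
(.nd (.nd (.nd (.nd .lf 719 .lf) 727 .lf) 733 (.nd .lf 743 .lf)) 757 (.nd (.nd (.nd .lf 773 .lf)
787 .lf) 797 (.nd .lf 823 .lf))))) 827 (.nd (.nd (.nd (.nd (.nd (.nd .lf 877 .lf) 881 .lf) 883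
(.nd .lf 907 .lf)) 911 (.nd (.nd (.nd .lf 919 .lf) 937 .lf) 947 (.nd .lf 953 .lf))) 967 (.nd
(.nd (.nd (.nd .lf 991 .lf) 997 .lf) 1009 (.nd .lf 1013 .lf)) 1021 (.nd (.nd (.nd .lf 1031 .lf)
1033 .lf) 1049 (.nd .lf 1051 .lf)))) 1061 (.nd (.nd (.nd (.nd (.nd .lf 1063 .lf) 1093 .lf) 1117
(.nd .lf 1123 .lf)) 1151 (.nd (.nd (.nd .lf 1163 .lf) 1229 .lf) 1231 (.nd .lf 1279 .lf))) 1289
(.nd (.nd (.nd (.nd .lf 1307 .lf) 1321 .lf) 1327 (.nd .lf 1381 .lf)) 1429 (.nd (.nd .lf 1433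
.lf) 1439 (.nd .lf 1451 .lf))))))) 1471 (.nd (.nd (.nd (.nd (.nd (.nd (.nd (.nd .lf 1483 .lf)
1499 .lf) 1511 (.nd .lf 1543 .lf)) 1559 (.nd (.nd (.nd .lf 1567 .lf) 1583 .lf) 1597 (.nd .lf
1627 .lf))) 1657 (.nd (.nd (.nd (.nd .lf 1667 .lf) 1669 .lf) 1699 (.nd .lf 1709 .lf)) 1723 (.nd
(.nd (.nd .lf 1823 .lf) 1873 .lf) 1879 (.nd .lf 1901 .lf)))) 1907 (.nd (.nd (.nd (.nd (.nd .lf
1913 .lf) 1933 .lf) 1979 (.nd .lf 2003 .lf)) 2011 (.nd (.nd (.nd .lf 2017 .lf) 2053 .lf) 2063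
(.nd .lf 2069 .lf))) 2081 (.nd (.nd (.nd (.nd .lf 2083 .lf) 2087 .lf) 2089 (.nd .lf 2099 .lf))
2129 (.nd (.nd (.nd .lf 2137 .lf) 2143 .lf) 2203 (.nd .lf 2213 .lf))))) 2221 (.nd (.nd (.nd (.nd
(.nd (.nd .lf 2287 .lf) 2297 .lf) 2311 (.nd .lf 2351 .lf)) 2357 (.nd (.nd (.nd .lf 2459 .lf)
2539 .lf) 2579 (.nd .lf 2591 .lf))) 2621 (.nd (.nd (.nd (.nd .lf 2663 .lf) 2683 .lf) 2689 (.nd
.lf 2729 .lf)) 2731 (.nd (.nd (.nd .lf 2767 .lf) 2803 .lf) 2857 (.nd .lf 2927 .lf)))) 2969 (.nd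
(.nd (.nd (.nd (.nd .lf 3019 .lf) 3023 .lf) 3109 (.nd .lf 3119 .lf)) 3169 (.nd (.nd (.nd .lf
3217 .lf) 3319 .lf) 3389 (.nd .lf 3511 .lf))) 3529 (.nd (.nd (.nd (.nd .lf 3617 .lf) 3677 .lf)
3697 (.nd .lf 3767 .lf)) 3793 (.nd (.nd (.nd .lf 3803 .lf) 3823 .lf) 3851 (.nd .lf 3931
.lf)))))) 4051 (.nd (.nd (.nd (.nd (.nd (.nd (.nd .lf 4139 .lf) 4159 .lf) 4271 (.nd .lf 4447
.lf)) 4483 (.nd (.nd (.nd .lf 4549 .lf) 4591 .lf) 4621 (.nd .lf 4639 .lf))) 4729 (.nd (.nd (.nd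
(.nd .lf 4733 .lf) 4789 .lf) 4877 (.nd .lf 4951 .lf)) 4957 (.nd (.nd (.nd .lf 4967 .lf) 4969
.lf) 5113 (.nd .lf 5167 .lf)))) 5233 (.nd (.nd (.nd (.nd (.nd .lf 5347 .lf) 5419 .lf) 5503 (.nd
.lf 5563 .lf)) 5591 (.nd (.nd (.nd .lf 5657 .lf) 5741 .lf) 5779 (.nd .lf 5783 .lf))) 5839 (.nd
(.nd (.nd (.nd .lf 5851 .lf) 6007 .lf) 6131 (.nd .lf 6133 .lf)) 6217 (.nd (.nd (.nd .lf 6287
.lf) 6301 .lf) 6323 (.nd .lf 6367 .lf))))) 6529 (.nd (.nd (.nd (.nd (.nd (.nd .lf 6679 .lf) 6823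
.lf) 7103 (.nd .lf 7547 .lf)) 7561 (.nd (.nd (.nd .lf 7573 .lf) 7607 .lf) 7789 (.nd .lf 8059
.lf))) 8093 (.nd (.nd (.nd (.nd .lf 8219 .lf) 8429 .lf) 8513 (.nd .lf 8527 .lf)) 9001 (.nd (.nd
(.nd .lf 9181 .lf) 9199 .lf) 9277 (.nd .lf 9311 .lf)))) 9377 (.nd (.nd (.nd (.nd (.nd .lf 9857
.lf) 9883 .lf) 10111 (.nd .lf 10141 .lf)) 10321 (.nd (.nd (.nd .lf 10513 .lf) 10627 .lf) 10733
(.nd .lf 10753 .lf))) 10837 (.nd (.nd (.nd (.nd .lf 10891 .lf) 11131 .lf) 11257 (.nd .lf 11287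
.lf)) 11299 (.nd (.nd .lf 11321 .lf) 11579 (.nd .lf 11731 .lf)))))))) 11887 (.nd (.nd (.nd (.nd
(.nd (.nd (.nd (.nd (.nd .lf 11971 .lf) 12157 .lf) 12263 (.nd .lf 12503 .lf)) 12517 (.nd (.nd
(.nd .lf 12781 .lf) 13033 .lf) 13171 (.nd .lf 13327 .lf))) 13411 (.nd (.nd (.nd (.nd .lf 13441
.lf) 13537 .lf) 13903 (.nd .lf 14071 .lf)) 14149 (.nd (.nd (.nd .lf 14827 .lf) 14897 .lf) 16007
(.nd .lf 16249 .lf)))) 16843 (.nd (.nd (.nd (.nd (.nd .lf 17333 .lf) 17551 .lf) 17581 (.nd .lf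
18233 .lf)) 18917 (.nd (.nd (.nd .lf 19531 .lf) 19913 .lf) 20399 (.nd .lf 21379 .lf))) 21407
(.nd (.nd (.nd (.nd .lf 21617 .lf) 21911 .lf) 22807 (.nd .lf 27259 .lf)) 28349 (.nd (.nd (.nd
.lf 29761 .lf) 30839 .lf) 30941 (.nd .lf 31189 .lf))))) 31277 (.nd (.nd (.nd (.nd (.nd (.nd .lf
31723 .lf) 32693 .lf) 33601 (.nd .lf 35281 .lf)) 36457 (.nd (.nd (.nd .lf 37409 .lf) 38011 .lf)
38047 (.nd .lf 38971 .lf))) 39103 (.nd (.nd (.nd (.nd .lf 40111 .lf) 40237 .lf) 40927 (.nd .lf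
41077 .lf)) 41203 (.nd (.nd (.nd .lf 42463 .lf) 43933 .lf) 44983 (.nd .lf 45557 .lf)))) 46663
(.nd (.nd (.nd (.nd (.nd .lf 47497 .lf) 49711 .lf) 49739 (.nd .lf 52883 .lf)) 52957 (.nd (.nd
(.nd .lf 55147 .lf) 56263 .lf) 56533 (.nd .lf 57037 .lf))) 60943 (.nd (.nd (.nd (.nd .lf 61927
.lf) 63337 .lf) 67411 (.nd .lf 67891 .lf)) 70423 (.nd (.nd (.nd .lf 70841 .lf) 71119 .lf) 72101
(.nd .lf 75161 .lf)))))) 76819 (.nd (.nd (.nd (.nd (.nd (.nd (.nd .lf 79669 .lf) 80669 .lf)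
81439 (.nd .lf 82039 .lf)) 86179 (.nd (.nd (.nd .lf 86353 .lf) 88523 .lf) 89393 (.nd .lf 90397
.lf))) 91151 (.nd (.nd (.nd (.nd .lf 94151 .lf) 96043 .lf) 96293 (.nd .lf 97847 .lf)) 101921
(.nd (.nd (.nd .lf 109201 .lf) 109789 .lf) 112771 (.nd .lf 115903 .lf)))) 116803 (.nd (.nd (.nd
(.nd (.nd .lf 125287 .lf) 126233 .lf) 126967 (.nd .lf 128341 .lf)) 134857 (.nd (.nd (.nd .lf
140351 .lf) 142759 .lf) 144341 (.nd .lf 146777 .lf))) 154211 (.nd (.nd (.nd (.nd .lf 158341 .lf)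
161869 .lf) 162709 (.nd .lf 164011 .lf)) 165721 (.nd (.nd (.nd .lf 168869 .lf) 175811 .lf)
175897 (.nd .lf 178639 .lf))))) 196039 (.nd (.nd (.nd (.nd (.nd (.nd .lf 196159 .lf) 198241 .lf)
229237 (.nd .lf 233437 .lf)) 236527 (.nd (.nd (.nd .lf 239851 .lf) 241229 .lf) 244219 (.nd .lf
245561 .lf))) 253349 (.nd (.nd (.nd (.nd .lf 260191 .lf) 265873 .lf) 284477 (.nd .lf 287813
.lf)) 294313 (.nd (.nd (.nd .lf 307189 .lf) 335633 .lf) 340397 (.nd .lf 368551 .lf)))) 383759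
(.nd (.nd (.nd (.nd (.nd .lf 398581 .lf) 418559 .lf) 425363 (.nd .lf 454609 .lf)) 475483 (.nd
(.nd (.nd .lf 477721 .lf) 492967 .lf) 506699 (.nd .lf 516391 .lf))) 522061 (.nd (.nd (.nd (.nd
.lf 552793 .lf) 562841 .lf) 562987 (.nd .lf 604441 .lf)) 616157 (.nd (.nd .lf 629569 .lf) 643567
(.nd .lf 670297 .lf))))))) 672127 (.nd (.nd (.nd (.nd (.nd (.nd (.nd (.nd .lf 705643 .lf) 708359
.lf) 709871 (.nd .lf 733591 .lf)) 766187 (.nd (.nd (.nd .lf 766861 .lf) 768437 .lf) 784841 (.nd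
.lf 870031 .lf))) 927137 (.nd (.nd (.nd (.nd .lf 1055489 .lf) 1111867 .lf) 1124719 (.nd .lf
1219891 .lf)) 1239323 (.nd (.nd (.nd .lf 1269193 .lf) 1392539 .lf) 1404743 (.nd .lf 1460747
.lf)))) 1513921 (.nd (.nd (.nd (.nd (.nd .lf 1549351 .lf) 1576951 .lf) 1627693 (.nd .lf 1745143
.lf)) 1765891 (.nd (.nd (.nd .lf 2180921 .lf) 2384047 .lf) 2403521 (.nd .lf 2413981 .lf)))
2483447 (.nd (.nd (.nd (.nd .lf 2548171 .lf) 2624177 .lf) 2856449 (.nd .lf 2957767 .lf)) 2982979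
(.nd (.nd (.nd .lf 3060947 .lf) 3304489 .lf) 3445639 (.nd .lf 3482179 .lf))))) 3718919 (.nd (.nd
(.nd (.nd (.nd (.nd .lf 3754507 .lf) 3828931 .lf) 4086073 (.nd .lf 4582817 .lf)) 4824581 (.nd
(.nd (.nd .lf 5229043 .lf) 5465323 .lf) 5800579 (.nd .lf 5924647 .lf))) 6032531 (.nd (.nd (.nd
(.nd .lf 6065221 .lf) 6705469 .lf) 6827449 (.nd .lf 7063513 .lf)) 7520687 (.nd (.nd (.nd .lf
9296107 .lf) 9917027 .lf) 12734119 (.nd .lf 13004671 .lf)))) 14686393 (.nd (.nd (.nd (.nd (.nd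
.lf 14871907 .lf) 15450709 .lf) 20053433 (.nd .lf 20241187 .lf)) 20871163 (.nd (.nd (.nd .lf
20890381 .lf) 21020917 .lf) 21178709 (.nd .lf 22204081 .lf))) 23202317 (.nd (.nd (.nd (.nd .lf
30677663 .lf) 31741751 .lf) 36907193 (.nd .lf 38533987 .lf)) 41233879 (.nd (.nd (.nd .lf
52051567 .lf) 53306107 .lf) 53921869 (.nd .lf 59762587 .lf)))))) 63002711 (.nd (.nd (.nd (.nd
(.nd (.nd (.nd .lf 63941347 .lf) 72377887 .lf) 72577051 (.nd .lf 83523413 .lf)) 88009573 (.nd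
(.nd (.nd .lf 125968529 .lf) 127159831 .lf) 127688149 (.nd .lf 162428803 .lf))) 167046827 (.nd
(.nd (.nd (.nd .lf 178814413 .lf) 202632403 .lf) 258785941 (.nd .lf 353091019 .lf)) 375036313
(.nd (.nd (.nd .lf 412544161 .lf) 789677071 .lf) 817018003 (.nd .lf 912947897 .lf)))) 917087137
(.nd (.nd (.nd (.nd (.nd .lf 1002280963 .lf) 1252925119 .lf) 1465469347 (.nd .lf 1478526139
.lf)) 1497157061 (.nd (.nd (.nd .lf 1706822489 .lf) 1727870509 .lf) 2485642321 (.nd .lf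
2907228403 .lf))) 3093060713 (.nd (.nd (.nd (.nd .lf 4777787407 .lf) 6259457419 .lf) 7055862491
(.nd .lf 9332228237 .lf)) 11309108021 (.nd (.nd (.nd .lf 11621514913 .lf) 11666890943 .lf)
21570026591 (.nd .lf 29485268749 .lf))))) 30752977667 (.nd (.nd (.nd (.nd (.nd (.nd .lf
34836924361 .lf) 35081903333 .lf) 52379047267 (.nd .lf 52777342829 .lf)) 55993369423 (.nd (.nd
(.nd .lf 62725777337 .lf) 65522613283 .lf) 320374117039 (.nd .lf 395128299497 .lf)))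
410561678773 (.nd (.nd (.nd (.nd .lf 540235775537 .lf) 878160882719 .lf) 1173090382031 (.nd .lf
1273697697539 .lf)) 1407376241059 (.nd (.nd (.nd .lf 1427168974267 .lf) 1839385378027 .lf)
2649631150951 (.nd .lf 4860885889817 .lf)))) 5341551215113 (.nd (.nd (.nd (.nd (.nd .lf
7194405574757 .lf) 7303817719213 .lf) 8910430376863 (.nd .lf 9872250674161 .lf)) 37571377505159
(.nd (.nd (.nd .lf 49312005546883 .lf) 121012813720289 .lf) 212613860681191 (.nd .lf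
770565152440553 .lf))) 1287750186827959 (.nd (.nd (.nd (.nd .lf 3130410513042149 .lf)
4974664068277009 .lf) 5522944621250897 (.nd .lf 10295614116572821 .lf)) 51972385872044569 (.nd
(.nd .lf 95281244588123623 .lf) 116087167931930287 (.nd .lf 857903378469374441 .lf)))))))))

/-- certificates -/
def ES_0 : List En :=
[(2, 1, []), (3, 2, [(2, 1)]), (5, 2, [(2, 2)]), (7, 3, [(2, 1), (3, 1)]), (11, 2, [(2, 1), (5,
1)]), (13, 2, [(2, 2), (3, 1)]), (17, 3, [(2, 4)]), (19, 2, [(2, 1), (3, 2)]), (23, 5, [(2, 1),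
(11, 1)]), (29, 2, [(2, 2), (7, 1)]), (31, 3, [(2, 1), (3, 1), (5, 1)]), (37, 2, [(2, 2), (3,
2)]), (41, 6, [(2, 3), (5, 1)]), (43, 3, [(2, 1), (3, 1), (7, 1)]), (47, 5, [(2, 1), (23, 1)]),
(53, 2, [(2, 2), (13, 1)]), (59, 2, [(2, 1), (29, 1)]), (61, 2, [(2, 2), (3, 1), (5, 1)]), (67,
2, [(2, 1), (3, 1), (11, 1)]), (71, 7, [(2, 1), (5, 1), (7, 1)]), (73, 5, [(2, 3), (3, 2)]),
(79, 3, [(2, 1), (3, 1), (13, 1)]), (83, 2, [(2, 1), (41, 1)]), (89, 3, [(2, 3), (11, 1)]), (97,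
5, [(2, 5), (3, 1)]), (101, 2, [(2, 2), (5, 2)]), (103, 5, [(2, 1), (3, 1), (17, 1)]), (107, 2,
[(2, 1), (53, 1)]), (109, 6, [(2, 2), (3, 3)]), (113, 3, [(2, 4), (7, 1)]), (127, 3, [(2, 1),
(3, 2), (7, 1)]), (131, 2, [(2, 1), (5, 1), (13, 1)]), (137, 3, [(2, 3), (17, 1)]), (139, 2,
[(2, 1), (3, 1), (23, 1)]), (149, 2, [(2, 2), (37, 1)]), (151, 6, [(2, 1), (3, 1), (5, 2)]),
(157, 5, [(2, 2), (3, 1), (13, 1)]), (163, 2, [(2, 1), (3, 4)]), (167, 5, [(2, 1), (83, 1)]),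
(173, 2, [(2, 2), (43, 1)]), (179, 2, [(2, 1), (89, 1)]), (181, 2, [(2, 2), (3, 2), (5, 1)]),
(191, 19, [(2, 1), (5, 1), (19, 1)]), (193, 5, [(2, 6), (3, 1)]), (197, 2, [(2, 2), (7, 2)]),
(199, 3, [(2, 1), (3, 2), (11, 1)]), (211, 2, [(2, 1), (3, 1), (5, 1), (7, 1)]), (223, 3, [(2,
1), (3, 1), (37, 1)]), (229, 6, [(2, 2), (3, 1), (19, 1)]), (233, 3, [(2, 3), (29, 1)]), (239,
7, [(2, 1), (7, 1), (17, 1)]), (241, 7, [(2, 4), (3, 1), (5, 1)]), (251, 6, [(2, 1), (5, 3)]),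
(257, 3, [(2, 8)]), (269, 2, [(2, 2), (67, 1)]), (271, 6, [(2, 1), (3, 3), (5, 1)]), (277, 5,
[(2, 2), (3, 1), (23, 1)]), (281, 3, [(2, 3), (5, 1), (7, 1)]), (283, 3, [(2, 1), (3, 1), (47,
1)]), (293, 2, [(2, 2), (73, 1)]), (307, 5, [(2, 1), (3, 2), (17, 1)]), (311, 17, [(2, 1), (5,
1), (31, 1)]), (313, 10, [(2, 3), (3, 1), (13, 1)]), (317, 2, [(2, 2), (79, 1)]), (331, 3, [(2,
1), (3, 1), (5, 1), (11, 1)]), (337, 10, [(2, 4), (3, 1), (7, 1)]), (347, 2, [(2, 1), (173,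
1)]), (349, 2, [(2, 2), (3, 1), (29, 1)]), (353, 3, [(2, 5), (11, 1)]), (359, 7, [(2, 1), (179,
1)]), (367, 6, [(2, 1), (3, 1), (61, 1)]), (373, 2, [(2, 2), (3, 1), (31, 1)]), (379, 2, [(2,
1), (3, 3), (7, 1)]), (383, 5, [(2, 1), (191, 1)]), (397, 5, [(2, 2), (3, 2), (11, 1)]), (401,
3, [(2, 4), (5, 2)]), (409, 21, [(2, 3), (3, 1), (17, 1)]), (419, 2, [(2, 1), (11, 1), (19,
1)]), (421, 2, [(2, 2), (3, 1), (5, 1), (7, 1)]), (431, 7, [(2, 1), (5, 1), (43, 1)]), (433, 5,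
[(2, 4), (3, 3)]), (439, 15, [(2, 1), (3, 1), (73, 1)]), (449, 3, [(2, 6), (7, 1)]), (457, 13,
[(2, 3), (3, 1), (19, 1)]), (461, 2, [(2, 2), (5, 1), (23, 1)]), (463, 3, [(2, 1), (3, 1), (7,
1), (11, 1)]), (467, 2, [(2, 1), (233, 1)]), (479, 13, [(2, 1), (239, 1)]), (487, 3, [(2, 1),
(3, 5)]), (491, 2, [(2, 1), (5, 1), (7, 2)]), (499, 7, [(2, 1), (3, 1), (83, 1)]), (503, 5, [(2,
1), (251, 1)]), (509, 2, [(2, 2), (127, 1)]), (523, 2, [(2, 1), (3, 2), (29, 1)]), (541, 2, [(2,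
2), (3, 3), (5, 1)]), (547, 2, [(2, 1), (3, 1), (7, 1), (13, 1)]), (571, 3, [(2, 1), (3, 1), (5,
1), (19, 1)]), (587, 2, [(2, 1), (293, 1)]), (599, 7, [(2, 1), (13, 1), (23, 1)]), (607, 3, [(2,
1), (3, 1), (101, 1)]), (613, 2, [(2, 2), (3, 2), (17, 1)]), (617, 3, [(2, 3), (7, 1), (11,
1)]), (619, 2, [(2, 1), (3, 1), (103, 1)]), (631, 3, [(2, 1), (3, 2), (5, 1), (7, 1)]), (653, 2,
[(2, 2), (163, 1)]), (659, 2, [(2, 1), (7, 1), (47, 1)]), (673, 5, [(2, 5), (3, 1), (7, 1)]),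
(677, 2, [(2, 2), (13, 2)]), (701, 2, [(2, 2), (5, 2), (7, 1)]), (709, 2, [(2, 2), (3, 1), (59,
1)]), (719, 11, [(2, 1), (359, 1)]), (727, 5, [(2, 1), (3, 1), (11, 2)]), (733, 6, [(2, 2), (3,
1), (61, 1)]), (743, 5, [(2, 1), (7, 1), (53, 1)]), (757, 2, [(2, 2), (3, 3), (7, 1)]), (773, 2,
[(2, 2), (193, 1)]), (787, 2, [(2, 1), (3, 1), (131, 1)]), (797, 2, [(2, 2), (199, 1)]), (823,
3, [(2, 1), (3, 1), (137, 1)]), (827, 2, [(2, 1), (7, 1), (59, 1)]), (877, 2, [(2, 2), (3, 1),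
(73, 1)]), (881, 3, [(2, 4), (5, 1), (11, 1)]), (883, 2, [(2, 1), (3, 2), (7, 2)]), (907, 2,
[(2, 1), (3, 1), (151, 1)]), (911, 17, [(2, 1), (5, 1), (7, 1), (13, 1)]), (919, 7, [(2, 1), (3,
3), (17, 1)]), (937, 5, [(2, 3), (3, 2), (13, 1)]), (947, 2, [(2, 1), (11, 1), (43, 1)]), (953,
3, [(2, 3), (7, 1), (17, 1)]), (967, 5, [(2, 1), (3, 1), (7, 1), (23, 1)]), (991, 6, [(2, 1),
(3, 2), (5, 1), (11, 1)]), (997, 7, [(2, 2), (3, 1), (83, 1)]), (1009, 11, [(2, 4), (3, 2), (7,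
1)]), (1013, 3, [(2, 2), (11, 1), (23, 1)]), (1021, 10, [(2, 2), (3, 1), (5, 1), (17, 1)]),
(1031, 14, [(2, 1), (5, 1), (103, 1)]), (1033, 5, [(2, 3), (3, 1), (43, 1)]), (1049, 3, [(2, 3),
(131, 1)]), (1051, 7, [(2, 1), (3, 1), (5, 2), (7, 1)]), (1061, 2, [(2, 2), (5, 1), (53, 1)]),
(1063, 3, [(2, 1), (3, 2), (59, 1)]), (1093, 5, [(2, 2), (3, 1), (7, 1), (13, 1)]), (1117, 2,
[(2, 2), (3, 2), (31, 1)]), (1123, 2, [(2, 1), (3, 1), (11, 1), (17, 1)]), (1151, 17, [(2, 1),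
(5, 2), (23, 1)]), (1163, 5, [(2, 1), (7, 1), (83, 1)]), (1229, 2, [(2, 2), (307, 1)]), (1231,
3, [(2, 1), (3, 1), (5, 1), (41, 1)]), (1279, 3, [(2, 1), (3, 2), (71, 1)]), (1289, 6, [(2, 3),
(7, 1), (23, 1)]), (1307, 2, [(2, 1), (653, 1)]), (1321, 13, [(2, 3), (3, 1), (5, 1), (11, 1)]),
(1327, 3, [(2, 1), (3, 1), (13, 1), (17, 1)]), (1381, 2, [(2, 2), (3, 1), (5, 1), (23, 1)]),
(1429, 6, [(2, 2), (3, 1), (7, 1), (17, 1)]), (1433, 3, [(2, 3), (179, 1)]), (1439, 7, [(2, 1),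
(719, 1)]), (1451, 2, [(2, 1), (5, 2), (29, 1)]), (1471, 6, [(2, 1), (3, 1), (5, 1), (7, 2)]),
(1483, 2, [(2, 1), (3, 1), (13, 1), (19, 1)]), (1499, 2, [(2, 1), (7, 1), (107, 1)]), (1511, 11,
[(2, 1), (5, 1), (151, 1)]), (1543, 5, [(2, 1), (3, 1), (257, 1)]), (1559, 19, [(2, 1), (19, 1),
(41, 1)]), (1567, 3, [(2, 1), (3, 3), (29, 1)]), (1583, 5, [(2, 1), (7, 1), (113, 1)]), (1597,
11, [(2, 2), (3, 1), (7, 1), (19, 1)]), (1627, 3, [(2, 1), (3, 1), (271, 1)]), (1657, 11, [(2,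
3), (3, 2), (23, 1)]), (1667, 2, [(2, 1), (7, 2), (17, 1)]), (1669, 2, [(2, 2), (3, 1), (139,
1)]), (1699, 3, [(2, 1), (3, 1), (283, 1)]), (1709, 3, [(2, 2), (7, 1), (61, 1)]), (1723, 3,
[(2, 1), (3, 1), (7, 1), (41, 1)]), (1823, 5, [(2, 1), (911, 1)]), (1873, 10, [(2, 4), (3, 2),
(13, 1)]), (1879, 6, [(2, 1), (3, 1), (313, 1)]), (1901, 2, [(2, 2), (5, 2), (19, 1)]), (1907,
2, [(2, 1), (953, 1)]), (1913, 3, [(2, 3), (239, 1)]), (1933, 5, [(2, 2), (3, 1), (7, 1), (23,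
1)]), (1979, 2, [(2, 1), (23, 1), (43, 1)]), (2003, 5, [(2, 1), (7, 1), (11, 1), (13, 1)]),
(2011, 3, [(2, 1), (3, 1), (5, 1), (67, 1)]), (2017, 5, [(2, 5), (3, 2), (7, 1)]), (2053, 2,
[(2, 2), (3, 3), (19, 1)]), (2063, 5, [(2, 1), (1031, 1)]), (2069, 2, [(2, 2), (11, 1), (47,
1)]), (2081, 3, [(2, 5), (5, 1), (13, 1)]), (2083, 2, [(2, 1), (3, 1), (347, 1)]), (2087, 5,
[(2, 1), (7, 1), (149, 1)]), (2089, 7, [(2, 3), (3, 2), (29, 1)]), (2099, 2, [(2, 1), (1049,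
1)]), (2129, 3, [(2, 4), (7, 1), (19, 1)]), (2137, 10, [(2, 3), (3, 1), (89, 1)]), (2143, 3,
[(2, 1), (3, 2), (7, 1), (17, 1)]), (2203, 5, [(2, 1), (3, 1), (367, 1)]), (2213, 2, [(2, 2),
(7, 1), (79, 1)]), (2221, 2, [(2, 2), (3, 1), (5, 1), (37, 1)]), (2287, 19, [(2, 1), (3, 2),
(127, 1)])]

/-- certificates -/
def ES_1 : List En :=
[(2297, 5, [(2, 3), (7, 1), (41, 1)]), (2311, 3, [(2, 1), (3, 1), (5, 1), (7, 1), (11, 1)]),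
(2351, 13, [(2, 1), (5, 2), (47, 1)]), (2357, 2, [(2, 2), (19, 1), (31, 1)]), (2459, 2, [(2, 1),
(1229, 1)]), (2539, 2, [(2, 1), (3, 3), (47, 1)]), (2579, 2, [(2, 1), (1289, 1)]), (2591, 7,
[(2, 1), (5, 1), (7, 1), (37, 1)]), (2621, 2, [(2, 2), (5, 1), (131, 1)]), (2663, 5, [(2, 1),
(11, 3)]), (2683, 2, [(2, 1), (3, 2), (149, 1)]), (2689, 19, [(2, 7), (3, 1), (7, 1)]), (2729,
3, [(2, 3), (11, 1), (31, 1)]), (2731, 3, [(2, 1), (3, 1), (5, 1), (7, 1), (13, 1)]), (2767, 3,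
[(2, 1), (3, 1), (461, 1)]), (2803, 2, [(2, 1), (3, 1), (467, 1)]), (2857, 11, [(2, 3), (3, 1),
(7, 1), (17, 1)]), (2927, 5, [(2, 1), (7, 1), (11, 1), (19, 1)]), (2969, 3, [(2, 3), (7, 1),
(53, 1)]), (3019, 2, [(2, 1), (3, 1), (503, 1)]), (3023, 5, [(2, 1), (1511, 1)]), (3109, 6, [(2,
2), (3, 1), (7, 1), (37, 1)]), (3119, 7, [(2, 1), (1559, 1)]), (3169, 7, [(2, 5), (3, 2), (11,
1)]), (3217, 5, [(2, 4), (3, 1), (67, 1)]), (3319, 6, [(2, 1), (3, 1), (7, 1), (79, 1)]), (3389,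
3, [(2, 2), (7, 1), (11, 2)]), (3511, 7, [(2, 1), (3, 3), (5, 1), (13, 1)]), (3529, 17, [(2, 3),
(3, 2), (7, 2)]), (3617, 3, [(2, 5), (113, 1)]), (3677, 2, [(2, 2), (919, 1)]), (3697, 5, [(2,
4), (3, 1), (7, 1), (11, 1)]), (3767, 5, [(2, 1), (7, 1), (269, 1)]), (3793, 5, [(2, 4), (3, 1),
(79, 1)]), (3803, 2, [(2, 1), (1901, 1)]), (3823, 3, [(2, 1), (3, 1), (7, 2), (13, 1)]), (3851,
2, [(2, 1), (5, 2), (7, 1), (11, 1)]), (3931, 2, [(2, 1), (3, 1), (5, 1), (131, 1)]), (4051, 10,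
[(2, 1), (3, 4), (5, 2)]), (4139, 2, [(2, 1), (2069, 1)]), (4159, 3, [(2, 1), (3, 3), (7, 1),
(11, 1)]), (4271, 7, [(2, 1), (5, 1), (7, 1), (61, 1)]), (4447, 3, [(2, 1), (3, 2), (13, 1),
(19, 1)]), (4483, 2, [(2, 1), (3, 3), (83, 1)]), (4549, 6, [(2, 2), (3, 1), (379, 1)]), (4591,
11, [(2, 1), (3, 3), (5, 1), (17, 1)]), (4621, 2, [(2, 2), (3, 1), (5, 1), (7, 1), (11, 1)]),
(4639, 3, [(2, 1), (3, 1), (773, 1)]), (4729, 17, [(2, 3), (3, 1), (197, 1)]), (4733, 5, [(2,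
2), (7, 1), (13, 2)]), (4789, 2, [(2, 2), (3, 2), (7, 1), (19, 1)]), (4877, 2, [(2, 2), (23, 1),
(53, 1)]), (4951, 6, [(2, 1), (3, 2), (5, 2), (11, 1)]), (4957, 2, [(2, 2), (3, 1), (7, 1), (59,
1)]), (4967, 5, [(2, 1), (13, 1), (191, 1)]), (4969, 11, [(2, 3), (3, 3), (23, 1)]), (5113, 19,
[(2, 3), (3, 2), (71, 1)]), (5167, 6, [(2, 1), (3, 2), (7, 1), (41, 1)]), (5233, 10, [(2, 4),
(3, 1), (109, 1)]), (5347, 3, [(2, 1), (3, 5), (11, 1)]), (5419, 3, [(2, 1), (3, 2), (7, 1),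
(43, 1)]), (5503, 3, [(2, 1), (3, 1), (7, 1), (131, 1)]), (5563, 2, [(2, 1), (3, 3), (103, 1)]),
(5591, 11, [(2, 1), (5, 1), (13, 1), (43, 1)]), (5657, 3, [(2, 3), (7, 1), (101, 1)]), (5741, 2,
[(2, 2), (5, 1), (7, 1), (41, 1)]), (5779, 2, [(2, 1), (3, 3), (107, 1)]), (5783, 7, [(2, 1),
(7, 2), (59, 1)]), (5839, 6, [(2, 1), (3, 1), (7, 1), (139, 1)]), (5851, 2, [(2, 1), (3, 2), (5,
2), (13, 1)]), (6007, 3, [(2, 1), (3, 1), (7, 1), (11, 1), (13, 1)]), (6131, 2, [(2, 1), (5, 1),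
(613, 1)]), (6133, 5, [(2, 2), (3, 1), (7, 1), (73, 1)]), (6217, 5, [(2, 3), (3, 1), (7, 1),
(37, 1)]), (6287, 7, [(2, 1), (7, 1), (449, 1)]), (6301, 10, [(2, 2), (3, 2), (5, 2), (7, 1)]),
(6323, 2, [(2, 1), (29, 1), (109, 1)]), (6367, 3, [(2, 1), (3, 1), (1061, 1)]), (6529, 7, [(2,
7), (3, 1), (17, 1)]), (6679, 7, [(2, 1), (3, 2), (7, 1), (53, 1)]), (6823, 3, [(2, 1), (3, 2),
(379, 1)]), (7103, 5, [(2, 1), (53, 1), (67, 1)]), (7547, 2, [(2, 1), (7, 3), (11, 1)]), (7561,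
13, [(2, 3), (3, 3), (5, 1), (7, 1)]), (7573, 2, [(2, 2), (3, 1), (631, 1)]), (7607, 5, [(2, 1),
(3803, 1)]), (7789, 2, [(2, 2), (3, 1), (11, 1), (59, 1)]), (8059, 3, [(2, 1), (3, 1), (17, 1),
(79, 1)]), (8093, 2, [(2, 2), (7, 1), (17, 2)]), (8219, 2, [(2, 1), (7, 1), (587, 1)]), (8429,
2, [(2, 2), (7, 2), (43, 1)]), (8513, 5, [(2, 6), (7, 1), (19, 1)]), (8527, 5, [(2, 1), (3, 1),
(7, 2), (29, 1)]), (9001, 7, [(2, 3), (3, 2), (5, 3)]), (9181, 2, [(2, 2), (3, 3), (5, 1), (17,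
1)]), (9199, 3, [(2, 1), (3, 2), (7, 1), (73, 1)]), (9277, 5, [(2, 2), (3, 1), (773, 1)]),
(9311, 7, [(2, 1), (5, 1), (7, 2), (19, 1)]), (9377, 3, [(2, 5), (293, 1)]), (9857, 5, [(2, 7),
(7, 1), (11, 1)]), (9883, 2, [(2, 1), (3, 4), (61, 1)]), (10111, 12, [(2, 1), (3, 1), (5, 1),
(337, 1)]), (10141, 2, [(2, 2), (3, 1), (5, 1), (13, 2)]), (10321, 7, [(2, 4), (3, 1), (5, 1),
(43, 1)]), (10513, 7, [(2, 4), (3, 2), (73, 1)]), (10627, 5, [(2, 1), (3, 1), (7, 1), (11, 1),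
(23, 1)]), (10733, 2, [(2, 2), (2683, 1)]), (10753, 11, [(2, 9), (3, 1), (7, 1)]), (10837, 2,
[(2, 2), (3, 2), (7, 1), (43, 1)]), (10891, 2, [(2, 1), (3, 2), (5, 1), (11, 2)]), (11131, 2,
[(2, 1), (3, 1), (5, 1), (7, 1), (53, 1)]), (11257, 10, [(2, 3), (3, 1), (7, 1), (67, 1)]),
(11287, 3, [(2, 1), (3, 3), (11, 1), (19, 1)]), (11299, 3, [(2, 1), (3, 1), (7, 1), (269, 1)]),
(11321, 3, [(2, 3), (5, 1), (283, 1)]), (11579, 2, [(2, 1), (7, 1), (827, 1)]), (11731, 3, [(2,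
1), (3, 1), (5, 1), (17, 1), (23, 1)]), (11887, 3, [(2, 1), (3, 1), (7, 1), (283, 1)]), (11971,
10, [(2, 1), (3, 2), (5, 1), (7, 1), (19, 1)]), (12157, 2, [(2, 2), (3, 1), (1013, 1)]), (12263,
5, [(2, 1), (6131, 1)]), (12503, 5, [(2, 1), (7, 1), (19, 1), (47, 1)]), (12517, 6, [(2, 2), (3,
1), (7, 1), (149, 1)]), (12781, 2, [(2, 2), (3, 2), (5, 1), (71, 1)]), (13033, 5, [(2, 3), (3,
2), (181, 1)]), (13171, 11, [(2, 1), (3, 1), (5, 1), (439, 1)]), (13327, 3, [(2, 1), (3, 1),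
(2221, 1)]), (13411, 2, [(2, 1), (3, 2), (5, 1), (149, 1)]), (13441, 11, [(2, 7), (3, 1), (5,
1), (7, 1)]), (13537, 7, [(2, 5), (3, 2), (47, 1)]), (13903, 3, [(2, 1), (3, 1), (7, 1), (331,
1)]), (14071, 7, [(2, 1), (3, 1), (5, 1), (7, 1), (67, 1)]), (14149, 6, [(2, 2), (3, 3), (131,
1)]), (14827, 2, [(2, 1), (3, 1), (7, 1), (353, 1)]), (14897, 3, [(2, 4), (7, 2), (19, 1)]),
(16007, 5, [(2, 1), (53, 1), (151, 1)]), (16249, 17, [(2, 3), (3, 1), (677, 1)]), (16843, 2,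
[(2, 1), (3, 1), (7, 1), (401, 1)]), (17333, 2, [(2, 2), (7, 1), (619, 1)]), (17551, 3, [(2, 1),
(3, 3), (5, 2), (13, 1)]), (17581, 10, [(2, 2), (3, 1), (5, 1), (293, 1)]), (18233, 3, [(2, 3),
(43, 1), (53, 1)]), (18917, 2, [(2, 2), (4729, 1)]), (19531, 13, [(2, 1), (3, 2), (5, 1), (7,
1), (31, 1)]), (19913, 3, [(2, 3), (19, 1), (131, 1)]), (20399, 7, [(2, 1), (7, 1), (31, 1),
(47, 1)]), (21379, 2, [(2, 1), (3, 1), (7, 1), (509, 1)]), (21407, 5, [(2, 1), (7, 1), (11, 1),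
(139, 1)]), (21617, 3, [(2, 4), (7, 1), (193, 1)]), (21911, 13, [(2, 1), (5, 1), (7, 1), (313,
1)]), (22807, 3, [(2, 1), (3, 2), (7, 1), (181, 1)]), (27259, 2, [(2, 1), (3, 1), (7, 1), (11,
1), (59, 1)]), (28349, 2, [(2, 2), (19, 1), (373, 1)]), (29761, 17, [(2, 6), (3, 1), (5, 1),
(31, 1)]), (30839, 7, [(2, 1), (17, 1), (907, 1)]), (30941, 2, [(2, 2), (5, 1), (7, 1), (13, 1),
(17, 1)]), (31189, 13, [(2, 2), (3, 1), (23, 1), (113, 1)]), (31277, 2, [(2, 2), (7, 1), (1117,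
1)]), (31723, 3, [(2, 1), (3, 1), (17, 1), (311, 1)]), (32693, 2, [(2, 2), (11, 1), (743, 1)]),
(33601, 29, [(2, 6), (3, 1), (5, 2), (7, 1)]), (35281, 23, [(2, 4), (3, 2), (5, 1), (7, 2)]),
(36457, 5, [(2, 3), (3, 1), (7, 2), (31, 1)]), (37409, 3, [(2, 5), (7, 1), (167, 1)]), (38011,
2, [(2, 1), (3, 1), (5, 1), (7, 1), (181, 1)]), (38047, 3, [(2, 1), (3, 1), (17, 1), (373, 1)]),
(38971, 2, [(2, 1), (3, 2), (5, 1), (433, 1)]), (39103, 5, [(2, 1), (3, 1), (7, 3), (19, 1)]),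
(40111, 3, [(2, 1), (3, 1), (5, 1), (7, 1), (191, 1)]), (40237, 6, [(2, 2), (3, 1), (7, 1),
(479, 1)]), (40927, 3, [(2, 1), (3, 1), (19, 1), (359, 1)]), (41077, 2, [(2, 2), (3, 2), (7, 1),
(163, 1)]), (41203, 3, [(2, 1), (3, 3), (7, 1), (109, 1)]), (42463, 3, [(2, 1), (3, 2), (7, 1),
(337, 1)]), (43933, 2, [(2, 2), (3, 1), (7, 1), (523, 1)]), (44983, 3, [(2, 1), (3, 3), (7, 2),
(17, 1)]), (45557, 3, [(2, 2), (7, 1), (1627, 1)]), (46663, 5, [(2, 1), (3, 1), (7, 1), (11, 1),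
(101, 1)]), (47497, 5, [(2, 3), (3, 1), (1979, 1)]), (49711, 7, [(2, 1), (3, 1), (5, 1), (1657,
1)]), (49739, 2, [(2, 1), (13, 1), (1913, 1)]), (52883, 2, [(2, 1), (137, 1), (193, 1)]),
(52957, 5, [(2, 2), (3, 2), (1471, 1)]), (55147, 5, [(2, 1), (3, 1), (7, 1), (13, 1), (101,
1)]), (56263, 3, [(2, 1), (3, 1), (9377, 1)]), (56533, 5, [(2, 2), (3, 1), (7, 1), (673, 1)]),
(57037, 5, [(2, 2), (3, 1), (7, 2), (97, 1)]), (60943, 5, [(2, 1), (3, 1), (7, 1), (1451, 1)]),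
(61927, 3, [(2, 1), (3, 1), (10321, 1)]), (63337, 5, [(2, 3), (3, 1), (7, 1), (13, 1), (29,
1)]), (67411, 2, [(2, 1), (3, 2), (5, 1), (7, 1), (107, 1)]), (67891, 3, [(2, 1), (3, 1), (5,
1), (31, 1), (73, 1)]), (70423, 5, [(2, 1), (3, 1), (11, 2), (97, 1)]), (70841, 3, [(2, 3), (5,
1), (7, 1), (11, 1), (23, 1)]), (71119, 3, [(2, 1), (3, 4), (439, 1)]), (72101, 2, [(2, 2), (5,
2), (7, 1), (103, 1)]), (75161, 3, [(2, 3), (5, 1), (1879, 1)]), (76819, 7, [(2, 1), (3, 1), (7,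
1), (31, 1), (59, 1)]), (79669, 10, [(2, 2), (3, 2), (2213, 1)]), (80669, 2, [(2, 2), (7, 1),
(43, 1), (67, 1)])]

/-- certificates -/
def ES_2 : List En :=
[(81439, 3, [(2, 1), (3, 1), (7, 2), (277, 1)]), (82039, 15, [(2, 1), (3, 1), (11, 2), (113,
1)]), (86179, 2, [(2, 1), (3, 1), (53, 1), (271, 1)]), (86353, 10, [(2, 4), (3, 1), (7, 1),
(257, 1)]), (88523, 2, [(2, 1), (7, 1), (6323, 1)]), (89393, 3, [(2, 4), (37, 1), (151, 1)]),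
(90397, 2, [(2, 2), (3, 6), (31, 1)]), (91151, 7, [(2, 1), (5, 2), (1823, 1)]), (94151, 7, [(2,
1), (5, 2), (7, 1), (269, 1)]), (96043, 2, [(2, 1), (3, 1), (16007, 1)]), (96293, 2, [(2, 2),
(7, 1), (19, 1), (181, 1)]), (97847, 5, [(2, 1), (7, 1), (29, 1), (241, 1)]), (101921, 11, [(2,
5), (5, 1), (7, 2), (13, 1)]), (109201, 17, [(2, 4), (3, 1), (5, 2), (7, 1), (13, 1)]), (109789,
10, [(2, 2), (3, 1), (7, 1), (1307, 1)]), (112771, 2, [(2, 1), (3, 2), (5, 1), (7, 1), (179,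
1)]), (115903, 3, [(2, 1), (3, 2), (47, 1), (137, 1)]), (116803, 2, [(2, 1), (3, 4), (7, 1),
(103, 1)]), (125287, 3, [(2, 1), (3, 1), (7, 1), (19, 1), (157, 1)]), (126233, 3, [(2, 3), (31,
1), (509, 1)]), (126967, 3, [(2, 1), (3, 1), (7, 1), (3023, 1)]), (128341, 2, [(2, 2), (3, 2),
(5, 1), (23, 1), (31, 1)]), (134857, 5, [(2, 3), (3, 2), (1873, 1)]), (140351, 28, [(2, 1), (5,
2), (7, 1), (401, 1)]), (142759, 6, [(2, 1), (3, 2), (7, 1), (11, 1), (103, 1)]), (144341, 2,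
[(2, 2), (5, 1), (7, 1), (1031, 1)]), (146777, 3, [(2, 3), (7, 1), (2621, 1)]), (154211, 2, [(2,
1), (5, 1), (7, 1), (2203, 1)]), (158341, 2, [(2, 2), (3, 1), (5, 1), (7, 1), (13, 1), (29,
1)]), (161869, 6, [(2, 2), (3, 1), (7, 1), (41, 1), (47, 1)]), (162709, 2, [(2, 2), (3, 1), (7,
1), (13, 1), (149, 1)]), (164011, 7, [(2, 1), (3, 1), (5, 1), (7, 1), (11, 1), (71, 1)]),
(165721, 14, [(2, 3), (3, 1), (5, 1), (1381, 1)]), (168869, 2, [(2, 2), (7, 1), (37, 1), (163,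
1)]), (175811, 2, [(2, 1), (5, 1), (17581, 1)]), (175897, 10, [(2, 3), (3, 2), (7, 1), (349,
1)]), (178639, 3, [(2, 1), (3, 1), (19, 1), (1567, 1)]), (196039, 3, [(2, 1), (3, 2), (10891,
1)]), (196159, 3, [(2, 1), (3, 1), (32693, 1)]), (198241, 19, [(2, 5), (3, 1), (5, 1), (7, 1),
(59, 1)]), (229237, 6, [(2, 2), (3, 1), (7, 1), (2729, 1)]), (233437, 5, [(2, 2), (3, 1), (7,
2), (397, 1)]), (236527, 3, [(2, 1), (3, 1), (79, 1), (499, 1)]), (239851, 3, [(2, 1), (3, 2),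
(5, 2), (13, 1), (41, 1)]), (241229, 2, [(2, 2), (13, 1), (4639, 1)]), (244219, 14, [(2, 1), (3,
1), (13, 1), (31, 1), (101, 1)]), (245561, 3, [(2, 3), (5, 1), (7, 1), (877, 1)]), (253349, 2,
[(2, 2), (63337, 1)]), (260191, 6, [(2, 1), (3, 2), (5, 1), (7, 2), (59, 1)]), (265873, 5, [(2,
4), (3, 1), (29, 1), (191, 1)]), (284477, 2, [(2, 2), (71119, 1)]), (287813, 2, [(2, 2), (7, 1),
(19, 1), (541, 1)]), (294313, 10, [(2, 3), (3, 1), (12263, 1)]), (307189, 14, [(2, 2), (3, 2),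
(7, 1), (23, 1), (53, 1)]), (335633, 3, [(2, 4), (11, 1), (1907, 1)]), (340397, 2, [(2, 2), (7,
1), (12157, 1)]), (368551, 7, [(2, 1), (3, 4), (5, 2), (7, 1), (13, 1)]), (383759, 19, [(2, 1),
(17, 1), (11287, 1)]), (398581, 2, [(2, 2), (3, 1), (5, 1), (7, 1), (13, 1), (73, 1)]), (418559,
7, [(2, 1), (7, 2), (4271, 1)]), (425363, 2, [(2, 1), (7, 1), (23, 1), (1321, 1)]), (454609, 17,
[(2, 4), (3, 2), (7, 1), (11, 1), (41, 1)]), (475483, 3, [(2, 1), (3, 1), (7, 1), (11321, 1)]),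
(477721, 7, [(2, 3), (3, 2), (5, 1), (1327, 1)]), (492967, 5, [(2, 1), (3, 4), (17, 1), (179,
1)]), (506699, 2, [(2, 1), (253349, 1)]), (516391, 3, [(2, 1), (3, 1), (5, 1), (7, 1), (2459,
1)]), (522061, 6, [(2, 2), (3, 1), (5, 1), (7, 1), (11, 1), (113, 1)]), (552793, 5, [(2, 3), (3,
1), (31, 1), (743, 1)]), (562841, 3, [(2, 3), (5, 1), (14071, 1)]), (562987, 2, [(2, 1), (3, 2),
(31277, 1)]), (604441, 7, [(2, 3), (3, 2), (5, 1), (23, 1), (73, 1)]), (616157, 2, [(2, 2), (31,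
1), (4969, 1)]), (629569, 11, [(2, 6), (3, 2), (1093, 1)]), (643567, 3, [(2, 1), (3, 1), (7, 2),
(11, 1), (199, 1)]), (670297, 7, [(2, 3), (3, 1), (11, 1), (2539, 1)]), (672127, 5, [(2, 1), (3,
1), (7, 1), (13, 1), (1231, 1)]), (705643, 3, [(2, 1), (3, 1), (7, 1), (53, 1), (317, 1)]),
(708359, 7, [(2, 1), (7, 1), (19, 1), (2663, 1)]), (709871, 13, [(2, 1), (5, 1), (7, 1), (10141,
1)]), (733591, 6, [(2, 1), (3, 3), (5, 1), (11, 1), (13, 1), (19, 1)]), (766187, 2, [(2, 1),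
(101, 1), (3793, 1)]), (766861, 2, [(2, 2), (3, 1), (5, 1), (12781, 1)]), (768437, 2, [(2, 2),
(19, 1), (10111, 1)]), (784841, 3, [(2, 3), (5, 1), (7, 1), (2803, 1)]), (870031, 6, [(2, 1),
(3, 2), (5, 1), (7, 1), (1381, 1)]), (927137, 3, [(2, 5), (7, 1), (4139, 1)]), (1055489, 3, [(2,
8), (7, 1), (19, 1), (31, 1)]), (1111867, 5, [(2, 1), (3, 1), (7, 1), (23, 1), (1151, 1)]),
(1124719, 6, [(2, 1), (3, 1), (7, 1), (61, 1), (439, 1)]), (1219891, 3, [(2, 1), (3, 1), (5, 1),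
(7, 1), (37, 1), (157, 1)]), (1239323, 2, [(2, 1), (7, 1), (88523, 1)]), (1269193, 10, [(2, 3),
(3, 1), (52883, 1)]), (1392539, 2, [(2, 1), (7, 1), (17, 1), (5851, 1)]), (1404743, 5, [(2, 1),
(37, 1), (41, 1), (463, 1)]), (1460747, 2, [(2, 1), (7, 1), (103, 1), (1013, 1)]), (1513921, 21,
[(2, 6), (3, 1), (5, 1), (19, 1), (83, 1)]), (1549351, 3, [(2, 1), (3, 2), (5, 2), (11, 1),
(313, 1)]), (1576951, 3, [(2, 1), (3, 1), (5, 2), (10513, 1)]), (1627693, 14, [(2, 2), (3, 1),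
(11, 2), (19, 1), (59, 1)]), (1745143, 3, [(2, 1), (3, 1), (7, 1), (37, 1), (1123, 1)]),
(1765891, 3, [(2, 1), (3, 2), (5, 1), (7, 1), (2803, 1)]), (2180921, 3, [(2, 3), (5, 1), (7, 1),
(7789, 1)]), (2384047, 3, [(2, 1), (3, 3), (7, 2), (17, 1), (53, 1)]), (2403521, 6, [(2, 6), (5,
1), (7, 1), (29, 1), (37, 1)]), (2413981, 2, [(2, 2), (3, 2), (5, 1), (13411, 1)]), (2483447, 5,
[(2, 1), (7, 1), (179, 1), (991, 1)]), (2548171, 2, [(2, 1), (3, 2), (5, 1), (23, 1), (1231,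
1)]), (2624177, 3, [(2, 4), (164011, 1)]), (2856449, 3, [(2, 9), (7, 1), (797, 1)]), (2957767,
3, [(2, 1), (3, 1), (7, 1), (70423, 1)]), (2982979, 2, [(2, 1), (3, 2), (165721, 1)]), (3060947,
2, [(2, 1), (7, 1), (131, 1), (1669, 1)]), (3304489, 7, [(2, 3), (3, 1), (11, 1), (12517, 1)]),
(3445639, 3, [(2, 1), (3, 1), (7, 1), (82039, 1)]), (3482179, 7, [(2, 1), (3, 1), (7, 1), (17,
1), (4877, 1)]), (3718919, 7, [(2, 1), (7, 1), (103, 1), (2579, 1)]), (3754507, 2, [(2, 1), (3,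
1), (7, 1), (89393, 1)]), (3828931, 2, [(2, 1), (3, 1), (5, 1), (7, 1), (18233, 1)]), (4086073,
5, [(2, 3), (3, 3), (18917, 1)]), (4582817, 3, [(2, 5), (7, 1), (41, 1), (499, 1)]), (4824581,
2, [(2, 2), (5, 1), (241229, 1)]), (5229043, 26, [(2, 1), (3, 1), (7, 1), (13, 1), (61, 1),
(157, 1)]), (5465323, 2, [(2, 1), (3, 2), (211, 1), (1439, 1)]), (5800579, 2, [(2, 1), (3, 1),
(7, 1), (167, 1), (827, 1)]), (5924647, 3, [(2, 1), (3, 2), (7, 1), (13, 1), (3617, 1)]),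
(6032531, 6, [(2, 1), (5, 1), (7, 1), (86179, 1)]), (6065221, 11, [(2, 2), (3, 1), (5, 1), (7,
2), (2063, 1)]), (6705469, 2, [(2, 2), (3, 2), (7, 1), (11, 1), (41, 1), (59, 1)]), (6827449, 7,
[(2, 3), (3, 1), (284477, 1)]), (7063513, 5, [(2, 3), (3, 1), (294313, 1)]), (7520687, 5, [(2,
1), (29, 1), (127, 1), (1021, 1)]), (9296107, 2, [(2, 1), (3, 1), (1549351, 1)]), (9917027, 2,
[(2, 1), (7, 1), (708359, 1)]), (12734119, 3, [(2, 1), (3, 3), (31, 1), (7607, 1)]), (13004671,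
3, [(2, 1), (3, 1), (5, 1), (7, 1), (61927, 1)]), (14686393, 10, [(2, 3), (3, 1), (7, 1), (19,
1), (43, 1), (107, 1)]), (14871907, 3, [(2, 1), (3, 2), (7, 1), (17, 1), (53, 1), (131, 1)]),
(15450709, 6, [(2, 2), (3, 1), (7, 1), (13, 1), (14149, 1)]), (20053433, 3, [(2, 3), (7, 1),
(113, 1), (3169, 1)]), (20241187, 2, [(2, 1), (3, 1), (7, 1), (17, 1), (28349, 1)]), (20871163,
5, [(2, 1), (3, 3), (13, 2), (2287, 1)]), (20890381, 2, [(2, 2), (3, 1), (5, 1), (7, 1), (49739,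
1)]), (21020917, 2, [(2, 2), (3, 1), (7, 1), (19, 1), (13171, 1)]), (21178709, 2, [(2, 2), (947,
1), (5591, 1)]), (22204081, 17, [(2, 4), (3, 2), (5, 1), (30839, 1)]), (23202317, 2, [(2, 2),
(5800579, 1)]), (30677663, 5, [(2, 1), (31, 1), (37, 1), (43, 1), (311, 1)]), (31741751, 13,
[(2, 1), (5, 3), (126967, 1)]), (36907193, 3, [(2, 3), (7, 2), (94151, 1)]), (38533987, 3, [(2,
1), (3, 2), (431, 1), (4967, 1)]), (41233879, 7, [(2, 1), (3, 2), (7, 1), (89, 1), (3677, 1)]),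
(52051567, 3, [(2, 1), (3, 1), (7, 1), (1239323, 1)]), (53306107, 3, [(2, 1), (3, 1), (7, 1),
(1269193, 1)]), (53921869, 6, [(2, 2), (3, 1), (7, 1), (11, 1), (13, 1), (67, 2)]), (59762587,
2, [(2, 1), (3, 1), (13, 1), (766187, 1)]), (63002711, 7, [(2, 1), (5, 1), (587, 1), (10733,
1)]), (63941347, 5, [(2, 1), (3, 3), (7, 1), (19, 1), (29, 1), (307, 1)]), (72377887, 3, [(2,
1), (3, 1), (7, 1), (733, 1), (2351, 1)]), (72577051, 2, [(2, 1), (3, 1), (5, 2), (7, 1), (13,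
2), (409, 1)]), (83523413, 2, [(2, 2), (7, 1), (2982979, 1)]), (88009573, 17, [(2, 2), (3, 1),
(7, 1), (337, 1), (3109, 1)]), (125968529, 3, [(2, 4), (7, 1), (1124719, 1)]), (127159831, 6,
[(2, 1), (3, 2), (5, 1), (7, 1), (17, 1), (31, 1), (383, 1)]), (127688149, 2, [(2, 2), (3, 2),
(7, 1), (506699, 1)]), (162428803, 3, [(2, 1), (3, 1), (43, 1), (629569, 1)]), (167046827, 2,
[(2, 1), (83523413, 1)]), (178814413, 2, [(2, 2), (3, 3), (7, 1), (236527, 1)]), (202632403, 2,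
[(2, 1), (3, 1), (7, 1), (4824581, 1)]), (258785941, 10, [(2, 2), (3, 1), (5, 1), (7, 1),
(616157, 1)]), (353091019, 10, [(2, 1), (3, 1), (7, 1), (479, 1), (17551, 1)]), (375036313, 5,
[(2, 3), (3, 1), (7, 1), (47, 1), (47497, 1)]), (412544161, 17, [(2, 5), (3, 2), (5, 1), (7, 1),
(40927, 1)]), (789677071, 6, [(2, 1), (3, 1), (5, 1), (7, 1), (13, 1), (139, 1), (2081, 1)]),
(817018003, 2, [(2, 1), (3, 6), (53, 1), (97, 1), (109, 1)]), (912947897, 3, [(2, 3), (7, 1),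
(53, 1), (67, 1), (4591, 1)]), (917087137, 5, [(2, 5), (3, 1), (7, 2), (19, 1), (31, 1), (331,
1)]), (1002280963, 2, [(2, 1), (3, 1), (167046827, 1)]), (1252925119, 3, [(2, 1), (3, 3),
(23202317, 1)]), (1465469347, 5, [(2, 1), (3, 1), (11, 1), (22204081, 1)]), (1478526139, 2, [(2,
1), (3, 2), (419, 1), (196039, 1)]), (1497157061, 2, [(2, 2), (5, 1), (7, 1), (19, 1), (562841,
1)]), (1706822489, 15, [(2, 3), (7, 2), (613, 1), (7103, 1)]), (1727870509, 2, [(2, 2), (3, 3),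
(7, 1), (13, 1), (175811, 1)]), (2485642321, 11, [(2, 4), (3, 2), (5, 1), (7, 1), (19, 1), (101,
1), (257, 1)]), (2907228403, 3, [(2, 1), (3, 3), (13, 1), (61, 1), (67891, 1)]), (3093060713, 3,
[(2, 3), (7, 2), (31, 1), (359, 1), (709, 1)]), (4777787407, 3, [(2, 1), (3, 1), (7, 1), (17,
1), (1471, 1), (4549, 1)]), (6259457419, 2, [(2, 1), (3, 1), (9001, 1), (115903, 1)]),
(7055862491, 2, [(2, 1), (5, 1), (23, 1), (30677663, 1)]), (9332228237, 2, [(2, 2), (151, 1),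
(15450709, 1)]), (11309108021, 3, [(2, 2), (5, 1), (7, 1), (599, 1), (134857, 1)]),
(11621514913, 11, [(2, 5), (3, 1), (7, 1), (137, 1), (126233, 1)]), (11666890943, 5, [(2, 1),
(7, 1), (211, 1), (881, 1), (4483, 1)]), (21570026591, 7, [(2, 1), (5, 1), (7, 1), (401, 1),
(768437, 1)]), (29485268749, 2, [(2, 2), (3, 2), (13, 1), (63002711, 1)]), (30752977667, 2, [(2,
1), (41, 1), (375036313, 1)]), (34836924361, 47, [(2, 3), (3, 1), (5, 1), (7, 2), (5924647,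
1)]), (35081903333, 2, [(2, 2), (7, 1), (1252925119, 1)]), (52379047267, 2, [(2, 1), (3, 1), (7,
1), (13, 1), (31, 1), (61, 1), (97, 1), (523, 1)])]

/-- certificates -/
def ES_3 : List En :=
[(52777342829, 2, [(2, 2), (7, 1), (89, 1), (21178709, 1)]), (55993369423, 5, [(2, 1), (3, 1),
(9332228237, 1)]), (62725777337, 3, [(2, 3), (17, 1), (181, 1), (2548171, 1)]), (65522613283, 2,
[(2, 1), (3, 1), (7, 1), (29, 1), (89, 1), (604441, 1)]), (320374117039, 6, [(2, 1), (3, 1),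
(38011, 1), (1404743, 1)]), (395128299497, 3, [(2, 3), (7, 1), (7055862491, 1)]), (410561678773,
5, [(2, 2), (3, 2), (7, 1), (29, 1), (4789, 1), (11731, 1)]), (540235775537, 3, [(2, 4), (80669,
1), (418559, 1)]), (878160882719, 7, [(2, 1), (7, 1), (62725777337, 1)]), (1173090382031, 7,
[(2, 1), (5, 1), (7, 1), (17, 2), (103, 1), (562987, 1)]), (1273697697539, 6, [(2, 1), (7, 4),
(3529, 1), (75161, 1)]), (1407376241059, 2, [(2, 1), (3, 1), (31189, 1), (7520687, 1)]),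
(1427168974267, 3, [(2, 1), (3, 3), (7, 2), (79, 1), (6827449, 1)]), (1839385378027, 3, [(2, 1),
(3, 2), (7, 1), (5563, 1), (2624177, 1)]), (2649631150951, 6, [(2, 1), (3, 1), (5, 2), (7, 1),
(1429, 1), (1765891, 1)]), (4860885889817, 3, [(2, 3), (11, 1), (19, 1), (2907228403, 1)]),
(5341551215113, 10, [(2, 3), (3, 2), (7, 2), (139, 1), (547, 1), (19913, 1)]), (7194405574757,
2, [(2, 2), (61, 1), (29485268749, 1)]), (7303817719213, 2, [(2, 2), (3, 1), (7, 1), (233, 1),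
(2089, 1), (178639, 1)]), (8910430376863, 7, [(2, 1), (3, 1), (7, 1), (73, 1), (7573, 1),
(383759, 1)]), (9872250674161, 22, [(2, 4), (3, 1), (5, 1), (7, 1), (29, 1), (202632403, 1)]),
(37571377505159, 7, [(2, 1), (7, 1), (59, 1), (1433, 1), (31741751, 1)]), (49312005546883, 2,
[(2, 1), (3, 1), (13, 1), (101, 1), (6259457419, 1)]), (121012813720289, 3, [(2, 5), (7, 1),
(540235775537, 1)]), (212613860681191, 6, [(2, 1), (3, 2), (5, 1), (2357, 1), (1002280963, 1)]),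
(770565152440553, 3, [(2, 3), (7, 1), (37, 1), (47, 1), (29761, 1), (265873, 1)]),
(1287750186827959, 6, [(2, 1), (3, 1), (7, 1), (997, 1), (30752977667, 1)]), (3130410513042149,
2, [(2, 2), (7, 1), (23, 1), (4860885889817, 1)]), (4974664068277009, 11, [(2, 4), (3, 1), (7,
1), (91151, 1), (162428803, 1)]), (5522944621250897, 3, [(2, 4), (7, 1), (49312005546883, 1)]),
(10295614116572821, 2, [(2, 2), (3, 1), (5, 1), (7, 1), (454609, 1), (53921869, 1)]),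
(51972385872044569, 11, [(2, 3), (3, 1), (7, 1), (43, 1), (7194405574757, 1)]),
(95281244588123623, 3, [(2, 1), (3, 2), (7, 1), (31, 1), (2099, 1), (11621514913, 1)]),
(116087167931930287, 3, [(2, 1), (3, 1), (7, 1), (13, 1), (212613860681191, 1)]),
(857903378469374441, 3, [(2, 3), (5, 1), (7, 1), (229, 1), (3119, 1), (12781, 1), (335633, 1)])]

/-- certificates -/
def ES : List En := ES_0 ++ (ES_1 ++ (ES_2 ++ (ES_3)))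

theorem tableS : ∀ p, TS.mem p = true → p.Prime :=
  table TS ES (by decide +kernel) (by decide +kernel)

end Pool.Agent.Lib.MP_c8748f_nt
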