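import Pool.Agent.Lib.MP_c8748f_nt.PrimesF

/-! The factor chain tree (generated). -/

namespace Pool.Agent.Lib.MP_c8748f_nt

/-- a subtree -/
def tF_0 : Tr :=
(.N 811 (.N 241 .T (.N 61 .T (.N 271 .T (.N 4313591 (.A [7, 13]) (.N 246941 (.A [7, 41, 71, 73,
97, 101]) (.N 211 .T (.N 11106421 .T (.N 3263466811411 .T (.N 8821 .T (.N 4231 .T (.N 32401 .T
(.N 216211 .T (.N 401 (.A [7, 41, 71, 73, 97]) (.N 251 (.N 1471 .T (.N 2941691 (.A [7, 41, 43,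
71]) (.N 97 .T (.X 11)))) (.X 11))))))))))))))) (.N 12774841 (.N 241 .T (.N 61 .T (.N 271 .T (.N
4313591 (.A [7, 13]) (.N 7 .T (.A [41, 71, 101, 131, 251, 1091])))))) (.N 4231 (.N 241 .T (.N 61
.T (.N 271 .T (.N 4313591 (.A [7, 13]) (.N 246941 (.A [7, 41, 71, 101, 131, 181, 251]) (.N 211
.T (.N 11106421 .T (.N 3263466811411 .T (.N 8821 .T (.N 822761 (.A [7, 41, 71, 79, 101]) (.N
9931 .T (.X 11)))))))))))) (.N 32401 (.N 241 .T (.N 216211 .T (.N 271 .T (.N 4313591 (.A [7, 13,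
37]) (.N 246941 (.A [7, 37, 41, 61, 71]) (.N 401 (.A [7, 37, 41, 61, 71]) (.N 211 .T (.N
11106421 .T (.N 3263466811411 .T (.N 251 (.N 1471 .T (.N 2941691 (.A [7, 37, 41, 43]) (.N 37 .T
(.X 11)))) (.X 11))))))))))) (.N 11048730682351 (.N 241 .T (.N 216211 .T (.N 19 .T (.N 271 .T
(.N 401 (.A [7, 41]) (.N 382861 .T (.N 22124771 (.A [7, 41]) (.N 251 (.N 1471 .T (.N 2941691 (.A
[7, 41]) (.N 181 .T (.X 11)))) (.X 11))))))))) (.N 216211 (.A [7, 41, 61, 71, 101, 131, 181,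
241, 271, 281]) (.N 401 (.A [7, 41, 61, 71, 101, 131, 181, 241, 271]) (.N 202928769110351 (.A
[7, 41, 61, 71, 101, 131, 181, 241, 271]) (.N 6131 (.N 1016089 (.A [7, 13, 19]) (.N 37 (.A [7,
41, 61, 67, 71]) (.N 822761 (.A [7, 41, 61, 71, 79]) (.X 11)))) (.X 11))))))))))

/-- a subtree -/
def tF_1 : Tr :=
(.N 37861 (.N 37 .T (.N 63601 .T (.N 271 .T (.N 4313591 (.A [7, 11, 13]) (.N 246941 (.A [7, 11,
41, 61, 71, 251, 1201]) (.N 1381 .T (.N 11 (.A [7, 19, 41]) (.N 211 .T (.N 811 .T (.N 12774841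
.T (.N 4231 .T (.N 216211 .T (.N 50408381 (.A [7, 41, 71, 131, 181, 251]) (.N 241 .T (.N 32401
.T (.N 401 (.A [7, 41, 61, 71]) (.N 11106421 .T (.N 3263466811411 .T (.N 251 (.N 1471 .T (.N
2941691 (.A [7, 41, 43]) (.N 181 .T (.X 11)))) (.X 11)))))))))))))))))))) (.N 99244068137581 (.N
63601 .T (.N 271 .T (.N 1381 .T (.N 13 .T (.N 811 .T (.N 6781 .T (.N 4313591 (.A [7, 11, 41])
(.N 12774841 .T (.N 246941 (.A [7, 11, 41]) (.N 50408381 (.A [7, 11, 41]) (.N 241 .T (.N 61 .T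
(.N 11 (.A [7]) (.N 211 .T (.N 11106421 .T (.N 3263466811411 .T (.N 8821 .T (.N 751411 .T (.N
4231 .T (.N 32401 .T (.N 216211 .T (.N 401 (.A [7]) (.N 251 (.N 1471 .T (.N 2941691 (.A [7]) (.N
181 .T (.X 11)))) (.X 11)))))))))))))))))))))))) (.N 11 (.N 19 (.A [7, 41, 101, 127]) (.A [7,
41, 101, 151])) (.N 63601 (.N 612067 .T (.N 421 .T (.N 191 (.A [7, 13, 41]) (.N 181 .T (.X
11))))) (.N 1381 (.A [7, 13, 41]) (.N 50408381 (.N 7 (.A [19, 41, 101, 271]) (.N 11709700117279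
(.A [19, 41, 101]) (.N 691 (.A [19, 41, 101]) (.N 61 (.A [13]) (.N 1189301 (.A [13]) (.N
301622530381 (.A [13]) (.N 811 (.A [41, 73, 97, 101, 131, 271]) (.N 6781 (.A [37, 41, 101, 131])
(.N 1951 (.N 16069 .T (.X 11)) (.X 11)))))))))) tF_0))))))

/-- a subtree -/
def tF_2 : Tr :=
(.N 3691 (.A [7]) (.N 75571 (.N 9863647 .T (.N 20731 .T (.N 10303 .T (.N 30241 .T (.N 4051 .T
(.N 251 (.N 1471 .T (.N 2941691 (.A [7]) (.N 691 .T (.X 11)))) (.X 11))))))) (.N 1361 (.N 10303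
(.N 5827 .T (.N 421 .T (.N 251 (.A [13, 41, 43, 71, 131]) (.X 11)))) (.N 372649725281 (.N
631964743 (.A [7]) (.N 251 (.N 1471 (.N 823 .T (.A [13, 41, 43, 131, 271, 401, 457, 691])) (.A
[13, 41, 43, 131, 401, 457, 461, 691, 911, 3673, 4051])) (.X 11))) (.N 251 (.N 3761 (.A [7]) (.N
5351 (.N 3673 (.A [13, 37, 41, 43]) (.N 182054730959861 (.A [7]) (.N 44818841 (.A [7]) (.N
149111 (.A [7]) (.N 82231 (.A [7]) (.N 4355581 (.A [13, 41, 43, 131, 163, 911, 941, 1471, 2131,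
2411]) (.N 103416125731 (.A [7]) (.N 498699413281 (.N 1471 .T (.N 6577 .T (.A [13, 41, 43, 131,
461, 691, 751, 911, 941, 1181, 2131, 2411, 4051]))) (.A [13, 41, 43, 131, 191, 911, 941, 1181,
1471, 2131, 2411]))))))))) (.X 11))) (.X 11)))) (.N 10303 (.N 5827 .T (.N 421 .T (.N 251 (.N
1471 .T (.N 2941691 (.A [7]) (.N 181 .T (.X 11)))) (.X 11)))) (.N 30241 (.N 58044391 .T (.N 251
(.N 421 .T (.A [13, 41, 43, 131, 181, 191])) (.X 11))) (.N 1201 (.A [7]) (.N 372649725281 (.N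
631964743 (.A [7]) (.N 251 (.N 401 (.A [7]) (.N 46685826619 (.A [13, 41, 43, 131, 457, 601, 911,
1231, 1321, 1471]) (.X 11))) (.X 11))) (.N 251 (.N 3761 (.A [7]) (.N 5351 (.N 1471 (.N 877 .T
(.N 823 .T (.N 691 .T (.X 11)))) (.N 2941691 (.A [7]) (.N 17351 (.A [13, 41, 43, 131, 431, 461,
691, 911, 1063, 3673, 4051]) (.X 11)))) (.X 11))) (.X 11)))))))))

/-- a subtree -/
def tF_3 : Tr :=
(.N 19 (.N 127 .T (.N 3673 .T (.N 182054730959861 (.A [7, 41]) (.N 44818841 (.A [7, 41]) (.N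
149111 (.A [7, 41]) (.N 498699413281 .T (.N 82231 .T (.N 191 (.A [7, 13]) (.N 1871 (.A [7, 41])
(.N 228729421 .T (.N 251 (.N 1471 .T (.N 262209281 (.A [13, 41, 43, 71, 101]) (.N 421 .T (.X
11)))) (.X 11)))))))))))) (.N 151 (.A [7, 41]) (.N 101 (.N 521 (.N 10303 (.N 5827 .T (.N 421 .T
(.N 42344381 (.A [7]) (.N 191 (.A [7]) (.N 13001 (.A [7]) (.N 641 (.A [7]) (.N 181 .T (.X
11)))))))) (.N 30241 (.N 13 .T (.N 23449957 .T (.N 1644993066271 .T (.N 29411 (.A [7]) (.N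
140226451 .T (.N 211 .T (.N 37951 .T (.N 275941 .T (.N 410633831460731 (.A [7]) (.X 31))))))))))
(.N 46685826619 (.N 283 .T (.X 31)) (.X 31)))) (.N 17761 (.A [7]) (.N 19903254925398721 (.A [7])
tF_2))) (.N 1381 (.A [7, 13]) (.N 822761 (.A [7, 41]) (.N 491 (.N 37 (.A [7]) (.N 6529 (.A [13,
41, 43]) (.N 5351 (.N 82059721 (.A [7]) (.N 430811 (.N 148597717 (.A [7]) (.N 971 (.A [13, 41,
79, 131]) (.X 11))) (.N 521 (.X 31) (.N 17351 (.A [13, 41, 71, 131]) (.X 11))))) (.X 11)))) (.N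
191 (.A [7]) (.N 1871 (.A [7]) (.N 228729421 (.A [7]) (.N 251 (.N 13001 (.A [7]) (.N
3439735311522331 (.A [13, 37, 41, 43]) (.N 30871 (.A [13, 41, 43, 71]) (.N 751 (.A [7]) (.X
11))))) (.X 11)))))))))))

/-- a subtree -/
def tF_4 : Tr :=
(.N 101 (.N 521 (.N 46685826619 (.N 283 .T (.X 31)) (.X 31)) (.N 17761 (.A [7, 13]) (.N 75571
(.N 193091463181 .T (.N 19903254925398721 .T (.N 3691 .T (.N 9863647 .T (.N 20731 .T (.N 10303
.T (.N 30241 .T (.N 46685826619 .T (.X 31))))))))) (.N 19903254925398721 (.N 7 .T (.N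
193091463181 .T (.N 2833 .T (.N 15541 .T (.N 251 (.A [41, 43, 131]) (.X 11)))))) (.N 3691 (.A
[7, 41, 43, 131, 251]) (.N 1361 (.N 11435981 (.A [7, 13]) (.N 5417694791 (.N 163 (.A [7, 13])
(.N 251 (.N 46685826619 (.N 399403 .T (.N 1609 .T (.X 11))) (.X 31)) (.X 11))) (.N 251 (.N 66271
(.A [7, 13]) (.N 5351 (.N 1201 (.A [7, 13]) (.N 1471 (.N 877 .T (.N 631406718999332671 .T (.N
823 .T (.N 191 (.A [7, 13]) (.X 11))))) (.N 2941691 (.A [7, 13]) (.N 691 (.N 19 .T (.A [13, 41,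
43, 131, 151, 431, 461, 881, 911])) (.X 11))))) (.X 11))) (.X 11)))) (.N 10303 (.N 5827 .T (.N
421 .T (.N 251 (.N 1471 .T (.N 2941691 (.A [7, 41, 43, 71]) (.N 181 .T (.X 11)))) (.X 11)))) (.N
30241 (.N 58044391 .T (.N 251 (.N 421 .T (.N 181 .T (.X 11))) (.X 11))) (.N 46685826619 (.N
399403 .T (.N 960563556131 (.A [7, 13]) (.X 31))) (.X 31)))))))))) (.N 1381 (.A [7, 13]) (.N 521
(.X 31) (.N 17761 (.A [7, 13]) (.N 491 (.N 19903254925398721 (.A [7, 37, 41, 131]) (.N 3691 (.A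
[7, 37, 41, 43]) (.N 46685826619 (.N 399403 .T (.N 960563556131 (.A [7, 13]) (.X 31))) (.X
31)))) (.N 191 (.A [7, 13]) (.N 5351 (.N 1871 (.N 7 (.A [19]) (.N 811 (.A [41, 73, 97]) (.N
822761 (.A [41, 79, 131, 157]) (.N 6781 (.A [37, 41]) (.X 11))))) (.N 228729421 (.A [7, 19]) (.N
251 (.N 13001 (.A [7, 41, 43]) (.N 19903254925398721 (.A [7, 41, 43]) (.N 3691 (.A [7, 41, 43])
(.N 46685826619 (.N 603791 (.N 1321 .T (.N 1471 .T (.N 2941691 (.A [7, 13]) (.X 31)))) (.X 31))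
(.X 31))))) (.X 11)))) (.X 11))))))))

/-- a subtree -/
def tF_5 : Tr :=
(.N 647251721 (.N 7 (.N 541 .T (.N 19 .T (.N 169942181 (.N 109 .T (.A [101, 151, 191, 193])) (.A
[41, 101, 151])))) (.N 541 (.N 59847827283530509 .T (.N 1321 .T (.N 211 .T (.N 13963 .T (.N 6091
.T (.N 508930449241 .T (.N 17351 (.A [13, 71]) (.X 11)))))))) (.N 17351 (.A [13, 101]) (.N
46685826619 (.A [13, 101]) (.N 169942181 (.N 1567 (.N 379 .T (.N 2161 .T (.X 11))) (.N 191 (.A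
[13, 71]) (.X 11))) (.N 101 (.N 1648012040336791 (.N 686527819 .T (.N 251 (.N 1471 .T (.N 691 .T
(.A [41, 43, 61, 163, 461]))) (.X 11))) (.N 41681 (.A [13]) (.N 6136365041 (.N 12907 (.N 61 .T
(.N 109 .T (.N 42751 .T (.N 191 (.X 31) (.X 11))))) (.X 11)) (.X 11)))) (.N 1381 (.A [13]) (.N
2801 (.A [37, 41, 43, 491]) (.N 491 (.N 811 (.A [37, 41, 73, 97]) (.N 6529 (.A [13]) (.N
82059721 (.A [13]) (.N 61 (.A [13]) (.A [37, 41, 131]))))) (.N 191 (.A [13]) (.N 822761 (.N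
1224116611 (.A [13]) (.X 11)) (.X 11)))))))))))) (.N 541 (.N 61 .T (.N 7 .T (.N 13963 .T (.N
17351 (.A [13]) (.N 1648012040336791 .T (.N 42751 .T (.N 46685826619 .T (.X 11)))))))) (.N
169942181 (.N 61 (.N 1567 .T (.N 40445371 .T (.N 133327 .T (.N 85758691956221 (.A [7, 13]) (.N
1721 (.N 19 .T (.N 33702101 (.A [13, 67, 71, 97, 101, 109, 151, 163, 191, 193, 331, 401, 521,
911]) (.N 97 .T (.X 11)))) (.X 11)))))) (.N 109 (.N 1567 .T (.N 7 .T (.N 40445371 .T (.N 133327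
.T (.N 2141 (.A [13]) (.N 271 .T (.N 85758691956221 (.A [37, 71, 101, 131]) (.A [71, 101, 131,
191, 193, 251, 331, 401, 521, 571, 1151, 1231])))))))) (.N 191 (.A [7, 13]) (.N 24061 (.A [7,
19, 101]) (.N 5351 (.N 1866461 (.N 1831 (.A [7, 19, 101]) (.N 521 (.X 31) (.X 11))) (.N
46685826619 (.N 1567 .T (.X 11)) (.X 11))) (.X 11)))))) (.N 61 (.N 13 .T (.N 97 .T (.N 262321 .T
(.N 4831 .T (.N 181 .T (.N 109201 .T (.X 11))))))) (.N 1151 tF_3 (.N 991 (.A [7, 13]) tF_4))))))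

/-- a subtree -/
def tF_6 : Tr :=
(.N 13 (.N 61 (.N 21787 .T (.N 67231 .T (.N 166484861 (.A [7]) (.N 1063 .T (.N 1291 .T (.X
11)))))) (.N 1063 (.N 377011 .T (.N 21787 .T (.N 67231 .T (.N 166484861 (.A [7]) (.N 16020797851
.T (.X 11)))))) (.N 989955251 (.N 877 (.A [7]) (.N 823 (.A [7]) (.N 1291 (.N 222991 .T (.N 271
.T (.N 21787 .T (.N 67231 .T (.N 166484861 (.A [7]) (.N 691 .T (.X 11))))))) (.X 11)))) (.N 751
(.A [7]) (.N 46061 (.N 125731 (.A [7]) (.N 109 (.A [7]) (.N 1291 (.N 21787 .T (.N 199 .T (.N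
166484861 (.A [7]) (.N 191 (.A [7]) (.X 11))))) (.X 11)))) (.X 11)))))) (.N 1063 (.N 377011 (.N
21787 .T (.N 67231 .T (.N 61 .T (.N 166484861 (.A [7]) (.N 751 .T (.N 2281 .T (.X 11))))))) (.N
16020797851 (.A [7, 41]) (.N 30941 (.N 433 (.N 37 .T (.X 11)) (.X 11)) (.X 11)))) (.N 989955251
(.N 877 (.A [7, 37]) (.N 823 (.A [7, 41]) (.N 1291 (.N 613 (.A [7, 41]) (.N 5623 (.A [7, 41])
(.N 203447171 (.A [7, 41]) (.N 907 (.A [7, 41]) (.X 11))))) (.X 11)))) (.N 691 (.N 751 (.A [7,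
19]) (.N 46061 (.N 125731 (.A [7, 19]) (.N 109 (.A [7]) (.N 1291 (.N 21787 .T (.N 67231 .T (.N
199 .T (.N 19 .T (.N 61 .T (.A [41, 71, 101, 131, 151, 191, 491, 521, 613, 907])))))) (.X 11))))
(.X 11))) (.N 1291 (.N 613 (.A [7, 61]) (.N 751 (.A [7, 61]) (.N 907 (.A [7, 61]) (.X 11)))) (.X
11))))))

/-- a subtree -/
def tF_7 : Tr :=
(.N 63601 (.N 612067 .T (.N 421 .T (.N 181 .T (.X 11)))) (.N 1381 (.A [7, 13]) (.N 50408381 (.N
7 (.A [19, 101]) (.N 11709700117279 (.A [19]) (.N 691 (.A [19]) (.N 1189301 (.A [13]) (.N 17351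
(.A [13]) (.X 11)))))) (.N 811 (.N 241 .T (.N 271 .T (.N 4313591 (.A [7, 13]) (.N 246941 (.A [7,
61, 71, 73, 97]) (.N 211 .T (.N 1021 .T (.N 251 (.N 332441 (.A [7, 43, 61]) (.N 1471 .T (.N
2941691 (.A [7, 43, 61]) (.N 97 .T (.X 11))))) (.X 11)))))))) (.N 12774841 (.N 241 .T (.N 271 .T
(.N 4313591 (.A [7, 13]) (.N 7 .T (.A [61, 71, 101, 251]))))) (.N 4231 (.N 241 .T (.N 271 .T (.N
4313591 (.A [7, 13]) (.N 246941 (.A [7, 61, 71, 101, 181, 251]) (.N 211 .T (.N 1021 .T (.N 9931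
.T (.X 11)))))))) (.N 32401 (.N 241 .T (.N 271 .T (.N 4313591 (.A [7, 13]) (.N 246941 (.A [7,
37, 61, 71]) (.N 216211 .T (.N 401 (.A [7, 37, 61, 71]) (.N 251 (.N 1471 .T (.N 2941691 (.A [7,
37, 43]) (.N 37 .T (.X 11)))) (.X 11)))))))) (.N 822761 (.A [7, 71, 79, 101, 181, 241, 271, 281,
1021, 1091]) (.N 11048730682351 (.N 241 .T (.N 19 .T (.N 271 .T (.N 251 (.N 1471 .T (.N 216211
.T (.N 2941691 (.A [7]) (.N 181 .T (.X 11))))) (.X 11))))) (.N 216211 (.A [7, 61, 71, 101, 181,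
241, 271, 281]) (.N 401 (.A [7, 61, 71, 101, 181, 241, 271]) (.N 202928769110351 (.A [7, 61, 71,
101, 181, 241, 271]) (.X 11)))))))))))))

/-- a subtree -/
def tF_8 : Tr :=
(.N 1361 (.N 6101 (.A [7, 13]) (.N 13 (.N 61 .T (.N 43 .T (.N 73 .T (.N 28792661 (.A [7]) (.N
4095851581 .T (.N 198301 .T (.N 21610351016571391 .T (.N 2371 .T (.N 77551 .T (.N 5059 .T (.N
15979409090641 .T (.N 521 (.X 31) (.N 1171 .T (.X 11)))))))))))))) (.N 142591 (.N 586741 .T (.N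
11551 .T (.N 70111 .T (.N 691 .T (.N 61 .T (.N 2078341 .T (.N 50787843091 .T (.X 31)))))))) (.N
61 (.N 43 .T (.N 97 .T (.N 262321 .T (.X 11)))) (.N 43 (.N 631 .T (.N 46601 (.A [7]) (.X 11)))
(.N 73 (.N 1801 .T (.N 5059 .T (.N 15979409090641 .T (.N 5581 .T (.N 1171 .T (.X 11)))))) (.N
28792661 (.A [7]) (.N 3500201 (.N 238639 (.A [7]) (.X 11)) (.N 1124088896761 (.N 6679 .T (.N
38745181 .T (.N 683704750031 (.A [7]) (.N 37710551 (.A [7]) (.N 1051 .T (.N 14275091 (.A [19,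
37]) (.N 251 (.N 1471 .T (.N 2941691 (.A [7]) (.N 691 .T (.X 11)))) (.X 11)))))))) (.N 21444131
(.A [7]) (.X 11))))))))))) (.N 43 (.N 58044391 .T (.N 421 .T (.N 181 .T (.X 11)))) (.N 73 (.N
58044391 .T (.N 421 .T (.N 181 .T (.X 11)))) (.N 28792661 (.N 7 (.A [19]) (.N 3500201 (.A [13])
(.N 2801 (.A [37]) (.N 17351 (.A [13]) (.N 157697804119 (.N 241 .T (.A [61, 751])) (.N
1124088896761 (.N 751 .T (.X 11)) (.A [61, 131]))))))) (.N 4095851581 (.N 58044391 .T (.N 421 .T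
(.N 181 .T (.X 11)))) (.N 198301 (.N 58044391 .T (.N 421 .T (.N 181 .T (.X 11)))) (.N
21610351016571391 (.A [7, 13]) (.N 1301 (.N 997 (.N 58044391 .T (.N 421 .T (.X 11))) (.N 2141
(.N 6101 (.A [7, 13]) (.N 13 (.N 58044391 .T (.N 421 .T (.X 11))) (.N 1699 (.N 58044391 .T (.N
421 .T (.X 11))) (.N 30941 (.N 433 (.N 37 .T (.X 11)) (.X 11)) (.X 11))))) (.N 271 (.N 24571 .T
(.N 700047031 .T (.N 58044391 .T (.N 421 .T (.X 11))))) (.N 4313591 (.A [7, 13]) (.N 251 (.N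
246941 (.A [7, 61]) (.N 6101 (.A [7, 71, 1471, 1699]) (.N 1471 (.N 58044391 .T (.N 421 .T (.X
11))) (.N 2941691 (.A [7, 71, 307]) (.N 1699 (.X 31) (.X 11)))))) (.X 11)))))) (.N 17351 (.N
854575831 (.A [7, 13]) (.N 6982831 (.A [7, 13]) (.X 11))) (.X 11))))))))))

/-- a subtree -/
def tF_9 : Tr :=
(.N 2441 (.N 88969 (.N 67 (.A [7, 19]) (.N 17385570701 (.A [7, 19]) (.N 125141 (.A [7, 13]) (.X
11)))) (.N 2741 (.N 7 (.A [19, 67]) (.N 811 (.A [67, 73, 79, 97, 101, 2801, 4591, 6007, 6101,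
13591, 17351]) (.N 6781 (.A [37, 67, 79, 101]) (.N 17351 (.A [13]) (.X 11))))) (.N 67 (.N 7 (.A
[19]) (.N 16110409981 (.A [13]) (.N 2801 (.A [37, 43]) (.N 6661 (.A [19]) (.N 17351 (.A [13])
(.N 4591 (.N 55333 .T (.X 11)) (.X 11))))))) (.N 16110409981 (.N 17385570701 (.A [7, 13]) (.N
125141 (.A [7, 13]) (.X 11))) (.N 6661 (.A [7, 19]) (.N 393779347292521 (.N 30403 (.A [7, 13])
(.N 21354391 (.A [7, 37, 97, 101, 331, 701]) (.N 17385570701 (.N 17351 (.A [7, 13]) (.X 11)) (.X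
11)))) (.N 17385570701 (.N 17351 (.A [7, 13]) (.X 11)) (.X 11)))))))) (.N 101 (.N 457091 (.N
9456961 (.N 22093 (.N 1021 .T (.N 4591 .T (.X 11))) (.N 17385570701 (.N 17351 (.A [7, 13]) (.X
11)) (.X 11))) (.N 61 (.N 331 (.A [7, 13]) (.N 17385570701 (.A [7, 13]) (.N 125141 (.A [7, 13])
(.X 11)))) (.N 22093 (.N 159361 (.N 367 .T (.N 1021 .T (.X 11))) (.N 17385570701 (.N 17351 (.A
[7, 13]) (.X 11)) (.X 11))) (.N 17385570701 (.N 17351 (.A [7, 13]) (.X 11)) (.X 11))))) (.N 6841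
(.A [7, 13]) (.N 251 (.N 1658264591 (.A [7, 13]) (.N 17385570701 (.A [7, 43, 61, 71]) (.X 11)))
(.X 11)))) (.N 1381 (.A [7, 13]) (.N 491 (.N 37 (.N 7 (.A [19]) (.N 811 (.A [67, 73]) (.N 822761
(.A [67, 79]) (.N 4591 (.A [67, 127, 331]) (.X 11))))) (.N 822761 (.N 4271 (.A [7, 79, 199, 277,
331, 811, 1091, 4591, 6007, 6101]) (.X 11)) (.X 11))) (.N 191 (.A [7, 13]) (.N 822761 (.N 17351
(.A [7, 13]) (.X 11)) (.X 11)))))))

/-- a subtree -/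
def tF_10 : Tr :=
(.N 866869 (.N 6101 (.A [7, 13]) (.N 19268275129 (.N 61 .T (.N 7168827868198039 .T (.N 13 .T (.N
283 .T (.N 5064511 .T (.N 448201412941 .T (.N 84401 (.A [7]) (.N 210775751 (.A [7]) (.N 1471 .T
(.N 2941691 (.A [7]) (.N 191 (.A [7]) (.X 11)))))))))))) (.N 151 (.A [7, 13]) (.N
277143875432201 (.N 211 (.N 202621 .T (.N 13 .T (.N 3748929959431 .T (.N 3181 .T (.N 61 .T (.N
37 .T (.N 821329 .T (.X 11)))))))) (.N 13 (.N 61 .T (.N 202621 .T (.N 3748929959431 .T (.N 3181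
.T (.N 821329 .T (.N 17351 (.N 21787 .T (.N 166484861 (.A [7]) (.X 11))) (.X 11))))))) (.N
202621 (.N 4999 .T (.N 3001 .T (.X 11))) (.N 3748929959431 (.N 821329 .T (.N 97 .T (.X 11))) (.N
123631 (.A [7]) (.N 480344448721 (.A [7]) (.N 30941 (.N 433 (.N 37 .T (.X 11)) (.X 11)) (.X
11)))))))) (.N 891601 (.A [7, 13]) (.N 21028331 (.A [7, 13]) (.N 62436408095081 (.N 189361 (.A
[7, 13]) (.N 17351 (.N 15131 (.A [7, 13]) (.N 5791 (.A [7, 13]) (.X 11))) (.X 11))) (.X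
11)))))))) (.N 5020441 (.N 101 (.N 457091 (.N 9456961 (.N 22093 .T (.N 5581 .T (.X 11))) (.N 61
(.N 22093 .T (.N 97 .T (.X 11))) (.N 22093 (.N 159361 .T (.N 1021 .T (.X 11))) (.N 5581 (.N
17351 (.A [7, 13]) (.X 11)) (.X 11))))) (.N 6841 (.A [7, 13]) (.N 251 (.N 1658264591 (.A [7,
13]) (.N 5581 (.A [7, 43, 61, 71]) (.X 11))) (.X 11)))) (.N 1381 (.A [7, 13]) (.N 491 (.N 37 (.N
7 .T (.N 67 .T (.N 811 .T (.N 12774841 .T (.A [181, 761, 1091, 2801, 3361, 5581]))))) (.N 822761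
(.N 4271 (.A [7, 79, 199, 277, 331, 811, 1091, 3361, 5581, 6007, 6101, 6529]) (.X 11)) (.X 11)))
(.N 191 (.A [7, 13]) (.N 822761 (.N 17351 (.A [7, 13]) (.X 11)) (.X 11)))))) (.N 7343111 (.N
17385570701 (.A [7, 13]) (.N 125141 (.A [7, 13]) (.X 11))) tF_9)))

/-- a subtree -/
def tF_11 : Tr :=
(.N 193091463181 (.N 64279 .T (.N 9931 .T (.X 11))) (.N 3361 (.N 211 .T (.N 5113 .T (.N 17851 .T
(.X 11)))) (.N 25323821 (.N 79 (.A [7, 13]) (.N 11435981 (.A [7, 13]) (.N 6101 (.A [7, 13]) (.N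
624436159069 (.A [7, 13]) (.N 39449441 (.N 19 (.N 631406718999332671 .T (.N 61 .T (.N 271 .T (.N
13 .T (.A [127, 131, 139, 191, 251, 349, 3251, 5113, 6163]))))) (.N 151 (.A [7]) (.N 5417694791
(.N 163 (.A [7]) (.N 71261 (.N 61 (.A [13, 97, 139, 271, 349, 911, 1301, 1601, 3251]) (.N 1301
(.N 349 (.A [13, 131, 139, 271, 911, 997, 1601, 1699, 2143, 3251, 4159, 5113]) (.A [13, 131,
139, 271, 911, 941, 997, 1601, 1699, 3251])) (.X 11))) (.X 11))) (.N 71261 (.N 66271 (.A [7])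
(.N 521 (.N 283 (.A [13, 61, 73, 139, 271, 349]) (.X 31)) (.X 11))) (.X 11))))) (.N 71261 (.N
5417694791 (.N 163 (.A [7, 13]) (.X 11)) (.X 11)) (.X 11))))))) (.N 1008101 (.N 151 (.A [7, 13])
(.N 11435981 (.A [7, 13]) (.N 6101 (.A [7, 13]) (.N 5417694791 (.N 163 (.A [7, 13]) (.N 71261
(.N 1301 (.N 1071854720291 (.N 17351 (.N 1699 (.N 2389 .T (.X 31)) (.X 11)) (.X 11)) (.X 11))
(.X 11)) (.X 11))) (.N 71261 (.N 66271 (.A [7, 13]) (.N 521 (.N 283 (.N 367 .T (.X 11)) (.X 31))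
(.X 11))) (.X 11)))))) (.N 2941201 (.A [7, 13]) (.N 7725209145011 (.N 146994927559 (.A [7, 19])
(.N 191 (.A [7, 13]) (.N 17351 (.N 9091 (.N 37 .T (.X 11)) (.X 11)) (.X 11)))) (.N 3511 (.N
587173 .T (.X 11)) (.N 9091 (.N 61 .T (.N 367 .T (.N 37 .T (.X 11)))) (.X 31)))))))))

/-- a subtree -/
def tF_12 : Tr :=
(.N 19 (.N 277143875432201 (.N 211 (.N 13 .T (.N 37 .T (.N 4271 (.A [127, 131, 199, 277]) (.X
11)))) (.N 1361 (.N 821329 (.N 1801 .T (.N 13 .T (.N 5113 .T (.N 181 .T (.X 11))))) (.N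
1071854720291 (.N 47345561652679 (.N 5113 .T (.X 11)) (.X 11)) (.X 11))) (.N 821329 (.N 58044391
.T (.N 181 .T (.X 11))) (.N 17351 (.N 1071854720291 (.N 47345561652679 (.N 5113 .T (.X 11)) (.X
11)) (.X 11)) (.X 11))))) (.N 891601 (.A [7]) (.N 21028331 (.A [7]) (.N 17351 (.N 189361 (.A
[7]) (.N 1071854720291 (.N 47345561652679 (.N 5113 .T (.X 11)) (.X 11)) (.X 11))) (.X 11)))))
(.N 151 (.A [7]) (.N 277143875432201 (.N 211 (.N 37 (.A [7]) (.N 4271 (.A [13, 131, 199, 277])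
(.X 11))) (.N 1361 (.N 821329 (.N 1801 (.A [7]) (.N 181 (.A [13, 79, 101, 131, 139]) (.N 689797
(.N 5113 .T (.X 11)) (.X 11)))) (.N 1071854720291 (.N 17351 (.N 24049243 (.N 2713 (.A [7]) (.N
191 (.A [7]) (.X 11))) (.X 11)) (.X 11)) (.X 11))) (.N 821329 (.N 1801 (.A [7]) (.N 101 (.N
20845133501 (.N 9643 (.A [7]) (.N 40548821 (.N 626842136881 (.A [7]) (.N 14821 (.A [7]) (.X
11))) (.X 11))) (.N 845325721 (.A [7]) (.X 11))) (.N 1381 (.A [7]) (.N 822761 (.A [7]) (.N 17351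
(.N 181 (.A [13, 79, 131, 139]) (.X 11)) (.X 11)))))) (.N 17351 (.N 1071854720291 (.N 24049243
(.N 2713 (.A [7]) (.N 191 (.A [7]) (.X 11))) (.X 11)) (.X 11)) (.X 11))))) (.N 891601 (.A [7])
(.N 21028331 (.A [7]) (.N 17351 (.N 189361 (.A [7]) (.N 1071854720291 (.N 15131 (.A [7]) (.N
5791 (.A [7]) (.X 11))) (.X 11))) (.X 11)))))))

/-- a subtree -/
def tF_13 : Tr :=
(.N 21491 (.N 1097113 (.N 37 (.A [7]) (.N 17351 (.N 71261 (.N 4271 (.N 19 (.A [13, 127, 199,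
277, 331]) (.A [13, 151, 199, 277, 331])) (.X 11)) (.X 11)) (.X 11))) (.N 421 (.N 881 (.N
11435981 (.A [7, 19]) (.N 6101 (.A [7, 19]) (.N 19 (.N 631406718999332671 .T (.N 384481 .T (.N
191 (.A [7]) (.X 11)))) (.N 151 (.A [7]) (.N 277143875432201 (.N 211 (.A [13, 37, 311]) (.N 1361
(.N 821329 (.N 1801 .T (.N 631406718999332671 .T (.N 384481 .T (.N 181 .T (.X 11))))) (.N
5417694791 (.N 163 (.A [7]) (.X 11)) (.X 11))) (.N 821329 (.N 1801 .T (.N 631406718999332671 .T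
(.N 384481 .T (.N 181 .T (.X 11))))) (.N 17351 (.N 5417694791 (.N 163 (.A [7]) (.X 11)) (.X 11))
(.X 11))))) (.N 891601 (.A [7]) (.N 21028331 (.A [7]) (.N 22511 (.X 31) (.X 11))))))))) (.N
146521 (.N 7 .T (.N 3037 .T (.N 1021 .T (.A [79, 311, 601, 1451, 2801, 3251, 4261, 5113, 6101,
17351, 22511])))) (.N 823241 (.N 22511 (.X 31) (.N 311 (.N 19 (.A [13, 43, 127, 241, 661, 1481,
3251, 5107, 5113]) (.A [13, 43, 151, 241, 661, 911, 1481, 3251, 5107, 5113])) (.X 11))) (.N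
58680453629922511 (.N 7 .T (.N 67 .T (.A [311, 761, 1481, 2801, 3251, 3259]))) (.N 461 (.N 571
(.A [7, 103, 151, 311, 373]) (.N 11631811 (.A [7, 13]) (.X 11))) (.N 23971 (.N 4909 .T (.N 5113
.T (.X 11))) (.N 281 (.N 109 (.A [7, 151, 311]) (.X 31)) (.X 31)))))))) (.N 191 (.A [7, 13]) (.X
11)))) (.N 232611722621 (.N 9949 (.N 283 (.N 239025974415379 .T (.A [7, 73, 101])) (.X 31)) (.X
11)) (.X 31)))

/-- a subtree -/
def tF_14 : Tr :=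
(.N 61 (.N 6101 (.A [7, 13]) (.N 277143875432201 (.N 22093 (.N 159361 .T (.N 915961 .T (.N 50131
.T (.N 97 .T (.X 31))))) (.N 1151 (.N 19 (.N 211 .T (.N 13 .T (.N 5113 .T (.N 97 .T (.X 11)))))
(.N 151 (.A [7]) (.N 211 (.N 13 .T (.N 37 .T (.N 97 .T (.X 11)))) (.N 821329 (.N 1801 .T (.N 13
.T (.N 5113 .T (.N 97 .T (.X 11))))) (.N 1071854720291 (.N 17351 (.N 24049243 (.N 97 .T (.X 11))
(.X 11)) (.X 11)) (.X 11)))))) (.N 991 (.A [7, 13]) (.N 11435981 (.A [7, 13]) (.N 5417694791 (.N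
163 (.A [7, 13]) (.N 71261 (.N 821329 (.N 97 .T (.X 31)) (.X 11)) (.X 11))) (.N 71261 (.N 821329
(.N 97 .T (.X 11)) (.X 11)) (.X 11))))))) (.N 891601 (.A [7, 13]) (.N 21028331 (.A [7, 13]) (.N
189361 (.A [7, 13]) (.N 15131 (.A [7, 13]) (.N 1721 (.N 5791 (.A [7, 13]) (.N 2557 (.A [7, 13])
(.X 11))) (.X 11)))))))) (.N 22093 (.N 159361 (.N 367 .T (.N 5885051 (.A [7, 13]) (.N 1021 .T
(.N 5113 .T (.X 11))))) (.N 915961 (.A [7, 37, 101]) (.N 287191 (.A [7, 67, 101, 131, 331, 541])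
(.N 50131 (.A [7, 13]) (.X 11))))) (.N 1151 (.N 6101 (.A [7, 19]) tF_12) (.N 991 (.A [7, 13])
(.N 193091463181 (.N 64279 (.N 21491 (.N 421 .T (.N 37 .T (.X 11))) (.X 31)) (.X 31)) (.N 131
(.N 17293 (.N 11435981 (.A [7, 13]) (.N 6101 (.A [7, 13]) (.N 5417694791 (.N 163 (.A [7, 13])
(.N 71261 (.N 21491 (.N 1301 (.N 1699 (.X 31) (.X 11)) (.X 11)) (.X 31)) (.X 11))) (.N 71261 (.N
66271 (.A [7, 13]) (.N 521 (.X 31) (.X 11))) (.X 11))))) tF_13) (.N 973001 (.N 11435981 (.A [7,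
13]) (.N 6101 (.A [7, 13]) (.N 19 (.N 5417694791 (.N 163 (.A [7]) (.N 21491 (.N 1097113 (.A [13,
37, 127, 421, 1301, 1601]) (.N 22511 (.X 31) (.X 11))) (.X 31))) (.N 66271 (.A [7]) (.N 521 (.X
31) (.X 11)))) (.N 151 (.A [7]) (.N 5417694791 (.N 163 (.A [7]) (.N 21491 (.N 1097113 (.A [13,
37, 421, 911, 1301, 1601]) (.N 22511 (.X 31) (.X 11))) (.X 31))) (.N 66271 (.A [7]) (.N 521 (.X
31) (.X 11)))))))) (.N 21491 (.N 1071854720291 (.N 24049243 (.N 2713 (.A [7, 13]) (.X 31)) (.X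
11)) (.X 31)) (.X 31)))))))))

/-- a subtree -/
def tF_15 : Tr :=
(.N 457091 (.N 9456961 (.N 22093 (.N 159361 .T (.N 915961 .T (.N 50131 .T (.N 1021 .T (.X
11))))) (.N 1151 (.N 6101 (.A [7, 19]) (.N 19 (.N 5113 .T (.N 17351 (.N 71261 (.N 61 .T (.N
21787 .T (.N 166484861 (.A [7]) (.X 11)))) (.X 11)) (.X 11))) (.N 151 (.A [7]) (.N
277143875432201 (.N 211 (.N 13 .T (.N 37 .T (.N 5113 .T (.X 11)))) (.N 1361 (.N 13 (.N 61 .T (.N
5113 .T (.N 142591 .T (.X 11)))) (.N 142591 (.N 586741 .T (.N 5113 .T (.N 1171 .T (.X 11)))) (.N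
30941 (.N 433 (.A [37, 61, 139, 157]) (.X 11)) (.X 11)))) (.N 11831 (.N 821329 (.N 689797 .T (.N
181 .T (.X 11))) (.N 17351 (.N 71261 (.N 61 (.A [13, 43, 97, 139, 911]) (.A [13, 43, 131, 139,
911, 1063, 3361, 3673, 5113, 21491, 21787])) (.X 11)) (.X 11))) (.N 3724261 (.A [7]) (.N 61 (.N
58044391 .T (.N 97 .T (.X 11))) (.N 821329 (.N 58044391 .T (.N 181 .T (.X 11))) (.N 17351 (.N
1071854720291 (.N 24049243 (.N 5113 .T (.X 11)) (.X 11)) (.X 11)) (.X 11)))))))) (.N 891601 (.A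
[7]) (.N 21028331 (.A [7]) (.N 17351 (.N 71261 (.N 189361 (.A [7]) (.N 1071854720291 (.N 15131
(.A [7]) (.N 5791 (.A [7]) (.X 11))) (.X 11))) (.X 11)) (.X 11)))))))) (.N 991 (.A [7, 13])
tF_11))) tF_14) (.N 6841 (.A [7, 13]) (.N 1658264591 (.A [7, 13]) (.N 251 (.N 7552121 (.N
673254671 (.N 211 (.A [13, 19, 37, 43, 61]) (.N 23856413299819627 (.A [7, 19]) (.N 13183 (.A [7,
19]) (.N 17351 (.N 139560331 (.N 487 (.A [7, 13]) (.X 11)) (.X 11)) (.X 11))))) (.N 19376011 (.A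
[7, 43, 61, 101]) (.N 1106431826861 (.A [7, 43, 61, 101]) (.N 3271 (.A [7, 43, 61, 101]) (.X
11))))) (.X 11)) (.X 11)))))

/-- a subtree -/
def tF_16 : Tr :=
(.N 11831 (.N 457091 (.N 9456961 (.N 22093 (.N 159361 .T (.N 1021 .T (.X 11))) (.N 17351 (.N
71261 (.N 1071854720291 (.N 47345561652679 (.N 24049243 .T (.X 11)) (.X 11)) (.X 11)) (.X 11))
(.X 11))) (.N 61 (.N 2221 (.A [7, 13]) (.N 6101 (.A [7, 13]) (.N 22093 (.N 159361 .T (.N 97 .T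
(.X 11))) (.N 71261 (.N 1071854720291 (.N 47345561652679 (.N 97 .T (.X 11)) (.X 11)) (.X 11))
(.X 11))))) (.N 2221 (.A [7, 43, 131]) (.N 6101 (.A [7, 43, 131]) (.N 271241 (.N 22093 (.N
159361 (.N 58044391 .T (.N 367 .T (.X 11))) (.N 71261 (.N 19 (.A [13, 43, 101, 127, 131]) (.A
[13, 43, 101, 131, 151, 331])) (.X 11))) (.N 71261 (.N 1071854720291 (.N 47345561652679 (.N
5388501510739 (.A [7, 13]) (.N 19 (.A [13, 43, 127, 131, 151, 311]) (.N 17351 (.N 5101 (.A [13,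
43, 73, 131, 151]) (.N 5021 (.A [7]) (.X 11))) (.X 11)))) (.X 11)) (.X 11)) (.X 11))) (.N 17351
(.N 71261 (.N 1071854720291 (.N 47345561652679 (.N 5388501510739 (.A [7, 13]) (.N 19 (.A [13,
43, 127, 131, 151, 311]) (.N 5101 (.A [13, 43, 73, 131, 151]) (.N 5021 (.A [7]) (.X 11))))) (.X
11)) (.X 11)) (.X 11)) (.X 11))))))) (.N 6841 (.A [7, 13]) (.N 251 (.N 7552121 (.N 13183 (.A [7,
43, 61, 307, 1471]) (.N 1658264591 (.A [7, 13]) (.X 11))) (.X 11)) (.X 11)))) (.N 61 (.N 3724261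
(.A [7, 13]) (.N 2221 (.A [7, 13]) (.N 6101 (.A [7, 13]) (.N 17950001 (.N 16651 (.N 58044391 .T
(.N 97 .T (.X 11))) (.N 2304362741 (.A [7, 13]) (.N 3373001 (.A [7, 13]) (.N 58831 (.N 97 .T (.X
11)) (.X 11))))) (.N 311 (.N 5107 (.A [7, 13]) (.X 11)) (.X 11)))))) (.N 3724261 (.A [7, 37,
131]) (.N 457091 (.N 22093 (.N 159361 (.N 58044391 .T (.N 367 .T (.X 11))) (.N 17351 (.N 311 (.N
5107 (.A [7, 13]) (.X 11)) (.X 11)) (.X 11))) (.N 17351 (.N 311 (.N 5107 (.A [7, 13]) (.X 11))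
(.X 11)) (.X 11))) (.N 251 (.N 7552121 (.N 2221 (.A [7, 43, 131]) (.N 13183 (.A [7, 43, 131])
(.N 17351 (.N 139560331 (.N 19 (.A [13, 43, 127, 131, 311, 487, 1063]) (.A [13, 43, 131, 151,
311, 487, 911, 1063])) (.X 11)) (.X 11)))) (.X 11)) (.X 11))))))

/-- a subtree -/
def tF_17 : Tr :=
(.N 1723 (.N 990151 (.N 147739 .T (.N 764521675661 (.A [7, 13]) (.N 61 .T (.N 20356591 .T (.N
22651 .T (.N 2212009 .T (.N 18451 .T (.N 24225161 (.N 7 .T (.A [43, 71, 131, 421, 761])) (.X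
11))))))))) (.N 493450561 (.N 9714373 .T (.X 11)) (.N 131 (.N 331 (.N 7 .T (.N 1021 .T (.N 5233
.T (.N 17293 .T (.N 384481 .T (.N 17351 (.A [13]) (.X 11))))))) (.N 37861 (.N 63601 .T (.N 271
.T (.N 4313591 (.A [7, 13]) (.N 246941 (.A [7, 37, 61, 71]) (.N 1381 .T (.N 50408381 (.A [7, 37,
71, 211, 251, 811, 1021, 1091]) (.N 241 .T (.N 211 .T (.N 1021 .T (.N 251 (.N 332441 (.A [7, 37,
43]) (.N 1471 .T (.N 2941691 (.A [7, 37, 43]) (.N 37 .T (.X 11))))) (.X 11))))))))))) tF_7)) (.N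
973001 (.N 331 (.A [7, 13]) (.N 2912698091 (.A [7, 13]) (.N 94223761 (.A [7, 13]) (.N 4951 (.A
[7, 13]) (.N 54121 (.A [7, 13]) (.N 393091031 (.A [7, 13]) (.N 305771 (.A [7, 13]) (.X
11)))))))) (.N 19801 (.N 2389 .T (.N 1021 .T (.N 12601 .T (.N 4261 .T (.N 11251 .T (.X 11))))))
(.N 571 (.N 7 .T (.N 1021 .T (.N 12601 .T (.N 4261 .T (.N 103 .T (.X 11)))))) (.N 1831 (.A [7,
19, 61]) (.N 11631811 (.A [7, 13]) (.X 11))))))))) (.N 1445413861 (.N 43853794861 (.A [7, 19,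
43]) (.N 211 (.N 13 .T (.N 37 .T (.N 43 .T (.N 73 .T (.N 28792661 (.A [7]) (.N 4095851581 .T (.N
198301 .T (.N 4271 (.N 199 .T (.N 30941 (.N 157 .T (.X 11)) (.X 11))) (.X 11))))))))) tF_8)) (.N
72161 tF_10 (.N 71 tF_15 (.N 211 (.N 37 (.A [7, 13]) (.N 71261 (.N 4271 (.N 61 (.A [13, 19, 97,
199, 277, 331, 2221]) (.N 19 (.A [13, 127, 131, 199, 277]) (.A [13, 131, 151, 199, 277]))) (.X
11)) (.X 11))) (.N 1361 (.N 2221 (.A [7, 13]) (.N 6101 (.A [7, 13]) (.N 13 (.N 61 (.N 97 .T (.N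
142591 .T (.X 11))) (.N 17950001 (.N 16651 (.N 19 .T (.N 151 .T (.N 104670301 .T (.N 1376461 .T
(.N 142591 .T (.X 11)))))) (.N 2304362741 (.A [7]) (.N 3373001 (.A [7]) (.N 58831 (.N 142591 .T
(.X 11)) (.X 11))))) (.N 71261 (.N 86182788072221 (.N 427647365779 (.A [7]) (.N 1734086891 (.N
19 (.A [37, 127, 131, 151]) (.A [37, 131, 151, 281, 439, 911])) (.X 11))) (.X 11)) (.X 11))))
(.N 142591 (.N 586741 (.N 163 .T (.N 71261 (.N 30941 (.N 157 .T (.X 11)) (.X 11)) (.X 11))) (.N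
21063774651908851 (.A [7]) (.N 1171 (.A [7]) (.X 11)))) (.N 71261 (.N 30941 (.N 433 (.N 37 (.A
[7]) (.X 11)) (.X 11)) (.X 11)) (.X 11)))))) tF_16))))))

/-- a subtree -/
def tF_18 : Tr :=
(.N 811 (.N 4231 (.N 241 .T (.N 1051 .T (.N 61 .T (.N 271 .T (.N 11106421 .T (.N 3263466811411
.T (.N 9931 .T (.X 11)))))))) (.N 32401 (.N 241 .T (.N 1051 .T (.N 216211 .T (.N 271 .T (.N 401
(.A [7, 37, 61]) (.N 251 (.N 382861 .T (.N 1471 .T (.N 2941691 (.A [7, 37, 43]) (.N 37 .T (.X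
11))))) (.X 11))))))) (.N 216211 (.A [7, 71, 73, 97, 241, 271, 281, 1051, 1091]) (.N 401 (.A [7,
71, 73, 97, 131, 241]) (.N 202928769110351 (.A [7, 71, 73, 97, 131, 241]) (.N 822761 (.A [7, 71,
73, 79, 97]) (.X 11))))))) (.N 12774841 (.N 7 (.A [19]) (.N 2801 (.A [37, 43]) (.N 17351 (.A
[13]) (.N 620383 (.N 1051 .T (.N 61 .T (.A [71, 131, 241, 271, 1091, 1783]))) (.N 12526561 (.A
[37, 109, 241, 271, 761, 1051, 1091, 1783, 4231]) (.X 11)))))) (.N 4231 (.N 822761 (.N 7 (.A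
[19]) (.N 1224116611 (.A [13]) (.N 9931 (.N 241 .T (.A [61, 79, 181, 211, 271, 601])) (.X 11))))
(.N 9931 (.N 241 .T (.N 1051 .T (.N 61 .T (.N 271 .T (.N 251 (.N 1471 .T (.N 2941691 (.A [7,
43]) (.N 181 .T (.X 11)))) (.X 11)))))) (.X 11))) (.N 32401 (.N 37 (.A [7, 67, 181, 241]) (.N
822761 (.A [7, 79, 181, 241, 271]) (.N 17351 (.N 181 (.N 6781 .T (.X 11)) (.X 11)) (.X 11))))
(.N 11048730682351 (.N 216211 (.A [7, 19]) (.N 401 (.A [7, 19]) (.N 1231 (.A [13, 19, 37, 71,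
131, 181, 241, 271, 281]) (.N 131663471 (.A [7, 19]) (.N 822761 (.A [7, 19]) (.X 11)))))) (.N
216211 (.A [7, 61, 71, 131, 181, 241, 271]) (.N 37861 (.N 37 (.A [7, 61, 67]) (.X 41)) (.X
41))))))))

/-- a subtree -/
def tF_19 : Tr :=
(.N 101 (.N 331 (.N 7 (.A [19]) (.N 2801 (.A [37, 43]) (.N 17351 (.A [13]) (.N 1648012040336791
(.N 1051 .T (.N 241 .T (.N 61 .T (.A [71, 131, 163, 1783, 5233])))) (.N 41681 (.A [13]) (.N
6136365041 (.N 12907 (.N 1051 .T (.N 61 .T (.A [71, 109, 131, 241]))) (.X 11)) (.X 11))))))) (.N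
63601 (.N 612067 (.N 1051 .T (.N 241 .T (.N 61 .T (.N 26010319 .T (.N 271 .T (.N 251 (.N 1471 .T
(.N 2941691 (.A [7, 43]) (.N 691 .T (.X 11)))) (.X 11))))))) (.N 6701 (.N 7 (.A [19]) (.N 4813
(.A [13]) (.N 1381 (.A [13]) (.N 811 (.A [43, 73, 97, 151]) (.N 822761 (.A [43, 79, 151, 421,
1051, 1091, 1783, 2203, 2801]) (.N 6781 (.A [37, 43]) (.X 11))))))) (.N 634204951 (.A [7, 13])
(.N 15511 (.N 1051 .T (.N 241 .T (.N 421 .T (.N 181 .T (.X 11))))) (.N 494542541 (.N 39125953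
(.N 1051 .T (.N 421 .T (.N 181 .T (.X 11)))) (.N 2011 (.A [7, 13]) (.X 11))) (.N 191 (.A [7,
13]) (.X 11))))))) (.N 1381 (.A [7, 13]) (.N 50408381 (.N 7 (.A [19]) (.N 11709700117279 (.A
[19]) (.N 691 (.A [19]) (.N 61 (.A [13]) (.N 1189301 (.A [13]) (.N 17351 (.A [13]) (.X 11)))))))
tF_18)))) (.N 1381 (.A [7, 13]) (.N 491 (.N 37 (.N 7 (.A [19]) (.N 811 (.A [67, 73]) (.N 822761
(.A [67, 79]) (.N 430811 (.N 1783 (.A [67, 331, 829, 1051, 1091, 1249]) (.N 67271 (.A [13]) (.A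
[67, 191, 331]))) (.A [67, 71]))))) (.N 811 (.N 822761 (.A [7, 73, 79]) (.N 17351 (.N 4271 (.N
97 (.N 1051 .T (.N 241 .T (.N 61 .T (.N 14275091 (.A [13, 19, 71]) (.N 251 (.A [13, 43, 71, 73,
131, 199]) (.X 11)))))) (.X 11)) (.X 11)) (.X 11))) (.N 12774841 (.N 7 (.A [19]) (.N 620383 (.A
[61, 331, 1051, 1091, 1783, 2731]) (.N 17351 (.A [13]) (.X 11)))) (.N 822761 (.N 7 (.A [19]) (.A
[79, 181, 331, 1051, 1091])) (.N 17351 (.N 181 (.N 4271 (.N 331 (.A [7, 13]) (.N 6781 (.N 414313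
.T (.X 11)) (.X 11))) (.X 11)) (.X 11)) (.X 11)))))) (.N 191 (.A [7, 13]) (.N 1871 (.N 7 (.A
[19]) (.N 2801 (.A [37, 43]) (.N 17351 (.A [13]) (.N 822761 (.N 1224116611 (.A [13]) (.X 11))
(.X 11))))) (.N 228729421 (.A [7, 19]) (.N 251 (.N 13001 (.A [7, 43, 71, 151]) (.N 822761 (.A
[7, 43, 71, 79]) (.N 17351 (.N 3001 (.N 17981 (.A [13, 19, 43, 61, 71, 73]) (.N 3301 (.A [7,
13]) (.N 71 (.N 331 (.A [7, 13]) (.N 32491 (.A [7, 13]) (.N 6549693302651 (.A [7, 13]) (.X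
11)))) (.X 11)))) (.X 11)) (.X 11)))) (.X 11))))))))

/-- a subtree -/
def tF_20 : Tr :=
(.N 421 (.N 881 (.N 19 (.N 384481 .T (.N 17351 (.N 232611722621 (.N 9949 .T (.X 11)) (.X 11))
(.X 11))) (.N 151 (.A [7]) (.N 911 (.N 830833 (.N 384481 .T (.N 861001 .T (.X 11))) (.N 17351
(.N 232611722621 (.N 9949 (.A [7]) (.X 11)) (.X 11)) (.X 11))) (.N 17884211 (.A [7]) (.X 11)))))
(.N 146521 (.N 7 .T (.N 3037 .T (.N 384481 .T (.N 311 (.A [19]) (.X 11))))) (.N 823241 (.N 1481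
(.A [7, 13]) (.N 43 (.N 384481 .T (.N 631 .T (.X 11))) (.N 661 (.N 384481 .T (.N 59167 .T (.X
11))) (.N 165811 (.A [7, 13]) (.N 2075397091 (.N 38804262048708643 .T (.X 11)) (.X 11)))))) (.N
58680453629922511 (.N 7 .T (.N 67 .T (.N 384481 .T (.N 311 (.A [19]) (.X 11))))) (.N 461 (.N 571
(.A [7, 71, 103, 151, 311, 373, 1481]) (.N 11631811 (.A [7, 13]) (.X 11))) (.N 23971 (.N 4909 .T
(.N 17341 .T (.X 11))) (.N 281 (.N 109 (.A [7, 71, 151, 311, 571]) (.N 191 (.A [7, 13]) (.N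
17341 (.A [7, 71, 151]) (.X 11)))) (.N 71 (.N 271 (.N 384481 .T (.N 5113 .T (.X 11))) (.N 251
(.N 4313591 (.A [7, 13]) (.N 246941 (.A [7, 43]) (.N 17341 (.A [7, 43]) (.N 17351 (.N 311 (.A
[13, 19, 43, 151]) (.X 11)) (.X 11))))) (.X 11))) (.N 17341 (.N 7 .T (.A [151, 211, 271, 311]))
(.X 11)))))))))) (.N 191 (.A [7, 13]) (.X 11)))

/-- a subtree -/
def tF_21 : Tr :=
(.N 973001 (.N 19 (.N 21491 (.N 1097113 (.N 421 .T (.N 37 .T (.X 11))) (.N 421 (.N 13 .T (.N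
3832922749 .T (.N 813311 (.A [7]) (.N 5471 (.A [7]) (.X 11))))) (.N 191 (.A [7]) (.X 11)))) (.N
1011185971 (.N 12757 .T (.N 13 .T (.N 3832922749 .T (.N 813311 (.A [7]) (.N 379 .T (.X 11))))))
(.N 521 (.N 283 (.N 367 .T (.X 11)) (.X 31)) (.X 11)))) (.N 151 (.A [7]) (.N 911 (.N 830833 (.N
21491 (.N 1097113 (.N 421 .T (.N 37 .T (.X 11))) (.N 421 (.N 13 .T (.N 3832922749 .T (.N 813311
(.A [7]) (.N 5471 (.A [7]) (.X 11))))) (.N 191 (.A [7]) (.X 11)))) (.N 1011185971 (.N 12757 .T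
(.N 13 .T (.N 3832922749 .T (.N 813311 (.A [7]) (.N 379 .T (.X 11)))))) (.N 521 (.N 283 (.N 367
.T (.X 11)) (.X 31)) (.X 11)))) (.N 17351 (.N 621301 (.A [7]) (.N 2249049650927341 (.N 1033663
(.N 102931 .T (.X 11)) (.X 11)) (.X 11))) (.X 11))) (.N 17884211 (.A [7]) (.X 11))))) (.N 19801
(.N 2389 (.N 7 .T (.N 2803 .T (.N 97 .T (.X 11)))) (.N 1590315431 (.N 40819 (.A [7, 13]) (.N 401
(.A [7, 13]) (.X 11))) (.N 8461 (.N 55117 .T (.N 792112672728991 .T (.N 191 (.A [7, 13]) (.X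
11)))) (.N 5663560354741 (.A [7, 13]) (.N 590763331 (.N 181 .T (.X 11)) (.X 11)))))) (.N 571 (.N
7 (.A [19]) (.N 2801 (.A [37, 43]) (.N 1017889031 (.A [13]) (.N 17351 (.A [13]) (.X 11))))) (.N
11631811 (.A [7, 13]) (.X 11)))))

/-- a subtree -/
def tF_22 : Tr :=
(.N 9404401961 (.N 1101680295631 (.N 10589172205663 (.N 340100015471382811 .T (.N 859 .T (.N
4772771 (.A [7, 13]) (.N 61 .T (.N 26735953 .T (.N 1201915151 (.A [7, 37, 43]) (.N 7 .T (.N 6011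
(.A [19]) (.N 181 .T (.X 11)))))))))) (.N 26735953 (.N 287419062949 .T (.N 7321 .T (.N
2384261611201 .T (.N 829 .T (.N 80279893 .T (.N 3691 .T (.N 61 .T (.N 1308121 .T (.N 22031 (.A
[7, 13]) (.X 11)))))))))) (.N 489886751 (.A [7, 13]) (.N 1201915151 (.N 37 (.A [7, 43, 67, 73])
(.N 151 (.A [7, 43, 73]) (.N 6011 (.N 1902007 (.A [7, 13]) (.N 19 (.N 7321 .T (.N 2384261611201
.T (.N 61 .T (.N 80279893 .T (.N 3691 .T (.N 811 .T (.N 1361 (.A [13, 43, 73]) (.N 58044391 .T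
(.N 181 .T (.X 11)))))))))) (.N 464201 (.N 701899129 (.A [13, 43, 73, 181, 307, 311, 811, 911,
1429]) (.N 719339261 (.A [7]) (.N 1171 (.A [7]) (.X 11)))) (.N 766349579951 (.A [7]) (.N 17351
(.A [13, 43, 73, 181, 311, 811, 911, 1051, 1063, 1429, 2131, 4271]) (.N 181 (.N 11529901 .T (.X
11)) (.X 11))))))) (.N 17351 (.N 311 (.N 4271 (.A [13, 19, 43, 73, 199, 277, 331]) (.X 11)) (.X
11)) (.X 11))))) (.N 542831 (.A [7, 13]) (.N 19121 (.A [7, 19, 151, 211, 311]) (.X 11))))))) (.N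
9161 (.N 6456391 (.A [7, 13]) (.N 605354341 (.A [7, 13]) (.N 17351 (.N 241713702161 (.N 3061 (.A
[7, 13]) (.X 11)) (.N 1175351 (.A [7, 13]) (.N 45544361 (.A [7, 13]) (.X 11)))) (.X 11)))) (.N
191 (.A [7, 13]) (.X 11)))) (.N 61 (.N 97 (.N 13 .T (.N 1123759171 .T (.N 467468554981161491 (.A
[7]) (.N 10676401 .T (.N 31622515591 .T (.N 1051 .T (.N 14275091 (.A [19, 37, 71, 101, 151]) (.N
251 (.N 1471 .T (.N 2941691 (.A [7]) (.N 631 .T (.X 11)))) (.X 11))))))))) (.N 262321 (.N 367 .T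
(.X 11)) (.X 11))) (.N 131 (.N 17293 (.N 7668337 (.N 13 .T (.N 801337 .T (.N 3897115051 .T (.X
11)))) (.N 207331 (.N 1531 .T (.N 1591242871 .T (.N 691 .T (.X 11)))) (.N 17351 (.N 1181 (.N 151
(.A [7, 13]) (.N 1395943 (.N 7753 .T (.X 11)) (.N 811 (.N 97 .T (.X 11)) (.N 6781 (.N 37 .T (.X
11)) (.X 11))))) (.X 11)) (.X 11)))) (.N 21491 (.N 1097113 (.N 37 (.A [7, 67, 421]) (.N 17351
(.N 4271 (.N 232611722621 (.N 9949 (.A [7, 13]) (.X 11)) (.X 11)) (.X 11)) (.X 11))) tF_20) (.N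
1011185971 (.N 5422626589 (.A [7, 13]) (.N 12757 (.N 384481 .T (.N 379 .T (.X 11))) (.N 379 (.N
384481 .T (.N 311 (.N 5107 .T (.X 11)) (.X 11))) (.N 311 (.N 5107 (.A [7, 13]) (.X 11)) (.X
11))))) (.N 17351 (.N 521 (.N 283 (.N 232611722621 (.N 9949 (.A [7, 13]) (.X 11)) (.X 31)) (.X
31)) (.X 11)) (.X 11))))) tF_21)))

/-- a subtree -/
def tF_23 : Tr :=
(.N 3221 (.N 10378063 (.N 769 (.N 6367 .T (.N 5791 .T (.N 271 .T (.N 251 (.N 4313591 (.A [7, 13,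
41]) (.N 1471 .T (.N 691 .T (.N 2941691 (.A [7, 41, 43, 61, 71, 307]) (.X 11))))) (.X 11)))))
tF_5) (.N 17351 tF_6 (.N 1648012040336791 (.N 686527819 (.N 163 .T (.N 1301 (.N 1699 .T (.X 11))
(.X 11))) (.N 251 (.N 163 (.A [7, 19, 43, 67]) (.N 97931 (.N 1301 (.N 1699 (.N 9631 .T (.N 1471
.T (.N 691 .T (.X 11)))) (.X 11)) (.X 11)) (.X 11))) (.X 11))) (.N 42751 (.N 87032893 (.N
1290193246633 .T (.N 103 .T (.X 11))) (.N 251 (.N 41681 (.A [7, 13, 43]) (.N 6136365041 (.N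
12907 (.N 1861 .T (.N 61 .T (.N 7 .T (.A [41, 43, 109, 131, 577, 883, 1471, 2801])))) (.X 11))
(.X 11))) (.X 11))) (.N 2223796173481 (.N 37 (.N 37426191973 .T (.X 11)) (.X 11)) (.X 11))))))
(.N 1957650063931 (.N 7 (.A [13, 19]) (.N 13 (.A [61]) (.N 2801 (.A [37]) (.N 15683402202973 (.N
1391011 .T (.N 62223611 (.A [131, 199]) (.A [101]))) (.N 46094201 (.A [19]) (.N 9729573701 (.A
[19]) (.N 431 (.A [67]) (.A [71])))))))) (.N 41 tF_17 (.N 579281 (.N 541 (.N 17351 (.A [7, 13])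
(.N 7 (.N 1051 .T (.A [19, 71])) (.N 1648012040336791 (.N 1051 .T (.N 241 .T (.N 61 .T (.N
686527819 .T (.N 251 (.A [43, 71, 131]) (.X 11)))))) (.N 41681 (.A [13]) (.N 6136365041 (.N
12907 (.N 1051 .T (.N 61 .T (.N 109 .T (.A [71, 131, 191, 241, 331, 577, 883])))) (.X 11)) (.X
11)))))) tF_19) tF_22))))

/-- a subtree -/
def tF_24 : Tr :=
(.N 31 (.N 331 (.N 7 .T (.N 5233 .T (.N 41213191 .T (.N 1184731 .T (.N 660857341 .T (.N
130629271 .T (.N 3074251 .T (.N 61 .T (.N 11 (.A [19, 71, 131]) (.N 971 (.A [13]) (.X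
11))))))))))) tF_1) (.N 11 (.N 17351 (.A [7, 13, 19]) (.N 19 (.N 1648012040336791 (.N 686527819
.T (.N 7 .T (.N 163 .T (.N 1601 (.A [37, 103]) (.N 2801 (.A [37, 43]) (.N 6294091 .T (.N
59376284620771 .T (.A [41, 127])))))))) (.N 41681 (.A [7, 13]) (.N 52861 (.A [7, 13]) (.N
91873141 (.A [7, 13]) (.N 16997738581 (.N 1861 .T (.A [7, 41, 97, 127])) (.N 61 (.A [7, 13]) (.N
6136365041 (.N 701 (.N 15551 (.A [7, 13]) (.N 918751 (.A [7, 127, 131, 157, 251]) (.N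
12731904851 (.A [7, 13]) (.A [7, 127, 131, 251, 601, 661])))) (.A [7, 101, 127, 131])) (.A [7,
127, 131, 251, 331, 701])))))))) (.N 1648012040336791 (.N 686527819 (.A [7, 13]) (.N 251 (.A [7,
43, 151, 163]) (.N 97931 (.N 9631 (.N 7 .T (.N 204781 .T (.N 163 .T (.N 1301 (.N 1699 .T (.A
[41, 151])) (.A [61, 151, 457, 701]))))) (.A [7, 41, 101, 151])) (.N 163 (.N 7 .T (.A [67, 151,
271, 911, 1481])) (.N 1301 (.N 1699 (.A [7, 13]) (.A [7, 41, 151])) (.A [7, 61, 151, 271, 911,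
1481, 1601])))))) (.N 41681 (.A [7, 13]) (.N 52861 (.A [7, 13]) (.N 91873141 (.A [7, 13]) (.N
16997738581 (.N 6136365041 (.A [7, 61, 97, 151, 251, 739, 911]) (.N 1861 (.N 7 .T (.N 42751 .T
(.N 2223796173481 .T (.N 8431 .T (.N 631 .T (.A [41, 97])))))) (.A [7, 41, 97, 151]))) (.N 61
(.A [7, 13]) (.N 6136365041 (.N 701 (.N 15551 (.A [7, 13]) (.N 918751 (.A [7, 131, 151, 157,
251]) (.N 12731904851 (.A [7, 13]) (.A [7, 131, 151, 251, 601, 661, 911])))) (.A [7, 101, 131,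
151])) (.A [7, 131, 151, 251, 331, 701, 911])))))))))) tF_23))

/-- a subtree -/
def tF_25 : Tr :=
(.N 19 (.N 71 (.N 127 (.N 7 .T (.N 5419 .T (.N 836561914831 .T (.N 1031 (.N 97 .T (.A [31])) (.A
[31, 61]))))) (.N 262209281 (.A [7, 13]) (.N 477869921 (.A [7, 13]) (.N 101 (.N 14621 (.A [7,
13]) (.N 4440731591 (.A [7, 31, 79]) (.X 5))) (.A [7, 31, 421]))))) (.N 211 (.A [7, 13]) (.N
1361 (.A [7, 13]) (.N 11831 (.N 2221 (.N 3255451 .T (.X 5)) (.X 5)) (.X 5))))) (.N 71 (.N 911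
(.N 830833 (.A [7, 13]) (.N 31 (.N 331 (.N 7 .T (.N 5233 .T (.N 5113 .T (.N 13080080081 (.A
[13]) (.A [41]))))) (.N 37861 (.A [7, 37]) (.A [7, 41]))) (.N 17351 (.A [7, 13]) (.N
1648012040336791 (.N 686527819 (.A [7, 13]) (.A [7, 151, 163, 251, 1481])) (.N 41681 (.A [7,
13]) (.X 5)))))) (.N 701 (.N 151 (.N 1093 (.N 7 .T (.N 5113 .T (.N 13080080081 (.A [13]) (.A
[31, 41])))) (.N 31 (.N 7 .T (.N 5113 .T (.N 13080080081 (.A [13]) (.A [41])))) (.N 17351 (.A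
[7, 13]) (.N 4189129561 (.N 7 .T (.A [163])) (.X 5))))) (.N 104670301 (.N 1549 (.N 16333 .T (.N
7 .T (.N 7338241 .T (.N 2251 .T (.X 5))))) (.N 1031 (.N 97 (.N 3169 .T (.N 61 .T (.N 1567 .T (.A
[7, 131, 191])))) (.A [7, 31])) (.N 31 (.N 331 .T (.X 5)) (.X 5)))) (.N 1376461 (.N 17884211 (.N
45692145853819 (.N 2117131 .T (.X 5)) (.N 3622746821 (.N 976278071191 (.A [7, 31, 79]) (.X 5))
(.X 5))) (.X 5)) (.X 5)))) (.N 478851301 (.A [7, 31, 101, 151]) (.N 61 (.A [7, 13]) (.X 5)))))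
(.N 211 (.A [7, 13]) (.N 1361 (.A [7, 13]) (.N 11831 (.N 151 (.N 2221 (.N 1093 .T (.A [7, 31,
43])) (.X 5)) (.X 5)) (.X 5))))))

/-- a subtree -/
def tF_26 : Tr :=
(.N 5113 (.N 3221 (.N 10378063 (.N 46685826619 .T (.N 769 .T (.N 541 .T (.N 31 .T (.N 8715961 .T
(.X 5)))))) (.N 8715961 (.N 3617523089023 .T (.N 7 .T (.N 33151 .T (.N 241562563680036301 .T (.N
2801 (.N 4933 .T (.N 31 .T (.X 5))) (.X 5)))))) (.N 162433359941 (.N 1204825220584789 (.N 157 .T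
(.N 997 .T (.N 31 .T (.N 33151 .T (.X 5))))) (.N 6379 (.A [7, 13, 31]) (.N 281 (.N 109 (.N 7 .T
(.N 571 .T (.N 31 .T (.X 5)))) (.N 191 (.A [7, 13, 31]) (.N 24061 (.A [7, 19, 31]) (.X 5)))) (.N
3361 (.N 31 .T (.X 5)) (.X 5))))) (.N 412171631 (.N 21053922121 (.N 33151 .T (.X 5)) (.X 5)) (.X
5))))) (.N 1957650063931 (.N 7 .T (.N 13 .T (.N 15683402202973 .T (.N 46094201 (.A [19]) (.N
2801 (.A [37]) (.X 5)))))) (.N 8715961 (.N 3617523089023 .T (.N 7 .T (.N 2801 (.N 4933 .T (.A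
[31, 37, 41, 43])) (.X 5)))) (.X 5)))) (.N 13080080081 (.N 619 (.N 19 (.N 21261152595806269 .T
(.N 61 .T (.N 13 .T (.N 6733 .T (.N 56701 .T (.N 31 .T (.X 5))))))) (.N 151 (.A [7, 13]) (.N 13
(.N 61 .T (.N 104670301 .T (.X 5))) (.N 6733 (.N 907 .T (.N 877 .T (.N 21261152595806269 .T (.N
31 .T (.X 11))))) (.N 2332541 (.N 2491171 (.A [7]) (.N 15541 (.N 61 .T (.X 5)) (.X 5))) (.N 191
(.A [7]) (.X 5))))))) (.N 1031 (.A [7, 13, 61, 97]) (.N 61 (.N 7296664931 (.N 19 (.N 13 .T (.N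
31 .T (.N 97 .T (.X 11)))) (.N 151 (.A [7, 13]) (.N 212561 (.N 31 (.N 331 .T (.X 5)) (.X 5)) (.X
5)))) (.N 3371 (.A [7, 13, 31]) (.X 5))) (.N 7296664931 (.N 212561 (.N 31 (.N 331 (.A [7, 13])
(.X 5)) (.X 5)) (.X 5)) (.X 5))))) (.N 31 (.N 331 (.N 7 .T (.N 5233 .T (.N 2371 .T (.N 2801 (.A
[37, 41, 43]) (.X 5))))) (.N 37861 (.N 1201 .T (.X 5)) (.X 5))) (.N 17351 (.N 2371 (.N 41 (.N
3221 (.N 4751 (.N 43597 (.N 487 .T (.X 11)) (.N 191 (.A [7, 13]) (.X 11))) (.X 5)) (.X 5)) (.X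
5)) (.X 5)) (.X 5)))))

/-- left tree -/
def tLF : Tr :=
tF_24

/-- right tree -/
def tRF : Tr :=
(.N 11 tF_25 (.N 71 tF_26 (.N 211 (.N 37 (.A [7, 13]) (.N 2221 (.A [7, 13]) (.N 4271 (.N 331 (.A
[7, 13]) (.X 5)) (.X 5)))) (.N 2221 (.N 1361 (.N 7 (.A [13, 19]) (.N 2801 (.A [13, 37]) (.X 5)))
(.X 5)) (.X 5)))))

theorem okLF : ck 5 TF [] [5] 31 25 tLF = true := by decide +kernel

theorem okRF : ck 5 TF [5] [] (ph 5 5) (5 ^ (5 - 1)) tRF = true := by decide +kernel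

end Pool.Agent.Lib.MP_c8748f_nt
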