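import Pool.Agent.Lib.MP_c8748f_nt.PrimesS

/-! The factor chain tree (generated). -/

namespace Pool.Agent.Lib.MP_c8748f_nt

/-- a subtree -/
def tS_0 : Tr :=
(.N 7 (.N 178814413 .T (.N 19 .T (.N 4159 .T (.N 43 .T (.N 29 (.A [13]) (.N 88009573 .T (.N
22807 .T (.N 1287750186827959 .T (.N 643567 .T (.N 113 (.A [13]) (.N 44983 .T (.N 2857 .T (.N
72101 (.A [13]) (.N 127 .T (.N 86353 .T (.N 2017 .T (.X 29))))))))))))))))) (.N 43 (.N 178814413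
.T (.N 4159 .T (.N 127 .T (.N 162709 .T (.N 86353 .T (.N 29 (.A [13, 67, 71, 113]) (.X 7)))))))
(.N 2927 (.N 5779 (.N 178814413 .T (.N 1483 .T (.N 4159 .T (.N 409 .T (.N 6133 .T (.N 29 (.A
[13, 67, 113, 127, 197, 421, 757]) (.X 7))))))) (.N 29 (.N 13 (.A [61, 67, 113, 127]) (.N 1483
(.N 733591 .T (.A [67, 113, 127, 239, 281, 379, 421])) (.A [67, 113, 127, 197, 379, 421, 2017,
4159]))) (.N 88009573 (.N 1483 .T (.N 4159 .T (.N 8059 .T (.N 353091019 .T (.N 57037 .T (.N 127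
.T (.X 7))))))) (.N 1173090382031 (.A [13, 71, 113, 127, 139, 379, 421, 1483]) (.N 71 (.N 22807
(.N 79 .T (.N 1483 .T (.N 337 .T (.A [19, 113, 127, 197, 239, 281, 349, 379, 421, 1289,
2017])))) (.N 113 (.N 379 (.A [13, 61, 127]) (.X 7)) (.X 7))) (.N 113 (.N 379 (.A [13, 61, 127])
(.X 7)) (.X 7))))))) (.N 6007 (.N 178814413 .T (.N 79669 .T (.N 13441 .T (.N 76819 .T (.N 29 (.A
[13, 67, 113, 127, 151, 211, 239]) (.X 7)))))) (.N 29 (.N 13 (.N 158341 .T (.A [61, 67, 113,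
421, 1709, 2017])) (.N 5229043 (.N 178814413 .T (.N 72577051 .T (.N 127 .T (.X 7)))) (.N 67 (.X
7) (.N 175897 (.N 178814413 .T (.N 127 .T (.X 7))) (.A [71, 127, 239, 421]))))) (.N 88009573 (.N
178814413 .T (.N 127 .T (.X 7))) (.N 22807 (.N 421 .T (.X 7)) (.X 7))))))))

/-- a subtree -/
def tS_1 : Tr :=
(.N 3217 (.N 7 .T (.N 1478526139 .T (.N 492967 .T (.N 1723 .T (.N 5503 .T (.N 43 .T (.N 158341
.T (.N 5839 .T (.N 6065221 .T (.X 7)))))))))) (.N 11309108021 (.N 43 (.N 2017 .T (.N 7 .T (.N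
1727870509 .T (.N 967 .T (.N 1597 .T (.N 13 .T (.N 5229043 .T (.N 239 (.A [19, 29]) (.N 211 .T
(.X 7)))))))))) (.N 7 (.N 2017 .T (.A [13, 19, 29])) (.N 13 (.N 158341 .T (.N 61 .T (.N
52379047267 .T (.N 41203 .T (.N 340397 (.A [29, 67, 113, 211]) (.N 8513 (.N 223 .T (.A [29, 113,
197, 211, 491, 1163, 1583, 1709, 2017])) (.A [29, 113, 127, 197, 211, 1163, 1583]))))))) (.N
5229043 (.N 158341 .T (.N 72577051 .T (.N 463 .T (.N 1465469347 .T (.N 20890381 .T (.N 547 .T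
(.N 2017 .T (.X 7)))))))) (.N 239 (.A [19, 29]) (.N 245561 (.N 59762587 (.N 158341 .T (.N
7303817719213 .T (.N 491 (.A [29, 37, 113, 163]) (.N 1009 .T (.X 7))))) (.N 3697 (.A [19, 29])
(.N 1839385378027 (.N 3511 .T (.N 158341 .T (.N 2767 .T (.N 3754507 .T (.N 29 (.A [67, 71, 113,
827]) (.X 7)))))) (.N 3754507 (.N 158341 .T (.N 1009 .T (.X 7))) (.N 1009 (.N 29 (.A [37, 67])
(.X 7)) (.X 7)))))) (.N 229237 (.N 96043 .T (.N 3754507 .T (.N 5657 (.A [29, 67, 113, 197, 271,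
617, 673, 911, 1051, 1093, 2017, 4733]) (.A [29, 71, 113, 197, 211, 271, 617, 673])))) (.N
3754507 (.N 158341 .T (.N 127 .T (.X 7))) (.N 5657 (.N 2017 (.N 127 .T (.X 7)) (.X 7)) (.X
7)))))))))) tS_0))

/-- a subtree -/
def tS_2 : Tr :=
(.N 43 (.N 631 .T (.N 72377887 .T (.N 29 (.N 13 .T (.N 5229043 .T (.N 67 .T (.N 175897 .T (.N 71
(.N 5113 .T (.A [113, 127])) (.A [127, 239, 883, 4733])))))) (.N 88009573 .T (.N 22807 .T (.N
1287750186827959 .T (.X 7))))))) (.N 29 (.N 13 (.N 158341 .T (.N 67 .T (.N 175897 .T (.A [61,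
71])))) (.N 5229043 (.N 158341 .T (.N 72577051 .T (.N 463 .T (.N 67 .T (.N 175897 .T (.A [71,
113, 127])))))) (.N 239 (.A [19]) (.N 245561 (.N 1009 (.A [37, 67]) (.N 67 (.X 7) (.N 175897 (.N
158341 .T (.N 5839 .T (.X 7))) (.N 72377887 (.A [71, 127, 1063, 1321, 4733]) (.X 7))))) (.N 67
(.X 7) (.N 229237 (.N 175897 .T (.A [71, 127, 271])) (.N 72377887 (.N 127 .T (.X 7)) (.X
7)))))))) (.N 88009573 (.N 158341 .T (.N 8059 .T (.N 56533 .T (.N 142759 .T (.N 211 .T (.X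
7)))))) (.N 71 (.N 22807 (.N 158341 .T (.N 79 .T (.N 337 .T (.N 113 (.A [13, 19]) (.X 7))))) (.N
6287 (.N 1327 (.N 5839 .T (.X 7)) (.N 3828931 (.N 158341 .T (.N 5839 .T (.X 7))) (.N
1427168974267 (.N 127 .T (.X 7)) (.X 7)))) (.N 2483447 (.N 9296107 (.X 7) (.N 2297 (.N 2689 (.N
13 .T (.A [113, 127, 151, 487, 607, 1093, 3109, 4733, 4951, 5113])) (.X 7)) (.X 7))) (.X 7))))
(.N 22807 (.N 158341 .T (.N 113 (.A [13, 19]) (.X 7))) (.N 2483447 (.N 9296107 (.X 7) (.N 2297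
(.N 2689 (.N 883 .T (.X 7)) (.X 7)) (.X 7))) (.X 7)))))))

/-- a subtree -/
def tS_3 : Tr :=
(.N 491 (.N 6529 (.A [13, 29, 37, 43, 71, 127]) (.N 29 (.A [13, 37, 43, 67, 71]) (.N 211 (.A
[13, 37, 43, 71]) (.N 71 (.N 43 (.N 5113 .T (.N 14686393 .T (.N 3529 .T (.N 38533987 .T (.N
2403521 (.A [13, 37]) (.N 113 (.A [13, 37]) (.X 7))))))) (.N 38533987 (.N 5113 .T (.A [19, 37,
113, 127, 241, 379, 547])) (.N 412544161 (.A [13, 19]) (.N 88009573 (.N 158341 .T (.N 113 (.A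
[13, 37]) (.X 7))) (.N 22807 (.A [19, 37, 79, 127, 331, 349]) (.X 7)))))) (.N 43 (.N 21020917 .T
(.N 1723 .T (.N 113 (.A [13, 37]) (.X 7)))) (.N 38533987 (.N 127 .T (.X 7)) (.N 412544161 (.A
[13, 19]) (.N 379 (.N 127 .T (.X 7)) (.X 7))))))))) (.N 71 (.N 43 (.N 5113 .T (.N 14686393 .T
(.N 3529 .T (.N 38533987 .T (.N 29 (.A [13, 67, 113, 127]) (.N 88009573 .T (.N 127 .T (.X
7)))))))) (.N 38533987 (.N 158341 .T (.N 19 .T (.N 29 (.A [13]) (.N 113 (.A [13]) (.X 7))))) (.N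
412544161 (.A [13, 19, 29]) (.N 29 (.N 13 (.A [61, 67]) (.N 5229043 (.N 5113 .T (.A [67, 113,
127])) (.A [67, 127, 239, 547, 617, 1051]))) (.N 88009573 (.N 158341 .T (.N 127 .T (.X 7))) (.N
22807 (.N 127 .T (.X 7)) (.X 7))))))) (.N 43 (.N 883 .T (.N 21020917 .T (.N 1723 .T (.N 29 (.A
[13, 67, 113, 127]) (.X 7))))) (.N 38533987 (.N 158341 .T (.N 29 (.A [13, 19]) (.X 7))) (.N
412544161 (.A [13, 19, 29]) (.N 29 (.N 13 (.A [61, 67]) (.N 5229043 (.N 883 .T (.A [67, 127,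
379, 547, 617, 1051])) (.A [67, 127, 239, 547, 617, 883]))) (.N 617 (.N 3093060713 (.N 547 (.N
127 .T (.X 7)) (.X 7)) (.X 7)) (.X 7))))))))

/-- a subtree -/
def tS_4 : Tr :=
(.N 88009573 (.N 40111 .T (.N 6679 .T (.N 86353 .T (.N 8059 .T (.N 56533 .T (.N 6217 .T (.N 9857
(.A [13]) (.N 27259 .T (.N 142759 .T (.N 113 (.A [13]) (.N 44983 .T (.N 2857 .T (.N 72101 (.A
[13]) (.N 5113 .T (.N 158341 .T (.N 337 .T (.N 379 .T (.N 35281 .T (.X 43))))))))))))))))))) (.N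
22807 (.N 40111 .T (.N 79 .T (.A [113, 281, 331, 337, 349, 379, 617, 701, 1289, 2017, 2129])))
(.N 6287 (.N 5783 (.N 1327 (.N 40111 .T (.N 379 .T (.X 43))) (.N 3828931 (.N 40111 .T (.N 379 .T
(.X 43))) (.N 5113 (.N 40111 .T (.N 379 .T (.X 43))) (.N 113 (.A [13]) (.N 44983 (.A [13]) (.N
2857 (.N 6679 .T (.N 40111 .T (.N 379 .T (.X 43)))) (.N 72101 (.A [13]) (.N 281 (.N 617 (.A [97,
109, 379, 701, 727, 3931, 5839, 6679, 7547]) (.N 379 (.A [61, 109]) (.N 96293 (.N 9883 (.X 43)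
(.N 30941 (.A [109, 157, 433, 457, 701, 727]) (.N 2384047 (.A [13]) (.X 43)))) (.X 43)))) (.N
86353 (.N 6679 .T (.N 40111 .T (.N 379 .T (.X 43)))) (.X 29)))))))))) (.N 379 (.N 14827 .T (.X
43)) (.X 43))) (.N 5783 (.N 5113 (.N 40111 .T (.N 379 .T (.X 43))) (.N 113 (.A [13]) (.N 44983
(.A [13]) (.N 2857 (.N 6679 .T (.N 40111 .T (.N 379 .T (.X 43)))) (.N 72101 (.A [13]) (.N 86353
(.N 6679 .T (.N 40111 .T (.N 379 .T (.X 43)))) (.X 29))))))) (.N 379 (.N 14827 .T (.X 43)) (.X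
43))))))

/-- a subtree -/
def tS_5 : Tr :=
(.N 449 (.N 2083 (.A [13]) (.N 113 (.A [13]) (.N 44983 (.A [13]) (.N 379 (.A [61, 97, 127, 397])
(.N 43933 (.A [61, 97, 127, 397]) (.N 97 (.N 6679 .T (.N 3169 .T (.N 8429 (.A [79, 127, 197])
(.N 2857 .T (.N 72101 (.A [13]) (.N 281 (.A [109, 127, 197]) (.N 11257 .T (.N 40111 .T (.A [127,
197, 337, 397, 617, 701]))))))))) (.N 967 (.A [67, 127, 397]) (.N 2857 (.N 6679 .T (.N 20241187
.T (.N 63941347 .T (.N 11257 .T (.N 40111 .T (.A [127, 197, 337, 397, 617, 701, 743, 1051,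
2129])))))) (.N 72101 (.A [13]) (.N 281 (.A [109, 127, 397, 617]) (.N 30941 (.A [127, 157, 397,
433, 617]) (.N 2384047 (.A [13]) (.N 96293 (.N 3060947 (.N 2011 (.A [13]) (.N 127 (.N 6679 .T
(.A [197, 397, 457, 617, 701])) (.X 43))) (.X 43)) (.X 43)))))))))))))) (.N 395128299497 (.A
[13]) (.N 11131 (.A [13]) (.N 88009573 (.N 158341 .T (.N 6679 .T (.N 8059 .T (.N 56533 .T (.N
6217 .T (.N 9857 (.A [13]) (.N 27259 .T (.N 142759 .T (.N 11257 .T (.N 40111 .T (.N 1051 .T (.N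
113 (.A [13]) (.N 44983 .T (.N 2857 .T (.N 127 .T (.N 72101 (.A [13]) (.N 281 (.A [109, 197,
337, 379, 397, 617, 701]) (.N 397 .T (.X 29))))))))))))))))))) (.N 22807 (.N 158341 .T (.N 79 .T
(.A [113, 127, 281, 331, 337, 349, 379, 397, 617]))) (.N 6287 (.N 11257 (.N 158341 .T (.N 6679
.T (.N 1051 .T (.N 397 .T (.X 29))))) (.N 11971 (.N 40111 .T (.N 6679 .T (.N 49711 .T (.N 2731
.T (.N 21911 (.X 31) (.N 397 .T (.X 29))))))) (.N 397 (.N 1051 .T (.X 29)) (.X 29)))) (.N 397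
(.N 1051 .T (.X 29)) (.X 29))))))))

/-- a subtree -/
def tS_6 : Tr :=
(.N 70841 (.N 39103 (.N 1051 .T (.N 158341 .T (.N 6679 .T (.N 7561 .T (.N 29 (.A [13]) (.N
88009573 .T (.N 22807 .T (.N 11257 .T (.N 40111 .T (.N 113 (.A [13]) (.N 44983 .T (.N 2857 .T
(.N 72101 (.A [13]) (.N 127 .T (.N 86353 .T (.N 128341 .T (.X 29))))))))))))))))) (.N 11257 (.N
1051 .T (.N 158341 .T (.N 6679 .T (.N 29 (.A [13]) (.N 88009573 .T (.N 22807 .T (.N 113 (.A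
[13]) (.N 44983 .T (.N 2857 .T (.N 72101 (.A [13]) (.N 127 .T (.N 86353 .T (.N 128341 .T (.X
29)))))))))))))) (.N 127 (.N 5419 .T (.N 40111 .T (.N 6679 .T (.N 29 (.A [13]) (.N 88009573 .T
(.N 22807 .T (.N 1051 .T (.N 113 (.A [13]) (.N 44983 .T (.N 2857 .T (.N 72101 (.A [13]) (.N
158341 .T (.N 475483 .T (.N 516391 .T (.N 379 .T (.X 43)))))))))))))))) (.N 1051 (.N 86353 .T
(.N 40111 .T (.N 6679 .T (.N 368551 .T (.N 379 .T (.X 43)))))) (.N 29 (.A [13]) tS_4))))) (.N 29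
(.A [13]) (.N 6301 (.A [13]) (.N 2856449 (.N 3130410513042149 (.N 37 (.A [67, 127]) (.N 5113 (.N
6679 .T (.A [127, 197, 379, 397, 617, 701, 1051, 5783, 5839])) (.A [113, 127, 379, 397, 617])))
tS_5) (.N 35081903333 (.A [13]) (.N 5341551215113 (.A [13]) (.N 3130410513042149 (.A [37, 127,
197, 379, 421, 617, 701, 1051, 5113, 5783, 5839, 6679, 11257, 43933, 101921, 158341]) (.N 449
(.N 2083 (.A [13]) (.N 88009573 (.N 97 .T (.N 8059 .T (.N 56533 .T (.N 6217 .T (.N 9857 (.A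
[13]) (.N 27259 .T (.N 142759 .T (.N 11257 .T (.N 40111 .T (.A [113, 127, 197, 337, 379, 421,
617, 701, 743, 967, 1051, 2129])))))))))) (.X 29))) (.N 88009573 (.N 158341 .T (.N 8059 .T (.N
56533 .T (.N 6217 .T (.N 9857 (.A [13]) (.N 27259 .T (.N 142759 .T (.N 11257 .T (.N 40111 .T (.N
1051 .T (.N 113 (.A [13]) (.N 44983 .T (.N 2857 .T (.N 72101 (.A [13]) (.N 281 (.A [109, 127,
197, 337, 379, 421, 617, 701, 727]) (.X 29)))))))))))))))) (.N 197 (.N 2053 (.N 1051 .T (.X 29))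
(.X 29)) (.X 29)))))))))))

/-- a subtree -/
def tS_7 : Tr :=
(.N 11257 (.N 1051 .T (.N 158341 .T (.N 6679 .T (.N 21020917 .T (.N 883 .T (.N 3389 (.A [13,
29]) (.N 1723 .T (.N 5503 .T (.N 29 (.A [13]) (.N 88009573 .T (.N 22807 .T (.N 113 (.A [13]) (.N
44983 .T (.N 2857 .T (.N 72101 (.A [13]) (.N 127 .T (.N 379 .T (.X 43)))))))))))))))))) (.N 127
(.N 5419 .T (.N 40111 .T (.N 6679 .T (.N 883 .T (.N 3389 (.A [13]) (.N 29 (.A [13]) (.N 21020917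
.T (.N 1723 .T (.N 5503 .T (.N 1051 .T (.N 113 (.A [13]) (.N 44983 .T (.N 2857 .T (.N 72101 (.A
[13]) (.N 281 (.A [109, 197, 337, 379, 617, 701, 727, 1499, 1667, 2129]) (.N 1667 (.A [13]) (.N
4621 .T (.N 475483 .T (.N 516391 .T (.N 379 .T (.X 43))))))))))))))))))))) (.N 883 (.N 86353 .T
(.N 40111 .T (.N 6679 .T (.N 29 (.A [13]) (.N 1051 .T (.N 113 (.A [13]) (.N 44983 .T (.N 2857 .T
(.N 72101 (.A [13]) (.N 158341 .T (.N 337 .T (.N 379 .T (.N 260191 .T (.X 43)))))))))))))) (.N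
3389 (.A [13]) (.N 29 (.A [13]) (.N 88009573 (.N 40111 .T (.N 379 .T (.X 43))) (.N 379 (.N 40111
.T (.X 43)) (.X 43))))))))

/-- a subtree -/
def tS_8 : Tr :=
(.N 88009573 (.N 158341 .T (.N 6679 .T (.N 21020917 .T (.N 883 .T (.N 3389 (.A [13]) (.N 1723 .T
(.N 5503 .T (.N 8059 .T (.N 1392539 (.A [73, 113, 127, 197, 379, 397, 617, 701, 1051, 1667,
2969]) (.N 56533 .T (.N 6217 .T (.N 9857 (.A [13]) (.N 27259 .T (.N 142759 .T (.N 11257 .T (.N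
40111 .T (.N 1051 .T (.N 113 (.A [13]) (.N 127 .T (.N 44983 .T (.N 2857 .T (.N 1667 (.A [13])
(.N 72101 (.A [13]) (.N 281 (.A [109, 197, 337, 379, 397, 617]) (.N 397 .T (.X
29)))))))))))))))))))))))))) (.N 22807 (.N 158341 .T (.N 79 .T (.A [113, 127, 281, 331, 337,
349, 379, 397, 617]))) (.N 6287 (.N 11257 (.N 158341 .T (.N 6679 .T (.N 883 .T (.N 3389 (.A
[13]) (.N 1051 .T (.N 397 .T (.X 29))))))) (.N 127 (.N 40111 .T (.N 6679 .T (.N 5419 .T (.N 883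
.T (.N 3389 (.A [13]) (.N 397 .T (.X 29))))))) (.N 883 (.N 40111 .T (.N 6679 .T (.N 86353 .T (.N
397 .T (.X 29))))) (.N 3389 (.A [13]) (.N 86353 (.N 40111 .T (.N 379 .T (.X 43))) (.X 29))))))
(.N 11257 (.N 158341 .T (.N 6679 .T (.N 883 .T (.N 3389 (.A [13]) (.N 397 .T (.X 29)))))) (.N
127 (.N 40111 .T (.N 6679 .T (.N 5419 .T (.N 397 .T (.X 29))))) (.N 86353 (.N 40111 .T (.N 6679
.T (.N 883 .T (.N 3389 (.A [13]) (.N 379 .T (.X 43)))))) (.X 29)))))))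

/-- a subtree -/
def tS_9 : Tr :=
(.N 6287 (.N 11257 (.N 158341 .T (.N 883 .T (.N 3389 (.A [13]) (.N 1051 .T (.N 6065221 .T (.X
29)))))) (.N 101921 (.N 52957 (.A [37, 127, 197, 379, 421, 617, 701, 883, 1051]) (.N 196159 (.N
40111 .T (.A [73, 113, 127, 197, 337, 379, 421, 617, 701, 883, 1051, 1327, 2129])) (.N 127 (.N
40111 .T (.N 5419 .T (.N 883 .T (.N 3389 (.A [13]) (.N 1051 .T (.X 29)))))) (.N 197 (.N 2053 (.N
40111 .T (.N 86353 .T (.N 1051 .T (.X 29)))) (.N 86353 (.N 40111 .T (.N 883 .T (.N 3389 (.A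
[13]) (.N 379 .T (.X 43))))) (.X 29))) (.N 97847 (.A [13]) (.N 86353 (.N 40111 .T (.N 883 .T (.N
3389 (.A [13]) (.N 281 (.A [109, 113, 337, 379, 421, 617, 701, 727, 1051, 1327]) (.X 29))))) (.X
29))))))) (.N 127 (.N 40111 .T (.N 5419 .T (.N 883 .T (.N 3389 (.A [13]) (.N 379 .T (.X 43))))))
(.N 197 (.N 2053 (.N 40111 .T (.N 379 .T (.X 43))) (.N 86353 (.N 40111 .T (.N 379 .T (.X 43)))
(.X 29))) (.N 97847 (.A [13]) (.N 86353 (.N 40111 .T (.N 379 .T (.X 43))) (.X 29))))))) (.N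
11257 (.N 158341 .T (.N 883 .T (.N 3389 (.A [13]) (.N 1051 .T (.X 29))))) (.N 101921 (.N 52957
(.A [37, 127, 197, 379, 421, 617, 701, 883, 1051]) (.N 196159 (.N 40111 .T (.A [73, 113, 127,
197, 337, 379, 421, 617, 701, 883, 1051, 2129, 3109, 5783, 5839])) (.N 127 (.N 40111 .T (.N 5419
.T (.N 1051 .T (.X 29)))) (.N 86353 (.N 40111 .T (.N 883 .T (.N 3389 (.A [13]) (.N 379 .T (.X
43))))) (.X 29))))) (.N 127 (.N 40111 .T (.N 5419 .T (.N 1051 .T (.X 29)))) (.N 86353 (.N 40111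
.T (.N 379 .T (.X 43))) (.X 29))))))

/-- a subtree -/
def tS_10 : Tr :=
(.N 2856449 (.N 3130410513042149 (.N 37 (.A [67, 127]) (.N 6679 (.N 158341 .T (.A [113, 127,
379, 397, 617])) (.A [127, 197, 379, 397, 617, 701, 883, 1051]))) (.N 449 (.N 2083 (.A [13]) (.N
113 (.A [13]) (.N 44983 (.A [13]) (.N 379 (.A [61, 97, 127, 397]) (.N 43933 (.A [61, 97, 127,
397]) (.N 97 (.N 6679 .T (.N 21020917 .T (.N 883 .T (.N 3389 (.A [13]) (.N 1723 .T (.N 5503 .T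
(.N 3169 .T (.N 8429 (.A [79, 127, 197]) (.N 2857 .T (.N 72101 (.A [13]) (.A [127, 197, 281,
397, 617, 701, 1051]))))))))))) (.N 967 (.A [67, 127, 397]) (.N 2857 (.N 6679 .T (.N 21020917 .T
(.N 883 .T (.N 20241187 .T (.N 1723 .T (.N 5503 .T (.N 11257 .T (.N 40111 .T (.A [127, 197, 337,
397, 617, 701, 1051]))))))))) (.N 72101 (.A [13]) (.N 281 (.A [109, 127, 397, 617]) (.N 30941
(.A [127, 157, 397, 433, 617]) (.N 6679 (.N 14871907 .T (.N 883 .T (.N 3389 (.A [13]) (.N 127 .T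
(.X 43))))) (.A [127, 197, 397, 617, 701, 883, 1051]))))))))))))) tS_8)) (.N 35081903333 (.A
[13]) (.N 88009573 (.N 158341 .T (.N 21020917 .T (.N 883 .T (.N 3389 (.A [13]) (.N 1723 .T (.N
5503 .T (.N 8059 .T (.N 56533 .T (.N 6217 .T (.N 9857 (.A [13]) (.N 27259 .T (.N 142759 .T (.N
11257 .T (.N 40111 .T (.N 1051 .T (.N 113 (.A [13]) (.N 44983 .T (.N 2857 .T (.N 72101 (.A [13])
(.N 281 (.A [109, 127, 197, 337, 379, 421, 617, 701, 727]) (.N 197 (.N 2053 .T (.X 29)) (.X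
29)))))))))))))))))))))) (.N 22807 (.N 79 .T (.A [127, 197, 281, 331, 337, 349, 379, 421, 617,
701, 883, 1051, 1289, 2017, 5783, 5839, 6679, 11257])) tS_9))))

/-- a subtree -/
def tS_11 : Tr :=
(.N 71 (.N 43 (.N 1051 .T (.N 5113 .T (.N 6679 .T (.N 14686393 .T (.N 3529 .T (.N 2403521 (.A
[13, 29]) (.N 29 (.A [13]) (.N 88009573 .T (.N 22807 .T (.N 11257 .T (.N 40111 .T (.N 113 (.A
[13]) (.N 44983 .T (.N 2857 .T (.N 72101 (.A [13]) (.N 127 .T (.N 86353 .T (.X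
29)))))))))))))))))) tS_6) (.N 43 (.N 1051 .T (.N 6679 .T (.N 21020917 .T (.N 1723 .T (.N 5503
.T (.N 883 .T (.N 3389 (.A [13, 29]) (.N 29 (.A [13]) (.N 88009573 .T (.N 22807 .T (.N 11257 .T
(.N 40111 .T (.N 113 (.A [13]) (.N 44983 .T (.N 2857 .T (.N 72101 (.A [13]) (.N 281 (.A [109,
127, 197, 337, 379, 617, 631, 701, 727, 1667]) (.N 6287 (.N 197 (.N 2053 .T (.X 29)) (.X 29))
(.X 29))))))))))))))))))) (.N 70841 (.N 39103 (.N 1051 .T (.N 158341 .T (.N 6679 .T (.N 7561 .T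
(.N 21020917 .T (.N 883 .T (.N 3389 (.A [13, 29]) (.N 1723 .T (.N 5503 .T (.N 29 (.A [13]) (.N
88009573 .T (.N 22807 .T (.N 11257 .T (.N 40111 .T (.N 113 (.A [13]) (.N 44983 .T (.N 2857 .T
(.N 72101 (.A [13]) (.N 281 (.A [109, 127, 197, 337, 379, 617, 701, 727, 967, 1667, 2129]) (.N
128341 .T (.X 29))))))))))))))))))))) tS_7) (.N 29 (.A [13]) (.N 6301 (.A [13]) tS_10)))))

/-- a subtree -/
def tS_12 : Tr :=
(.N 71 (.N 22807 (.N 5113 .T (.A [67, 79, 113, 331, 349, 379, 617, 701, 1051, 3697])) (.N 6287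
(.N 70841 (.N 39103 (.N 158341 .T (.N 6679 .T (.N 3697 .T (.N 7561 .T (.N 477721 .T (.N 1051 .T
(.N 128341 .T (.X 29)))))))) (.N 477721 (.N 158341 .T (.N 6679 .T (.N 31723 .T (.N 3697 .T (.N
1051 .T (.N 547 .T (.X 29))))))) (.N 3697 (.N 158341 .T (.N 6679 .T (.N 239851 .T (.N 8219 (.A
[13]) (.N 13903 .T (.N 1051 .T (.N 10837 .T (.X 29)))))))) (.N 1051 (.N 158341 .T (.N 6679 .T
(.N 368551 .T (.N 709871 (.A [37, 67, 109]) (.N 4957 .T (.A [67, 113, 127, 197, 379, 449, 617,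
673, 701, 827, 1327])))))) (.N 7547 (.N 128341 (.N 158341 .T (.N 6065221 .T (.X 29))) (.X 29))
(.X 29)))))) (.N 1051 (.N 158341 .T (.N 6065221 .T (.X 29))) (.X 29))) (.N 70841 (.N 1051 (.N
128341 .T (.X 29)) (.X 29)) (.X 29)))) (.N 22807 (.N 79 .T (.A [67, 281, 331, 337, 349, 379,
617, 701, 883, 1051, 1289, 2017, 3697])) (.N 6287 (.N 70841 (.N 39103 (.N 158341 .T (.N 6679 .T
(.N 3697 .T (.N 7561 .T (.N 883 .T (.N 3389 (.A [13]) (.N 1051 .T (.X 29)))))))) (.N 477721 (.N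
158341 .T (.N 6679 .T (.N 31723 .T (.N 3697 .T (.N 883 .T (.N 3389 (.A [13]) (.N 547 .T (.X
29)))))))) (.N 3697 (.N 158341 .T (.N 6679 .T (.N 883 .T (.N 3389 (.A [13]) (.N 1051 .T (.X
29)))))) (.N 883 (.N 158341 .T (.N 6679 .T (.N 1051 .T (.N 128341 .T (.X 29))))) (.N 3389 (.A
[13]) (.N 1051 (.N 128341 .T (.X 29)) (.X 29))))))) (.N 1051 (.N 158341 .T (.N 6065221 .T (.X
29))) (.X 29))) (.N 70841 (.N 1051 (.N 128341 .T (.X 29)) (.X 29)) (.X 29)))))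

/-- a subtree -/
def tS_13 : Tr :=
(.N 9872250674161 (.N 158341 .T (.N 6679 .T (.N 477721 .T (.N 71 (.N 1093 .T (.N 1051 .T (.N 113
(.A [13]) (.N 44983 .T (.N 2857 .T (.N 72101 (.A [13]) (.A [67, 127, 197, 281, 421, 617,
701]))))))) (.A [67, 113, 127, 197, 421, 617, 701, 883, 911, 1051, 1093, 1327, 5839, 8093,
21617]))))) (.N 449 (.N 2083 (.A [13]) (.A [67, 71, 97, 113, 127, 337])) (.N 71 (.N 70841 (.N
39103 (.N 158341 .T (.N 6679 .T (.A [67, 113, 127, 197, 337, 617, 701, 911, 1051, 1093]))) (.N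
127 (.N 158341 .T (.N 6679 .T (.A [67, 113, 197, 337, 617, 701, 911, 1051, 1093]))) (.X 43)))
(.N 6301 (.A [13]) (.N 2856449 (.N 617 (.A [67, 97, 127, 337, 397, 701, 911, 1051, 1093, 1327])
(.N 13033 (.A [67, 97, 127, 337, 397, 701, 911, 1051, 1093, 1327]) (.N 127 (.N 158341 .T (.N 113
(.A [13]) (.A [67, 337, 397, 701, 911, 1051, 1093, 1327, 2969, 5113, 5419, 5839, 6679, 21617,
44983, 287813]))) (.X 43)))) (.N 617 (.A [67, 97, 127, 337, 421, 701, 911, 1051, 1093, 1327])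
(.N 477721 (.N 158341 .T (.N 6679 .T (.A [67, 113, 127, 197, 337, 421, 701]))) (.N 127 (.N
158341 .T (.N 5419 .T (.A [67, 113, 337, 421, 701, 911, 1051, 1093, 1327, 1499, 2969, 5113])))
(.N 1055489 (.N 337 (.X 43) (.N 86353 (.N 158341 .T (.N 6679 .T (.A [67, 113, 197, 421, 701])))
(.X 29))) (.X 43)))))))) (.N 70841 (.N 39103 (.N 158341 .T (.N 6679 .T (.A [67, 113, 127, 197,
337, 617, 701, 883, 911, 1051]))) (.N 127 (.N 158341 .T (.N 6679 .T (.A [67, 113, 197, 337, 617,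
701, 883, 911, 1051]))) (.X 43))) (.N 6301 (.A [13]) (.N 2856449 (.N 617 (.A [67, 97, 127, 337,
397, 701, 883, 911, 1051, 1093]) (.N 158341 (.N 6679 .T (.N 883 .T (.N 3389 (.A [13]) (.N 127 .T
(.X 43))))) (.A [67, 113, 127, 337, 397, 701, 883, 911, 1051, 1093, 1327, 2969]))) (.N 617 (.A
[67, 97, 127, 337, 421, 701, 883, 911, 1051, 1093]) (.N 158341 (.N 6679 .T (.N 883 .T (.N 3389
(.A [13]) (.N 127 .T (.X 43))))) (.A [67, 113, 127, 337, 421, 701, 883, 911, 1051, 1093, 1327,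
2969])))))))))

/-- a subtree -/
def tS_14 : Tr :=
(.N 71 (.N 70841 (.N 379 (.A [61, 67, 127, 617, 701, 787, 911, 1051, 1093, 3109, 5113, 5839,
6679, 21617, 39103, 128341, 158341]) (.N 39103 (.N 158341 .T (.N 6679 .T (.N 7561 .T (.N 477721
.T (.N 1093 .T (.N 1051 .T (.N 128341 .T (.X 29)))))))) (.N 477721 (.N 158341 .T (.N 6679 .T (.N
31723 .T (.N 1093 .T (.N 1051 .T (.N 547 .T (.X 29))))))) (.N 127 (.N 158341 .T (.N 6679 .T (.N
5419 .T (.N 1093 .T (.N 1051 .T (.X 29)))))) (.N 1055489 (.N 766861 (.N 158341 .T (.N 6679 .T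
(.N 6823 .T (.A [67, 113, 197, 281, 617, 701, 823, 911, 1051, 1093])))) (.N 109201 (.N 79 .T (.A
[67, 281, 337, 617, 701, 911, 1051, 1093])) (.N 86353 (.N 158341 .T (.N 6679 .T (.N 1093 .T (.N
1051 .T (.X 29))))) (.X 29)))) (.X 43)))))) (.N 6301 (.A [13]) (.N 379 (.A [61, 67, 127, 617,
701, 787, 911, 1051, 1093, 3109, 5113, 5839, 6679]) (.N 9872250674161 (.N 158341 .T (.N 6679 .T
(.N 477721 .T (.N 1093 .T (.N 1051 .T (.X 29)))))) (.N 2856449 (.N 449 (.A [67, 97, 127, 337,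
397, 617, 701, 911, 1051, 1093, 2083]) (.N 617 (.A [67, 97, 127, 337, 397, 701, 911, 1051, 1093,
2969, 3109]) (.N 13033 (.A [67, 97, 127, 337, 397, 701, 911, 1051, 1093, 2969, 3109]) (.N 127
(.N 158341 .T (.N 5419 .T (.A [67, 113, 337, 397, 701, 911, 1051, 1093, 1499, 2969, 3109, 5113,
5839]))) (.X 43))))) (.N 449 (.A [67, 97, 127, 337, 421, 617, 701, 911, 1051, 1093, 2083, 3109])
(.N 1051 (.N 1093 .T (.X 29)) (.X 29)))))))) (.N 379 (.A [61, 67, 127, 617, 701, 787, 883, 911,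
1051, 1093]) (.N 70841 (.N 39103 (.N 158341 .T (.N 6679 .T (.N 7561 .T (.N 883 .T (.N 3389 (.A
[13]) (.N 477721 .T (.N 1093 .T (.N 1051 .T (.X 29))))))))) (.N 477721 (.N 158341 .T (.N 6679 .T
(.N 31723 .T (.N 883 .T (.N 3389 (.A [13]) (.N 127 .T (.X 43))))))) (.N 127 (.N 158341 .T (.N
6679 .T (.N 5419 .T (.N 883 .T (.N 3389 (.A [13]) (.N 1051 .T (.X 29))))))) (.N 1055489 (.N
766861 (.N 158341 .T (.N 6679 .T (.N 6823 .T (.A [67, 113, 197, 281, 617, 701, 823, 883, 911,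
1051])))) (.N 109201 (.N 79 .T (.A [67, 281, 337, 617, 701, 883, 911, 1051])) (.N 86353 (.N
158341 .T (.N 6679 .T (.N 883 .T (.N 3389 (.A [13]) (.X 43))))) (.X 29)))) (.X 43))))) (.N 6301
(.A [13]) (.N 2856449 (.N 477721 (.N 158341 .T (.N 6679 .T (.N 883 .T (.A [67, 113, 127, 197,
397, 617, 701, 911, 1051, 1093, 3109, 3389, 5839])))) (.N 127 (.N 158341 .T (.N 6679 .T (.A [67,
113, 197, 397, 617, 701, 883, 911, 1051, 1093, 3109, 5419, 5839, 8093]))) (.N 86353 (.N 158341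
.T (.N 6679 .T (.A [67, 113, 197, 397, 617, 701, 883, 911, 1051, 1093, 3109, 5839, 8093, 13033,
21617, 162709, 307189, 1055489, 1576951, 2483447]))) (.X 29)))) (.N 1051 (.N 1093 .T (.X 29))
(.X 29)))))))

/-- a subtree -/
def tS_15 : Tr :=
(.N 245561 (.N 59762587 (.N 88009573 .T (.N 6679 .T (.N 43 .T (.N 158341 .T (.N 22807 .T (.N
6287 (.N 477721 .T (.N 1051 .T (.N 113 (.A [13]) (.N 44983 .T (.N 2857 .T (.N 72101 (.A [13])
(.N 281 (.A [67, 71, 109, 163, 197, 379]) (.N 1009 .T (.X 29))))))))) (.A [67, 71, 113, 127,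
163, 197, 379, 617, 701, 1009, 1051]))))))) (.N 43 (.N 88009573 .T (.N 6679 .T (.N 3697 .T (.N
1839385378027 .T (.N 22807 .T (.N 477721 .T (.N 1051 .T (.N 67 .T (.N 175897 .T (.N 127 .T (.N
86353 .T (.X 29)))))))))))) (.N 88009573 (.N 158341 .T (.N 6679 .T (.N 3697 .T (.N 1839385378027
.T (.N 477721 .T (.N 8059 .T (.N 56533 .T (.N 6217 .T (.N 9857 (.A [13]) (.N 27259 .T (.N 142759
.T (.N 1051 .T (.N 113 (.A [13]) (.N 44983 .T (.N 2857 .T (.N 72101 (.A [13]) (.N 67 .T (.N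
175897 .T (.A [71, 127, 197, 281, 379, 617, 701, 743, 827]))))))))))))))))))) (.N 1009 (.A [37,
67, 71, 379, 617, 701, 1051, 3697, 5839, 6679]) tS_12)))) (.N 229237 (.N 88009573 .T (.N 96043
.T (.N 43 .T (.N 22807 .T (.N 6287 (.N 477721 .T (.N 1093 .T (.N 1051 .T (.N 197 (.N 2053 .T (.X
29)) (.X 29))))) (.A [67, 71, 113, 127, 197, 271, 379, 617, 673, 701, 911, 1051, 1093])))))) (.N
43 (.N 88009573 .T (.N 6679 .T (.N 22807 .T (.N 1287750186827959 .T (.N 477721 .T (.N 1093 .T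
(.N 643567 .T (.N 1051 .T (.N 127 .T (.N 86353 .T (.X 29))))))))))) (.N 88009573 (.N 158341 .T
(.N 6679 .T (.N 477721 .T (.N 8059 .T (.N 56533 .T (.N 6217 .T (.N 1093 .T (.N 9857 (.A [13])
(.N 27259 .T (.N 142759 .T (.N 1051 .T (.N 113 (.A [13]) (.N 44983 .T (.N 2857 .T (.N 72101 (.A
[13]) (.N 127 .T (.N 162709 .T (.A [67, 71, 197, 281, 379, 617, 701, 743, 911]))))))))))))))))))
(.N 22807 (.A [67, 71, 79, 127, 331, 349, 379, 617, 701, 911, 1051, 1093, 5839, 6679]) (.N 6287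
(.N 379 (.A [61, 67, 71, 127, 617, 701, 787, 911, 1051, 1093, 1327, 5839, 6679]) tS_13)
tS_14))))))

/-- a subtree -/
def tS_16 : Tr :=
(.N 827 (.N 1327 (.N 158341 .T (.N 6679 .T (.N 113 (.A [13]) (.N 44983 .T (.N 2857 .T (.N 72101
(.A [13]) (.N 1009 .T (.X 29)))))))) (.N 3828931 (.N 158341 .T (.N 6679 .T (.N 113 (.A [13]) (.N
44983 .T (.N 2857 .T (.N 72101 (.A [13]) (.N 281 (.A [73, 109, 197, 379, 617, 701, 727]) (.X
29)))))))) (.N 127 (.N 158341 .T (.N 6679 .T (.N 5419 .T (.N 1009 .T (.X 29))))) (.N 86353 (.N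
158341 .T (.N 6679 .T (.N 113 (.A [13]) (.N 44983 .T (.N 2857 .T (.N 72101 (.A [13]) (.N 1009 .T
(.X 29)))))))) (.X 29))))) (.N 112771 (.A [13]) (.N 9917027 (.A [13]) (.N 198241 (.N 158341 .T
(.N 6679 .T (.N 113 (.A [13]) (.N 44983 .T (.N 2857 .T (.N 72101 (.A [13]) (.N 1009 .T (.X
29)))))))) (.N 9311 (.A [13]) (.N 1327 (.N 158341 .T (.N 6679 .T (.N 113 (.A [13]) (.N 44983 .T
(.N 2857 .T (.N 72101 (.A [13]) (.N 1009 .T (.X 29)))))))) (.N 3828931 (.N 158341 .T (.N 6679 .T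
(.N 113 (.A [13]) (.N 44983 .T (.N 2857 .T (.N 72101 (.A [13]) (.N 281 (.A [73, 109, 197, 379,
617, 701, 727]) (.X 29)))))))) (.N 127 (.N 158341 .T (.N 6679 .T (.N 5419 .T (.N 1009 .T (.X
29))))) (.N 86353 (.N 158341 .T (.N 6679 .T (.N 113 (.A [13]) (.N 44983 .T (.N 2857 .T (.N 72101
(.A [13]) (.N 1009 .T (.X 29)))))))) (.X 29))))))))))

/-- a subtree -/
def tS_17 : Tr :=
(.N 6287 (.N 70841 (.N 39103 (.N 158341 .T (.N 6679 .T (.N 3697 .T (.N 7561 .T (.N 1051 .T (.N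
113 (.A [13]) (.N 44983 .T (.N 2857 .T (.N 72101 (.A [13]) (.N 1009 .T (.X 29))))))))))) (.N
3697 (.N 158341 .T (.N 6679 .T (.N 239851 .T (.N 8219 (.A [13]) (.N 13903 .T (.N 1051 .T (.N 113
(.A [13]) (.N 44983 .T (.N 2857 .T (.N 72101 (.A [13]) (.N 1009 .T (.X 29)))))))))))) (.N 1051
(.N 158341 .T (.N 6679 .T (.N 368551 .T (.N 709871 (.A [37, 109, 113, 197]) (.N 4957 .T (.N 113
(.A [13]) (.N 44983 .T (.N 2857 .T (.N 72101 (.A [13]) (.N 449 (.A [97, 127, 197, 281, 379, 617,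
673, 701, 827, 1009, 1327, 2083]) (.N 281 (.A [109, 127, 197, 379, 617, 673, 701, 727, 827,
1009, 1327]) (.N 1009 .T (.X 29))))))))))))) tS_16))) (.N 6301 (.A [13]) (.N 2856449 (.N 397 (.N
158341 .T (.N 6679 .T (.N 3697 .T (.N 1699 .T (.N 1051 .T (.N 1009 .T (.X 29))))))) (.N 927137
(.A [13]) (.X 29))) (.N 5341551215113 (.A [13]) (.X 29))))) (.N 70841 (.N 39103 (.N 158341 .T
(.N 6679 .T (.N 3697 .T (.N 7561 .T (.N 1051 .T (.N 1009 .T (.X 29))))))) (.N 127 (.N 158341 .T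
(.N 6679 .T (.N 3697 .T (.N 5419 .T (.N 1009 .T (.X 29)))))) (.N 86353 (.N 158341 .T (.N 6679 .T
(.N 3697 .T (.N 1051 .T (.N 1009 .T (.X 29)))))) (.X 29)))) (.N 1009 (.N 1051 .T (.X 29)) (.X
29))))

/-- a subtree -/
def tS_18 : Tr :=
(.N 70841 (.N 39103 (.N 158341 .T (.N 21020917 .T (.N 6679 .T (.N 3697 .T (.N 7561 .T (.N 883 .T
(.N 3389 (.A [13]) (.N 1723 .T (.N 5503 .T (.N 1051 .T (.N 1009 .T (.X 29)))))))))))) (.N 3697
(.N 158341 .T (.N 21020917 .T (.N 6679 .T (.N 883 .T (.N 3389 (.A [13]) (.N 1723 .T (.N 5503 .T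
(.N 239851 .T (.N 8219 (.A [13]) (.N 13903 .T (.N 1051 .T (.N 1009 .T (.X 29))))))))))))) (.N
883 (.N 158341 .T (.N 6679 .T (.N 1051 .T (.N 113 (.A [13]) (.N 44983 .T (.N 2857 .T (.N 72101
(.A [13]) (.N 1009 .T (.X 29))))))))) (.N 3389 (.A [13]) (.N 1051 (.N 158341 .T (.N 6679 .T (.N
368551 .T (.N 709871 (.A [37, 109, 113, 197]) (.N 4957 .T (.N 113 (.A [13]) (.N 44983 .T (.N
2857 .T (.N 72101 (.A [13]) (.N 281 (.A [109, 127, 197, 379, 449, 617, 673, 701, 727, 827,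
1009]) (.X 29))))))))))) (.N 1009 (.N 128341 .T (.X 29)) (.X 29))))))) (.N 6301 (.A [13]) (.N
2856449 (.N 397 (.N 158341 .T (.N 21020917 .T (.N 6679 .T (.N 3697 .T (.N 883 .T (.N 3389 (.A
[13]) (.N 1009 .T (.X 29)))))))) (.N 927137 (.A [13]) (.X 29))) (.N 1009 (.N 1051 .T (.X 29))
(.X 29)))))

/-- a subtree -/
def tS_19 : Tr :=
(.N 43 (.N 21020917 .T (.N 1723 .T (.N 6679 .T (.N 3697 .T (.N 5503 .T (.N 1839385378027 .T (.N
883 .T (.N 3389 (.A [13]) (.N 88009573 .T (.N 22807 .T (.N 1051 .T (.N 1009 .T (.X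
29))))))))))))) (.N 88009573 (.N 158341 .T (.N 21020917 .T (.N 6679 .T (.N 3697 .T (.N 883 .T
(.N 3389 (.A [13]) (.N 1723 .T (.N 5503 .T (.N 8059 .T (.N 56533 .T (.N 6217 .T (.N 9857 (.A
[13]) (.N 27259 .T (.N 142759 .T (.N 1051 .T (.N 113 (.A [13]) (.N 44983 .T (.N 2857 .T (.N
72101 (.A [13]) (.N 281 (.A [109, 127, 197, 379, 617, 701, 727, 743, 827, 1009, 1667, 2591]) (.N
1009 .T (.X 29)))))))))))))))))))))) (.N 22807 (.N 158341 .T (.N 21020917 .T (.N 79 .T (.A [113,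
127, 281, 331, 337, 349, 379, 617, 701, 883, 1009, 1051])))) (.N 6287 tS_18 (.N 70841 (.N 39103
(.N 158341 .T (.N 6679 .T (.N 3697 .T (.N 7561 .T (.N 883 .T (.N 3389 (.A [13]) (.N 1009 .T (.X
29)))))))) (.N 127 (.N 158341 .T (.N 6679 .T (.N 3697 .T (.N 5419 .T (.N 1009 .T (.X 29))))))
(.N 86353 (.N 158341 .T (.N 6679 .T (.N 3697 .T (.N 883 .T (.N 3389 (.A [13]) (.N 1009 .T (.X
29))))))) (.X 29)))) (.N 1009 (.N 1051 .T (.X 29)) (.X 29)))))))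

/-- a subtree -/
def tS_20 : Tr :=
(.N 70841 (.N 39103 (.N 158341 .T (.N 6679 .T (.N 7561 .T (.N 1093 .T (.N 1051 .T (.N 113 (.A
[13]) (.N 44983 .T (.N 2857 .T (.N 72101 (.A [13]) (.N 128341 .T (.X 29))))))))))) (.N 127 (.N
158341 .T (.N 6679 .T (.N 5419 .T (.N 1093 .T (.N 1051 .T (.N 128341 .T (.X 29))))))) (.N 1051
(.N 158341 .T (.N 6679 .T (.N 368551 .T (.N 379 .T (.X 43))))) (.N 1093 (.N 398581 .T (.N 6679
.T (.N 86353 .T (.N 128341 .T (.X 29))))) (.N 86353 (.N 158341 .T (.N 6679 .T (.N 113 (.A [13])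
(.N 44983 .T (.N 2857 .T (.N 72101 (.A [13]) (.N 128341 .T (.X 29)))))))) (.X 29)))))) (.N 6301
(.A [13]) (.N 2856449 (.N 127 (.N 158341 .T (.N 6679 .T (.N 5419 .T (.N 1093 .T (.N 397 .T (.X
29)))))) (.N 1051 (.N 158341 .T (.N 6679 .T (.N 368551 .T (.N 709871 (.A [37, 109, 113]) (.N
4957 .T (.N 86353 .T (.N 397 .T (.X 29)))))))) (.N 86353 (.N 158341 .T (.N 6679 .T (.N 1093 .T
(.N 397 .T (.X 29))))) (.X 29)))) (.N 35081903333 (.A [13]) (.N 101921 (.N 52957 (.A [37, 127,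
197, 379, 421, 617, 701, 911, 1051]) (.N 196159 (.N 4086073 .T (.N 1093 .T (.N 1051 .T (.X
29)))) (.N 127 (.N 158341 .T (.N 5419 .T (.N 1051 .T (.X 29)))) (.N 86353 (.N 158341 .T (.N 1093
.T (.N 1051 .T (.X 29)))) (.X 29))))) (.N 127 (.N 158341 .T (.N 5419 .T (.N 1051 .T (.X 29))))
(.N 86353 (.N 158341 .T (.N 1093 .T (.N 1051 .T (.X 29)))) (.X 29))))))))

/-- a subtree -/
def tS_21 : Tr :=
(.N 88009573 (.N 158341 .T (.N 6679 .T (.N 8059 .T (.N 56533 .T (.N 6217 .T (.N 1093 .T (.N 9857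
(.A [13]) (.N 27259 .T (.N 142759 .T (.N 1051 .T (.N 113 (.A [13]) (.N 44983 .T (.N 2857 .T (.N
72101 (.A [13]) (.N 1392539 (.A [73, 127, 197, 281, 379, 617, 701, 743, 911, 2591]) (.N 127 .T
(.N 86353 .T (.N 281 (.N 197 (.N 2053 .T (.X 29)) (.X 29)) (.X 29))))))))))))))))))) (.N 22807
(.N 158341 .T (.N 79 .T (.A [113, 127, 281, 331, 337, 349, 379, 617, 701, 911, 1051, 1093])))
(.N 6287 tS_20 (.N 70841 (.N 39103 (.N 158341 .T (.N 6679 .T (.N 7561 .T (.N 1093 .T (.N 1051 .T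
(.N 128341 .T (.X 29))))))) (.N 127 (.N 158341 .T (.N 6679 .T (.N 5419 .T (.N 1093 .T (.N 1051
.T (.X 29)))))) (.N 1051 (.N 158341 .T (.N 6679 .T (.N 368551 .T (.N 379 .T (.X 43))))) (.N
86353 (.N 158341 .T (.N 6679 .T (.N 1093 .T (.N 128341 .T (.X 29))))) (.X 29))))) (.N 6301 (.A
[13]) (.N 2856449 (.N 127 (.N 158341 .T (.N 6679 .T (.N 5419 .T (.N 397 .T (.X 29))))) (.N 86353
(.N 158341 .T (.N 6679 .T (.N 1093 .T (.N 397 .T (.X 29))))) (.X 29))) (.N 35081903333 (.A [13])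
(.N 197 (.N 2053 (.N 1051 .T (.X 29)) (.X 29)) (.X 29)))))))))

/-- a subtree -/
def tS_22 : Tr :=
(.N 70841 (.N 39103 (.N 158341 .T (.N 6679 .T (.N 7561 .T (.N 883 .T (.N 3389 (.A [13]) (.N 1093
.T (.N 1051 .T (.N 128341 .T (.X 29))))))))) (.N 127 (.N 158341 .T (.N 6679 .T (.N 5419 .T (.N
883 .T (.N 3389 (.A [13]) (.N 1093 .T (.N 1051 .T (.X 29)))))))) (.N 883 (.N 158341 .T (.N 6679
.T (.N 86353 .T (.N 1093 .T (.N 1051 .T (.X 29)))))) (.N 3389 (.A [13]) (.N 379 (.N 158341 .T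
(.N 6679 .T (.A [61, 113, 197, 617, 701, 787, 911, 1051, 1093, 1327]))) (.X 43)))))) (.N 6301
(.A [13]) (.N 2856449 (.N 127 (.N 158341 .T (.N 6679 .T (.N 5419 .T (.N 883 .T (.N 3389 (.A
[13]) (.N 397 .T (.X 29))))))) (.N 883 (.N 158341 .T (.N 6679 .T (.N 86353 .T (.N 397 .T (.X
29))))) (.N 3389 (.A [13]) (.N 86353 (.N 158341 .T (.N 6679 .T (.N 1093 .T (.N 397 .T (.X
29))))) (.X 29))))) (.N 127 (.N 158341 .T (.N 6679 .T (.N 5419 .T (.N 1051 .T (.X 29))))) (.N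
86353 (.N 158341 .T (.N 6679 .T (.N 21020917 .T (.N 883 .T (.N 3389 (.A [13]) (.N 1051 .T (.X
29))))))) (.X 29))))))

/-- a subtree -/
def tS_23 : Tr :=
(.N 88009573 (.N 158341 .T (.N 6679 .T (.N 21020917 .T (.N 883 .T (.N 3389 (.A [13]) (.N 1723 .T
(.N 5503 .T (.N 8059 .T (.N 56533 .T (.N 6217 .T (.N 1093 .T (.N 9857 (.A [13]) (.N 27259 .T (.N
142759 .T (.N 1051 .T (.N 113 (.A [13]) (.N 44983 .T (.N 2857 .T (.N 72101 (.A [13]) (.N 281 (.A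
[109, 127, 197, 379, 617, 701, 727, 743, 911, 1667, 2591, 4621, 5839]) (.N 197 (.N 2053 .T (.X
29)) (.X 29)))))))))))))))))))))) (.N 22807 (.N 158341 .T (.N 79 .T (.A [113, 127, 281, 331,
337, 349, 379, 617, 701, 883, 911, 1051]))) (.N 6287 tS_22 (.N 70841 (.N 39103 (.N 158341 .T (.N
6679 .T (.N 7561 .T (.N 883 .T (.N 3389 (.A [13]) (.N 1093 .T (.N 1051 .T (.X 29)))))))) (.N 127
(.N 158341 .T (.N 6679 .T (.N 5419 .T (.N 883 .T (.N 3389 (.A [13]) (.N 1051 .T (.X 29)))))))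
(.N 883 (.N 158341 .T (.N 6679 .T (.N 86353 .T (.N 1051 .T (.X 29))))) (.N 3389 (.A [13]) (.N
379 (.N 86353 .T (.X 29)) (.X 43)))))) (.N 6301 (.A [13]) (.N 2856449 (.N 127 (.N 158341 .T (.N
6679 .T (.N 5419 .T (.N 397 .T (.X 29))))) (.N 86353 (.N 158341 .T (.N 6679 .T (.N 883 .T (.N
3389 (.A [13]) (.N 397 .T (.X 29)))))) (.X 29))) (.N 1051 (.N 1093 .T (.X 29)) (.X 29))))))))

/-- a subtree -/
def tS_24 : Tr :=
(.N 245561 (.N 59762587 (.N 6679 .T (.N 43 .T (.N 158341 .T (.N 88009573 .T (.N 22807 .T (.N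
1051 .T (.N 113 (.A [13]) (.N 44983 .T (.N 2857 .T (.N 72101 (.A [13]) (.N 163 .T (.N 1009 .T
(.N 6065221 .T (.X 29)))))))))))))) (.N 71 (.N 43 (.N 5113 .T (.N 6679 .T (.N 3697 .T (.N
1839385378027 .T (.N 14686393 .T (.N 3529 .T (.N 2403521 (.A [13]) (.N 88009573 .T (.N 22807 .T
(.N 1051 .T (.N 1009 .T (.X 29)))))))))))) (.N 88009573 (.N 158341 .T (.N 6679 .T (.N 3697 .T
(.N 1839385378027 .T (.N 8059 .T (.N 56533 .T (.N 6217 .T (.N 9857 (.A [13]) (.N 27259 .T (.N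
142759 .T (.N 1051 .T (.N 113 (.A [13]) (.N 44983 .T (.N 2857 .T (.N 72101 (.A [13]) (.N 1009 .T
(.N 5113 .T (.N 2311 .T (.N 6065221 .T (.X 29)))))))))))))))))))) (.N 22807 (.N 158341 .T (.N 79
.T (.N 6679 .T (.N 3697 .T (.N 281 (.A [109, 113, 197, 331, 337, 349, 379]) (.N 1051 .T (.N 197
(.A [113, 331, 337, 349, 379, 617, 701, 827, 1009, 1289, 2017, 2053, 5113, 5839]) (.X 29))))))))
tS_17))) tS_19)) (.N 229237 (.N 96043 .T (.N 43 .T (.N 1093 .T (.N 88009573 .T (.N 789677071 .T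
(.X 29)))))) (.N 71 (.N 43 (.N 5113 .T (.N 6679 .T (.N 14686393 .T (.N 3529 .T (.N 2403521 (.A
[13]) (.N 1093 .T (.N 88009573 .T (.N 22807 .T (.N 1051 .T (.N 6287 (.N 197 (.N 2053 .T (.X 29))
(.X 29)) (.X 29))))))))))) tS_21) (.N 43 (.N 6679 .T (.N 21020917 .T (.N 1723 .T (.N 5503 .T (.N
883 .T (.N 3389 (.A [13]) (.N 1093 .T (.N 88009573 .T (.N 22807 .T (.N 1051 .T (.N 6287 (.N 197
(.N 2053 .T (.X 29)) (.X 29)) (.X 29)))))))))))) tS_23))))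

/-- a subtree -/
def tS_25 : Tr :=
(.N 491 (.N 51972385872044569 (.A [13, 19, 37, 43]) (.N 6529 (.A [13, 19, 37, 43]) (.N 37 (.N
6679 .T (.N 19 .T (.N 43 .T (.N 158341 .T (.N 6065221 .T (.N 11666890943 (.A [29, 67, 73, 113,
197]) (.A [29, 67, 113, 127, 197, 239, 379]))))))) (.N 11666890943 (.N 20871163 (.N 13537 .T (.A
[19, 29, 43, 61, 71, 73])) (.N 13537 (.N 116803 .T (.N 6679 .T (.A [19, 29, 43, 71, 73, 197,
239, 337, 379]))) (.N 19 (.A [29, 43, 71, 73, 127, 239, 337]) (.N 29 (.A [13]) (.N 6679 (.N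
14871907 .T (.N 1289 (.A [43, 71, 73, 127, 239, 337]) (.A [43, 71, 73, 239, 281, 337, 379])))
(.A [43, 71, 73, 197, 239, 337, 379])))))) (.N 29 (.A [13, 19]) (.N 379 (.A [19, 43, 61, 71,
127, 239]) (.N 9872250674161 (.N 6679 .T (.N 19 .T (.N 43 .T (.N 158341 .T (.A [71, 113, 127,
197, 239]))))) (.N 449 (.A [19, 43, 71, 97, 127, 239, 337]) (.N 395128299497 (.A [13, 19]) (.N
11971 (.N 6679 .T (.N 49711 .T (.A [19, 43, 71, 127, 197, 239, 337, 421]))) (.A [19, 43, 71,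
113, 127, 239, 337]))))))))))) (.N 19 (.N 1051 .T (.N 43 .T (.N 158341 .T (.N 51972385872044569
.T (.N 6679 .T (.N 29 (.A [13]) (.N 88009573 .T (.N 22807 .T (.N 1287750186827959 .T (.N
36907193 (.A [37, 71, 113, 127, 197, 239, 331]) (.N 643567 .T (.N 113 (.A [13]) (.N 44983 .T (.N
2857 .T (.N 72101 (.A [13]) (.N 127 .T (.N 86353 .T (.X 29)))))))))))))))))) (.N 239 (.N 3019
(.N 1051 .T (.A [13, 29, 43])) (.N 21570026591 (.A [13, 43, 71, 379, 617, 701, 1051]) (.N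
51972385872044569 (.A [13, 43, 71, 127]) tS_11))) (.N 3754507 (.A [13, 29, 43]) (.N
51972385872044569 (.A [13, 29, 43]) (.N 29 (.A [13, 43]) (.N 5657 tS_15 tS_24)))))))

/-- a subtree -/
def tS_26 : Tr :=
(.N 13441 (.N 37 .T (.N 19 .T (.N 1627693 .T (.N 2003 (.N 38971 .T (.N 4159 .T (.N 29 (.A [13])
(.N 88009573 .T (.N 43 .T (.N 158341 .T (.N 22807 .T (.N 1287750186827959 .T (.N 6287 (.N 643567
.T (.N 52051567 .T (.N 36907193 (.A [71, 103, 113, 211, 331, 379, 421, 701, 1327]) (.A [71, 103,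
113, 211, 379, 421, 547, 673, 701, 1327])))) (.A [71, 103, 113, 127, 211, 421])))))))))) (.N
33601 .T (.N 10627 .T (.N 3445639 .T (.N 127 .T (.N 86353 .T (.N 43 .T (.N 158341 .T (.N 168869
(.A [29, 67, 71, 113, 701, 1289]) (.N 95281244588123623 .T (.N 11887 .T (.N 55147 .T (.N 5167 .T
(.N 281 (.A [29, 71, 109, 113, 379, 701]) (.N 29 (.A [13]) (.N 113 (.A [13]) (.N 44983 .T (.N
2857 .T (.N 1667 (.A [13]) (.N 30941 (.A [71, 157, 379, 433, 701]) (.N 379 .T (.N 3109 .T (.N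
5839 .T (.N 11579 (.A [13]) (.N 72101 (.A [13]) (.N 81439 .T (.N 20053433 (.A [71, 139, 701,
1033]) (.N 6065221 .T (.X 29)))))))))))))))))))))))))))))))) (.N 76819 (.N 13327 .T (.N 2203 .T
(.N 19 .T (.N 51972385872044569 .T (.N 29 (.A [13, 67, 113]) (.N 88009573 .T (.N 43 .T (.N 22807
.T (.N 1287750186827959 .T (.N 36907193 (.A [37, 67, 71, 113, 197, 211]) (.N 643567 .T (.N 113
(.A [13]) (.N 44983 .T (.N 2857 .T (.N 72101 (.A [13]) (.N 67 .T (.N 175897 .T (.N 281 (.A [71,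
109, 127, 197, 211, 547, 673, 701, 727, 2311]) (.N 547 .T (.X 29)))))))))))))))))))) (.N 211 (.A
[13, 19, 37, 43]) (.N 41233879 (.N 19 .T (.N 43 .T (.N 158341 .T (.N 6065221 .T (.N
51972385872044569 .T (.N 6679 .T (.N 29 (.A [13]) (.N 88009573 .T (.N 22807 .T (.N
1287750186827959 .T (.N 36907193 (.A [37, 71, 113, 197, 239, 241, 331, 491, 701, 2311, 5839])
(.N 491 (.A [37, 71, 113, 197, 239, 241, 547, 673, 701, 2311]) (.N 643567 .T (.N 1051 .T (.N 113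
(.A [13]) (.N 44983 .T (.N 2857 .T (.N 72101 (.A [13]) (.N 547 .T (.X 29))))))))))))))))))))
tS_25))))

/-- a subtree -/
def tS_27 : Tr :=
(.N 71 (.N 29 (.N 13 (.A [61, 67]) (.N 5229043 (.N 5113 .T (.N 72577051 .T (.N 1627693 .T (.A
[67, 113, 463, 547, 2003, 4051, 4733])))) (.N 239 (.A [19]) (.N 245561 (.N 5113 (.N 1627693 .T
(.N 2003 (.A [67, 103]) (.N 1289 (.A [67, 127, 1009]) (.N 33601 .T (.N 281 (.A [67, 109]) (.X
7)))))) (.A [67, 113, 1009])) (.N 229237 (.N 5113 .T (.A [67, 113, 271])) (.A [43, 67])))))) (.N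
88009573 (.N 320374117039 .T (.N 5113 .T (.N 1627693 .T (.N 14686393 .T (.N 43 .T (.N 3529 .T
(.N 8059 .T (.N 56533 .T (.N 113 (.A [13]) (.X 7)))))))))) (.N 43 (.N 5113 .T (.N 1627693 .T (.N
14686393 .T (.N 22807 .T (.N 1287750186827959 .T (.N 113 (.A [13]) (.X 7))))))) (.N 22807 (.N
158341 .T (.N 79 .T (.A [19, 113, 281, 331, 337, 349]))) (.N 6287 (.N 1327 (.N 5839 .T (.X 7))
(.N 3828931 (.N 158341 .T (.N 113 (.A [13]) (.X 7))) (.N 1427168974267 (.N 127 .T (.X 7)) (.X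
7)))) (.N 2483447 (.N 9296107 (.X 7) (.N 113 (.A [13]) (.X 7))) (.X 7))))))) (.N 29 (.N 13 (.A
[61, 67]) (.N 5229043 (.N 21020917 .T (.N 127 .T (.A [43]))) (.N 239 (.A [19]) (.N 21020917 (.N
1513921 .T (.N 379 .T (.A [43]))) (.A [67, 127, 883, 1723, 4733]))))) (.N 88009573 (.N
320374117039 .T (.N 21020917 .T (.N 1723 .T (.N 883 .T (.N 43 .T (.X 7)))))) (.N 43 (.N 21020917
.T (.N 1723 .T (.N 113 (.A [13]) (.X 7)))) (.N 22807 (.N 158341 .T (.N 79 .T (.A [19, 113, 281,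
331, 337, 349]))) (.N 2483447 (.N 9296107 (.X 7) (.N 113 (.A [13]) (.X 7))) (.X 7)))))))

/-- a subtree -/
def tS_28 : Tr :=
(.N 76819 (.N 13327 (.N 79 .T (.N 2203 .T (.N 337 .T (.N 16843 .T (.N 51972385872044569 .T (.N
67 .T (.N 522061 .T (.N 29 (.A [13, 43, 197, 211, 239, 281]) (.X 7))))))))) (.N
51972385872044569 (.N 2413981 .T (.N 2203 .T (.N 16843 .T (.N 125968529 (.A [13, 19, 29, 43])
(.A [13, 29, 43, 67, 71, 113, 197, 211]))))) (.N 29 (.N 13 (.N 2203 .T (.N 16843 .T (.N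
125968529 (.A [19, 61]) (.N 1273697697539 (.A [61, 67, 71, 113, 193, 197, 211, 701]) (.A [43,
61, 67, 71, 113]))))) (.N 5229043 (.N 2203 .T (.N 72577051 .T (.N 463 .T (.N 16843 .T (.N 197
(.A [19, 67]) (.X 7)))))) (.N 239 (.A [19, 67]) (.N 67 (.X 7) (.N 245561 (.N 175897 (.N 522061
.T (.N 43 .T (.X 7))) (.N 211 (.A [37, 71, 113]) (.X 7))) (.N 211 (.N 37 .T (.A [71, 113])) (.X
7))))))) (.N 88009573 (.N 320374117039 .T (.N 2203 .T (.N 16843 .T (.N 43 .T (.N 211 .T (.X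
7)))))) (.N 67 (.X 7) (.N 211 (.A [13, 37, 43, 71]) (.N 113 (.N 22807 (.A [13, 19]) (.X 7)) (.X
7)))))))) (.N 491 (.N 29 (.A [13, 37, 43, 67, 211]) (.N 37 (.N 6529 (.A [13, 43, 67, 211]) (.N
51972385872044569 (.A [13, 43, 67, 211]) (.N 211 (.A [13, 43, 67]) (.X 7)))) (.N 6529 (.A [13,
43, 71, 211]) (.N 51972385872044569 (.A [13, 43, 71, 211]) (.N 211 (.A [13, 43, 71]) (.N 239 (.N
379 (.A [19, 43, 61, 71, 787]) (.X 7)) (.X 7))))))) (.N 43 (.N 51972385872044569 (.N 13 .T (.N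
1051 .T (.N 5229043 .T (.N 211 .T (.X 7))))) (.N 29 (.N 67 (.X 7) (.N 175897 (.N 3304489 .T (.N
6679 .T (.N 197 (.A [13, 19]) (.X 7)))) (.A [13, 71, 127, 211, 239]))) (.N 211 (.N 37 .T (.A
[13, 71])) (.X 7)))) (.N 51972385872044569 (.N 239 (.A [13, 19, 29]) (.N 211 (.N 29 (.A [13, 37,
67]) (.X 7)) (.X 7))) (.N 211 (.N 29 (.A [13, 37, 67]) (.X 7)) (.X 7))))))

/-- a subtree -/
def tS_29 : Tr :=
(.N 31 (.N 331 (.N 7 .T (.N 5233 .T (.N 3718919 (.N 55993369423 .T (.N 463 .T (.A [13, 19, 29,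
71]))) (.N 705643 .T (.N 43 .T (.N 158341 .T (.N 5522944621250897 (.A [13, 19, 29]) (.N 5839 .T
(.X 7))))))))) (.N 2180921 tS_1 (.N 7 (.N 19 .T (.N 43 .T (.N 158341 .T (.N 6065221 .T (.N 29
(.A [13]) (.N 88009573 .T (.N 22807 .T (.N 1287750186827959 .T (.N 643567 .T (.N 52051567 .T (.N
10295614116572821 .T (.N 113 (.A [13]) (.N 44983 .T (.N 2857 .T (.N 72101 (.A [13]) (.N 2311 .T
(.X 29))))))))))))))))) tS_2))) (.N 917087137 (.N 4447 (.N 7 .T (.N 79 .T (.N 337 .T (.N 38047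
.T (.N 43 .T (.N 158341 .T (.N 38533987 .T (.N 29 (.A [13, 67, 113, 239, 281]) (.N 88009573 .T
(.N 113 (.A [13, 71, 239, 281, 491]) (.X 7))))))))))) (.N 857903378469374441 (.N 38047 (.N 7 .T
(.A [13, 19, 29, 43])) (.N 547 (.N 43 .T (.A [7, 13, 19, 71, 127, 163, 491])) (.A [7, 13, 19,
29, 43]))) (.N 7 (.N 38047 .T (.N 547 .T (.N 19 .T (.N 43 .T (.N 158341 .T (.N 38533987 .T (.N
29 (.A [13]) (.N 88009573 .T (.N 22807 .T (.N 1287750186827959 .T (.N 643567 .T (.N 52051567 .T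
(.N 113 (.A [13]) (.N 44983 .T (.N 2857 .T (.N 72101 (.A [13]) (.N 491 (.A [37, 71, 127, 211,
281, 379, 701, 2311, 5839, 6287]) (.N 1051 .T (.N 127 .T (.N 86353 .T (.X
29))))))))))))))))))))) (.N 38047 (.N 13 .T (.N 5229043 .T (.N 43 .T (.N 158341 .T (.N 38533987
.T (.N 29 (.A [67, 71, 113, 127, 239]) (.N 127 .T (.X 7)))))))) tS_3)))) (.N 7 tS_26 (.N 13441
(.N 37 (.N 1627693 .T (.N 67 .T (.N 522061 .T (.N 175897 .T (.N 43 .T (.N 158341 .T (.N 29 (.A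
[13, 71]) (.X 7)))))))) tS_27) tS_28))))

/-- a subtree -/
def tS_30 : Tr :=
(.N 7 (.N 337 .T (.N 19 .T (.N 43 .T (.N 158341 .T (.N 6065221 .T (.N 29 (.A [13, 67, 113]) (.N
88009573 .T (.N 22807 .T (.N 1287750186827959 .T (.N 643567 .T (.N 52051567 .T (.N
10295614116572821 .T (.N 113 (.A [13, 71]) (.N 44983 .T (.N 2857 .T (.N 34836924361 .T (.N 2311
.T (.X 29)))))))))))))))))) (.N 337 (.N 883 .T (.N 43 .T (.N 158341 .T (.N 3389 (.A [13, 19, 29,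
113, 193]) (.N 4621 .T (.N 379 .T (.X 7))))))) (.N 43 (.N 631 .T (.N 29 (.N 13 .T (.N 67 .T (.N
175897 .T (.N 127 .T (.N 86353 .T (.N 239 (.A [19]) (.X 7))))))) (.N 88009573 .T (.N 22807 .T
(.N 1287750186827959 .T (.X 7)))))) (.N 29 (.N 239 (.A [13, 19, 67]) (.N 245561 (.N 13 (.N
158341 .T (.N 59762587 .T (.N 3697 .T (.N 1009 .T (.X 7))))) (.N 59762587 (.N 158341 .T (.N
7303817719213 .T (.N 1009 .T (.X 7)))) (.N 3697 (.A [19, 67]) (.N 67 (.X 7) (.N 1839385378027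
(.N 175897 .T (.N 127 .T (.X 7))) (.N 5229043 (.N 1009 .T (.X 7)) (.X 7))))))) (.N 67 (.X 7) (.N
229237 (.N 175897 .T (.N 127 .T (.X 7))) (.N 3754507 (.N 127 .T (.X 7)) (.X 7)))))) (.N 88009573
(.N 158341 .T (.N 8059 .T (.N 56533 .T (.N 5839 .T (.X 7))))) (.N 71 (.N 22807 (.N 158341 .T (.N
113 (.A [13, 19]) (.X 7))) (.N 878160882719 (.N 239 (.A [13, 19]) (.X 7)) (.X 7))) (.N
878160882719 (.N 239 (.A [13, 19]) (.X 7)) (.X 7))))))))

/-- a subtree -/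
def tS_31 : Tr :=
(.N 3767 (.N 1543 (.A [13]) (.N 281 (.N 379 (.A [43, 61, 109, 197, 631, 701, 727, 787]) (.N 109
(.N 727 .T (.N 86353 .T (.N 571 .T (.X 29)))) (.N 113 (.A [13]) (.N 44983 (.A [13]) (.N 2857 (.A
[31, 43]) (.N 30941 (.A [43, 157, 197, 433, 631, 701, 727]) (.N 72101 (.A [13]) (.N 86353 (.N
727 .T (.N 43 .T (.N 9199 .T (.N 46663 .T (.N 154211 (.A [197, 229, 239, 631, 701]) (.N 11299 .T
(.N 631 .T (.N 158341 .T (.N 5113 .T (.N 3109 .T (.N 5839 .T (.N 96293 (.A [197, 239, 457, 701,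
827]) (.N 128341 .T (.N 6065221 .T (.X 29))))))))))))))) (.X 29))))))))) (.N 86353 (.N 5113 .T
(.N 43 .T (.N 113 (.A [13]) (.N 44983 .T (.N 2857 .T (.N 9199 .T (.N 46663 .T (.N 11299 .T (.N
631 .T (.N 158341 .T (.N 379 .T (.N 3109 .T (.N 5839 .T (.N 72101 (.A [13]) (.N 128341 .T (.X
29)))))))))))))))) (.X 29)))) (.N 281 (.N 109 (.N 727 .T (.N 86353 .T (.N 571 .T (.X 29)))) (.N
113 (.A [13]) (.N 44983 (.A [13]) (.N 2857 (.A [31, 43]) (.N 379 (.A [43, 61, 631]) (.N 72101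
(.A [13]) (.N 86353 (.N 727 .T (.N 43 .T (.N 8527 .T (.N 30941 (.A [157, 239, 433, 631, 701,
3109]) (.N 11299 .T (.N 631 .T (.N 158341 .T (.N 5113 .T (.N 3109 .T (.N 5839 .T (.N 128341 .T
(.N 6065221 .T (.X 29))))))))))))) (.X 29)))))))) (.N 86353 (.N 5113 .T (.N 14686393 .T (.N 43
.T (.N 3529 .T (.N 128341 .T (.X 29)))))) (.X 29))))

/-- a subtree -/
def tS_32 : Tr :=
(.N 88009573 (.N 5113 .T (.N 11299 .T (.N 14686393 .T (.N 43 .T (.N 3529 .T (.N 8059 .T (.N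
56533 .T (.N 6217 .T (.N 9857 (.A [13]) (.N 142759 .T (.N 113 (.A [13]) (.N 44983 .T (.N 2857 .T
(.N 127 .T (.N 86353 .T (.N 631 .T (.N 158341 .T (.N 379 .T (.N 5839 .T (.N 27259 .T (.N 2403521
(.A [13]) (.N 11579 (.A [13]) (.N 35281 .T (.N 72101 (.A [13]) (.N 128341 .T (.N 6065221 .T (.X
29))))))))))))))))))))))))))) (.N 22807 (.N 5113 .T (.N 79 .T (.N 337 .T (.A [43, 113, 127, 239,
281, 331, 349, 379, 631, 701, 743])))) (.N 6287 (.N 31 (.A [43, 127, 331, 379, 631, 701, 743,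
1327, 5113, 7547, 11299, 17333, 128341]) (.N 784841 (.A [43, 79, 127]) (.N 743 (.N 631 (.A [43,
127, 307, 379, 433, 701]) (.N 5113 (.N 11299 .T (.A [43, 127, 281, 379, 701, 1327])) (.A [43,
113, 127]))) (.A [43, 127, 281, 379, 631, 701, 1327])))) (.N 127 (.N 5113 .T (.N 11299 .T (.N
5419 .T (.N 43 .T (.N 113 (.A [13]) (.N 44983 .T (.N 2857 .T (.N 475483 .T (.N 516391 .T (.N 631
.T (.N 158341 .T (.N 379 .T (.N 3109 .T (.N 5839 .T (.N 72101 (.A [13]) (.N 128341 .T (.X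
29))))))))))))))))) (.N 784841 (.N 2083 (.A [13]) (.N 113 (.A [13]) (.N 44983 (.A [13]) (.N 2857
(.A [31, 43, 79]) (.N 72101 (.A [13]) (.N 281 (.A [43, 79, 109, 379, 631, 701, 727, 743, 3109,
5113]) (.X 29))))))) (.N 743 (.N 552793 (.N 5113 .T (.N 11299 .T (.N 12734119 .T (.N 86353 .T
(.X 29))))) (.N 86353 (.N 5113 .T (.N 11299 .T (.N 14686393 .T (.N 43 .T (.N 3529 .T (.N 128341
.T (.X 29))))))) (.X 29))) tS_31))))))

/-- a subtree -/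
def tS_33 : Tr :=
(.N 88009573 (.N 11299 .T (.N 21020917 .T (.N 1723 .T (.N 5503 .T (.N 883 .T (.N 3389 (.A [13])
(.N 43 .T (.N 8059 .T (.N 56533 .T (.N 6217 .T (.N 9857 (.A [13]) (.N 142759 .T (.N 113 (.A
[13]) (.N 44983 .T (.N 2857 .T (.N 127 .T (.N 86353 .T (.N 1667 (.A [13]) (.N 4621 .T (.N 631 .T
(.N 158341 .T (.N 379 .T (.N 5839 .T (.N 27259 .T (.N 35281 .T (.N 72101 (.A [13]) (.N 81439 .T
(.N 128341 .T (.X 29))))))))))))))))))))))))))))) (.N 22807 (.N 79 .T (.N 337 .T (.N 883 .T (.N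
3389 (.A [13]) (.N 43 .T (.N 158341 .T (.A [113, 127, 239, 281, 331, 349, 379, 631, 701])))))))
(.N 6287 (.N 31 (.A [43, 127, 331, 379, 631, 701, 743, 883, 1327]) (.N 784841 (.A [43, 79, 127])
(.N 743 (.N 552793 (.A [43, 127, 379, 421, 631, 701, 883, 1327]) (.N 631 (.A [43, 127, 307, 379,
433, 701]) (.N 11299 (.N 21020917 .T (.N 1723 .T (.A [43, 113, 127]))) (.A [43, 127, 281, 379,
701, 883])))) (.A [43, 127, 281, 379, 631, 701, 883])))) (.N 127 (.N 11299 .T (.N 5419 .T (.N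
883 .T (.N 3389 (.A [13]) (.N 128341 .T (.X 29)))))) (.N 784841 (.N 2083 (.A [13]) (.N 113 (.A
[13]) (.N 44983 (.A [13]) (.N 2857 (.A [31, 43, 79]) (.N 72101 (.A [13]) (.N 281 (.A [43, 79,
109, 379, 631, 701, 727, 743, 883]) (.X 29))))))) (.N 883 (.N 11299 .T (.N 86353 .T (.N 128341
.T (.X 29)))) (.N 3389 (.A [13]) (.N 86353 (.N 11299 .T (.N 21020917 .T (.N 1723 .T (.N 5503 .T
(.N 43 .T (.N 113 (.A [13]) (.N 44983 .T (.N 2857 .T (.N 1667 (.A [13]) (.N 4621 .T (.N 631 .T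
(.N 158341 .T (.N 379 .T (.N 3109 .T (.N 5839 .T (.N 72101 (.A [13]) (.N 81439 .T (.X
29)))))))))))))))))) (.X 29)))))))))

/-- a subtree -/
def tS_34 : Tr :=
(.N 743 (.N 552793 (.N 40111 .T (.N 86353 .T (.N 128341 .T (.X 29)))) (.N 86353 (.N 40111 .T (.N
43 .T (.N 113 (.A [13]) (.N 44983 .T (.N 2857 .T (.N 72101 (.A [13]) (.N 281 (.A [109, 337, 617,
631, 701, 727, 1327]) (.X 29)))))))) (.X 29))) (.N 3767 (.N 1543 (.A [13]) (.N 43933 (.A [43,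
61, 197, 281, 617, 631, 701, 757]) (.N 281 (.N 109 (.N 727 .T (.A [43, 113, 197, 571, 617])) (.A
[43, 113, 197, 617, 631, 701])) (.N 86353 (.N 40111 .T (.N 43 .T (.N 113 (.A [13]) (.N 44983 .T
(.N 2857 .T (.N 9199 .T (.N 46663 .T (.N 30941 (.A [157, 197, 337, 433, 617]) (.N 154211 (.A
[197, 229, 337, 617, 631, 701, 1327]) (.N 1327 .T (.N 631 .T (.N 158341 .T (.N 5113 .T (.N 617
(.A [97, 197]) (.N 337 .T (.N 5839 .T (.N 40237 .T (.N 72101 (.A [13]) (.N 128341 .T (.X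
29)))))))))))))))))))) (.X 29))))) (.N 281 (.N 40111 (.N 109 .T (.N 86353 .T (.N 128341 .T (.X
29)))) (.A [43, 109, 113, 337, 617, 631, 701, 727, 1327, 2129])) (.N 86353 (.N 40111 .T (.N 43
.T (.N 113 (.A [13]) (.N 44983 .T (.N 2857 .T (.N 8527 .T (.N 1327 .T (.N 631 .T (.N 158341 .T
(.N 5113 .T (.N 617 (.A [97, 337, 701]) (.N 3828931 .T (.N 337 .T (.N 36457 .T (.N 5839 .T (.N
40237 .T (.N 43933 .T (.N 72101 (.A [13]) (.N 128341 .T (.X 29)))))))))))))))))))) (.X 29)))))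

/-- a subtree -/
def tS_35 : Tr :=
(.N 76819 (.N 5113 .T (.N 2203 .T (.N 43 .T (.N 1051 .T (.N 113 (.A [13]) (.N 44983 .T (.N 2857
.T (.N 72101 (.A [13]) (.A [67, 127, 197, 281, 617, 631, 701]))))))))) (.N 127 (.N 5113 .T (.N
5419 .T (.N 43 .T (.N 1051 .T (.N 113 (.A [13]) (.N 44983 .T (.N 2857 .T (.N 72101 (.A [13]) (.N
128341 .T (.X 29)))))))))) (.N 784841 (.N 2083 (.A [13]) (.N 113 (.A [13]) (.N 44983 (.A [13])
(.N 631 (.A [43, 79, 239, 307, 433, 617, 701, 743, 1051]) (.N 617 (.A [43, 79, 97, 239]) (.N 79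
(.N 86353 .T (.N 1051 .T (.X 29))) (.A [43, 239, 281, 337, 701, 743]))))))) (.N 239 (.N 3019 (.A
[13]) (.N 11257 (.N 5113 .T (.N 86353 .T (.N 43 .T (.N 1051 .T (.N 128341 .T (.X 29)))))) (.N
1051 (.N 40111 .T (.N 368551 .T (.N 86353 .T (.N 43 .T (.N 113 (.A [13]) (.N 44983 .T (.N 96293
(.N 457 .T (.N 9883 .T (.N 2053 .T (.X 29)))) (.X 43)))))))) tS_34))) (.N 3754507 (.A [13]) (.N
245561 (.N 1009 (.A [37, 43, 617, 631, 701, 743, 1051]) (.N 86353 (.N 5113 .T (.N 43 .T (.N 1051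
.T (.N 128341 .T (.X 29))))) (.X 29))) (.N 1051 (.N 5113 .T (.N 86353 .T (.N 1093 .T (.X 29))))
(.N 86353 (.N 5113 .T (.N 43 .T (.N 1093 .T (.N 128341 .T (.X 29))))) (.X 29)))))))))

/-- a subtree -/
def tS_36 : Tr :=
(.N 211 (.A [13]) (.N 76819 (.N 5113 .T (.N 2203 .T (.N 43 .T (.N 1051 .T (.N 113 (.A [13]) (.N
44983 .T (.N 2857 .T (.N 72101 (.A [13]) (.A [67, 127, 197, 281, 617, 631, 701]))))))))) (.N
41233879 (.N 5113 .T (.N 43 .T (.N 1051 .T (.N 113 (.A [13]) (.N 44983 .T (.N 2857 .T (.N 72101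
(.A [13]) (.N 281 (.A [109, 127, 239, 241, 617, 631, 701, 727, 743]) (.X 29))))))))) (.N 127 (.N
5113 .T (.N 5419 .T (.N 43 .T (.N 1051 .T (.N 128341 .T (.X 29)))))) (.N 784841 (.N 2083 (.A
[13]) (.N 113 (.A [13]) (.N 44983 (.A [13]) (.N 743 (.N 552793 (.A [43, 79, 239, 379, 421, 617,
631, 701, 1051, 2857, 3109]) (.N 239 (.N 3019 (.A [13]) (.N 1051 (.N 79 .T (.A [43, 281, 337,
379, 617])) (.X 29))) (.X 29))) (.A [43, 79, 239, 281, 379, 617, 631, 701, 1051]))))) (.N 239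
(.N 3019 (.A [13]) (.N 11257 (.N 5113 .T (.N 86353 .T (.N 1051 .T (.X 29)))) (.N 1051 (.N 40111
.T (.N 368551 .T (.N 86353 .T (.N 128341 .T (.X 29))))) (.N 86353 (.N 40111 .T (.N 43 .T (.N 113
(.A [13]) (.N 44983 .T (.N 2857 .T (.N 72101 (.A [13]) (.N 281 (.A [109, 337, 379, 617, 631,
701, 727]) (.X 29)))))))) (.X 29))))) (.N 3754507 (.A [13]) (.N 86353 (.N 5113 .T (.N 43 .T (.N
1051 .T (.N 128341 .T (.X 29))))) (.X 29)))))))))

/-- a subtree -/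
def tS_37 : Tr :=
(.N 6287 (.N 31 (.N 5113 .T (.N 14686393 .T (.N 43 .T (.N 3529 .T (.N 2403521 (.A [13]) (.N 1051
.T (.N 113 (.A [13]) (.N 44983 .T (.N 2857 .T (.N 72101 (.A [13]) (.N 128341 .T (.X
29)))))))))))) (.N 917087137 (.N 5113 .T (.N 38047 .T (.N 43 .T (.N 1051 .T (.N 113 (.A [13])
(.N 44983 .T (.N 2857 .T (.N 72101 (.A [13]) (.N 127 .T (.N 86353 .T (.X 29))))))))))) (.N 13441
(.N 5113 .T (.A [37, 43, 113, 127, 617, 631, 701, 743, 1051, 1327])) (.N 211 (.A [13]) tS_35))))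
(.N 144341 (.N 31 (.N 5113 .T (.N 14686393 .T (.N 43 .T (.N 3529 .T (.N 2403521 (.A [13]) (.N
1051 .T (.N 128341 .T (.X 29)))))))) (.N 917087137 (.N 5113 .T (.N 38047 .T (.N 14686393 .T (.N
43 .T (.N 3529 .T (.N 2403521 (.A [13]) (.N 1051 .T (.N 547 .T (.X 29))))))))) (.N 13441 (.N
5113 .T (.A [37, 43, 113, 127, 617, 631, 701, 743, 1051, 3109])) tS_36))) (.N 127 (.N 5113 .T
(.N 5419 .T (.N 11299 .T (.N 43 .T (.N 1051 .T (.N 128341 .T (.X 29))))))) (.N 784841 (.N 2083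
(.A [13, 43]) (.N 113 (.A [13, 43]) (.N 44983 (.A [13, 43]) (.N 86353 (.N 79 .T (.N 337 .T (.N
43 .T (.N 2857 .T (.N 1051 .T (.N 2017 .T (.X 29))))))) (.X 29))))) (.N 1051 (.N 5113 .T (.N
11299 .T (.N 368551 .T (.N 86353 .T (.N 128341 .T (.X 29)))))) (.N 86353 (.N 5113 .T (.N
2485642321 .T (.N 43 .T (.N 113 (.A [13]) (.N 44983 .T (.N 2857 .T (.N 11299 .T (.N 631 .T (.N
158341 .T (.N 3109 .T (.N 5839 .T (.N 40237 .T (.N 72101 (.A [13]) (.N 128341 .T (.X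
29))))))))))))))) (.X 29)))))))

/-- a subtree -/
def tS_38 : Tr :=
(.N 13441 (.N 883 .T (.N 1627693 .T (.N 2003 (.A [37, 43, 103, 127, 379, 617, 631]) (.N 33601 .T
(.N 3389 (.A [13]) (.N 43 .T (.N 158341 .T (.A [37, 113, 127, 379, 617, 631])))))))) (.N 211 (.A
[13]) (.N 76819 (.N 13327 .T (.N 2203 .T (.N 43 .T (.A [67, 113, 127, 197, 617, 631, 701, 743,
883, 1051, 1327, 5839, 7547, 16843])))) (.N 127 (.N 883 .T (.N 5419 .T (.N 3389 (.A [13]) (.N 43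
.T (.N 158341 .T (.N 1051 .T (.N 128341 .T (.X 29)))))))) (.N 784841 (.N 2083 (.A [13]) (.N 113
(.A [13]) (.N 44983 (.A [13]) (.N 883 (.N 79 .T (.A [43, 239, 281, 337, 617, 631, 701, 743]))
(.A [43, 79, 239, 379, 617, 631, 701, 743, 1051, 1327, 2857, 3389, 7547, 17333, 20399, 86353,
96293, 128341]))))) (.N 239 (.N 3019 (.A [13]) (.N 11257 (.N 883 .T (.N 86353 .T (.N 3389 (.A
[13]) (.N 1051 .T (.X 29))))) (.N 883 (.N 40111 .T (.N 86353 .T (.N 43 .T (.N 1051 .T (.N 128341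
.T (.X 29)))))) (.N 3389 (.A [13]) (.N 1051 (.N 40111 .T (.N 86353 .T (.N 128341 .T (.X 29))))
(.N 86353 (.N 40111 .T (.N 43 .T (.N 379 .T (.X 43)))) (.X 29))))))) (.N 3754507 (.A [13]) (.N
245561 (.N 1009 (.A [37, 43, 617, 631, 701, 743, 883]) (.N 86353 (.N 883 .T (.N 3389 (.A [13])
(.N 1051 .T (.X 29)))) (.X 29))) (.N 883 (.N 86353 .T (.N 1051 .T (.X 29))) (.N 3389 (.A [13])
(.N 86353 (.N 43 .T (.N 158341 .T (.N 1093 .T (.N 1051 .T (.X 29))))) (.X 29))))))))))))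

/-- a subtree -/
def tS_39 : Tr :=
(.N 31 (.N 883 .T (.N 21020917 .T (.N 1723 .T (.N 5503 .T (.N 3389 (.A [13]) (.N 43 .T (.N 1051
.T (.N 128341 .T (.X 29))))))))) (.N 917087137 (.N 883 .T (.N 38047 .T (.N 3389 (.A [13]) (.N 43
.T (.N 158341 .T (.N 1051 .T (.N 547 .T (.X 29)))))))) (.N 13441 (.N 883 .T (.N 1627693 .T (.N
2003 (.A [37, 43, 103, 127, 379, 617, 631]) (.N 3389 (.A [13]) (.N 43 .T (.N 158341 .T (.A [37,
113, 127, 379, 617, 631]))))))) (.N 211 (.A [13]) (.N 76819 (.N 13327 .T (.N 2203 .T (.N 883 .T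
(.A [43, 67, 113, 127, 197, 379, 617, 631, 701, 743])))) (.N 127 (.N 883 .T (.N 5419 .T (.N 3389
(.A [13]) (.N 1051 .T (.X 29))))) (.N 784841 (.N 2083 (.A [13]) (.N 113 (.A [13]) (.N 44983 (.A
[13]) (.N 743 (.N 631 (.A [43, 79, 239, 307, 433, 617, 701, 883]) (.N 617 (.A [43, 79, 97, 239])
(.N 86353 (.N 79 .T (.A [43, 239, 281, 337, 701])) (.X 29)))) (.A [43, 79, 239, 281, 617, 631,
701, 883, 1051, 2857, 3109, 3767]))))) (.N 239 (.N 3019 (.A [13]) (.N 11257 (.N 883 .T (.N 86353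
.T (.N 1051 .T (.X 29)))) (.N 883 (.N 40111 .T (.N 86353 .T (.N 1051 .T (.X 29)))) (.N 3389 (.A
[13]) (.N 86353 (.N 40111 .T (.N 43 .T (.N 379 .T (.X 43)))) (.X 29)))))) (.N 3754507 (.A [13])
(.N 86353 (.N 883 .T (.N 3389 (.A [13]) (.N 1051 .T (.X 29)))) (.X 29)))))))))))

/-- a subtree -/
def tS_40 : Tr :=
(.N 22807 (.N 79 .T (.N 337 .T (.N 883 .T (.N 3389 (.A [13, 43]) (.N 43 .T (.N 158341 .T (.N
144341 (.A [31, 113, 127, 239, 281, 331, 349, 379, 617]) (.N 1051 .T (.N 113 (.A [13]) (.N 44983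
.T (.N 2857 .T (.N 127 .T (.N 86353 .T (.X 29)))))))))))))) (.N 6287 (.N 31 (.N 883 .T (.N 3389
(.A [13]) (.N 43 .T (.N 158341 .T (.N 1051 .T (.N 113 (.A [13]) (.N 44983 .T (.N 2857 .T (.N
72101 (.A [13]) (.N 128341 .T (.X 29))))))))))) (.N 917087137 (.N 883 .T (.N 38047 .T (.N 3389
(.A [13]) (.N 43 .T (.N 158341 .T (.N 1051 .T (.N 113 (.A [13]) (.N 44983 .T (.N 2857 .T (.N
72101 (.A [13]) (.N 547 .T (.X 29)))))))))))) tS_38)) (.N 144341 tS_39 (.N 127 (.N 5419 .T (.N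
11299 .T (.N 883 .T (.N 3389 (.A [13, 43]) (.N 1051 .T (.X 29)))))) (.N 784841 (.N 2083 (.A [13,
43]) (.N 113 (.A [13, 43]) (.N 44983 (.A [13, 43]) (.N 86353 (.N 79 .T (.N 337 .T (.N 883 .T (.N
3389 (.A [13]) (.N 1051 .T (.X 29)))))) (.X 29))))) (.N 883 (.N 11299 .T (.N 86353 .T (.N 1051
.T (.X 29)))) (.N 3389 (.A [13, 43]) (.N 86353 (.N 11299 .T (.N 43 .T (.N 158341 .T (.N 1051 .T
(.N 128341 .T (.X 29)))))) (.X 29)))))))))

/-- a subtree -/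
def tS_41 : Tr :=
(.N 491 (.N 6529 (.A [13, 37, 43]) (.N 211 (.A [13, 31, 37]) (.N 37 (.N 88009573 .T (.N 43 .T
(.N 158341 .T (.N 22807 .T (.N 6287 (.A [31, 67, 71, 113]) (.N 144341 (.A [31, 67, 71, 113]) (.N
11299 .T (.N 281 (.A [67, 71, 109, 113, 127, 379, 631, 701, 727, 743]) (.N 113 (.A [13]) (.N
44983 .T (.N 2857 .T (.N 127 .T (.N 86353 .T (.X 29)))))))))))))) (.N 71 (.N 144341 (.N 784841
(.A [31, 43, 79, 127]) (.N 631 (.A [31, 43, 127, 307, 379, 433, 701, 743]) (.N 5113 (.N 43 .T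
(.N 158341 .T (.A [31, 113, 127, 379]))) (.A [31, 43, 113, 127, 379])))) tS_32) (.N 144341 (.N
784841 (.A [31, 43, 79, 127]) (.N 743 (.N 631 (.A [31, 43, 127, 307, 379, 433, 701]) (.N 379 (.A
[31, 43, 61]) (.N 41233879 (.A [31, 43, 127, 241, 701, 883]) (.N 1497157061 (.A [31, 43, 103,
127]) (.N 45557 (.N 56263 (.N 16249 .T (.N 5419 .T (.N 43 .T (.A [31, 127, 701, 883, 997, 1009,
1499, 5839, 7547, 9277])))) (.A [31, 43, 127, 239, 701, 883])) (.N 31 (.A [43, 127, 331, 701,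
883, 2087]) (.N 2087 (.A [43, 61]) (.N 917087137 (.N 38047 .T (.N 21020917 .T (.A [43, 127, 547,
701, 883, 1723, 4447, 7547]))) (.N 88009573 (.N 21020917 .T (.N 1723 .T (.A [43, 113, 127])))
(.N 22807 (.A [43, 79, 127]) (.N 552793 (.A [43, 127, 421, 701, 883, 6287, 7547, 13441, 17333])
(.N 2483447 (.A [43, 127, 607, 701, 883, 1093, 6287, 7547]) (.N 6287 (.N 127 (.N 5419 .T (.N
1499 (.A [43, 199]) (.X 29))) (.N 86353 (.N 21020917 .T (.N 1723 .T (.A [43, 113]))) (.X 29)))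
(.N 7547 (.N 17333 (.N 128341 (.N 672127 .T (.X 29)) (.X 29)) (.X 29)) (.X 29))))))))))))))) (.A
[31, 43, 127, 281, 379, 631, 701, 883]))) tS_33))))) (.N 88009573 (.N 43 .T (.N 158341 .T (.N
8059 .T (.N 56533 .T (.N 142759 .T (.N 6217 .T (.N 9857 (.A [13, 113, 127, 197]) (.N 1051 .T (.N
113 (.A [13, 127, 197]) (.N 44983 .T (.N 2857 .T (.N 72101 (.A [13, 127, 197]) (.N 127 .T (.N
162709 .T (.N 86353 .T (.N 211 .T (.N 631 .T (.N 5839 .T (.N 27259 .T (.N 35281 .T (.N 40237 .T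
(.N 128341 .T (.N 6065221 .T (.X 29)))))))))))))))))))))))) (.N 71 (.N 22807 (.N 5113 .T (.N 79
.T (.N 337 .T (.N 43 .T (.N 144341 (.A [31, 113, 127, 239, 281, 331, 349, 617, 631, 701, 743])
(.N 1051 .T (.N 113 (.A [13]) (.N 44983 .T (.N 2857 .T (.N 127 .T (.N 86353 .T (.N 2017 .T (.X
29))))))))))))) tS_37) tS_40)))

/-- a subtree -/
def tS_42 : Tr :=
(.N 239 (.N 3019 (.A [13]) (.N 11257 (.N 5113 .T (.N 43 .T (.N 1051 .T (.N 113 (.A [13]) (.N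
44983 .T (.N 2857 .T (.N 72101 (.A [13]) (.N 281 (.A [109, 337, 379, 617, 631, 701, 727, 1327,
4789, 5741, 5839, 6679, 7547]) (.X 29))))))))) (.N 1051 (.N 40111 .T (.N 368551 .T (.N 709871
(.A [37, 43, 109]) (.N 4957 .T (.N 449 (.A [43, 97, 113, 127, 337, 379, 617]) (.N 43 .T (.N 113
(.A [13]) (.N 44983 .T (.N 2857 .T (.N 127 .T (.N 379 .T (.X 43)))))))))))) (.N 4582817 (.N 379
(.A [43, 61, 151, 157, 337, 617]) (.N 40237 (.A [43, 67, 151, 157, 337, 617, 631]) (.N 43933 (.A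
[43, 61, 151, 157, 337, 617]) (.N 151 (.N 40111 .T (.N 43 .T (.N 157 .T (.N 12503 (.A [113, 337,
617, 631, 701, 937, 1093, 1327, 2129]) (.A [113, 337, 617, 631, 701, 1093, 1327, 2003, 2129,
5113, 5741, 5839]))))) (.N 617 (.A [43, 97, 157, 337, 631, 701, 1327, 1499, 3931, 5113]) (.N
1499 (.N 161869 (.A [43, 103, 157, 199, 337]) (.N 1460747 (.A [43, 157, 163, 199, 337, 631, 701,
1327]) (.A [43, 113, 157, 199, 281]))) (.N 161869 (.A [43, 103, 113, 157]) (.X 29)))))))) (.N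
161869 (.N 40111 .T (.N 870031 .T (.N 43 .T (.N 1093 .T (.N 103 .T (.X 29)))))) (.N 7547 (.N
128341 (.N 40111 .T (.N 870031 .T (.N 1093 .T (.X 29)))) (.X 29)) (.X 29))))))) (.N 3754507 (.A
[13]) (.N 245561 (.N 1009 (.A [37, 43, 337, 379, 617, 631]) (.N 161869 (.N 103 .T (.X 29)) (.X
29))) (.N 229237 (.N 5113 .T (.N 43 .T (.N 1093 .T (.N 1051 .T (.X 29))))) (.N 379 (.A [43, 61,
127, 337, 617, 631, 701, 787, 911]) (.N 5657 (.A [43, 67, 127, 337, 617, 631, 701, 911, 1051,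
1093, 1327]) (.N 127 (.N 5113 .T (.N 5419 .T (.N 1051 .T (.X 29)))) (.N 86353 (.N 5113 .T (.N 43
.T (.N 1093 .T (.N 1051 .T (.X 29))))) (.X 29)))))))))

/-- a subtree -/
def tS_43 : Tr :=
(.N 197 (.N 2053 (.N 5113 .T (.N 43 .T (.N 157 .T (.N 1051 .T (.N 113 (.A [13]) (.N 44983 .T (.N
2857 .T (.N 72101 (.A [13]) (.N 281 (.A [109, 239, 379, 617, 631, 701]) (.N 128341 .T (.X
29))))))))))) (.N 3482179 (.N 367 .T (.N 43 .T (.N 233437 .T (.N 21407 (.A [13]) (.N 1051 .T (.N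
128341 .T (.X 29))))))) tS_42)) (.N 97847 (.A [13]) (.N 281 (.N 379 (.A [43, 61, 109, 239, 617,
631, 701, 727]) (.N 109 (.N 5113 .T (.N 2957767 .T (.A [43, 113, 127, 239, 571, 617, 631]))) (.N
113 (.A [13]) (.N 44983 (.A [13]) (.N 631 (.A [43, 239, 307, 433, 617, 701, 727, 1051, 1327])
(.N 617 (.A [43, 97, 239]) (.N 5741 (.A [43, 139, 239, 701, 727]) (.N 2957767 (.N 43 .T (.N 2857
.T (.N 1051 .T (.N 30941 (.A [157, 239, 433]) (.N 1327 .T (.N 3828931 .T (.A [127, 239])))))))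
(.A [43, 127, 239, 701, 727]))))))))) (.N 239 (.N 3019 (.A [13]) (.N 11257 (.N 5113 .T (.N
2957767 .T (.N 43 .T (.N 1051 .T (.N 128341 .T (.X 29)))))) (.N 1051 (.N 40111 .T (.N 2957767 .T
(.N 368551 .T (.N 43 .T (.N 113 (.A [13]) (.N 44983 .T (.N 2857 .T (.N 127 .T (.N 379 .T (.X
43)))))))))) (.N 7547 (.N 128341 (.N 40111 .T (.N 2957767 .T (.N 43 .T (.N 113 (.A [13]) (.N
44983 .T (.N 2857 .T (.N 72101 (.A [13]) (.X 29)))))))) (.X 29)) (.X 29))))) (.N 3754507 (.A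
[13]) (.N 1051 (.N 128341 .T (.X 29)) (.X 29)))))))

/-- a subtree -/
def tS_44 : Tr :=
(.N 31 (.N 5113 .T (.N 1287750186827959 .T (.N 36907193 (.A [37, 43, 113, 197, 211, 331, 379,
631]) (.N 43 .T (.N 643567 .T (.N 113 (.A [13]) (.N 44983 .T (.N 2857 .T (.N 72101 (.A [13]) (.N
211 .T (.N 331 .T (.N 1327 .T (.N 631 .T (.N 158341 .T (.N 3828931 .T (.N 281 (.A [109, 127,
197, 379, 547, 673, 701, 727]) (.N 547 .T (.X 29)))))))))))))))))) (.N 917087137 (.N 5113 .T (.N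
4447 .T (.N 38047 .T (.N 491 (.A [37, 43, 113, 127, 197, 379]) (.N 14686393 .T (.N 43 .T (.N
3529 .T (.N 2403521 (.A [13]) (.N 1051 .T (.N 113 (.A [13]) (.N 44983 .T (.N 2857 .T (.N 72101
(.A [13]) (.N 547 .T (.X 29))))))))))))))) (.N 13441 (.N 5113 .T (.N 1627693 .T (.N 2003 (.A
[37, 43, 103, 113, 197, 379]) (.N 1289 (.A [37, 43, 113, 127, 197, 379, 631]) (.N 43 .T (.A [37,
113, 197, 281, 379, 631, 701, 1327, 5741, 5839, 7547, 10627, 33601])))))) (.N 51972385872044569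
(.A [13]) (.N 211 (.A [13]) (.N 76819 (.N 5113 .T (.N 14686393 .T (.N 43 .T (.N 3529 .T (.N
2403521 (.A [13]) (.N 2203 .T (.N 113 (.A [13]) (.N 44983 .T (.N 2857 .T (.N 72101 (.A [13]) (.N
281 (.A [67, 109, 197, 379, 631, 701]) (.N 13327 .T (.X 29))))))))))))) (.N 491 (.N 37 (.A [43,
67, 197]) (.N 631 (.A [43, 197, 239, 307, 379, 433, 701]) (.N 5113 (.N 43 .T (.N 158341 .T (.A
[113, 197, 239]))) (.A [43, 113, 197, 239])))) tS_43)))))))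

/-- a subtree -/
def tS_45 : Tr :=
(.N 770565152440553 (.N 31 (.N 5113 .T (.N 86353 .T (.N 125287 .T (.X 29)))) (.N 917087137 (.N
5113 .T (.N 38047 .T (.N 491 (.A [37, 43, 113, 197, 379]) (.N 86353 .T (.N 547 .T (.X 29))))))
(.N 13441 (.N 5113 .T (.A [37, 43, 113, 197, 379, 631])) (.N 211 (.A [13]) (.N 76819 (.N 5113 .T
(.N 86353 .T (.N 13327 .T (.X 29)))) (.N 491 (.A [37, 43, 197, 239, 379]) (.N 197 (.N 2053 (.N
5113 .T (.N 86353 .T (.N 1051 .T (.X 29)))) (.N 86353 (.N 5113 .T (.N 3482179 .T (.N 43 .T (.N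
1051 .T (.N 125287 .T (.X 29)))))) (.X 29))) (.N 97847 (.A [13]) (.N 379 (.A [43, 61, 239, 281,
617, 631, 701, 787, 1051]) (.N 86353 (.N 5113 .T (.N 43 .T (.N 281 (.A [109, 113, 239, 617, 631,
701, 727]) (.N 1051 .T (.X 29))))) (.X 29))))))))))) (.N 197 (.N 2053 (.N 5113 .T (.N 86353 .T
(.N 128341 .T (.X 29)))) (.N 86353 (.N 5113 .T (.N 2485642321 .T (.N 3482179 .T (.N 337 .T (.N
43 .T (.N 113 (.A [13]) (.N 44983 .T (.N 2857 .T (.N 161869 .T (.N 72101 (.A [13]) (.X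
29))))))))))) (.X 29))) (.N 97847 (.A [13, 43]) (.N 86353 (.N 5113 .T (.N 14686393 .T (.N 43 .T
(.N 3529 .T (.N 128341 .T (.X 29)))))) (.X 29)))))

/-- a subtree -/
def tS_46 : Tr :=
(.N 2053 (.N 21020917 .T (.N 1723 .T (.N 5503 .T (.N 883 .T (.N 3389 (.A [13]) (.N 43 .T (.N 157
.T (.N 12503 (.A [113, 127, 239, 379, 617, 631, 701, 937, 1051, 1279, 1327, 1667]) (.A [113,
127, 239, 379, 617, 631, 701, 1051, 1279, 1327, 1667, 2003, 4621, 5741, 5839]))))))))) (.N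
3482179 (.N 367 .T (.N 883 .T (.N 3389 (.A [13]) (.N 43 .T (.N 233437 .T (.N 1051 .T (.X
29))))))) (.N 239 (.N 3019 (.A [13]) (.N 11257 (.N 883 .T (.N 3389 (.A [13]) (.N 43 .T (.N
158341 .T (.N 1051 .T (.N 128341 .T (.X 29))))))) (.N 883 (.N 40111 .T (.N 43 .T (.N 1051 .T (.N
113 (.A [13]) (.N 44983 .T (.N 2857 .T (.N 72101 (.A [13]) (.N 281 (.A [109, 337, 379, 617, 631,
701, 727, 1327]) (.X 29))))))))) (.N 3389 (.A [13]) (.N 1051 (.N 40111 .T (.N 368551 .T (.N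
709871 (.A [37, 43, 109]) (.N 4957 .T (.N 449 (.A [43, 97, 113, 127, 337, 379]) (.N 43 .T (.N
127 .T (.X 43)))))))) (.N 161869 (.N 103 .T (.X 29)) (.X 29))))))) (.N 3754507 (.A [13]) (.N
245561 (.N 1009 (.A [37, 43, 337, 379, 617, 631]) (.N 161869 (.N 103 .T (.X 29)) (.X 29))) (.N
229237 (.N 96043 .T (.N 1051 .T (.X 29))) (.N 379 (.A [43, 61, 127, 337, 617, 631, 701, 787,
883]) (.N 5657 (.A [43, 67, 127, 337, 617, 631, 701, 883, 911, 1051, 1093]) (.N 127 (.N 5419 .T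
(.N 1051 .T (.X 29))) (.N 86353 (.N 883 .T (.N 3389 (.A [13]) (.N 43 .T (.X 43)))) (.X
29)))))))))))

/-- a subtree -/
def tS_47 : Tr :=
(.N 917087137 (.N 21020917 .T (.N 1723 .T (.N 38047 .T (.N 491 (.A [37, 43, 113, 127, 197, 379])
(.N 5503 .T (.N 883 .T (.N 3389 (.A [13]) (.N 43 .T (.N 1051 .T (.N 113 (.A [13]) (.N 44983 .T
(.N 2857 .T (.N 72101 (.A [13]) (.N 547 .T (.X 29))))))))))))))) (.N 13441 (.N 21020917 .T (.N
1723 .T (.A [37, 43, 113, 127, 197, 379, 631]))) (.N 211 (.A [13]) (.N 76819 (.N 13327 .T (.N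
21020917 .T (.N 883 .T (.N 3389 (.A [13]) (.N 43 .T (.N 1723 .T (.N 5503 .T (.N 2203 .T (.N 113
(.A [13]) (.N 44983 .T (.N 2857 .T (.N 72101 (.A [13]) (.A [67, 127, 197, 281, 379, 631,
701]))))))))))))) (.N 491 (.N 37 (.A [43, 67, 197]) (.N 21020917 (.N 1513921 .T (.N 883 .T (.A
[43, 197, 239, 379, 617, 631, 701, 1327, 3389, 5741, 6529, 7547, 128341]))) (.A [43, 127, 197,
239, 379]))) (.N 197 tS_46 (.N 97847 (.A [13]) (.N 281 (.N 379 (.A [43, 61, 109, 239, 617, 631,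
701, 727]) (.N 109 (.N 727 .T (.N 2957767 .T (.A [43, 113, 127, 239, 571, 617, 631]))) (.N 113
(.A [13]) (.N 44983 (.A [13]) (.N 631 (.A [43, 239, 307, 433, 617, 701, 727, 883, 1051]) (.N 617
(.A [43, 97, 239]) (.N 5741 (.A [43, 139, 239, 701, 727]) (.N 21020917 (.N 2957767 .T (.A [43,
127, 239, 701, 727])) (.A [43, 127, 239, 701, 727]))))))))) (.N 239 (.N 3019 (.A [13]) (.N 11257
(.N 2957767 .T (.N 883 .T (.N 3389 (.A [13]) (.N 1051 .T (.X 29))))) (.N 883 (.N 40111 .T (.N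
2957767 .T (.N 43 .T (.N 1051 .T (.N 128341 .T (.X 29)))))) (.N 3389 (.A [13]) (.N 1051 (.N
128341 .T (.X 29)) (.X 29)))))) (.N 3754507 (.A [13]) (.N 1051 (.N 128341 .T (.X 29)) (.X
29))))))))))))

/-- a subtree -/
def tS_48 : Tr :=
(.N 127 (.N 5419 .T (.N 21020917 .T (.N 1723 .T (.N 5503 .T (.N 883 .T (.N 3389 (.A [13, 43])
(.N 128341 .T (.X 29)))))))) (.N 770565152440553 (.N 31 (.N 21020917 .T (.N 1723 .T (.N 5503 .T
(.N 86353 .T (.N 125287 .T (.X 29)))))) (.N 917087137 (.N 38047 .T (.N 86353 .T (.N 547 .T (.X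
29)))) (.N 13441 (.N 21020917 .T (.N 1723 .T (.A [37, 43, 113, 197, 379, 631]))) (.N 211 (.A
[13]) (.N 76819 (.N 13327 .T (.N 86353 .T (.X 29))) (.N 491 (.A [37, 43, 197, 239, 379]) (.N 197
(.N 2053 (.N 86353 .T (.N 1051 .T (.X 29))) (.N 86353 (.N 3482179 .T (.N 883 .T (.N 3389 (.A
[13]) (.N 1051 .T (.X 29))))) (.X 29))) (.N 97847 (.A [13]) (.N 379 (.A [43, 61, 239, 281, 617,
631, 701, 787, 883]) (.N 86353 (.N 883 .T (.N 3389 (.A [13]) (.N 1051 .T (.X 29)))) (.X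
29))))))))))) (.N 197 (.N 2053 (.N 21020917 .T (.N 1723 .T (.N 5503 .T (.N 86353 .T (.N 128341
.T (.X 29)))))) (.N 86353 (.N 2485642321 .T (.N 3482179 .T (.N 337 .T (.N 883 .T (.N 3389 (.A
[13, 43]) (.N 128341 .T (.X 29))))))) (.X 29))) (.N 97847 (.A [13, 43]) (.N 86353 (.N 21020917
.T (.N 1723 .T (.N 5503 .T (.N 883 .T (.N 3389 (.A [13, 43]) (.N 128341 .T (.X 29))))))) (.X
29))))))

/-- a subtree -/
def tS_49 : Tr :=
(.N 71 (.N 22807 (.N 5113 .T (.N 79 .T (.N 337 .T (.N 14686393 .T (.N 43 .T (.N 3529 .T (.N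
2403521 (.A [13]) (.N 113 (.A [13]) (.N 44983 .T (.N 2857 .T (.N 331 .T (.N 631 .T (.N 158341 .T
(.N 349 .T (.N 379 .T (.N 2017 .T (.N 5839 .T (.N 13004671 .T (.N 6705469 .T (.N 659 (.A [13])
(.N 109789 .T (.N 2311 .T (.X 29))))))))))))))))))))))) (.N 6287 tS_44 (.N 127 (.N 5113 .T (.N
5419 .T (.N 14686393 .T (.N 43 .T (.N 3529 .T (.N 128341 .T (.X 29))))))) tS_45))) (.N 22807 (.N
21020917 .T (.N 1723 .T (.N 79 .T (.N 337 .T (.N 5503 .T (.N 883 .T (.N 3389 (.A [13, 43]) (.N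
43 .T (.N 113 (.A [13]) (.N 44983 .T (.N 2857 .T (.N 127 .T (.N 86353 .T (.N 2017 .T (.X
29))))))))))))))) (.N 6287 (.N 31 (.N 21020917 .T (.N 1723 .T (.N 5503 .T (.N 883 .T (.N 3389
(.A [13]) (.N 43 .T (.N 113 (.A [13]) (.N 44983 .T (.N 2857 .T (.N 72101 (.A [13]) (.N 127 .T
(.N 86353 .T (.X 29))))))))))))) tS_47) tS_48)))

/-- a subtree -/
def tS_50 : Tr :=
(.N 121012813720289 (.N 670297 (.N 128341 .T (.N 1407376241059 .T (.N 817018003 .T (.N 5465323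
.T (.N 6217 .T (.N 409 .T (.N 6133 .T (.N 8910430376863 .T (.N 1597 .T (.N 43 .T (.N 158341 .T
(.N 29 (.A [13, 67, 113]) (.N 113 (.A [13, 67]) (.N 44983 .T (.N 2857 .T (.N 72101 (.A [13, 67])
(.N 127 .T (.N 162709 .T (.N 86353 .T (.N 67 .T (.N 175897 .T (.N 757 .T (.N 631 .T (.N 3823 .T
(.N 281 (.N 727 .T (.N 491 (.A [37, 71, 109, 239]) (.N 1051 .T (.X 29)))) (.X
29)))))))))))))))))))))))))) (.N 1407376241059 (.N 613 .T (.N 258785941 .T (.A [13, 29, 43, 71,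
631, 701, 743, 911]))) (.N 817018003 (.A [13, 29, 43, 67, 127]) (.N 29 (.A [13, 43, 67, 127])
tS_41)))) (.N 425363 (.N 109 (.N 571 .T (.N 127688149 .T (.A [13, 29, 43, 71]))) (.N 281 (.N 197
(.N 2053 (.N 128341 .T (.A [13, 29, 43, 113])) (.A [13, 29, 43, 113])) (.A [13, 29, 43, 113]))
(.A [13, 29, 43, 113]))) (.N 29 (.A [13, 43, 67, 197, 379]) (.N 88009573 (.N 43 .T (.N 158341 .T
(.N 8059 .T (.N 353091019 .T (.N 57037 .T (.N 2297 (.A [13, 113, 151, 197]) (.N 3697 .T (.N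
56533 .T (.N 142759 .T (.N 6217 .T (.N 9857 (.A [13, 113, 197, 199, 211]) (.N 27259 .T (.N 113
(.A [13, 197, 211, 379]) (.N 44983 .T (.N 2857 .T (.N 72101 (.A [13, 197, 211, 379]) (.N 211 .T
(.N 631 .T (.N 379 .T (.N 2143 .T (.N 5839 .T (.N 35281 .T (.N 13004671 .T (.N 6705469 .T (.N
659 (.A [13]) (.N 109789 .T (.N 2311 .T (.N 128341 .T (.N 6065221 .T (.X
29)))))))))))))))))))))))))))))) tS_49))))

/-- a subtree -/
def tS_51 : Tr :=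
(.N 2856449 (.N 1576951 (.N 5113 .T (.N 397 .T (.N 1287750186827959 .T (.N 337 .T (.N 919 .T (.N
3851 (.A [13, 31]) (.N 2311 .T (.X 29)))))))) (.N 211 (.A [13, 31]) (.N 41233879 (.N 5113 .T (.N
397 .T (.N 3130410513042149 (.A [31, 37, 43, 113, 127, 241]) (.N 1287750186827959 .T (.N
36907193 (.A [31, 37, 43, 113, 127, 241]) (.N 547 .T (.X 29))))))) (.N 3130410513042149 (.N 37
(.A [31, 43, 67, 379, 397, 631]) (.N 379 (.A [31, 43, 61, 397]) (.N 9872250674161 (.N 5113 .T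
(.N 397 .T (.A [31, 43, 113, 127]))) (.N 397 (.N 5113 .T (.A [31, 43, 113, 337, 449, 631, 701]))
(.A [31, 43, 127, 337, 449, 631, 701]))))) (.N 397 (.N 5113 .T (.N 1287750186827959 .T (.N
36907193 (.A [31, 37, 43, 113, 331, 379, 449, 631, 701]) (.N 14686393 .T (.N 43 .T (.N 3529 .T
(.N 547 .T (.X 29)))))))) (.N 927137 (.A [13, 31]) (.N 449 (.N 2083 (.A [13, 31]) (.X 29)) (.N
395128299497 (.A [13, 31]) (.N 11131 (.A [13, 31]) (.X 29)))))))))) (.N 35081903333 (.A [13,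
31]) (.N 5341551215113 (.A [13, 31]) (.N 3130410513042149 (.N 37 (.A [31, 43, 67, 197, 421, 631,
701, 1327]) (.N 31 (.N 5113 .T (.N 1287750186827959 .T (.A [43, 113, 197, 211, 331, 421, 631,
701]))) (.N 917087137 (.N 5113 .T (.N 4447 .T (.A [43, 113, 127, 197, 421, 631]))) (.N 101921
(.N 196159 (.N 5113 .T (.A [43, 73, 113, 197])) (.N 197 (.N 2053 (.N 5113 .T (.A [43, 113, 157,
421, 631, 701])) (.N 161869 (.N 103 .T (.X 29)) (.X 29))) (.N 97847 (.A [13]) (.N 281 (.A [43,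
109, 421, 491, 631, 701, 727]) (.X 29))))) (.N 197 (.N 2053 (.N 5113 .T (.A [43, 113, 157, 421,
631, 701])) (.N 161869 (.N 103 .T (.X 29)) (.X 29))) (.N 97847 (.A [13]) (.N 281 (.A [43, 109,
421, 491, 631, 701, 727]) (.X 29)))))))) (.N 197 (.N 2053 (.N 5113 .T (.N 1287750186827959 .T
(.N 2311 .T (.X 29)))) (.X 29)) (.X 29))))))

/-- a subtree -/
def tS_52 : Tr :=
(.N 211 (.A [13, 31]) (.N 41233879 (.N 5113 .T (.N 1287750186827959 .T (.N 14686393 .T (.N 43 .T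
(.N 3529 .T (.N 2403521 (.A [13, 113]) (.N 643567 .T (.N 52051567 .T (.N 113 (.A [13]) (.N 44983
.T (.N 2857 .T (.N 72101 (.A [13]) (.N 397 .T (.X 29)))))))))))))) (.N 3130410513042149 (.N 37
(.N 5113 .T (.N 1287750186827959 .T (.N 14686393 .T (.N 43 .T (.N 3529 .T (.N 2403521 (.A [13])
(.N 643567 .T (.N 113 (.A [13]) (.N 44983 .T (.N 2857 .T (.N 72101 (.A [13]) (.N 281 (.A [67,
109, 127, 379, 397, 631, 701, 727]) (.X 29))))))))))))) (.N 127 (.N 5113 .T (.N 5419 .T (.N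
1287750186827959 .T (.N 14686393 .T (.N 43 .T (.N 3529 .T (.N 397 .T (.X 29)))))))) (.N
770565152440553 (.N 631 (.A [31, 43, 307, 379, 397, 433, 701]) (.N 1497157061 (.A [31, 43, 103,
379]) (.N 5113 (.N 86353 .T (.X 29)) (.A [31, 43, 113, 379, 397])))) (.N 397 (.N 5113 .T (.A
[31, 43, 113, 379])) (.N 927137 (.A [13]) (.N 86353 (.N 5113 .T (.N 2485642321 .T (.N 14897 (.N
281 (.A [43, 61, 109, 113, 379, 631, 701]) (.X 29)) (.X 29)))) (.X 29))))))) (.N 449 (.N 2083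
(.A [13, 43]) (.N 397 (.N 97 .T (.N 1287750186827959 .T (.N 2311 .T (.X 29)))) (.X 29))) (.N
395128299497 (.A [13, 43]) (.N 11131 (.A [13, 43]) (.N 397 (.N 11971 .T (.X 29)) (.X 29))))))))

/-- a subtree -/
def tS_53 : Tr :=
(.N 2856449 (.N 1576951 (.N 21020917 .T (.N 1723 .T (.N 1287750186827959 .T (.N 337 .T (.N 883
.T (.N 5503 .T (.N 919 .T (.N 3851 (.A [13, 31]) (.N 3389 (.A [13, 31]) (.N 397 .T (.X
29))))))))))) (.N 211 (.A [13, 31]) (.N 41233879 (.N 21020917 .T (.N 1723 .T (.N 883 .T (.N 5503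
.T (.N 1287750186827959 .T (.N 36907193 (.A [31, 37, 43, 113, 127, 241]) (.N 3389 (.A [13, 31])
(.N 43 .T (.N 643567 .T (.N 31 .T (.N 113 (.A [13]) (.N 44983 .T (.N 2857 .T (.N 72101 (.A [13])
(.N 281 (.A [109, 127, 241, 379, 397, 547, 631, 673, 701, 727]) (.X 29)))))))))))))))) (.N
3130410513042149 (.N 37 (.A [31, 43, 67, 379, 397, 631]) (.N 379 (.A [31, 43, 61, 397]) (.N
9872250674161 (.N 21020917 .T (.N 883 .T (.A [31, 43, 127, 397, 421, 631, 701, 1327, 1723, 3389,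
13033]))) (.N 397 (.N 21020917 .T (.A [31, 43, 127, 337, 449, 631, 701])) (.A [31, 43, 127, 337,
449, 631, 701]))))) (.N 397 (.N 21020917 .T (.N 1723 .T (.N 5503 .T (.N 1287750186827959 .T (.N
36907193 (.A [31, 37, 43, 113, 127, 331]) (.N 883 .T (.N 3389 (.A [13, 31]) (.N 547 .T (.X
29))))))))) (.N 927137 (.A [13, 31]) (.N 449 (.N 2083 (.A [13, 31]) (.X 29)) (.N 395128299497
(.A [13, 31]) (.N 11131 (.A [13, 31]) (.X 29)))))))))) (.N 35081903333 (.A [13, 31]) (.N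
5341551215113 (.A [13, 31]) (.N 3130410513042149 (.N 37 (.A [31, 43, 67, 197, 421, 631, 701,
883]) (.N 31 (.N 21020917 .T (.N 883 .T (.A [43, 127, 197, 331, 379, 421, 631, 701, 1327,
1723]))) (.N 917087137 (.N 21020917 .T (.N 1723 .T (.A [43, 113, 127, 197, 421, 631]))) (.N
101921 (.N 196159 (.A [43, 73, 197, 421, 631, 701, 883, 1327]) (.N 197 (.N 2053 (.N 21020917 .T
(.A [43, 127, 157, 421, 631, 701, 883])) (.N 161869 (.N 103 .T (.X 29)) (.X 29))) (.N 97847 (.A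
[13]) (.N 281 (.A [43, 109, 421, 491, 631, 701, 727]) (.X 29))))) (.N 197 (.N 2053 (.N 21020917
.T (.A [43, 127, 157, 421, 631, 701, 883])) (.N 161869 (.N 103 .T (.X 29)) (.X 29))) (.N 97847
(.A [13]) (.N 281 (.A [43, 109, 421, 491, 631, 701, 727]) (.X 29)))))))) (.N 197 (.N 2053 (.N
21020917 .T (.N 1723 .T (.N 1287750186827959 .T (.N 2311 .T (.X 29))))) (.X 29)) (.X 29))))))

/-- a subtree -/
def tS_54 : Tr :=
(.N 3130410513042149 (.N 37 (.N 21020917 .T (.N 1723 .T (.N 5503 .T (.N 1287750186827959 .T (.N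
883 .T (.N 3389 (.A [13]) (.N 43 .T (.N 643567 .T (.N 113 (.A [13]) (.N 44983 .T (.N 2857 .T (.N
72101 (.A [13]) (.N 281 (.A [67, 109, 127, 379, 397, 631, 701]) (.X 29)))))))))))))) (.N 127 (.N
5419 .T (.N 21020917 .T (.N 1723 .T (.N 5503 .T (.N 1287750186827959 .T (.N 883 .T (.N 3389 (.A
[13]) (.N 397 .T (.X 29))))))))) (.N 770565152440553 (.N 631 (.A [31, 43, 307, 379, 397, 433,
701]) (.N 1497157061 (.A [31, 43, 103, 379]) (.N 379 (.A [31, 43, 61]) (.N 9872250674161 (.N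
86353 .T (.X 29)) (.A [31, 43, 337, 397, 449, 701]))))) (.N 883 (.N 21020917 .T (.N 1723 .T (.N
5503 .T (.N 1287750186827959 .T (.N 86353 .T (.N 397 .T (.X 29))))))) (.N 3389 (.A [13]) (.N
52777342829 (.A [13]) (.N 86353 (.N 2485642321 .T (.N 21020917 .T (.N 1723 .T (.N 5503 .T (.N 43
.T (.N 113 (.A [13]) (.N 44983 .T (.N 2857 .T (.N 60943 .T (.N 1667 (.A [13]) (.N 397 .T (.N
72101 (.A [13]) (.X 29))))))))))))) (.X 29)))))))) (.N 449 (.N 2083 (.A [13, 43]) (.N 397 (.N 97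
.T (.N 21020917 .T (.N 883 .T (.N 3389 (.A [13, 31]) (.X 29))))) (.X 29))) (.N 395128299497 (.A
[13, 43]) (.N 11131 (.A [13, 43]) (.N 397 (.N 11971 .T (.X 29)) (.X 29))))))

/-- a subtree -/
def tS_55 : Tr :=
(.N 71 (.N 22807 (.N 5113 .T (.N 79 .T (.N 337 .T (.N 14686393 .T (.N 43 .T (.N 3529 .T (.N
2403521 (.A [13]) (.N 113 (.A [13]) (.N 44983 .T (.N 2857 .T (.N 34836924361 .T (.N 127 .T (.N
86353 .T (.X 29)))))))))))))) (.N 6287 (.N 6301 (.A [13, 31]) tS_51) (.N 6301 (.A [13, 43, 127])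
(.N 2856449 (.N 1576951 (.N 5113 .T (.N 1287750186827959 .T (.N 337 .T (.N 919 .T (.N 3851 (.A
[13, 43, 113]) (.N 397 .T (.X 29))))))) tS_52) (.N 35081903333 (.A [13, 43, 127]) (.N
5341551215113 (.A [13, 43, 127]) (.N 3130410513042149 (.N 197 (.N 2053 (.N 5113 .T (.N
1287750186827959 .T (.N 2311 .T (.X 29)))) (.X 29)) (.X 29)) (.X 29)))))))) (.N 22807 (.N
21020917 .T (.N 1723 .T (.N 79 .T (.N 337 .T (.N 883 .T (.N 5503 .T (.N 3389 (.A [13, 43]) (.N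
43 .T (.N 113 (.A [13]) (.N 44983 .T (.N 2857 .T (.N 127 .T (.N 86353 .T (.N 2017 .T (.X
29))))))))))))))) (.N 6287 (.N 6301 (.A [13, 31]) tS_53) (.N 6301 (.A [13, 43, 127]) (.N 2856449
(.N 1576951 (.N 1287750186827959 .T (.N 337 .T (.N 883 .T (.N 21020917 .T (.N 1723 .T (.N 5503
.T (.N 919 .T (.N 3851 (.A [13, 43, 113]) (.N 397 .T (.X 29)))))))))) (.N 211 (.A [13, 31]) (.N
41233879 (.N 883 .T (.N 21020917 .T (.N 1723 .T (.N 5503 .T (.N 1287750186827959 .T (.N 3389 (.A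
[13, 43]) (.N 43 .T (.N 643567 .T (.N 113 (.A [13]) (.N 44983 .T (.N 2857 .T (.N 72101 (.A [13])
(.N 397 .T (.X 29)))))))))))))) tS_54))) (.N 35081903333 (.A [13, 43, 127]) (.N 5341551215113
(.A [13, 43, 127]) (.N 3130410513042149 (.N 197 (.N 2053 (.N 1287750186827959 .T (.N 2311 .T (.X
29))) (.X 29)) (.X 29)) (.X 29)))))))))

/-- a subtree -/
def tS_56 : Tr :=
(.N 19 (.N 127 .T (.N 86353 .T (.N 162709 .T (.N 43 .T (.N 158341 .T (.N 95281244588123623 .T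
(.N 11887 .T (.N 4974664068277009 .T (.N 55147 .T (.N 29 (.A [13, 67]) (.N 88009573 .T (.N 22807
.T (.N 113 (.A [13, 71]) (.N 44983 .T (.N 2857 .T (.N 5167 .T (.N 211 .T (.N 631 .T (.N 42463 .T
(.N 379 .T (.N 5839 .T (.N 72101 (.A [13]) (.N 6065221 .T (.X 29)))))))))))))))))))))))) (.N
70841 (.N 39103 (.N 128341 .T (.N 67411 .T (.N 7561 .T (.N 967 .T (.N 43 .T (.N 158341 .T (.N 29
(.A [13, 67, 71]) (.N 88009573 .T (.N 22807 .T (.N 1287750186827959 .T (.N 643567 .T (.N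
52051567 .T (.N 10295614116572821 .T (.N 113 (.A [13, 71]) (.N 44983 .T (.N 2857 .T (.N
34836924361 .T (.N 2311 .T (.X 29))))))))))))))))))) tS_50) (.N 29 (.N 67 (.A [13, 31]) (.N 13
(.N 175897 .T (.A [61, 71])) (.N 5229043 (.A [31]) (.N 175897 (.N 522061 .T (.A [43, 239, 631]))
(.A [71, 127, 239, 631, 701]))))) (.N 88009573 (.N 320374117039 .T (.N 43 .T (.N 158341 .T (.N
8059 .T (.N 56533 .T (.N 142759 .T (.N 353091019 .T (.N 57037 .T (.N 2297 (.A [13, 113, 151,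
197]) (.N 2649631150951 .T (.N 3697 .T (.N 6217 .T (.N 410561678773 .T (.N 9857 (.A [13, 113,
127, 197]) (.N 27259 .T (.N 113 (.A [13, 127, 197]) (.N 44983 .T (.N 2857 .T (.N 72101 (.A [13,
127, 197]) (.N 127 .T (.N 162709 .T (.N 86353 .T (.N 211 .T (.N 6301 .T (.N 1111867 .T (.N
140351 (.A [13]) (.X 29))))))))))))))))))))))))))) tS_55))))

/-- a subtree -/
def tS_57 : Tr :=
(.N 3304489 (.N 522061 .T (.N 109 .T (.N 53306107 .T (.N 139 .T (.N 43 .T (.N 2857 .T (.N 127 .T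
(.X 7)))))))) (.N 113 (.N 239 (.N 3019 (.N 522061 .T (.A [19, 43])) (.A [19, 71])) (.N 245561
(.N 59762587 (.N 522061 .T (.N 7303817719213 .T (.N 3754507 .T (.N 43 .T (.X 7))))) (.N 3697 (.N
522061 .T (.A [19, 43])) (.N 1839385378027 (.N 522061 .T (.N 3511 .T (.N 2767 .T (.N 3754507 .T
(.N 43 .T (.X 7)))))) (.N 3754507 (.N 522061 .T (.N 43 .T (.X 7))) (.N 1009 (.N 631 .T (.X 7))
(.X 7)))))) (.N 229237 (.N 522061 .T (.N 96043 .T (.N 3754507 .T (.N 43 .T (.X 7))))) (.N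
3754507 (.N 2137 .T (.N 41077 .T (.N 43 .T (.X 7)))) (.N 631 (.N 43 .T (.X 7)) (.X 7)))))) (.N
239 (.N 3019 (.N 522061 .T (.A [19, 43])) (.A [19, 71])) (.N 245561 (.N 59762587 (.N 522061 .T
(.N 7303817719213 .T (.N 43 .T (.X 7)))) (.N 3697 (.N 522061 .T (.A [19, 43])) (.N 1839385378027
(.N 116087167931930287 .T (.N 43 .T (.X 7))) (.N 1009 (.N 631 .T (.X 7)) (.X 7))))) (.N 229237
(.N 522061 .T (.N 43 .T (.X 7))) (.N 631 (.N 43 .T (.X 7)) (.X 7)))))))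

/-- a subtree -/
def tS_58 : Tr :=
(.N 5229043 (.N 72577051 (.N 65522613283 .T (.N 146777 (.A [31, 43, 67, 109, 113, 127]) (.A [31,
43, 67, 71, 113, 127]))) (.N 463 (.A [19, 31, 67]) (.N 71 (.N 31 (.N 5113 .T (.N 14686393 .T (.N
3529 .T (.N 2403521 (.A [43, 67, 113]) (.N 547 .T (.X 7)))))) (.N 917087137 (.N 4447 .T (.A [43,
67, 127])) (.N 13441 (.A [37, 67, 547, 631, 4051, 4733]) (.N 76819 (.N 5113 .T (.N 2203 .T (.N
16843 .T (.N 197 (.A [19]) (.X 7))))) (.A [43, 67, 211, 239]))))) (.N 31 (.N 21020917 .T (.N 127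
.T (.A [43, 67]))) (.N 917087137 (.N 883 .T (.A [43, 67, 379, 547, 631, 3389, 4051])) (.N 13441
(.A [37, 67, 547, 631, 883]) (.N 211 (.A [37, 67]) (.X 7)))))))) (.N 67 (.N 239 (.A [19, 31])
(.N 245561 (.N 59762587 (.N 7303817719213 .T (.N 631 .T (.X 7))) (.N 3697 (.A [19, 31]) (.N 1009
(.N 37 .T (.A [31, 71, 631])) (.X 7)))) (.N 631 (.N 1093 .T (.X 7)) (.X 7)))) (.N 175897 tS_57
(.N 239 (.A [19, 71, 127, 631]) (.N 245561 (.N 59762587 (.N 163 (.A [19, 71, 127]) (.N 3754507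
(.N 127 .T (.N 7303817719213 .T (.N 43 .T (.X 7)))) (.N 71 (.N 127 (.N 522061 .T (.N 43 .T (.X
7))) (.N 1009 (.A [37, 43]) (.X 7))) (.N 1009 (.N 127 .T (.X 7)) (.X 7))))) (.N 3697 (.A [19,
71, 127]) (.N 1839385378027 (.N 116087167931930287 (.A [19, 71, 127]) (.N 1009 (.A [37, 43, 71,
127, 631, 827]) (.X 7))) (.N 1009 (.N 9181 (.X 7) (.N 631 (.N 127 .T (.X 7)) (.X 7))) (.X 7)))))
(.N 229237 (.N 96043 (.N 127 .T (.A [31, 43, 71])) (.N 197 (.A [19, 71, 113]) (.N 789677071 (.N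
127 .T (.X 7)) (.X 7)))) (.N 631 (.N 433 (.A [37, 43, 71, 127]) (.N 1706822489 (.A [19, 43]) (.X
7))) (.X 7))))))))

/-- a subtree -/
def tS_59 : Tr :=
(.N 6287 (.N 31 (.N 331 (.N 5113 .T (.N 1287750186827959 .T (.N 43 .T (.X 7)))) (.N 1327 (.N
5113 .T (.N 1287750186827959 .T (.N 43 .T (.X 7)))) (.N 3828931 (.N 5113 .T (.N 1287750186827959
.T (.N 5347 .T (.N 14686393 .T (.N 43 .T (.X 7)))))) (.N 127 (.N 5113 .T (.N 5419 .T (.N 43 .T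
(.X 7)))) (.N 1427168974267 (.N 43 .T (.X 7)) (.X 7)))))) (.N 917087137 (.N 4447 (.N 5113 .T (.N
79 .T (.N 1287750186827959 .T (.N 43 .T (.X 7))))) (.N 857903378469374441 (.A [13, 19]) (.N
38047 (.N 43 .T (.X 7)) (.N 491 (.N 6529 (.A [13, 37, 43]) (.N 38533987 (.A [19, 37, 43, 127,
211, 241, 379, 547]) (.N 211 (.A [13, 37, 43]) (.N 412544161 (.A [13, 19]) (.X 7))))) (.N 617
(.N 3093060713 (.N 547 (.N 43 .T (.X 7)) (.X 7)) (.X 7)) (.X 7)))))) (.N 13441 (.N 37 (.N 43 .T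
(.X 7)) (.N 1327 (.N 43 .T (.X 7)) (.N 3828931 (.N 5113 .T (.N 1287750186827959 .T (.N 43 .T (.X
7)))) (.N 1427168974267 (.N 43 .T (.X 7)) (.X 7))))) (.N 211 (.A [13, 37, 43]) (.X 7))))) (.N
127 (.N 5419 (.N 5113 .T (.N 1287750186827959 .T (.N 43 .T (.X 7)))) (.N 211 (.A [13, 31, 37,
43]) (.X 7))) (.N 770565152440553 (.N 631 (.N 2483447 (.N 9296107 (.X 7) (.N 113 (.A [13, 31,
43, 307, 433, 607]) (.X 7))) (.X 7)) (.X 7)) (.X 7))))

/-- a subtree -/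
def tS_60 : Tr :=
(.N 71 (.N 22807 (.N 19 (.N 5113 .T (.N 79 .T (.N 337 .T (.N 14686393 .T (.N 43 .T (.N 113 (.A
[13]) (.X 7))))))) (.N 70841 (.N 39103 (.N 5113 .T (.N 79 .T (.N 337 .T (.N 7561 .T (.N 967 .T
(.N 43 .T (.X 7))))))) (.N 121012813720289 (.N 1407376241059 (.A [13, 43, 79]) (.N 817018003 (.A
[13, 43, 67]) (.N 491 (.N 6529 (.A [13, 37]) (.N 670297 (.A [37, 43, 67, 79, 127, 211, 331, 349,
379, 409, 631, 701]) (.N 144341 (.A [31, 37, 43, 79, 127, 211]) (.N 79 (.X 7) (.N 281 (.A [37,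
43, 109, 127, 211, 331, 337, 349, 379, 631, 701, 727]) (.N 211 (.A [13, 31]) (.X 7))))))) (.N 79
(.X 7) (.N 670297 (.N 5113 .T (.N 337 .T (.N 43 .T (.X 7)))) (.N 337 (.N 5113 .T (.N 883 .T (.N
43 .T (.X 7)))) (.N 144341 (.N 281 (.A [31, 43, 109, 127, 239, 331, 349, 617, 631]) (.X 7)) (.X
7)))))))) (.N 79 (.X 7) (.N 425363 (.A [13, 43]) (.N 379 (.N 43 .T (.X 7)) (.X 7)))))) (.N 6301
(.A [13, 43, 79]) (.N 79 (.X 7) (.N 2856449 (.N 397 (.N 5113 .T (.N 1576951 .T (.N 337 .T (.A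
[31, 43, 113, 211, 239, 281, 331, 349, 631, 701, 1289, 1699, 2017, 4733])))) (.N 927137 (.A [13,
43]) (.N 3130410513042149 (.N 281 (.N 109 (.X 7) (.A [37, 43, 113, 127, 331, 337, 349, 631,
701])) (.X 7)) (.X 7)))) (.N 35081903333 (.A [13, 43]) (.X 7))))))) tS_59) (.N 22807 (.N 19 (.N
79 .T (.N 337 .T (.N 883 .T (.N 43 .T (.X 7))))) (.N 70841 (.N 39103 (.N 21020917 .T (.N 1723 .T
(.N 43 .T (.X 7)))) (.N 79 (.X 7) (.N 281 (.N 109 (.N 43 .T (.X 7)) (.N 113 (.A [13]) (.N 44983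
(.A [13]) (.X 7)))) (.N 1289 (.N 631 (.N 43 .T (.X 7)) (.X 7)) (.X 7))))) (.N 79 (.X 7) (.N 6301
(.A [13, 43]) (.N 3130410513042149 (.N 281 (.N 109 (.X 7) (.N 113 (.A [13]) (.X 7))) (.X 7)) (.X
7)))))) (.N 6287 (.N 31 (.N 883 (.N 21020917 .T (.N 43 .T (.X 7))) (.N 3389 (.A [13, 19]) (.X
7))) (.N 917087137 (.N 4447 (.N 43 .T (.X 7)) (.N 857903378469374441 (.A [13, 19]) (.N 631 (.N
43 .T (.X 7)) (.X 7)))) (.N 13441 (.N 631 (.N 43 .T (.X 7)) (.X 7)) (.X 7)))) (.N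
770565152440553 (.N 631 (.N 2483447 (.N 9296107 (.X 7) (.N 113 (.A [13, 31, 43, 127, 307, 433,
607]) (.X 7))) (.X 7)) (.X 7)) (.X 7)))))

/-- a subtree -/
def tS_61 : Tr :=
(.N 29 (.N 13 (.N 67 (.N 31 .T (.N 917087137 .T (.N 13441 .T (.N 76819 .T (.A [43, 61, 211,
239]))))) (.N 175897 (.N 522061 .T (.N 3304489 .T (.N 43 .T (.N 61 .T (.N 52379047267 .T (.N
41203 .T (.N 3319 .T (.N 211 .T (.X 7))))))))) (.N 71 (.N 127 (.N 522061 .T (.N 5113 .T (.N 5419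
.T (.N 14686393 .T (.N 43 .T (.N 211 .T (.X 7))))))) (.N 61 (.N 5113 .T (.A [43, 97, 113])) (.N
631 (.N 5113 .T (.N 433 .T (.N 307 .T (.A [43, 113, 659, 743])))) (.N 1497157061 (.N 5113 (.N
86353 .T (.N 52379047267 .T (.N 43 .T (.X 7)))) (.A [43, 103, 113])) (.N 45557 (.A [37, 43]) (.N
6032531 (.N 37409 (.N 10753 (.N 43 .T (.X 7)) (.X 7)) (.X 7)) (.X 7))))))) (.N 127 (.N 522061 .T
(.N 5419 .T (.N 883 .T (.N 43 .T (.X 7))))) (.N 61 (.N 883 .T (.N 97 .T (.N 967 .T (.A [43, 211,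
379])))) (.N 883 (.N 21020917 .T (.N 1723 .T (.N 43 .T (.X 7)))) (.N 3389 (.A [19]) (.N
37571377505159 (.N 109 (.X 7) (.A [43, 113])) (.X 7))))))))) tS_58) (.N 88009573 (.N 8059 (.N
320374117039 .T (.N 43 .T (.N 158341 .T (.N 1111867 .T (.N 631 .T (.X 7)))))) (.N 56533 (.N
320374117039 .T (.N 6367 .T (.N 353091019 .T (.N 57037 .T (.N 491 (.A [13, 37, 43, 61, 71, 197,
211, 631, 2297]) (.N 912947897 (.A [13, 31, 43, 61, 71, 197, 211]) (.N 43 .T (.X 7)))))))) (.N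
142759 (.N 90397 .T (.N 337 .T (.N 223 .T (.N 6217 .T (.N 43 .T (.N 379 .T (.X 7))))))) (.N
35281 (.N 320374117039 .T (.N 353091019 .T (.N 244219 .T (.N 21379 .T (.N 43 .T (.X 7)))))) (.N
1392539 (.N 211 (.A [13, 31, 37, 43, 73]) (.N 6217 (.N 43 .T (.X 7)) (.X 7))) (.N 211 (.A [13,
31, 37, 43, 197, 631, 1933, 4733]) (.X 7))))))) tS_60))

/-- left tree -/
def tLS : Tr :=
tS_29

/-- right tree -/
def tRS : Tr :=
(.N 19531 (.N 127159831 (.N 7063513 .T (.N 4777787407 .T (.N 7 .T (.N 379 .T (.N 9872250674161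
.T (.N 337 .T (.N 1219891 .T (.N 1745143 .T (.N 43 .T (.X 7)))))))))) tS_30) (.N 7 tS_56 tS_61))

theorem okLS : ck 7 TS [] [5] 31 25 tLS = true := by decide +kernel

theorem okRS : ck 7 TS [5] [] (ph 7 5) (5 ^ (7 - 1)) tRS = true := by decide +kernel

end Pool.Agent.Lib.MP_c8748f_nt
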